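import Pool.Agent.H635R2.Statement
import Pool.Agent.H310R3.TopDefs

/-!
# N-compact and realcompact spaces in a structure for the language of set theory

The language `LSet` of set theory has one binary relation symbol. In a structure `M` for it,
`Mem x y` says that `x` is an element of `y` in the sense of `M`, and `El a` is the type of the
`x : M` that are elements of `a` in the sense of `M`. All sets, functions, sequences, topologies
and families below are elements of `M`. (`LSet`, `Mem`, `IsOrdPair`, `El`, `IsReals`, `IsOmega`,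
`App`, `IsFun`, `IsFinite`, `IsTopology` and `IsClosed` are from the imported files.)
-/

namespace Pool.Agent.R602St

open FirstOrder FirstOrder.Language
open Pool.Agent.Helper672.Plain (LSet Mem IsOrdPair El)
open Pool.Agent.H635Amen (IsReals)
open Pool.Agent.H310Cards
open Pool.Agent.H310Top (IsTopology IsClosed)

universe u

variable {M : Type u} [LSet.Structure M]

/-! ### Topological notions -/

/-- `u` is a clopen subset of the space `x` with topology `t`. -/
def IsClopen (t x u : M) : Prop := Mem u t ∧ ∃ v, Mem v t ∧ ∀ z, Mem z v ↔ Mem z x ∧ ¬ Mem z u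

/-- The space is zero-dimensional: the clopen sets are a base. -/
def IsZeroDim (t x : M) : Prop :=
  ∀ u z, Mem u t → Mem z u → ∃ c, IsClopen t x c ∧ Mem z c ∧ ∀ y, Mem y c → Mem y u

/-- The space is a `T₁`-space: for every point `z` the complement of `z` is open. -/
def IsT1 (t x : M) : Prop := ∀ z, Mem z x → ∃ u, Mem u t ∧ ∀ y, Mem y u ↔ Mem y x ∧ y ≠ z

/-- `t'` is the subspace topology on the subset `s` given by the topology `t`. -/
def IsSubTop (t' s t : M) : Prop :=
  ∀ u, Mem u t' ↔ ∃ v, Mem v t ∧ ∀ z, Mem z u ↔ Mem z v ∧ Mem z s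

/-- `a` is the intersection of a sequence `f` of clopen sets, indexed by the set `w` of the
natural numbers. -/
def IsCd (t x a : M) : Prop :=
  ∃ w s f, IsOmega w ∧ IsFun f w s ∧ (∀ n c, App f n c → IsClopen t x c) ∧
    ∀ z, Mem z a ↔ ∀ n c, App f n c → Mem z c

/-! ### Functions -/

/-- The function `f` is in the model: the set of the pairs `(y, f y)` is an element of `M`. -/
def InM {a b : M} (f : El a → El b) : Prop :=
  ∃ g, ∀ (y : El a) (z : El b), f y = z ↔ ∃ p, IsOrdPair p y.1 z.1 ∧ Mem p g

/-- The function `f` of two variables is in the model: the set of the pairs `((y, i), f y i)` is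
an element of `M`. -/
def InM₂ {a b c : M} (f : El a → El b → El c) : Prop :=
  ∃ g, ∀ (y : El a) (i : El b) (z : El c),
    f y i = z ↔ ∃ p q, IsOrdPair p y.1 i.1 ∧ IsOrdPair q p z.1 ∧ Mem q g

/-- `f` is a continuous function from the space `x` with topology `t` to the field `r`, and it is
in the model. -/
def IsCts (t : M) {x r : M} [Field (El r)] [LinearOrder (El r)] (f : El x → El r) : Prop :=
  InM f ∧ ∀ (y : El x) (ε : El r), 0 < ε →
    ∃ u, Mem u t ∧ Mem y.1 u ∧ ∀ z : El x, Mem z.1 u → |f z - f y| < ε

/-- `z` is a zero-set of the space `x` with topology `t`: the set of the zeros of a continuous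
function with values in the field `r`. -/
def IsZeroSet (r : M) [Field (El r)] [LinearOrder (El r)] (t x z : M) : Prop :=
  ∃ f : El x → El r, IsCts t f ∧ ∀ y, Mem y z ↔ ∃ h : Mem y x, f ⟨y, h⟩ = 0

/-- The space is a Tychonoff space: a `T₁`-space in which every closed set `c` and every point `y`
outside of `c` are separated by a continuous function with values in the interval `[0, 1]`. -/
def IsTychonoff (r : M) [Field (El r)] [LinearOrder (El r)] (t x : M) : Prop :=
  IsT1 t x ∧ ∀ (y : El x) (c : M), IsClosed t x c → ¬ Mem y.1 c →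
    ∃ f : El x → El r, IsCts t f ∧ (∀ z, 0 ≤ f z ∧ f z ≤ 1) ∧ f y = 0 ∧ ∀ z, Mem z.1 c → f z = 1

/-! ### Closed subspaces of powers -/

/-- The function `e` is in the model, and `y ↦ e y` is a homeomorphism from the space `x` with
topology `t` to a closed subspace of the power of the discrete space `w` with exponent `j`: it is
injective, `t` is the topology given by `e` and the product topology, and every point `φ` of the
power in the closure of the range of `e` is in the range of `e`. -/
structure IsClosedEmb₀ (t : M) {x j w : M} (e : El x → El j → El w) : Prop where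
  graph : InM₂ e
  inj : ∀ y z, e y = e z → y = z
  top : ∀ u, Mem u t ↔ (∀ z, Mem z u → Mem z x) ∧ ∀ y : El x, Mem y.1 u →
    ∃ s, IsFinite s ∧ (∀ i, Mem i s → Mem i j) ∧
      ∀ z : El x, (∀ i : El j, Mem i.1 s → e z i = e y i) → Mem z.1 u
  closed : ∀ φ : El j → El w, InM φ → (∀ s, IsFinite s → (∀ i, Mem i s → Mem i j) →
    ∃ z : El x, ∀ i : El j, Mem i.1 s → e z i = φ i) → ∃ z : El x, e z = φ

/-- The same for the power of the field `r` with its order topology. -/
structure IsClosedEmb (t : M) {x j r : M} [Field (El r)] [LinearOrder (El r)]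
    (e : El x → El j → El r) : Prop where
  graph : InM₂ e
  inj : ∀ y z, e y = e z → y = z
  top : ∀ u, Mem u t ↔ (∀ z, Mem z u → Mem z x) ∧ ∀ y : El x, Mem y.1 u →
    ∃ s, IsFinite s ∧ (∀ i, Mem i s → Mem i j) ∧ ∃ ε : El r, 0 < ε ∧
      ∀ z : El x, (∀ i : El j, Mem i.1 s → |e z i - e y i| < ε) → Mem z.1 u
  closed : ∀ φ : El j → El r, InM φ → (∀ s, IsFinite s → (∀ i, Mem i s → Mem i j) →
    ∀ ε : El r, 0 < ε → ∃ z : El x, ∀ i : El j, Mem i.1 s → |e z i - φ i| < ε) →
      ∃ z : El x, e z = φ

/-- The space is N-compact: it is homeomorphic to a closed subspace of the power of the discrete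
space of the natural numbers of the model with a nonempty exponent `j`. -/
def IsNCompact (t x : M) : Prop :=
  ∃ (w j : M) (e : El x → El j → El w), IsOmega w ∧ (∃ i, Mem i j) ∧ IsClosedEmb₀ t e

/-- The space is realcompact: it is homeomorphic to a closed subspace of a power of `r`, the
field of the real numbers of the model. -/
def IsRealcompact (r : M) [Field (El r)] [LinearOrder (El r)] (t x : M) : Prop :=
  ∃ (j : M) (e : El x → El j → El r), IsClosedEmb t e

/-! ### Embedded subspaces -/

/-- Every intersection of a sequence of clopen subsets of the subspace `s` is the trace of an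
intersection of a sequence of clopen subsets of `x`. -/
def IsCdEmbedded (t x s : M) : Prop :=
  ∀ t', IsSubTop t' s t → ∀ a, IsCd t' s a → ∃ b, IsCd t x b ∧ ∀ z, Mem z a ↔ Mem z b ∧ Mem z s

/-- Every clopen subset of the subspace `s` is the trace of a clopen subset of `x`; that is, every
continuous map from `s` to the two point discrete space extends to `x`. -/
def IsTwoEmbedded (t x s : M) : Prop :=
  ∀ t', IsSubTop t' s t → ∀ a, IsClopen t' s a →
    ∃ b, IsClopen t x b ∧ ∀ z, Mem z a ↔ Mem z b ∧ Mem z s

/-- Every zero-set of the subspace `s` is the trace of a zero-set of `x`. -/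
def IsZEmbedded (r : M) [Field (El r)] [LinearOrder (El r)] (t x s : M) : Prop :=
  ∀ t', IsSubTop t' s t → ∀ a, IsZeroSet r t' s a →
    ∃ b, IsZeroSet r t x b ∧ ∀ z, Mem z a ↔ Mem z b ∧ Mem z s

/-- `x` is the union of a sequence `f` of subsets with the property `P`, indexed by the set `w` of
the natural numbers. -/
def IsSeqUnion (x : M) (P : M → Prop) : Prop :=
  ∃ w s f, IsOmega w ∧ IsFun f w s ∧ (∀ n a, App f n a → P a) ∧
    ∀ z, Mem z x ↔ ∃ n a, App f n a ∧ Mem z a

/-! ### Filters -/

/-- `F` is a filter in the family of the sets with the property `P`. -/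
structure IsFilterIn (P : M → Prop) (F : M) : Prop where
  sub : ∀ a, Mem a F → P a
  nonempty : ∃ a, Mem a F
  pos : ∀ a, Mem a F → ∃ z, Mem z a
  inter : ∀ a b c, Mem a F → Mem b F → (∀ z, Mem z c ↔ Mem z a ∧ Mem z b) → Mem c F
  up : ∀ a b, Mem a F → P b → (∀ z, Mem z a → Mem z b) → Mem b F

/-- `F` is a maximal filter in the family of the sets with the property `P`. -/
def IsUltrafilterIn (P : M → Prop) (F : M) : Prop :=
  IsFilterIn P F ∧ ∀ G, IsFilterIn P G → (∀ a, Mem a F → Mem a G) → ∀ a, Mem a G → Mem a F

/-- `F` has the countable intersection property: every sequence of elements of `F` has a nonempty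
intersection. -/
def HasCip (F : M) : Prop :=
  ∀ w f, IsOmega w → IsFun f w F → ∃ z, ∀ n a, App f n a → Mem z a

/-- The intersection of `F` is not empty. -/
def IsFixed (F : M) : Prop := ∃ z, ∀ a, Mem a F → Mem z a

/-! ### Baire sets -/

/-- `S` is a σ-algebra of subsets of `x`. -/
structure IsSigmaAlgebra (S x : M) : Prop where
  sub : ∀ a, Mem a S → ∀ z, Mem z a → Mem z x
  univ : Mem x S
  compl : ∀ a b, Mem a S → (∀ z, Mem z b ↔ Mem z x ∧ ¬ Mem z a) → Mem b S
  union : ∀ w f b, IsOmega w → IsFun f w S → (∀ z, Mem z b ↔ ∃ n a, App f n a ∧ Mem z a) → Mem b S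

/-- `b` is a Baire set of the space `x` with topology `t`: an element of every σ-algebra of
subsets of `x` that contains all zero-sets. -/
def IsBaireSet (r : M) [Field (El r)] [LinearOrder (El r)] (t x b : M) : Prop :=
  (∀ z, Mem z b → Mem z x) ∧
    ∀ S, IsSigmaAlgebra S x → (∀ a, IsZeroSet r t x a → Mem a S) → Mem b S

/-- Countable multiple choice: for every sequence `f` of nonempty sets there is a sequence `g` of
finite nonempty subsets. -/
def CMC (M : Type u) [LSet.Structure M] : Prop :=
  ∀ w s f : M, IsOmega w → IsFun f w s → (∀ n a, App f n a → ∃ z, Mem z a) →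
    ∃ s' g, IsFun g w s' ∧ ∀ n a b, App f n a → App g n b →
      IsFinite b ∧ (∃ z, Mem z b) ∧ ∀ z, Mem z b → Mem z a

/-! ### The topology with the zero-sets as a base -/

/-- `t'` is the set of all subsets `u` of `x` such that every point of `u` is in a zero-set that is
contained in `u`. -/
def IsZTop (r : M) [Field (El r)] [LinearOrder (El r)] (t' t x : M) : Prop :=
  ∀ u, Mem u t' ↔ (∀ z, Mem z u → Mem z x) ∧ ∀ y, Mem y u →
    ∃ a, IsZeroSet r t x a ∧ Mem y a ∧ ∀ z, Mem z a → Mem z u

/-- The space has countable pseudocharacter: for every point `y` there is a sequence of open sets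
whose intersection is `{y}`. -/
def HasCountablePseudocharacter (t x : M) : Prop :=
  ∀ y, Mem y x → ∃ w s f, IsOmega w ∧ IsFun f w s ∧ (∀ n u, App f n u → Mem u t) ∧
    ∀ z, (∀ n u, App f n u → Mem z u) ↔ z = y

/-- The topology `t` on `x` is discrete: all subsets of `x` are open. -/
def IsDiscrete (t x : M) : Prop := ∀ u, (∀ z, Mem z u → Mem z x) → Mem u t

end Pool.Agent.R602St
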