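import Pool.Agent.W924.Br1
import Pool.Agent.R602.Defs


/-!
# From models of set theory to internal types: sequences, finite sets, functions
-/

set_option maxHeartbeats 1000000
set_option linter.all false
set_option synthInstance.maxSize 2000

namespace Pool.Agent.R602

open FirstOrder FirstOrder.Language
open Pool.Agent.Helper672.ZFA
open Pool.Agent.H310
open Pool.Agent.H310Cards
open Pool.Agent.W924
open Pool.Agent.H635Amen (IsReals)
open Pool.Agent.R602St

universe u u₁ u₂

section

attribute [local instance] Helper672.Plain.toL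

variable {N : Type u} [Helper672.Plain.LSet.Structure N] [hZ : Helper672.Plain.Zermelo N]

local instance instModelR : IsModel N := Helper672.Plain.isModel_toL

variable {X : Type u₁} [ITy N X] {Y : Type u₂} [ITy N Y]

theorem mem_cd {U : IPow N X} {z : N} : Mem z (code (M := N) U) ↔ ∃ a, a ∈ U ∧ code a = z :=
  mem_code_pow (s := U)

theorem mem_cd' {U : IPow N X} {a : X} : Mem (code a) (code (M := N) U) ↔ a ∈ U :=
  mem_code_iff (M := N) (α := X) (s := U) (a := a)

/-- Sets of codes are codes of sets. -/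
theorem exists_cdp {u : N} (h : ∀ z, Mem z u → ∃ a : X, code a = z) :
    ∃ U : IPow N X, code U = u := by
  have hs : Int N (fun a : X => Mem (code a) u) := ⟨u, fun a => Iff.rfl⟩
  refine ⟨⟨_, hs⟩, extM fun t => ?_⟩
  refine (mem_code_pow (s := (⟨_, hs⟩ : IPow N X))).trans ⟨?_, fun ht => ?_⟩
  · rintro ⟨a, ha, rfl⟩
    exact ha
  · obtain ⟨a, rfl⟩ := h t ht
    exact ⟨a, ht, rfl⟩

theorem exists_sub {P : IPow N X} {u : N} (h : ∀ z, Mem z u → Mem z (code (M := N) P)) :
    ∃ U : IPow N X, code U = u ∧ ∀ a, a ∈ U → a ∈ P := by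
  obtain ⟨U, rfl⟩ := exists_cdp (X := X) (u := u) fun z hz => by
    obtain ⟨a, -, h1⟩ := mem_cd.1 (h z hz)
    exact ⟨a, h1⟩
  exact ⟨U, rfl, fun a ha => mem_cd'.1 (h _ (mem_cd'.2 ha))⟩

theorem cd_inj {U V : IPow N X} (h : (code U : N) = code V) : U = V := ITy.inj h

/-! ### Finite sets -/

theorem isFinite_iff {U : IPow N X} : IsFinite (code (M := N) U) ↔ IFin U := by
  constructor
  · intro h
    have h1 : FinP N (fun x : X => x ∈ U) := finP_of_finite (p := fun x : X => x ∈ U)
      (Int.mem IntF.id (IntF.const _)) (t := code (M := N) U) (fun z => mem_cd) h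
    obtain ⟨s, hs, h2⟩ := h1
    exact hs.subset h2
  · intro h
    obtain ⟨e, n, h1, h2, h3⟩ := exists_BN (M := N) h
    have hg : Int N (fun q : X × INat N => q.1 ∈ U ∧ e q.1 = q.2) := by ((repeat' (first | with_reducible exact IntF.id | with_reducible exact IntF.fst' | with_reducible exact IntF.snd' | with_reducible exact IntF.const _ | with_reducible exact Int.const _ | assumption | with_reducible apply Int.and | with_reducible apply Int.or | with_reducible apply Int.not | with_reducible apply Int.imp | with_reducible apply Int.iff | with_reducible apply Int.ne | with_reducible apply Int.eq | with_reducible apply Int.mem | with_reducible apply Int.subset | with_reducible apply Int.ltN | with_reducible apply Int.leN | with_reducible_and_instances apply Int.le | with_reducible_and_instances apply Int.lt | with_reducible apply Int.all | with_reducible apply Int.ex | with_reducible apply IntF.fst | with_reducible apply IntF.snd | with_reducible apply IntF.app | with_reducible apply IntF.inl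 | with_reducible apply IntF.inr | with_reducible_and_instances apply IntF.mul | with_reducible_and_instances apply IntF.inv | with_reducible_and_instances apply IntF.add | with_reducible_and_instances apply IntF.sub | with_reducible_and_instances apply IntF.neg | with_reducible_and_instances apply IntF.smul | with_reducible apply Int.fin | with_reducible apply IntF.sep | with_reducible apply IntF.lam | with_reducible apply IntF.insert | with_reducible apply IntF.singleton | with_reducible apply IntF.union | with_reducible apply IntF.iimage | with_reducible apply IntF.ite | with_reducible apply IntF.the | with_reducible apply IntF.irec | with_reducible apply IntF.succ | with_reducible apply IntF.val | with_reducible apply IntF.mk | (with_reducible refine Int.comp ?_ ?_; assumption) | (with_reducible refine Int.comp₂ ?_ ?_ ?_; assumption) | (with_reducible refine Int.comp₃ ?_ ?_ ?_ ?_; assumption) | (with_reducible refine Int.comp₄ ?_ ?_ ?_ ?_ ?_; assumption) | (with_reducible refine IntF.comp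 ?_ ?_; assumption) | (with_reducible refine IntF.comp₂ ?_ ?_ ?_; assumption) | (with_reducible refine IntF.comp₃ ?_ ?_ ?_ ?_; assumption) | with_reducible apply IntF.pair)))
    have happ : ∀ x y : N, App (code (M := N) (⟨_, hg⟩ : IPow N (X × INat N))) x y ↔
        ∃ (a : X) (k : INat N), a ∈ U ∧ e a = k ∧ code a = x ∧ code k = y := by
      intro x y
      rw [app_iff, mem_cd]
      constructor
      · rintro ⟨⟨a, k⟩, ⟨h4, h5⟩, h6⟩
        obtain ⟨h7, h8⟩ := op_inj h6
        exact ⟨a, k, h4, h5, h7, h8⟩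
      · rintro ⟨a, k, h4, h5, rfl, rfl⟩
        exact ⟨(a, k), ⟨h4, h5⟩, rfl⟩
    refine ⟨n.val, code (M := N) (⟨_, hg⟩ : IPow N (X × INat N)), val_isNat n,
      ⟨⟨fun q hq => ?_, fun x hx => ?_⟩, fun x x' y h4 h5 => ?_⟩, fun y hy => ?_⟩
    · obtain ⟨⟨a, k⟩, ⟨h4, h5⟩, rfl⟩ := mem_cd.1 hq
      have h5' : e a = k := h5
      refine ⟨code a, code k, mem_cd'.2 h4, ?_, ordPair_iff.2 rfl⟩
      rw [← h5']
      exact h1 a h4
    · obtain ⟨a, ha, rfl⟩ := mem_cd.1 hx
      refine ⟨code (e a), (happ _ _).2 ⟨a, e a, ha, rfl, rfl, rfl⟩, fun y hy => ?_⟩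
      obtain ⟨b, k, h4, h5, h6, h7⟩ := (happ _ _).1 hy
      rw [← h7, ← h5, ITy.inj h6]
    · obtain ⟨a, k, h6, h7, rfl, rfl⟩ := (happ _ _).1 h4
      obtain ⟨b, l, h8, h9, rfl, h10⟩ := (happ _ _).1 h5
      have h11 : l = k := ITy.inj h10
      rw [h2 a b h6 h8 (by rw [h7, h9, h11])]
    · obtain ⟨m, hm, rfl⟩ := mem_nat (n := n) hy
      obtain ⟨a, ha, h4⟩ := h3 m hm
      exact ⟨code a, (happ _ _).2 ⟨a, m, ha, h4, rfl, rfl⟩⟩

/-! ### The natural numbers -/

theorem isOmega_dom : IsOmega (dom N (INat N)) := by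
  intro n
  constructor
  · intro h
    obtain ⟨m, rfl⟩ := mem_dom.1 (show Mem n (dom N (INat N)) from h)
    exact val_isNat m
  · intro h
    obtain ⟨m, rfl⟩ := exists_val h
    exact code_mem_dom (M := N) m

/-! ### Sequences -/

theorem isFun_of {f a b b' : N} (h : IsFun f a b) (h' : ∀ x y, App f x y → Mem y b') :
    IsFun f a b' := by
  refine ⟨fun q hq => ?_, h.2⟩
  obtain ⟨x, y, h1, h2, h3⟩ := h.1 q hq
  exact ⟨x, y, h1, h' x y ⟨q, h3, hq⟩, h3⟩

/-- Sequences of codes. -/
theorem exists_seq {w s f : N} (hw : IsOmega w) (hf : IsFun f w s)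
    (h : ∀ n c, App f n c → ∃ y : Y, code y = c) :
    ∃ C : IFun N (INat N) Y, ∀ n c, App f n c ↔ ∃ m : INat N, code m = n ∧ code (C m) = c := by
  have hf' : IsFun f w (dom N Y) := isFun_of hf fun x y hxy => by
    obtain ⟨y, rfl⟩ := h x y hxy
    exact code_mem_dom (M := N) y
  obtain ⟨φ, h1, h2⟩ := exists_fun (α := INat N) (β := Y) hf'
    (fun n => (mem_omega hw).2 ⟨n, rfl⟩) fun z hz => mem_dom.1 hz
  refine ⟨⟨φ, h1⟩, fun n c => ⟨fun hnc => ?_, ?_⟩⟩
  · obtain ⟨q, h3, h4⟩ := hnc
    obtain ⟨x', y', h5, h6, h7⟩ := hf.1 q h4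
    obtain ⟨rfl, rfl⟩ := op_inj ((ordPair_iff.1 h3).symm.trans (ordPair_iff.1 h7))
    obtain ⟨m, rfl⟩ := (mem_omega hw).1 h5
    obtain ⟨y, rfl⟩ := h _ _ ⟨q, h3, h4⟩
    exact ⟨m, rfl, congrArg code ((h2 m y).2 ⟨q, h3, h4⟩)⟩
  · rintro ⟨m, rfl, rfl⟩
    exact (h2 m (φ m)).1 rfl

theorem isFun_seq (C : IFun N (INat N) Y) {w s : N} (hw : IsOmega w)
    (hs : ∀ n, Mem (code (M := N) (C n)) s) : IsFun (code (M := N) C) w s :=
  isFun_code C (fun z => mem_omega hw) hs

/-! ### Functions to elements of the model -/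

/-- Points of a set. -/
noncomputable def pt {P : IPow N X} (z : EL (code (M := N) P)) : X := (mem_cd.1 z.2).choose

theorem pt_mem {P : IPow N X} (z : EL (code (M := N) P)) : pt z ∈ P :=
  (mem_cd.1 z.2).choose_spec.1

theorem code_pt {P : IPow N X} (z : EL (code (M := N) P)) : code (pt z) = z.1 :=
  (mem_cd.1 z.2).choose_spec.2

/-- The point given by an element. -/
noncomputable def mk {P : IPow N X} (y : X) (h : y ∈ P) : EL (code (M := N) P) :=
  ⟨code y, mem_cd'.2 h⟩

theorem pt_mk {P : IPow N X} (y : X) (h : y ∈ P) : pt (mk y h) = y := ITy.inj (code_pt (mk y h))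

theorem mk_pt {P : IPow N X} (z : EL (code (M := N) P)) : mk (pt z) (pt_mem z) = z :=
  Subtype.ext (code_pt z)

theorem mem_pt {P U : IPow N X} (z : EL (code (M := N) P)) :
    Mem z.1 (code (M := N) U) ↔ pt z ∈ U := by
  rw [← code_pt z]
  exact mem_cd'

theorem inM_of {P : IPow N X} {b : N} {F : X → EL b} (hF : IntF N F) :
    InM (fun z : EL (code (M := N) P) => F (pt z)) := by
  obtain ⟨g, hg⟩ := hF
  refine ⟨g, fun y z => ?_⟩
  refine Iff.trans ?_ graph_iff.symm
  rw [← code_pt y]
  exact (hg (pt y, z)).symm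

theorem of_inM {P : IPow N X} {b : N} {f : EL (code (M := N) P) → EL b} (h : InM f) (d : EL b) :
    ∃ F : X → EL b, IntF N F ∧ ∀ z, f z = F (pt z) := by
  obtain ⟨g, hg⟩ := h
  have hr : Int N (fun q : X × EL b => Mem (code q) g) := ⟨g, fun _ => Iff.rfl⟩
  refine ⟨fun y => the (fun c : EL b => Mem (code (y, c)) g) d, IntF.the hr (IntF.const _),
    fun z => ?_⟩
  have h1 : ∀ c : EL b, Mem (code (pt z, c)) g ↔ f z = c := fun c => by
    refine Iff.trans ?_ ((hg z c).trans graph_iff).symm
    rw [← code_pt z]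
    exact Iff.rfl
  exact (the_eq ⟨f z, (h1 _).2 rfl, fun c hc => ((h1 c).1 hc).symm⟩ ((h1 _).2 rfl)).symm

theorem inM₂_of {P : IPow N X} {b : N} {F : X × Y → EL b} (hF : IntF N F)
    (dj : EL (dom N Y) → Y) (hdj : ∀ i, code (dj i) = i.1) :
    InM₂ (fun (z : EL (code (M := N) P)) (i : EL (dom N Y)) => F (pt z, dj i)) := by
  obtain ⟨g, hg⟩ := hF
  refine ⟨g, fun y i z => ?_⟩
  refine Iff.trans ?_ opGraph_iff.symm
  rw [← code_pt y, ← hdj i]
  exact (hg ((pt y, dj i), z)).symm

theorem of_inM₂ {P : IPow N X} {j b : N} {f : EL (code (M := N) P) → EL j → EL b} (h : InM₂ f)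
    (d : EL b) : ∃ F : X × EL j → EL b, IntF N F ∧ ∀ z i, f z i = F (pt z, i) := by
  obtain ⟨g, hg⟩ := h
  have hr : Int N (fun q : (X × EL j) × EL b => Mem (code q) g) := ⟨g, fun _ => Iff.rfl⟩
  refine ⟨fun y => the (fun c : EL b => Mem (code (y, c)) g) d, IntF.the hr (IntF.const _),
    fun z i => ?_⟩
  have h1 : ∀ c : EL b, Mem (code ((pt z, i), c)) g ↔ f z i = c := fun c => by
    refine Iff.trans ?_ ((hg z i c).trans opGraph_iff).symm
    rw [← code_pt z]
    exact Iff.rfl
  exact (the_eq ⟨f z i, (h1 _).2 rfl, fun c hc => ((h1 c).1 hc).symm⟩ ((h1 _).2 rfl)).symm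

theorem exists_dj (N : Type u) [Helper672.Plain.LSet.Structure N] [hZ : Helper672.Plain.Zermelo N]
    (Y : Type u₂) [ITy N Y] : ∃ (dj : EL (dom N Y) → Y) (jd : Y → EL (dom N Y)),
      (∀ i, code (dj i) = i.1) ∧ (∀ y, (jd y).1 = code y) ∧ (∀ y, dj (jd y) = y) ∧
        ∀ i, jd (dj i) = i := by
  have h1 : ∀ i : EL (dom N Y), ∃ y : Y, code y = i.1 := fun i => mem_dom.1 i.2
  choose dj hdj using h1
  refine ⟨dj, fun y => ⟨code y, code_mem_dom (M := N) y⟩, hdj, fun y => rfl, fun y => ?_,
    fun i => ?_⟩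
  · exact ITy.inj (hdj _)
  · exact Subtype.ext (hdj i)

end

end Pool.Agent.R602
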