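import Pool.Agent.R602.Sp5

/-!
# Tails, ultrafilters, Baire sets, countable pseudocharacter
-/

set_option maxHeartbeats 1000000
set_option linter.all false
set_option synthInstance.maxSize 2000

namespace Pool.Agent.Helper672.ZFA.R602

open FirstOrder FirstOrder.Language
open Pool.Agent.Helper672.ZFA.H310M.R602 (BD)
open Pool.Agent.H310 (FinP finP_le finP_lt icompl mem_icompl icompl_icompl pr int_pr pr_inj)

universe u

variable {N : Type u} [L.Structure N] [hN : IsModel N] {A : Type u} [ITy N A] {S : BD N A}

theorem int_inter' {α : Type u} [ITy N α] : IntF N (fun q : IPow N α × IPow N α => q.1 ∩ q.2) := by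
  have h5 : ∀ q : IPow N α × IPow N α, q.1 ∩ q.2 = sep N fun z => z ∈ q.1 ∧ z ∈ q.2 :=
    fun q => IPow.ext' fun z => by rw [mem_inter, mem_sep (by ((repeat' (first | with_reducible exact IntF.id | with_reducible exact IntF.fst' | with_reducible exact IntF.snd' | with_reducible exact IntF.const _ | with_reducible exact Int.const _ | assumption | with_reducible apply Int.and | with_reducible apply Int.or | with_reducible apply Int.not | with_reducible apply Int.imp | with_reducible apply Int.iff | with_reducible apply Int.ne | with_reducible apply Int.eq | with_reducible apply Int.mem | with_reducible apply Int.subset | with_reducible apply Int.ltN | with_reducible apply Int.leN | with_reducible_and_instances apply Int.le | with_reducible_and_instances apply Int.lt | with_reducible apply Int.all | with_reducible apply Int.ex | with_reducible apply IntF.fst | with_reducible apply IntF.snd | with_reducible apply IntF.app | with_reducible apply IntF.inl | with_reducible apply IntF.inr | with_reducible_and_instances apply IntF.mul | with_reducible_and_instances apply IntF.inv | with_reducible_and_instances apply IntF.add | with_reducible_and_instances apply IntF.sub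 | with_reducible_and_instances apply IntF.neg | with_reducible_and_instances apply IntF.smul | with_reducible apply Int.fin | with_reducible apply IntF.sep | with_reducible apply IntF.lam | with_reducible apply IntF.insert | with_reducible apply IntF.singleton | with_reducible apply IntF.union | with_reducible apply IntF.iimage | with_reducible apply IntF.ite | with_reducible apply IntF.the | with_reducible apply IntF.irec | with_reducible apply IntF.succ | with_reducible apply IntF.val | with_reducible apply IntF.mk | (with_reducible refine Int.comp ?_ ?_; assumption) | (with_reducible refine Int.comp₂ ?_ ?_ ?_; assumption) | (with_reducible refine Int.comp₃ ?_ ?_ ?_ ?_; assumption) | (with_reducible refine Int.comp₄ ?_ ?_ ?_ ?_ ?_; assumption) | (with_reducible refine IntF.comp ?_ ?_; assumption) | (with_reducible refine IntF.comp₂ ?_ ?_ ?_; assumption) | (with_reducible refine IntF.comp₃ ?_ ?_ ?_ ?_; assumption) | with_reducible apply IntF.pair))))]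
  have h6 : IntF N (fun q : IPow N α × IPow N α => sep N fun z => z ∈ q.1 ∧ z ∈ q.2) := by
    ((repeat' (first | with_reducible exact IntF.id | with_reducible exact IntF.fst' | with_reducible exact IntF.snd' | with_reducible exact IntF.const _ | with_reducible exact Int.const _ | assumption | with_reducible apply Int.and | with_reducible apply Int.or | with_reducible apply Int.not | with_reducible apply Int.imp | with_reducible apply Int.iff | with_reducible apply Int.ne | with_reducible apply Int.eq | with_reducible apply Int.mem | with_reducible apply Int.subset | with_reducible apply Int.ltN | with_reducible apply Int.leN | with_reducible_and_instances apply Int.le | with_reducible_and_instances apply Int.lt | with_reducible apply Int.all | with_reducible apply Int.ex | with_reducible apply IntF.fst | with_reducible apply IntF.snd | with_reducible apply IntF.app | with_reducible apply IntF.inl | with_reducible apply IntF.inr | with_reducible_and_instances apply IntF.mul | with_reducible_and_instances apply IntF.inv | with_reducible_and_instances apply IntF.add | with_reducible_and_instances apply IntF.sub | with_reducible_and_instances apply IntF.neg |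 with_reducible_and_instances apply IntF.smul | with_reducible apply Int.fin | with_reducible apply IntF.sep | with_reducible apply IntF.lam | with_reducible apply IntF.insert | with_reducible apply IntF.singleton | with_reducible apply IntF.union | with_reducible apply IntF.iimage | with_reducible apply IntF.ite | with_reducible apply IntF.the | with_reducible apply IntF.irec | with_reducible apply IntF.succ | with_reducible apply IntF.val | with_reducible apply IntF.mk | (with_reducible refine Int.comp ?_ ?_; assumption) | (with_reducible refine Int.comp₂ ?_ ?_ ?_; assumption) | (with_reducible refine Int.comp₃ ?_ ?_ ?_ ?_; assumption) | (with_reducible refine Int.comp₄ ?_ ?_ ?_ ?_ ?_; assumption) | (with_reducible refine IntF.comp ?_ ?_; assumption) | (with_reducible refine IntF.comp₂ ?_ ?_ ?_; assumption) | (with_reducible refine IntF.comp₃ ?_ ?_ ?_ ?_; assumption) | with_reducible apply IntF.pair)))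
  have h7 : (fun q : IPow N α × IPow N α => q.1 ∩ q.2) = fun q => sep N fun z =>
      z ∈ q.1 ∧ z ∈ q.2 := funext h5
  rw [h7]
  exact h6

/-- The tails with the first end point. -/
def zz (m : INat N) (y : YY S) : Prop :=
  (∃ e, y = Sum.inl e ∧ m < lv e) ∨ ∃ k, y = Sum.inr k ∧ (k = 0 ∨ m < k)

theorem int_zz : Int N (fun q : INat N × YY S => zz q.1 q.2) := by
  have h := int_lv (S := S)
  unfold zz
  ((repeat' (first | with_reducible exact IntF.id | with_reducible exact IntF.fst' | with_reducible exact IntF.snd' | with_reducible exact IntF.const _ | with_reducible exact Int.const _ | assumption | with_reducible apply Int.and | with_reducible apply Int.or | with_reducible apply Int.not | with_reducible apply Int.imp | with_reducible apply Int.iff | with_reducible apply Int.ne | with_reducible apply Int.eq | with_reducible apply Int.mem | with_reducible apply Int.subset | with_reducible apply Int.ltN | with_reducible apply Int.leN | with_reducible_and_instances apply Int.le | with_reducible_and_instances apply Int.lt | with_reducible apply Int.all | with_reducible apply Int.ex | with_reducible apply IntF.fst | with_reducible apply IntF.snd | with_reducible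 apply IntF.app | with_reducible apply IntF.inl | with_reducible apply IntF.inr | with_reducible_and_instances apply IntF.mul | with_reducible_and_instances apply IntF.inv | with_reducible_and_instances apply IntF.add | with_reducible_and_instances apply IntF.sub | with_reducible_and_instances apply IntF.neg | with_reducible_and_instances apply IntF.smul | with_reducible apply Int.fin | with_reducible apply IntF.sep | with_reducible apply IntF.lam | with_reducible apply IntF.insert | with_reducible apply IntF.singleton | with_reducible apply IntF.union | with_reducible apply IntF.iimage | with_reducible apply IntF.ite | with_reducible apply IntF.the | with_reducible apply IntF.irec | with_reducible apply IntF.succ | with_reducible apply IntF.val | with_reducible apply IntF.mk | (with_reducible refine Int.comp ?_ ?_; assumption) | (with_reducible refine Int.comp₂ ?_ ?_ ?_; assumption) | (with_reducible refine Int.comp₃ ?_ ?_ ?_ ?_; assumption) | (with_reducible refine Int.comp₄ ?_ ?_ ?_ ?_ ?_; assumption) | (with_reducible refine IntF.comp ?_ ?_; assumption) | (with_reducible refine IntF.comp₂ ?_ ?_ ?_; assumption) | (with_reducible refine IntF.comp₃ ?_ ?_ ?_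 ?_; assumption) | with_reducible apply IntF.pair)))

theorem zz_inl {m : INat N} {e : EE S} : zz m (Sum.inl e : YY S) ↔ m < lv e := by
  simp [zz]

theorem zz_inr {m k : INat N} : zz m (Sum.inr k : YY S) ↔ k = 0 ∨ m < k := by
  simp [zz]

theorem int_cts {en : A → INat N} (h : IntF N en) (m : INat N) :
    IntF N (fun j => cts S en m j) := by
  have h1 := int_ct (S := S) h
  unfold cts
  ((repeat' (first | with_reducible exact IntF.id | with_reducible exact IntF.fst' | with_reducible exact IntF.snd' | with_reducible exact IntF.const _ | with_reducible exact Int.const _ | assumption | with_reducible apply Int.and | with_reducible apply Int.or | with_reducible apply Int.not | with_reducible apply Int.imp | with_reducible apply Int.iff | with_reducible apply Int.ne | with_reducible apply Int.eq | with_reducible apply Int.mem | with_reducible apply Int.subset | with_reducible apply Int.ltN | with_reducible apply Int.leN | with_reducible_and_instances apply Int.le | with_reducible_and_instances apply Int.lt | with_reducible apply Int.all | with_reducible apply Int.ex | with_reducible apply IntF.fst | with_reducible apply IntF.snd | with_reducible apply IntF.app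 | with_reducible apply IntF.inl | with_reducible apply IntF.inr | with_reducible_and_instances apply IntF.mul | with_reducible_and_instances apply IntF.inv | with_reducible_and_instances apply IntF.add | with_reducible_and_instances apply IntF.sub | with_reducible_and_instances apply IntF.neg | with_reducible_and_instances apply IntF.smul | with_reducible apply Int.fin | with_reducible apply IntF.sep | with_reducible apply IntF.lam | with_reducible apply IntF.insert | with_reducible apply IntF.singleton | with_reducible apply IntF.union | with_reducible apply IntF.iimage | with_reducible apply IntF.ite | with_reducible apply IntF.the | with_reducible apply IntF.irec | with_reducible apply IntF.succ | with_reducible apply IntF.val | with_reducible apply IntF.mk | (with_reducible refine Int.comp ?_ ?_; assumption) | (with_reducible refine Int.comp₂ ?_ ?_ ?_; assumption) | (with_reducible refine Int.comp₃ ?_ ?_ ?_ ?_; assumption) | (with_reducible refine Int.comp₄ ?_ ?_ ?_ ?_ ?_; assumption) | (with_reducible refine IntF.comp ?_ ?_; assumption) | (with_reducible refine IntF.comp₂ ?_ ?_ ?_; assumption) | (with_reducible refine IntF.comp₃ ?_ ?_ ?_ ?_; assumption)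 | with_reducible apply IntF.pair)))

theorem zz_iff {en : A → INat N} {m : INat N} (h : En S m en) {y : YY S} :
    (∀ j, y ∈ cts S en m j) ↔ zz m y := by
  rcases y with e | k
  · rw [zz_inl]
    constructor
    · intro h1
      have h2 := h1 (en e.1.2).succ
      rw [mem_cts h.1, ct_inl] at h2
      rcases h2 with h2 | ⟨-, -, h2⟩
      · exact h2
      · exact absurd h2 (not_le.2 (INat.lt_succ_self _))
    · intro h1 j
      rw [mem_cts h.1, ct_inl]
      exact Or.inl h1
  · rw [zz_inr]
    constructor
    · intro h1
      have h2 := h1 0
      rwa [mem_cts h.1, ct_inr] at h2
    · intro h1 j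
      rwa [mem_cts h.1, ct_inr]

theorem clp_cts {en : A → INat N} {m : INat N} (h : En S m en) (j : INat N) :
    Clp (cts S en m j) := ⟨isT_cts h, isT_cts_compl h⟩

/-- The tails in the space without the last point. -/
noncomputable def ZX (S : BD N A) (m : INat N) : IPow N (YY S) := sep N fun y => y ∈ XX S ∧ zz m y

theorem mem_ZX {m : INat N} {y : YY S} : y ∈ ZX S m ↔ y ∈ XX S ∧ zz m y := by
  have h := int_zz (S := S)
  unfold ZX
  rw [mem_sep (by ((repeat' (first | with_reducible exact IntF.id | with_reducible exact IntF.fst' | with_reducible exact IntF.snd' | with_reducible exact IntF.const _ | with_reducible exact Int.const _ | assumption | with_reducible apply Int.and | with_reducible apply Int.or | with_reducible apply Int.not | with_reducible apply Int.imp | with_reducible apply Int.iff | with_reducible apply Int.ne | with_reducible apply Int.eq | with_reducible apply Int.mem | with_reducible apply Int.subset | with_reducible apply Int.ltN | with_reducible apply Int.leN | with_reducible_and_instances apply Int.le | with_reducible_and_instances apply Int.lt | with_reducible apply Int.all | with_reducible apply Int.ex | with_reducible apply IntF.fst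 | with_reducible apply IntF.snd | with_reducible apply IntF.app | with_reducible apply IntF.inl | with_reducible apply IntF.inr | with_reducible_and_instances apply IntF.mul | with_reducible_and_instances apply IntF.inv | with_reducible_and_instances apply IntF.add | with_reducible_and_instances apply IntF.sub | with_reducible_and_instances apply IntF.neg | with_reducible_and_instances apply IntF.smul | with_reducible apply Int.fin | with_reducible apply IntF.sep | with_reducible apply IntF.lam | with_reducible apply IntF.insert | with_reducible apply IntF.singleton | with_reducible apply IntF.union | with_reducible apply IntF.iimage | with_reducible apply IntF.ite | with_reducible apply IntF.the | with_reducible apply IntF.irec | with_reducible apply IntF.succ | with_reducible apply IntF.val | with_reducible apply IntF.mk | (with_reducible refine Int.comp ?_ ?_; assumption) | (with_reducible refine Int.comp₂ ?_ ?_ ?_; assumption) | (with_reducible refine Int.comp₃ ?_ ?_ ?_ ?_; assumption) | (with_reducible refine Int.comp₄ ?_ ?_ ?_ ?_ ?_; assumption) | (with_reducible refine IntF.comp ?_ ?_; assumption) | (with_reducible refine IntF.comp₂ ?_ ?_ ?_; assumption)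 | (with_reducible refine IntF.comp₃ ?_ ?_ ?_ ?_; assumption) | with_reducible apply IntF.pair))))]

theorem int_ZX : IntF N (fun m => ZX S m) := by
  have h := int_zz (S := S)
  unfold ZX
  ((repeat' (first | with_reducible exact IntF.id | with_reducible exact IntF.fst' | with_reducible exact IntF.snd' | with_reducible exact IntF.const _ | with_reducible exact Int.const _ | assumption | with_reducible apply Int.and | with_reducible apply Int.or | with_reducible apply Int.not | with_reducible apply Int.imp | with_reducible apply Int.iff | with_reducible apply Int.ne | with_reducible apply Int.eq | with_reducible apply Int.mem | with_reducible apply Int.subset | with_reducible apply Int.ltN | with_reducible apply Int.leN | with_reducible_and_instances apply Int.le | with_reducible_and_instances apply Int.lt | with_reducible apply Int.all | with_reducible apply Int.ex | with_reducible apply IntF.fst | with_reducible apply IntF.snd | with_reducible apply IntF.app | with_reducible apply IntF.inl | with_reducible apply IntF.inr | with_reducible_and_instances apply IntF.mul | with_reducible_and_instances apply IntF.inv | with_reducible_and_instances apply IntF.add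 | with_reducible_and_instances apply IntF.sub | with_reducible_and_instances apply IntF.neg | with_reducible_and_instances apply IntF.smul | with_reducible apply Int.fin | with_reducible apply IntF.sep | with_reducible apply IntF.lam | with_reducible apply IntF.insert | with_reducible apply IntF.singleton | with_reducible apply IntF.union | with_reducible apply IntF.iimage | with_reducible apply IntF.ite | with_reducible apply IntF.the | with_reducible apply IntF.irec | with_reducible apply IntF.succ | with_reducible apply IntF.val | with_reducible apply IntF.mk | (with_reducible refine Int.comp ?_ ?_; assumption) | (with_reducible refine Int.comp₂ ?_ ?_ ?_; assumption) | (with_reducible refine Int.comp₃ ?_ ?_ ?_ ?_; assumption) | (with_reducible refine Int.comp₄ ?_ ?_ ?_ ?_ ?_; assumption) | (with_reducible refine IntF.comp ?_ ?_; assumption) | (with_reducible refine IntF.comp₂ ?_ ?_ ?_; assumption) | (with_reducible refine IntF.comp₃ ?_ ?_ ?_ ?_; assumption) | with_reducible apply IntF.pair)))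

theorem cd_ZX (m : INat N) : CdP (XX S) (ZX S m) := by
  obtain ⟨en, hen⟩ := exists_En S m
  have h1 := int_cts (S := S) hen.1 m
  have h2 := int_inter' (N := N) (α := YY S)
  have hi : IntF N (fun j : INat N => cts S en m j ∩ XX S) :=
    IntF.comp₂ (p := fun a b : IPow N (YY S) => a ∩ b) h2 h1 (IntF.const _)
  refine ⟨⟨_, hi⟩, fun n => (clp_cts hen n).rel, fun y => ?_⟩
  rw [mem_ZX, ← zz_iff hen]
  constructor
  · rintro ⟨h3, h4⟩ n
    exact mem_inter.2 ⟨h4 n, h3⟩
  · intro h3
    exact ⟨(mem_inter.1 (h3 0)).2, fun j => (mem_inter.1 (h3 j)).1⟩

/-- The complement of an isolated point. -/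
noncomputable def XE (e : EE S) : IPow N (YY S) := icompl {Sum.inl e} ∩ XX S

theorem mem_XE {e : EE S} {y : YY S} : y ∈ XE e ↔ y ≠ Sum.inl e ∧ y ∈ XX S := by
  unfold XE
  rw [mem_inter, mem_icompl, mem_singleton]

theorem clp_ne (e : EE S) : Clp (icompl ({Sum.inl e} : IPow N (YY S))) :=
  ⟨isT_compl_one e, by
    rw [icompl_icompl]
    exact isT_one e⟩

theorem cd_XE (e : EE S) : CdP (XX S) (XE e) := (clp_ne e).rel.cd

section reals

variable {R : Type u} [ITy N R] [Field R] [LinearOrder R] [IsStrictOrderedRing R] [IAdd N R]
  [ILE N R]

theorem Clp.zr {C : IPow N (YY S)} (h : Clp C) (P : IPow N (YY S)) : ZrP R P (C ∩ P) := by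
  refine ⟨_, (tw_ct h).rel P, fun y => ?_⟩
  change _ ↔ y ∈ P ∧ tw C y = 0
  rw [mem_inter]
  unfold tw
  split_ifs with h1
  · simp [h1]
  · simp [h1]

theorem zr_XE (e : EE S) : ZrP R (XX S) (XE e) := (clp_ne e).zr _

theorem exists_zz (hq : QS N R) (m : INat N) : ∃ f : IFun N (YY S) R, CtY f ∧
    ∀ y, f y = 0 ↔ zz m y := by
  obtain ⟨en, hen⟩ := exists_En S m
  obtain ⟨f, h1, h2⟩ := exists_zero (R := R) hq (int_cts (S := S) hen.1 m) (clp_cts hen)
    fun n y hy => by
      rw [mem_cts hen.1] at hy ⊢
      rcases y with e | k
      · rw [ct_inl] at hy ⊢
        rcases hy with h | ⟨h, h', h''⟩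
        · exact Or.inl h
        · exact Or.inr ⟨h, h', (INat.le_succ_self n).trans h''⟩
      · rwa [ct_inr] at hy ⊢
  exact ⟨f, h1, fun y => (h2 y).trans (zz_iff hen)⟩

theorem zr_ZX (hq : QS N R) (m : INat N) : ZrP R (XX S) (ZX S m) := by
  obtain ⟨f, h1, h2⟩ := exists_zz (S := S) hq m
  exact ⟨f, h1.rel _, fun y => by rw [mem_ZX, h2]⟩

theorem baire (hq : QS N R) {Sg : IPow N (IPow N (YY S))} (hc : ∀ U, U ∈ Sg → icompl U ∈ Sg)
    (hu : ∀ s : IFun N (INat N) (IPow N (YY S)), (∀ n, s n ∈ Sg) →
      (sep N fun y => ∃ n, y ∈ s n) ∈ Sg) (hz : ∀ Z, ZrP R (iuniv N (YY S)) Z → Z ∈ Sg) :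
    XX S ∈ Sg := by
  have h := int_zz (S := S)
  have hi : IntF N (fun m : INat N => icompl (sep N fun y : YY S => zz m y)) :=
    H310.IntF.icompl (by ((repeat' (first | with_reducible exact IntF.id | with_reducible exact IntF.fst' | with_reducible exact IntF.snd' | with_reducible exact IntF.const _ | with_reducible exact Int.const _ | assumption | with_reducible apply Int.and | with_reducible apply Int.or | with_reducible apply Int.not | with_reducible apply Int.imp | with_reducible apply Int.iff | with_reducible apply Int.ne | with_reducible apply Int.eq | with_reducible apply Int.mem | with_reducible apply Int.subset | with_reducible apply Int.ltN | with_reducible apply Int.leN | with_reducible_and_instances apply Int.le | with_reducible_and_instances apply Int.lt | with_reducible apply Int.all | with_reducible apply Int.ex | with_reducible apply IntF.fst | with_reducible apply IntF.snd | with_reducible apply IntF.app | with_reducible apply IntF.inl | with_reducible apply IntF.inr | with_reducible_and_instances apply IntF.mul | with_reducible_and_instances apply IntF.inv | with_reducible_and_instances apply IntF.add | with_reducible_and_instances apply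 IntF.sub | with_reducible_and_instances apply IntF.neg | with_reducible_and_instances apply IntF.smul | with_reducible apply Int.fin | with_reducible apply IntF.sep | with_reducible apply IntF.lam | with_reducible apply IntF.insert | with_reducible apply IntF.singleton | with_reducible apply IntF.union | with_reducible apply IntF.iimage | with_reducible apply IntF.ite | with_reducible apply IntF.the | with_reducible apply IntF.irec | with_reducible apply IntF.succ | with_reducible apply IntF.val | with_reducible apply IntF.mk | (with_reducible refine Int.comp ?_ ?_; assumption) | (with_reducible refine Int.comp₂ ?_ ?_ ?_; assumption) | (with_reducible refine Int.comp₃ ?_ ?_ ?_ ?_; assumption) | (with_reducible refine Int.comp₄ ?_ ?_ ?_ ?_ ?_; assumption) | (with_reducible refine IntF.comp ?_ ?_; assumption) | (with_reducible refine IntF.comp₂ ?_ ?_ ?_; assumption) | (with_reducible refine IntF.comp₃ ?_ ?_ ?_ ?_; assumption) | with_reducible apply IntF.pair))))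
  have hm : ∀ (m : INat N) (y : YY S), y ∈ (sep N fun y : YY S => zz m y) ↔ zz m y :=
    fun m y => mem_sep (by ((repeat' (first | with_reducible exact IntF.id | with_reducible exact IntF.fst' | with_reducible exact IntF.snd' | with_reducible exact IntF.const _ | with_reducible exact Int.const _ | assumption | with_reducible apply Int.and | with_reducible apply Int.or | with_reducible apply Int.not | with_reducible apply Int.imp | with_reducible apply Int.iff | with_reducible apply Int.ne | with_reducible apply Int.eq | with_reducible apply Int.mem | with_reducible apply Int.subset | with_reducible apply Int.ltN | with_reducible apply Int.leN | with_reducible_and_instances apply Int.le | with_reducible_and_instances apply Int.lt | with_reducible apply Int.all | with_reducible apply Int.ex | with_reducible apply IntF.fst | with_reducible apply IntF.snd | with_reducible apply IntF.app | with_reducible apply IntF.inl | with_reducible apply IntF.inr | with_reducible_and_instances apply IntF.mul | with_reducible_and_instances apply IntF.inv | with_reducible_and_instances apply IntF.add | with_reducible_and_instances apply IntF.sub | with_reducible_and_instances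 apply IntF.neg | with_reducible_and_instances apply IntF.smul | with_reducible apply Int.fin | with_reducible apply IntF.sep | with_reducible apply IntF.lam | with_reducible apply IntF.insert | with_reducible apply IntF.singleton | with_reducible apply IntF.union | with_reducible apply IntF.iimage | with_reducible apply IntF.ite | with_reducible apply IntF.the | with_reducible apply IntF.irec | with_reducible apply IntF.succ | with_reducible apply IntF.val | with_reducible apply IntF.mk | (with_reducible refine Int.comp ?_ ?_; assumption) | (with_reducible refine Int.comp₂ ?_ ?_ ?_; assumption) | (with_reducible refine Int.comp₃ ?_ ?_ ?_ ?_; assumption) | (with_reducible refine Int.comp₄ ?_ ?_ ?_ ?_ ?_; assumption) | (with_reducible refine IntF.comp ?_ ?_; assumption) | (with_reducible refine IntF.comp₂ ?_ ?_ ?_; assumption) | (with_reducible refine IntF.comp₃ ?_ ?_ ?_ ?_; assumption) | with_reducible apply IntF.pair))))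
  have h1 := hu ⟨_, hi⟩ fun m => by
    refine hc _ (hz _ ?_)
    obtain ⟨f, h1, h2⟩ := exists_zz (S := S) hq m
    exact ⟨f, h1.rel _, fun y => by rw [hm, h2]; simp⟩
  have h2 : ∀ y : YY S, y ∈ (sep N fun y : YY S => ∃ n, y ∈
      (⟨fun m : INat N => icompl (sep N fun y : YY S => zz m y), hi⟩ :
        IFun N (INat N) (IPow N (YY S))) n) ↔ y ∈ XX S := by
    intro y
    rw [mem_sep (by ((repeat' (first | with_reducible exact IntF.id | with_reducible exact IntF.fst' | with_reducible exact IntF.snd' | with_reducible exact IntF.const _ | with_reducible exact Int.const _ | assumption | with_reducible apply Int.and | with_reducible apply Int.or | with_reducible apply Int.not | with_reducible apply Int.imp | with_reducible apply Int.iff | with_reducible apply Int.ne | with_reducible apply Int.eq | with_reducible apply Int.mem | with_reducible apply Int.subset | with_reducible apply Int.ltN | with_reducible apply Int.leN | with_reducible_and_instances apply Int.le | with_reducible_and_instances apply Int.lt | with_reducible apply Int.all | with_reducible apply Int.ex | with_reducible apply IntF.fst | with_reducible apply IntF.snd | with_reducible apply IntF.app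 | with_reducible apply IntF.inl | with_reducible apply IntF.inr | with_reducible_and_instances apply IntF.mul | with_reducible_and_instances apply IntF.inv | with_reducible_and_instances apply IntF.add | with_reducible_and_instances apply IntF.sub | with_reducible_and_instances apply IntF.neg | with_reducible_and_instances apply IntF.smul | with_reducible apply Int.fin | with_reducible apply IntF.sep | with_reducible apply IntF.lam | with_reducible apply IntF.insert | with_reducible apply IntF.singleton | with_reducible apply IntF.union | with_reducible apply IntF.iimage | with_reducible apply IntF.ite | with_reducible apply IntF.the | with_reducible apply IntF.irec | with_reducible apply IntF.succ | with_reducible apply IntF.val | with_reducible apply IntF.mk | (with_reducible refine Int.comp ?_ ?_; assumption) | (with_reducible refine Int.comp₂ ?_ ?_ ?_; assumption) | (with_reducible refine Int.comp₃ ?_ ?_ ?_ ?_; assumption) | (with_reducible refine Int.comp₄ ?_ ?_ ?_ ?_ ?_; assumption) | (with_reducible refine IntF.comp ?_ ?_; assumption) | (with_reducible refine IntF.comp₂ ?_ ?_ ?_; assumption) | (with_reducible refine IntF.comp₃ ?_ ?_ ?_ ?_; assumption)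 | with_reducible apply IntF.pair))))]
    change (∃ m : INat N, y ∈ icompl (sep N fun y : YY S => zz m y)) ↔ _
    constructor
    · rintro ⟨m, hm'⟩
      rw [mem_icompl, hm] at hm'
      refine mem_XX.2 ?_
      rintro rfl
      exact hm' (zz_inr.2 (Or.inl rfl))
    · intro hy
      rcases y with e | k
      · exact ⟨lv e, mem_icompl.2 fun h3 => lt_irrefl _ (zz_inl.1 ((hm _ _).1 h3))⟩
      · refine ⟨k, mem_icompl.2 fun h3 => ?_⟩
        rcases zz_inr.1 ((hm _ _).1 h3) with h4 | h4
        · exact mem_XX.1 hy (by rw [h4])
        · exact lt_irrefl _ h4
  rw [← IPow.ext' h2]
  exact h1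

end reals

/-! ### Ultrafilters -/

/-- Filters in a family of sets. -/
structure FltP (Lt : IPow N (YY S) → Prop) (F : IPow N (IPow N (YY S))) : Prop where
  sub : ∀ Z, Z ∈ F → Lt Z
  ne : ∃ Z, Z ∈ F
  pos : ∀ Z, Z ∈ F → ∃ y, y ∈ Z
  inter : ∀ Z W, Z ∈ F → W ∈ F → Z ∩ W ∈ F
  up : ∀ Z W, Z ∈ F → Lt W → (∀ y, y ∈ Z → y ∈ W) → W ∈ F

theorem fixed_of {Lt : IPow N (YY S) → Prop} (hLt : Int N Lt)
    (hI : ∀ Z W, Lt Z → Lt W → Lt (Z ∩ W)) (hsub : ∀ Z, Lt Z → ∀ y, y ∈ Z → y ∈ XX S)
    (hT : ∀ m, Lt (ZX S m)) (hE : ∀ e, Lt (XE e)) {F : IPow N (IPow N (YY S))}
    (hF : FltP Lt F) (hmax : ∀ G, FltP Lt G → (∀ Z, Z ∈ F → Z ∈ G) → ∀ Z, Z ∈ G → Z ∈ F)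
    (hcip : ∀ s : IFun N (INat N) (IPow N (YY S)), (∀ n, s n ∈ F) → ∃ y, ∀ n, y ∈ s n) :
    ∃ y, ∀ Z, Z ∈ F → y ∈ Z := by
  by_contra hc
  push Not at hc
  have hTm : ∃ m, ¬ ZX S m ∈ F := by
    by_contra h
    push Not at h
    obtain ⟨y, hy⟩ := hcip ⟨_, int_ZX⟩ h
    have hy' : ∀ m, y ∈ XX S ∧ zz m y := fun m => mem_ZX.1 (hy m)
    rcases y with e | k
    · exact lt_irrefl _ (zz_inl.1 (hy' (lv e)).2)
    · rcases zz_inr.1 (hy' k).2 with h4 | h4
      · exact mem_XX.1 (hy' k).1 (by rw [h4])
      · exact lt_irrefl _ h4
  obtain ⟨m, hm⟩ := hTm
  have hdis : ∃ Z, Z ∈ F ∧ ∀ y, y ∈ Z → ¬ y ∈ ZX S m := by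
    by_contra h
    push Not at h
    have hG : ∀ W : IPow N (YY S), W ∈ (sep N fun W : IPow N (YY S) => Lt W ∧ ∃ Z, Z ∈ F ∧
        ∀ y, y ∈ Z → y ∈ ZX S m → y ∈ W) ↔ (Lt W ∧ ∃ Z, Z ∈ F ∧
        ∀ y, y ∈ Z → y ∈ ZX S m → y ∈ W) := fun W => mem_sep (by ((repeat' (first | with_reducible exact IntF.id | with_reducible exact IntF.fst' | with_reducible exact IntF.snd' | with_reducible exact IntF.const _ | with_reducible exact Int.const _ | assumption | with_reducible apply Int.and | with_reducible apply Int.or | with_reducible apply Int.not | with_reducible apply Int.imp | with_reducible apply Int.iff | with_reducible apply Int.ne | with_reducible apply Int.eq | with_reducible apply Int.mem | with_reducible apply Int.subset | with_reducible apply Int.ltN | with_reducible apply Int.leN | with_reducible_and_instances apply Int.le | with_reducible_and_instances apply Int.lt | with_reducible apply Int.all | with_reducible apply Int.ex | with_reducible apply IntF.fst | with_reducible apply IntF.snd | with_reducible apply IntF.app | with_reducible apply IntF.inl | with_reducible apply IntF.inr | with_reducible_and_instances apply IntF.mul | with_reducible_and_instances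 apply IntF.inv | with_reducible_and_instances apply IntF.add | with_reducible_and_instances apply IntF.sub | with_reducible_and_instances apply IntF.neg | with_reducible_and_instances apply IntF.smul | with_reducible apply Int.fin | with_reducible apply IntF.sep | with_reducible apply IntF.lam | with_reducible apply IntF.insert | with_reducible apply IntF.singleton | with_reducible apply IntF.union | with_reducible apply IntF.iimage | with_reducible apply IntF.ite | with_reducible apply IntF.the | with_reducible apply IntF.irec | with_reducible apply IntF.succ | with_reducible apply IntF.val | with_reducible apply IntF.mk | (with_reducible refine Int.comp ?_ ?_; assumption) | (with_reducible refine Int.comp₂ ?_ ?_ ?_; assumption) | (with_reducible refine Int.comp₃ ?_ ?_ ?_ ?_; assumption) | (with_reducible refine Int.comp₄ ?_ ?_ ?_ ?_ ?_; assumption) | (with_reducible refine IntF.comp ?_ ?_; assumption) | (with_reducible refine IntF.comp₂ ?_ ?_ ?_; assumption) | (with_reducible refine IntF.comp₃ ?_ ?_ ?_ ?_; assumption) | with_reducible apply IntF.pair))))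
    refine hm (hmax (sep N fun W : IPow N (YY S) => Lt W ∧ ∃ Z, Z ∈ F ∧
        ∀ y, y ∈ Z → y ∈ ZX S m → y ∈ W) ⟨fun Z hZ => ((hG Z).1 hZ).1, ?_, ?_, ?_, ?_⟩
        (fun Z hZ => (hG Z).2 ⟨hF.sub Z hZ, Z, hZ, fun y hy _ => hy⟩) _ ?_)
    · obtain ⟨Z, hZ⟩ := hF.ne
      exact ⟨Z, (hG Z).2 ⟨hF.sub Z hZ, Z, hZ, fun y hy _ => hy⟩⟩
    · intro W hW
      obtain ⟨-, Z, hZ, h1⟩ := (hG W).1 hW
      obtain ⟨y, hy, hy'⟩ := h Z hZ
      exact ⟨y, h1 y hy hy'⟩
    · intro W W' hW hW'
      obtain ⟨h0, Z, hZ, h1⟩ := (hG W).1 hW
      obtain ⟨h0', Z', hZ', h1'⟩ := (hG W').1 hW'
      refine (hG _).2 ⟨hI _ _ h0 h0', Z ∩ Z', hF.inter _ _ hZ hZ', fun y hy hy' => mem_inter.2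
        ⟨h1 y (mem_inter.1 hy).1 hy', h1' y (mem_inter.1 hy).2 hy'⟩⟩
    · intro W W' hW hW' hs
      obtain ⟨h0, Z, hZ, h1⟩ := (hG W).1 hW
      exact (hG _).2 ⟨hW', Z, hZ, fun y hy hy' => hs y (h1 y hy hy')⟩
    · obtain ⟨Z, hZ⟩ := hF.ne
      exact (hG _).2 ⟨hT m, Z, hZ, fun y _ hy => hy⟩
  obtain ⟨Z0, hZ0, h0⟩ := hdis
  have hind : ∀ K : INat N, ∃ Z, Z ∈ F ∧ ∀ k, k ≤ K → ¬ (Sum.inr k : YY S) ∈ Z := by
    refine INat.ind (p := fun K : INat N => ∃ Z, Z ∈ F ∧ ∀ k, k ≤ K → ¬ (Sum.inr k : YY S) ∈ Z)
      (by ((repeat' (first | with_reducible exact IntF.id | with_reducible exact IntF.fst' | with_reducible exact IntF.snd' | with_reducible exact IntF.const _ | with_reducible exact Int.const _ | assumption | with_reducible apply Int.and | with_reducible apply Int.or | with_reducible apply Int.not | with_reducible apply Int.imp | with_reducible apply Int.iff | with_reducible apply Int.ne | with_reducible apply Int.eq | with_reducible apply Int.mem | with_reducible apply Int.subset | with_reducible apply Int.ltN | with_reducible apply Int.leN | with_reducible_and_instances apply Int.le | with_reducible_and_instances apply Int.lt | with_reducible apply Int.all |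 with_reducible apply Int.ex | with_reducible apply IntF.fst | with_reducible apply IntF.snd | with_reducible apply IntF.app | with_reducible apply IntF.inl | with_reducible apply IntF.inr | with_reducible_and_instances apply IntF.mul | with_reducible_and_instances apply IntF.inv | with_reducible_and_instances apply IntF.add | with_reducible_and_instances apply IntF.sub | with_reducible_and_instances apply IntF.neg | with_reducible_and_instances apply IntF.smul | with_reducible apply Int.fin | with_reducible apply IntF.sep | with_reducible apply IntF.lam | with_reducible apply IntF.insert | with_reducible apply IntF.singleton | with_reducible apply IntF.union | with_reducible apply IntF.iimage | with_reducible apply IntF.ite | with_reducible apply IntF.the | with_reducible apply IntF.irec | with_reducible apply IntF.succ | with_reducible apply IntF.val | with_reducible apply IntF.mk | (with_reducible refine Int.comp ?_ ?_; assumption) | (with_reducible refine Int.comp₂ ?_ ?_ ?_; assumption) | (with_reducible refine Int.comp₃ ?_ ?_ ?_ ?_; assumption) | (with_reducible refine Int.comp₄ ?_ ?_ ?_ ?_ ?_; assumption) | (with_reducible refine IntF.comp ?_ ?_; assumption)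 | (with_reducible refine IntF.comp₂ ?_ ?_ ?_; assumption) | (with_reducible refine IntF.comp₃ ?_ ?_ ?_ ?_; assumption) | with_reducible apply IntF.pair)))) ?_ ?_
    · obtain ⟨Z, hZ, h1⟩ := hc (Sum.inr 0)
      refine ⟨Z, hZ, fun k hk => ?_⟩
      rwa [le_antisymm hk (INat.zero_le k)]
    · rintro K ⟨Z, hZ, h1⟩
      obtain ⟨Z', hZ', h2⟩ := hc (Sum.inr K.succ)
      refine ⟨Z ∩ Z', hF.inter _ _ hZ hZ', fun k hk h3 => ?_⟩
      obtain ⟨h4, h5⟩ := mem_inter.1 h3
      rcases hk.lt_or_eq with hk | rfl
      · exact h1 k (INat.lt_succ_iff.1 hk) h4
      · exact h2 h5
  obtain ⟨Z1, hZ1, h1⟩ := hind m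
  have hZ2 := hF.inter _ _ hZ0 hZ1
  generalize hgen : Z0 ∩ Z1 = Z2 at hZ2
  have h2 : ∀ y, y ∈ Z2 → ∃ e, y = Sum.inl e ∧ lv e ≤ m := by
    intro y hy
    rw [← hgen, mem_inter] at hy
    have h3 : ¬ zz m y := fun h3 => h0 y hy.1 (mem_ZX.2 ⟨hsub _ (hF.sub _ hZ0) y hy.1, h3⟩)
    rcases y with e | k
    · exact ⟨e, rfl, by rwa [zz_inl, not_lt] at h3⟩
    · rw [zz_inr, not_or, not_lt] at h3
      exact absurd hy.2 (h1 k h3.2)
  obtain ⟨c, hc1, hc2⟩ := exists_cd S m
  have hi : IntF N (fun n : INat N => sep N fun y : YY S => y ∈ Z2 ∧
      ∀ e, y = Sum.inl e → c e ≠ n) := by ((repeat' (first | with_reducible exact IntF.id | with_reducible exact IntF.fst' | with_reducible exact IntF.snd' | with_reducible exact IntF.const _ | with_reducible exact Int.const _ | assumption | with_reducible apply Int.and | with_reducible apply Int.or | with_reducible apply Int.not | with_reducible apply Int.imp | with_reducible apply Int.iff | with_reducible apply Int.ne | with_reducible apply Int.eq | with_reducible apply Int.mem | with_reducible apply Int.subset | with_reducible apply Int.ltN | with_reducible apply Int.leN | with_reducible_and_instances apply Int.le | with_reducible_and_instances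 apply Int.lt | with_reducible apply Int.all | with_reducible apply Int.ex | with_reducible apply IntF.fst | with_reducible apply IntF.snd | with_reducible apply IntF.app | with_reducible apply IntF.inl | with_reducible apply IntF.inr | with_reducible_and_instances apply IntF.mul | with_reducible_and_instances apply IntF.inv | with_reducible_and_instances apply IntF.add | with_reducible_and_instances apply IntF.sub | with_reducible_and_instances apply IntF.neg | with_reducible_and_instances apply IntF.smul | with_reducible apply Int.fin | with_reducible apply IntF.sep | with_reducible apply IntF.lam | with_reducible apply IntF.insert | with_reducible apply IntF.singleton | with_reducible apply IntF.union | with_reducible apply IntF.iimage | with_reducible apply IntF.ite | with_reducible apply IntF.the | with_reducible apply IntF.irec | with_reducible apply IntF.succ | with_reducible apply IntF.val | with_reducible apply IntF.mk | (with_reducible refine Int.comp ?_ ?_; assumption) | (with_reducible refine Int.comp₂ ?_ ?_ ?_; assumption) | (with_reducible refine Int.comp₃ ?_ ?_ ?_ ?_; assumption) | (with_reducible refine Int.comp₄ ?_ ?_ ?_ ?_ ?_; assumption) |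 (with_reducible refine IntF.comp ?_ ?_; assumption) | (with_reducible refine IntF.comp₂ ?_ ?_ ?_; assumption) | (with_reducible refine IntF.comp₃ ?_ ?_ ?_ ?_; assumption) | with_reducible apply IntF.pair)))
  have hs : ∀ (n : INat N) (y : YY S), y ∈ (sep N fun y : YY S => y ∈ Z2 ∧
      ∀ e, y = Sum.inl e → c e ≠ n) ↔ (y ∈ Z2 ∧ ∀ e, y = Sum.inl e → c e ≠ n) :=
    fun n y => mem_sep (by ((repeat' (first | with_reducible exact IntF.id | with_reducible exact IntF.fst' | with_reducible exact IntF.snd' | with_reducible exact IntF.const _ | with_reducible exact Int.const _ | assumption | with_reducible apply Int.and | with_reducible apply Int.or | with_reducible apply Int.not | with_reducible apply Int.imp | with_reducible apply Int.iff | with_reducible apply Int.ne | with_reducible apply Int.eq | with_reducible apply Int.mem | with_reducible apply Int.subset | with_reducible apply Int.ltN | with_reducible apply Int.leN | with_reducible_and_instances apply Int.le | with_reducible_and_instances apply Int.lt | with_reducible apply Int.all | with_reducible apply Int.ex | with_reducible apply IntF.fst | with_reducible apply IntF.snd | with_reducible apply IntF.app |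 with_reducible apply IntF.inl | with_reducible apply IntF.inr | with_reducible_and_instances apply IntF.mul | with_reducible_and_instances apply IntF.inv | with_reducible_and_instances apply IntF.add | with_reducible_and_instances apply IntF.sub | with_reducible_and_instances apply IntF.neg | with_reducible_and_instances apply IntF.smul | with_reducible apply Int.fin | with_reducible apply IntF.sep | with_reducible apply IntF.lam | with_reducible apply IntF.insert | with_reducible apply IntF.singleton | with_reducible apply IntF.union | with_reducible apply IntF.iimage | with_reducible apply IntF.ite | with_reducible apply IntF.the | with_reducible apply IntF.irec | with_reducible apply IntF.succ | with_reducible apply IntF.val | with_reducible apply IntF.mk | (with_reducible refine Int.comp ?_ ?_; assumption) | (with_reducible refine Int.comp₂ ?_ ?_ ?_; assumption) | (with_reducible refine Int.comp₃ ?_ ?_ ?_ ?_; assumption) | (with_reducible refine Int.comp₄ ?_ ?_ ?_ ?_ ?_; assumption) | (with_reducible refine IntF.comp ?_ ?_; assumption) | (with_reducible refine IntF.comp₂ ?_ ?_ ?_; assumption) | (with_reducible refine IntF.comp₃ ?_ ?_ ?_ ?_; assumption)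 | with_reducible apply IntF.pair))))
  obtain ⟨y, hy⟩ := hcip ⟨_, hi⟩ fun n => by
    change (sep N fun y : YY S => y ∈ Z2 ∧ ∀ e, y = Sum.inl e → c e ≠ n) ∈ F
    by_cases h3 : ∃ e, (Sum.inl e : YY S) ∈ Z2 ∧ c e = n
    · obtain ⟨e, h4, h5⟩ := h3
      obtain ⟨W, hW, h6⟩ := hc (Sum.inl e)
      have h7 : XE e ∈ F := hF.up W (XE e) hW (hE e) fun y hy => mem_XE.2
        ⟨fun h => h6 (h ▸ hy), hsub _ (hF.sub _ hW) y hy⟩
      have h8 : (sep N fun y : YY S => y ∈ Z2 ∧ ∀ e, y = Sum.inl e → c e ≠ n) = Z2 ∩ XE e := by
        refine IPow.ext' fun y => ?_
        rw [hs, mem_inter, mem_XE]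
        constructor
        · rintro ⟨h9, h10⟩
          refine ⟨h9, fun h => h10 e h h5, hsub _ (hF.sub _ hZ2) y h9⟩
        · rintro ⟨h9, h10, -⟩
          refine ⟨h9, ?_⟩
          rintro e' rfl h11
          obtain ⟨e1, h12, h13⟩ := h2 _ h9
          obtain ⟨e2, h14, h15⟩ := h2 _ h4
          obtain rfl := Sum.inl.inj h12
          obtain rfl := Sum.inl.inj h14
          exact h10 (by rw [hc2 _ _ h13 h15 (h11.trans h5.symm)])
      rw [h8]
      exact hF.inter _ _ hZ2 h7
    · have h8 : (sep N fun y : YY S => y ∈ Z2 ∧ ∀ e, y = Sum.inl e → c e ≠ n) = Z2 := by
        refine IPow.ext' fun y => ?_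
        rw [hs]
        constructor
        · exact fun h => h.1
        · intro h9
          refine ⟨h9, ?_⟩
          rintro e rfl h10
          exact h3 ⟨e, h9, h10⟩
      rw [h8]
      exact hZ2
  have h4 : ∀ n, y ∈ Z2 ∧ ∀ e, y = Sum.inl e → c e ≠ n := fun n => (hs n y).1 (hy n)
  obtain ⟨e, rfl, -⟩ := h2 y (h4 0).1
  exact (h4 (c e)).2 e rfl rfl

/-! ### Countable pseudocharacter -/

theorem fr_fin (n : INat N) {U : IPow N (YY S)} (h : FinP N (fun e : EE S => lv e = n ∧
    ¬ (Sum.inl e : YY S) ∈ U)) : Fr0 S n U ∧ Fr1 S n U := by
  have hfst : IntF N (fun e : EE S => e.1.1) := IntF.fst IntF.val'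
  have hsnd : IntF N (fun e : EE S => e.1.2) := IntF.snd IntF.val'
  constructor
  · refine FinP.mono (q := fun _ => False) finP_false ?_
    rintro a ⟨ha, hf⟩
    refine hf ((h.image hsnd).mono ?_)
    rintro b ⟨e, he, hb⟩
    refine ⟨e, ⟨?_, hb⟩, by rw [he]⟩
    unfold lv
    rw [he]
    exact ha
  · refine FinP.mono (q := fun _ => False) finP_false ?_
    rintro b ⟨hb, hf⟩
    refine hf ((h.image hfst).mono ?_)
    rintro a ⟨e, he, ha⟩
    refine ⟨e, ⟨?_, ha⟩, by rw [he]⟩
    rw [← lv_snd, he]
    exact hb

theorem pseudo (y : YY S) : ∃ s : IFun N (INat N) (IPow N (YY S)), (∀ n, IsT (s n)) ∧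
    ∀ z, (∀ n, z ∈ s n) ↔ z = y := by
  rcases cases_pt y with ⟨e, rfl⟩ | rfl | ⟨n, rfl⟩
  · exact ⟨⟨fun _ => {Sum.inl e}, IntF.const _⟩, fun _ => isT_one e, fun z =>
      ⟨fun h => mem_singleton.1 (h 0), fun h _ => mem_singleton.2 h⟩⟩
  · have hi := int_tl (S := S)
    have hi' : IntF N (fun n : INat N => sep N fun y : YY S => tl n y) := by ((repeat' (first | with_reducible exact IntF.id | with_reducible exact IntF.fst' | with_reducible exact IntF.snd' | with_reducible exact IntF.const _ | with_reducible exact Int.const _ | assumption | with_reducible apply Int.and | with_reducible apply Int.or | with_reducible apply Int.not | with_reducible apply Int.imp | with_reducible apply Int.iff | with_reducible apply Int.ne | with_reducible apply Int.eq | with_reducible apply Int.mem | with_reducible apply Int.subset | with_reducible apply Int.ltN | with_reducible apply Int.leN | with_reducible_and_instances apply Int.le | with_reducible_and_instances apply Int.lt | with_reducible apply Int.all | with_reducible apply Int.ex | with_reducible apply IntF.fst | with_reducible apply IntF.snd | with_reducible apply IntF.app | with_reducible apply IntF.inl | with_reducible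 apply IntF.inr | with_reducible_and_instances apply IntF.mul | with_reducible_and_instances apply IntF.inv | with_reducible_and_instances apply IntF.add | with_reducible_and_instances apply IntF.sub | with_reducible_and_instances apply IntF.neg | with_reducible_and_instances apply IntF.smul | with_reducible apply Int.fin | with_reducible apply IntF.sep | with_reducible apply IntF.lam | with_reducible apply IntF.insert | with_reducible apply IntF.singleton | with_reducible apply IntF.union | with_reducible apply IntF.iimage | with_reducible apply IntF.ite | with_reducible apply IntF.the | with_reducible apply IntF.irec | with_reducible apply IntF.succ | with_reducible apply IntF.val | with_reducible apply IntF.mk | (with_reducible refine Int.comp ?_ ?_; assumption) | (with_reducible refine Int.comp₂ ?_ ?_ ?_; assumption) | (with_reducible refine Int.comp₃ ?_ ?_ ?_ ?_; assumption) | (with_reducible refine Int.comp₄ ?_ ?_ ?_ ?_ ?_; assumption) | (with_reducible refine IntF.comp ?_ ?_; assumption) | (with_reducible refine IntF.comp₂ ?_ ?_ ?_; assumption) | (with_reducible refine IntF.comp₃ ?_ ?_ ?_ ?_; assumption) | with_reducible apply IntF.pair)))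
    have hm : ∀ (n : INat N) (y : YY S), y ∈ (sep N fun y : YY S => tl n y) ↔ tl n y :=
      fun n y => mem_sep (by ((repeat' (first | with_reducible exact IntF.id | with_reducible exact IntF.fst' | with_reducible exact IntF.snd' | with_reducible exact IntF.const _ | with_reducible exact Int.const _ | assumption | with_reducible apply Int.and | with_reducible apply Int.or | with_reducible apply Int.not | with_reducible apply Int.imp | with_reducible apply Int.iff | with_reducible apply Int.ne | with_reducible apply Int.eq | with_reducible apply Int.mem | with_reducible apply Int.subset | with_reducible apply Int.ltN | with_reducible apply Int.leN | with_reducible_and_instances apply Int.le | with_reducible_and_instances apply Int.lt | with_reducible apply Int.all | with_reducible apply Int.ex | with_reducible apply IntF.fst | with_reducible apply IntF.snd | with_reducible apply IntF.app | with_reducible apply IntF.inl | with_reducible apply IntF.inr | with_reducible_and_instances apply IntF.mul | with_reducible_and_instances apply IntF.inv | with_reducible_and_instances apply IntF.add | with_reducible_and_instances apply IntF.sub | with_reducible_and_instances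 apply IntF.neg | with_reducible_and_instances apply IntF.smul | with_reducible apply Int.fin | with_reducible apply IntF.sep | with_reducible apply IntF.lam | with_reducible apply IntF.insert | with_reducible apply IntF.singleton | with_reducible apply IntF.union | with_reducible apply IntF.iimage | with_reducible apply IntF.ite | with_reducible apply IntF.the | with_reducible apply IntF.irec | with_reducible apply IntF.succ | with_reducible apply IntF.val | with_reducible apply IntF.mk | (with_reducible refine Int.comp ?_ ?_; assumption) | (with_reducible refine Int.comp₂ ?_ ?_ ?_; assumption) | (with_reducible refine Int.comp₃ ?_ ?_ ?_ ?_; assumption) | (with_reducible refine Int.comp₄ ?_ ?_ ?_ ?_ ?_; assumption) | (with_reducible refine IntF.comp ?_ ?_; assumption) | (with_reducible refine IntF.comp₂ ?_ ?_ ?_; assumption) | (with_reducible refine IntF.comp₃ ?_ ?_ ?_ ?_; assumption) | with_reducible apply IntF.pair))))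
    refine ⟨⟨_, hi'⟩, fun n => isT_tl n, fun z => ?_⟩
    change (∀ n, z ∈ (sep N fun y : YY S => tl n y)) ↔ _
    constructor
    · intro h
      rcases z with e | k
      · exact absurd (tl_inl.1 ((hm _ _).1 (h (lv e)))) (lt_irrefl _)
      · rcases tl_inr.1 ((hm _ _).1 (h k)) with h1 | h1
        · rw [h1]
        · exact absurd ((INat.lt_succ_self k).trans h1) (lt_irrefl _)
    · rintro rfl n
      exact (hm _ _).2 (tl_inr.2 (Or.inl rfl))
  · obtain ⟨c, hc1, hc2⟩ := exists_cd S n.succ
    have hl := int_lv (S := S)
    have hi : IntF N (fun j : INat N => sep N fun z : YY S => z = Sum.inr n.succ ∨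
        ∃ e, z = Sum.inl e ∧ lv e ≤ n.succ ∧ j ≤ c e) := by ((repeat' (first | with_reducible exact IntF.id | with_reducible exact IntF.fst' | with_reducible exact IntF.snd' | with_reducible exact IntF.const _ | with_reducible exact Int.const _ | assumption | with_reducible apply Int.and | with_reducible apply Int.or | with_reducible apply Int.not | with_reducible apply Int.imp | with_reducible apply Int.iff | with_reducible apply Int.ne | with_reducible apply Int.eq | with_reducible apply Int.mem | with_reducible apply Int.subset | with_reducible apply Int.ltN | with_reducible apply Int.leN | with_reducible_and_instances apply Int.le | with_reducible_and_instances apply Int.lt | with_reducible apply Int.all | with_reducible apply Int.ex | with_reducible apply IntF.fst | with_reducible apply IntF.snd | with_reducible apply IntF.app | with_reducible apply IntF.inl | with_reducible apply IntF.inr | with_reducible_and_instances apply IntF.mul | with_reducible_and_instances apply IntF.inv | with_reducible_and_instances apply IntF.add | with_reducible_and_instances apply IntF.sub | with_reducible_and_instances apply IntF.neg | with_reducible_and_instances apply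 IntF.smul | with_reducible apply Int.fin | with_reducible apply IntF.sep | with_reducible apply IntF.lam | with_reducible apply IntF.insert | with_reducible apply IntF.singleton | with_reducible apply IntF.union | with_reducible apply IntF.iimage | with_reducible apply IntF.ite | with_reducible apply IntF.the | with_reducible apply IntF.irec | with_reducible apply IntF.succ | with_reducible apply IntF.val | with_reducible apply IntF.mk | (with_reducible refine Int.comp ?_ ?_; assumption) | (with_reducible refine Int.comp₂ ?_ ?_ ?_; assumption) | (with_reducible refine Int.comp₃ ?_ ?_ ?_ ?_; assumption) | (with_reducible refine Int.comp₄ ?_ ?_ ?_ ?_ ?_; assumption) | (with_reducible refine IntF.comp ?_ ?_; assumption) | (with_reducible refine IntF.comp₂ ?_ ?_ ?_; assumption) | (with_reducible refine IntF.comp₃ ?_ ?_ ?_ ?_; assumption) | with_reducible apply IntF.pair)))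
    have hm : ∀ (j : INat N) (z : YY S), z ∈ (sep N fun z : YY S => z = Sum.inr n.succ ∨
        ∃ e, z = Sum.inl e ∧ lv e ≤ n.succ ∧ j ≤ c e) ↔ (z = Sum.inr n.succ ∨
        ∃ e, z = Sum.inl e ∧ lv e ≤ n.succ ∧ j ≤ c e) := fun j z => mem_sep (by ((repeat' (first | with_reducible exact IntF.id | with_reducible exact IntF.fst' | with_reducible exact IntF.snd' | with_reducible exact IntF.const _ | with_reducible exact Int.const _ | assumption | with_reducible apply Int.and | with_reducible apply Int.or | with_reducible apply Int.not | with_reducible apply Int.imp | with_reducible apply Int.iff | with_reducible apply Int.ne | with_reducible apply Int.eq | with_reducible apply Int.mem | with_reducible apply Int.subset | with_reducible apply Int.ltN | with_reducible apply Int.leN | with_reducible_and_instances apply Int.le | with_reducible_and_instances apply Int.lt | with_reducible apply Int.all | with_reducible apply Int.ex | with_reducible apply IntF.fst | with_reducible apply IntF.snd | with_reducible apply IntF.app | with_reducible apply IntF.inl | with_reducible apply IntF.inr | with_reducible_and_instances apply IntF.mul | with_reducible_and_instances apply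 IntF.inv | with_reducible_and_instances apply IntF.add | with_reducible_and_instances apply IntF.sub | with_reducible_and_instances apply IntF.neg | with_reducible_and_instances apply IntF.smul | with_reducible apply Int.fin | with_reducible apply IntF.sep | with_reducible apply IntF.lam | with_reducible apply IntF.insert | with_reducible apply IntF.singleton | with_reducible apply IntF.union | with_reducible apply IntF.iimage | with_reducible apply IntF.ite | with_reducible apply IntF.the | with_reducible apply IntF.irec | with_reducible apply IntF.succ | with_reducible apply IntF.val | with_reducible apply IntF.mk | (with_reducible refine Int.comp ?_ ?_; assumption) | (with_reducible refine Int.comp₂ ?_ ?_ ?_; assumption) | (with_reducible refine Int.comp₃ ?_ ?_ ?_ ?_; assumption) | (with_reducible refine Int.comp₄ ?_ ?_ ?_ ?_ ?_; assumption) | (with_reducible refine IntF.comp ?_ ?_; assumption) | (with_reducible refine IntF.comp₂ ?_ ?_ ?_; assumption) | (with_reducible refine IntF.comp₃ ?_ ?_ ?_ ?_; assumption) | with_reducible apply IntF.pair))))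
    have hfin : ∀ (j k : INat N), k ≤ n.succ → FinP N (fun e : EE S => lv e = k ∧
        ¬ (Sum.inl e : YY S) ∈ (sep N fun z : YY S => z = Sum.inr n.succ ∨
        ∃ e, z = Sum.inl e ∧ lv e ≤ n.succ ∧ j ≤ c e)) := by
      intro j k hk
      have h1 : FinP N (fun e : EE S => lv e ≤ n.succ ∧ c e ≤ j) := by
        refine FinP.of_inj (by ((repeat' (first | with_reducible exact IntF.id | with_reducible exact IntF.fst' | with_reducible exact IntF.snd' | with_reducible exact IntF.const _ | with_reducible exact Int.const _ | assumption | with_reducible apply Int.and | with_reducible apply Int.or | with_reducible apply Int.not | with_reducible apply Int.imp | with_reducible apply Int.iff | with_reducible apply Int.ne | with_reducible apply Int.eq | with_reducible apply Int.mem | with_reducible apply Int.subset | with_reducible apply Int.ltN | with_reducible apply Int.leN | with_reducible_and_instances apply Int.le | with_reducible_and_instances apply Int.lt | with_reducible apply Int.all | with_reducible apply Int.ex | with_reducible apply IntF.fst | with_reducible apply IntF.snd | with_reducible apply IntF.app | with_reducible apply IntF.inl | with_reducible apply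 IntF.inr | with_reducible_and_instances apply IntF.mul | with_reducible_and_instances apply IntF.inv | with_reducible_and_instances apply IntF.add | with_reducible_and_instances apply IntF.sub | with_reducible_and_instances apply IntF.neg | with_reducible_and_instances apply IntF.smul | with_reducible apply Int.fin | with_reducible apply IntF.sep | with_reducible apply IntF.lam | with_reducible apply IntF.insert | with_reducible apply IntF.singleton | with_reducible apply IntF.union | with_reducible apply IntF.iimage | with_reducible apply IntF.ite | with_reducible apply IntF.the | with_reducible apply IntF.irec | with_reducible apply IntF.succ | with_reducible apply IntF.val | with_reducible apply IntF.mk | (with_reducible refine Int.comp ?_ ?_; assumption) | (with_reducible refine Int.comp₂ ?_ ?_ ?_; assumption) | (with_reducible refine Int.comp₃ ?_ ?_ ?_ ?_; assumption) | (with_reducible refine Int.comp₄ ?_ ?_ ?_ ?_ ?_; assumption) | (with_reducible refine IntF.comp ?_ ?_; assumption) | (with_reducible refine IntF.comp₂ ?_ ?_ ?_; assumption) | (with_reducible refine IntF.comp₃ ?_ ?_ ?_ ?_; assumption) | with_reducible apply IntF.pair)))) hc1 (fun a b ha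 hb hab => hc2 a b ha.1 hb.1 hab)
          (finP_le j) fun a ha => ha.2
      refine h1.mono ?_
      rintro e ⟨he, he'⟩
      rw [hm, not_or] at he'
      refine ⟨he.le.trans hk, ?_⟩
      by_contra h2
      exact he'.2 ⟨e, rfl, he.le.trans hk, (not_le.1 h2).le⟩
    refine ⟨⟨_, hi⟩, fun j y hy => ?_, fun z => ?_⟩
    · rcases (hm j y).1 hy with rfl | ⟨e, rfl, -⟩
      · exact nb_succ.2 ⟨hy, (fr_fin n (hfin j n (INat.le_succ_self n))).2,
          (fr_fin n.succ (hfin j n.succ le_rfl)).1⟩
      · exact nb_inl.2 hy
    · constructor
      · intro h
        rcases (hm 0 z).1 (h 0) with h1 | ⟨e, rfl, he, -⟩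
        · exact h1
        · rcases (hm (c e).succ _).1 (h (c e).succ) with h1 | ⟨e', h1, -, h2⟩
          · exact h1
          · obtain rfl := Sum.inl.inj h1
            exact absurd h2 (not_le.2 (INat.lt_succ_self _))
      · rintro rfl j
        exact (hm j _).2 (Or.inl rfl)

/-- The blocks have no multiple choice function. -/
theorem no_cmc {F : INat N → IPow N A} (hF : IntF N F) (h1 : ∀ n, IFin (F n))
    (h2 : ∀ n, ∃ a, a ∈ F n) (h3 : ∀ n a, a ∈ F n → S.lev a = n) : False := by
  obtain ⟨k, hk⟩ := S.hom (fun q => q.2.1 ∈ F q.1 ∧ ¬ q.2.2 ∈ F q.1) (by ((repeat' (first | with_reducible exact IntF.id | with_reducible exact IntF.fst' | with_reducible exact IntF.snd' | with_reducible exact IntF.const _ | with_reducible exact Int.const _ | assumption | with_reducible apply Int.and | with_reducible apply Int.or | with_reducible apply Int.not | with_reducible apply Int.imp | with_reducible apply Int.iff | with_reducible apply Int.ne | with_reducible apply Int.eq | with_reducible apply Int.mem | with_reducible apply Int.subset | with_reducible apply Int.ltN | with_reducible apply Int.leN | with_reducible_and_instances apply Int.le | with_reducible_and_instances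 apply Int.lt | with_reducible apply Int.all | with_reducible apply Int.ex | with_reducible apply IntF.fst | with_reducible apply IntF.snd | with_reducible apply IntF.app | with_reducible apply IntF.inl | with_reducible apply IntF.inr | with_reducible_and_instances apply IntF.mul | with_reducible_and_instances apply IntF.inv | with_reducible_and_instances apply IntF.add | with_reducible_and_instances apply IntF.sub | with_reducible_and_instances apply IntF.neg | with_reducible_and_instances apply IntF.smul | with_reducible apply Int.fin | with_reducible apply IntF.sep | with_reducible apply IntF.lam | with_reducible apply IntF.insert | with_reducible apply IntF.singleton | with_reducible apply IntF.union | with_reducible apply IntF.iimage | with_reducible apply IntF.ite | with_reducible apply IntF.the | with_reducible apply IntF.irec | with_reducible apply IntF.succ | with_reducible apply IntF.val | with_reducible apply IntF.mk | (with_reducible refine Int.comp ?_ ?_; assumption) | (with_reducible refine Int.comp₂ ?_ ?_ ?_; assumption) | (with_reducible refine Int.comp₃ ?_ ?_ ?_ ?_; assumption) | (with_reducible refine Int.comp₄ ?_ ?_ ?_ ?_ ?_; assumption) |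 (with_reducible refine IntF.comp ?_ ?_; assumption) | (with_reducible refine IntF.comp₂ ?_ ?_ ?_; assumption) | (with_reducible refine IntF.comp₃ ?_ ?_ ?_ ?_; assumption) | with_reducible apply IntF.pair))))
  obtain ⟨a, ha⟩ := h2 k
  obtain ⟨b, hb, hb'⟩ := exists_avoid (S := S) k (p := fun a => a ∈ F k) ⟨F k, h1 k, fun _ h => h⟩
  have hab : a ≠ b := fun h => hb' (h ▸ ha)
  exact hb' (hk k le_rfl a b b a (h3 k a ha) hb hb (h3 k a ha) hab hab.symm k ⟨ha, hb'⟩).1

end Pool.Agent.Helper672.ZFA.R602
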