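import Pool.Agent.R602.BrA
import Pool.Agent.R602.Sp6

/-!
# The spaces in the model
-/

set_option maxHeartbeats 1000000
set_option linter.all false
set_option synthInstance.maxSize 2000

namespace Pool.Agent.R602

open FirstOrder FirstOrder.Language
open Pool.Agent.Helper672.ZFA
open Pool.Agent.Helper672.ZFA.R602
open Pool.Agent.Helper672.ZFA.H310M.R602 (BD)
open Pool.Agent.H310
open Pool.Agent.H310Cards
open Pool.Agent.H310Top (IsTopology IsClosed)
open Pool.Agent.W924
open Pool.Agent.H635Amen (IsReals)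
open Pool.Agent.R602St

universe u u₁ u₂

section

attribute [local instance] Helper672.Plain.toL

variable {N : Type u} [Helper672.Plain.LSet.Structure N] [hZ : Helper672.Plain.Zermelo N]

local instance instModelB : IsModel N := Helper672.Plain.isModel_toL

variable {A : Type u} [ITy N A] {S : BD N A}

/-- The set of the points. -/
noncomputable abbrev xx (P : IPow N (YY S)) : N := code P

/-- The topology. -/
noncomputable def tt (P : IPow N (YY S)) : N := code (sep N fun U : IPow N (YY S) => IsTR P U)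

theorem mem_tt {P : IPow N (YY S)} {u : N} : Mem u (tt P) ↔ ∃ U, IsTR P U ∧ code U = u := by
  have h := int_IsTR (S := S)
  unfold tt
  rw [mem_cd]
  exact exists_congr fun U => and_congr_left fun _ => mem_sep (by ((repeat' (first | with_reducible exact IntF.id | with_reducible exact IntF.fst' | with_reducible exact IntF.snd' | with_reducible exact IntF.const _ | with_reducible exact Int.const _ | assumption | with_reducible apply Int.and | with_reducible apply Int.or | with_reducible apply Int.not | with_reducible apply Int.imp | with_reducible apply Int.iff | with_reducible apply Int.ne | with_reducible apply Int.eq | with_reducible apply Int.mem | with_reducible apply Int.subset | with_reducible apply Int.ltN | with_reducible apply Int.leN | with_reducible_and_instances apply Int.le | with_reducible_and_instances apply Int.lt | with_reducible apply Int.all | with_reducible apply Int.ex | with_reducible apply IntF.fst | with_reducible apply IntF.snd | with_reducible apply IntF.app | with_reducible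 apply IntF.inl | with_reducible apply IntF.inr | with_reducible_and_instances apply IntF.mul | with_reducible_and_instances apply IntF.inv | with_reducible_and_instances apply IntF.add | with_reducible_and_instances apply IntF.sub | with_reducible_and_instances apply IntF.neg | with_reducible_and_instances apply IntF.smul | with_reducible apply Int.fin | with_reducible apply IntF.sep | with_reducible apply IntF.lam | with_reducible apply IntF.insert | with_reducible apply IntF.singleton | with_reducible apply IntF.union | with_reducible apply IntF.iimage | with_reducible apply IntF.ite | with_reducible apply IntF.the | with_reducible apply IntF.irec | with_reducible apply IntF.succ | with_reducible apply IntF.val | with_reducible apply IntF.mk | (with_reducible refine Int.comp ?_ ?_; assumption) | (with_reducible refine Int.comp₂ ?_ ?_ ?_; assumption) | (with_reducible refine Int.comp₃ ?_ ?_ ?_ ?_; assumption) | (with_reducible refine Int.comp₄ ?_ ?_ ?_ ?_ ?_; assumption) | (with_reducible refine IntF.comp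 ?_ ?_; assumption) | (with_reducible refine IntF.comp₂ ?_ ?_ ?_; assumption) | (with_reducible refine IntF.comp₃ ?_ ?_ ?_ ?_; assumption) | with_reducible apply IntF.pair))))

theorem mem_tt' {P U : IPow N (YY S)} : Mem (code U) (tt P) ↔ IsTR P U := by
  rw [mem_tt]
  exact ⟨fun ⟨V, h1, h2⟩ => cd_inj h2 ▸ h1, fun h => ⟨U, h, rfl⟩⟩

theorem pt_inj {P : IPow N (YY S)} {y z : EL (xx P)} (h : pt y = pt z) : y = z :=
  Subtype.ext (by rw [← code_pt y, ← code_pt z, h])

theorem mem_xx {P : IPow N (YY S)} {z : N} : Mem z (xx P) ↔ ∃ y, y ∈ P ∧ code y = z := mem_cd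

theorem isTR_self (P : IPow N (YY S)) : IsTR P P :=
  ⟨fun y h => h, fun y _ => (isT_univ y (by simp)).mono fun z _ => nbR_set.2 fun h => h⟩

theorem isTopology_tt (P : IPow N (YY S)) : IsTopology (tt P) (xx P) where
  sub u hu z hz := by
    obtain ⟨U, h1, rfl⟩ := mem_tt.1 hu
    obtain ⟨y, hy, rfl⟩ := mem_cd.1 hz
    exact mem_cd'.2 (h1.1 y hy)
  univ := mem_tt'.2 (isTR_self P)
  inter u v w hu hv hw := by
    obtain ⟨U, h1, rfl⟩ := mem_tt.1 hu
    obtain ⟨V, h2, rfl⟩ := mem_tt.1 hv
    refine mem_tt.2 ⟨U ∩ V, h1.inter h2, extM fun z => ?_⟩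
    refine mem_cd.trans (Iff.trans ?_ (hw z).symm)
    constructor
    · rintro ⟨a, ha, rfl⟩
      exact ⟨mem_cd'.2 (mem_inter.1 ha).1, mem_cd'.2 (mem_inter.1 ha).2⟩
    · rintro ⟨h3, h4⟩
      obtain ⟨a, ha, rfl⟩ := mem_cd.1 h3
      exact ⟨a, mem_inter.2 ⟨ha, mem_cd'.1 h4⟩, rfl⟩
  union c w hc hw := by
    obtain ⟨W, rfl⟩ := exists_cdp (X := YY S) (u := w) fun z hz => by
      obtain ⟨u, hu, hz'⟩ := (hw z).1 hz
      obtain ⟨U, h1, rfl⟩ := mem_tt.1 (hc u hu)
      obtain ⟨a, -, rfl⟩ := mem_cd.1 hz'
      exact ⟨a, rfl⟩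
    have key : ∀ y, y ∈ W ↔ ∃ U, Mem (code (M := N) U) c ∧ IsTR P U ∧ y ∈ U := by
      intro y
      rw [← mem_cd' (N := N)]
      refine (hw _).trans ?_
      constructor
      · rintro ⟨u, hu, hy⟩
        obtain ⟨U, h1, rfl⟩ := mem_tt.1 (hc u hu)
        exact ⟨U, hu, h1, mem_cd'.1 hy⟩
      · rintro ⟨U, h1, h2, h3⟩
        exact ⟨_, h1, mem_cd'.2 h3⟩
    refine mem_tt'.2 ⟨fun y hy => ?_, fun y hy => ?_⟩
    · obtain ⟨U, h1, h2, h3⟩ := (key y).1 hy
      exact h2.1 y h3
    · obtain ⟨U, h1, h2, h3⟩ := (key y).1 hy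
      exact (h2.2 y h3).mono fun z _ hz => (key z).2 ⟨U, h1, h2, hz⟩

theorem isSubTop_tt {P Q : IPow N (YY S)} (h : ∀ y, y ∈ Q → y ∈ P) :
    IsSubTop (tt Q) (xx Q) (tt P) := by
  intro u
  constructor
  · intro hu
    obtain ⟨U, h1, rfl⟩ := mem_tt.1 hu
    obtain ⟨O, hO, h2⟩ := isTR_iff.1 h1
    refine ⟨code (O ∩ P), mem_tt'.2 hO.rel, fun z => ?_⟩
    constructor
    · intro hz
      obtain ⟨a, ha, rfl⟩ := mem_cd.1 hz
      obtain ⟨h3, h4⟩ := (h2 a).1 ha
      exact ⟨mem_cd'.2 (mem_inter.2 ⟨h3, h a h4⟩), mem_cd'.2 h4⟩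
    · rintro ⟨h3, h4⟩
      obtain ⟨a, ha, rfl⟩ := mem_cd.1 h3
      exact mem_cd'.2 ((h2 a).2 ⟨(mem_inter.1 ha).1, mem_cd'.1 h4⟩)
  · rintro ⟨v, hv, h1⟩
    obtain ⟨V, h2, rfl⟩ := mem_tt.1 hv
    obtain ⟨O, hO, h3⟩ := isTR_iff.1 h2
    refine mem_tt.2 ⟨O ∩ Q, hO.rel, extM fun z => ?_⟩
    refine mem_cd.trans (Iff.trans ?_ (h1 z).symm)
    constructor
    · rintro ⟨a, ha, rfl⟩
      obtain ⟨h4, h5⟩ := mem_inter.1 ha
      exact ⟨mem_cd'.2 ((h3 a).2 ⟨h4, h a h5⟩), mem_cd'.2 h5⟩
    · rintro ⟨h4, h5⟩
      obtain ⟨a, ha, rfl⟩ := mem_cd.1 h4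
      exact ⟨a, mem_inter.2 ⟨((h3 a).1 ha).1, mem_cd'.1 h5⟩, rfl⟩

theorem subTop_unique {t t' t'' s : N} (h : IsSubTop t' s t) (h' : IsSubTop t'' s t) : t' = t'' :=
  extM fun u => (h u).trans (h' u).symm

theorem isClopen_tt {P : IPow N (YY S)} {u : N} :
    IsClopen (tt P) (xx P) u ↔ ∃ C, ClpR P C ∧ code C = u := by
  constructor
  · rintro ⟨h1, v, h2, h3⟩
    obtain ⟨C, hC, rfl⟩ := mem_tt.1 h1
    obtain ⟨D, hD, rfl⟩ := mem_tt.1 h2
    refine ⟨C, ⟨hC, ?_⟩, rfl⟩
    have h4 : (sep N fun y => y ∈ P ∧ ¬ y ∈ C) = D := IPow.ext' fun y => by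
      rw [diff_mem, ← mem_cd' (N := N) (U := D)]
      refine Iff.trans ?_ (h3 _).symm
      exact and_congr mem_cd'.symm (not_congr mem_cd'.symm)
    rw [h4]
    exact hD
  · rintro ⟨C, hC, rfl⟩
    refine ⟨mem_tt'.2 hC.1, _, mem_tt'.2 hC.2, fun z => ?_⟩
    refine mem_cd.trans ?_
    constructor
    · rintro ⟨a, ha, rfl⟩
      obtain ⟨h1, h2⟩ := diff_mem.1 ha
      exact ⟨mem_cd'.2 h1, fun h3 => h2 (mem_cd'.1 h3)⟩
    · rintro ⟨h1, h2⟩
      obtain ⟨a, ha, rfl⟩ := mem_xx.1 h1
      exact ⟨a, diff_mem.2 ⟨ha, fun h3 => h2 (mem_cd'.2 h3)⟩, rfl⟩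

theorem isZeroDim_tt (P : IPow N (YY S)) : IsZeroDim (tt P) (xx P) := by
  intro u z hu hz
  obtain ⟨U, hU, rfl⟩ := mem_tt.1 hu
  obtain ⟨y, hy, rfl⟩ := mem_cd.1 hz
  obtain ⟨C, hC, h1, h2⟩ := exists_clopen (hU.2 y hy)
  refine ⟨_, isClopen_tt.2 ⟨_, hC.rel, rfl⟩, mem_cd'.2 (mem_inter.2 ⟨h1, hU.1 y hy⟩),
    fun w hw => ?_⟩
  obtain ⟨a, ha, rfl⟩ := mem_cd.1 hw
  obtain ⟨h3, h4⟩ := mem_inter.1 ha
  exact mem_cd'.2 (nbR_set.1 (h2 a h3) h4)

theorem isT1_tt (P : IPow N (YY S)) : IsT1 (tt P) (xx P) := by
  intro z hz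
  obtain ⟨y, hy, rfl⟩ := mem_xx.1 hz
  refine ⟨code (icompl ({y} : IPow N (YY S)) ∩ P), mem_tt'.2 ⟨fun w hw => (mem_inter.1 hw).2,
    fun w hw => ?_⟩, fun w => ?_⟩
  · obtain ⟨h1, h2⟩ := mem_inter.1 hw
    rw [mem_icompl, mem_singleton] at h1
    exact (isT_ne y w h1).mono fun v hv => nbR_set.2 fun h3 => mem_inter.2 ⟨hv, h3⟩
  · refine mem_cd.trans ?_
    constructor
    · rintro ⟨a, ha, rfl⟩
      obtain ⟨h1, h2⟩ := mem_inter.1 ha
      rw [mem_icompl, mem_singleton] at h1
      exact ⟨mem_cd'.2 h2, fun h3 => h1 (ITy.inj h3)⟩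
    · rintro ⟨h1, h2⟩
      obtain ⟨a, ha, rfl⟩ := mem_xx.1 h1
      refine ⟨a, mem_inter.2 ⟨?_, ha⟩, rfl⟩
      rw [mem_icompl, mem_singleton]
      rintro rfl
      exact h2 rfl

theorem isCd_tt {P : IPow N (YY S)} {a : N} :
    IsCd (tt P) (xx P) a ↔ ∃ Z, CdP P Z ∧ code Z = a := by
  constructor
  · rintro ⟨w, s, f, hw, hf, h1, h2⟩
    obtain ⟨C, hC⟩ := exists_seq (Y := IPow N (YY S)) hw hf fun n c hnc => by
      obtain ⟨D, -, hD⟩ := isClopen_tt.1 (h1 n c hnc)
      exact ⟨D, hD⟩
    have hC' : ∀ n, ClpR P (C n) := fun n => by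
      obtain ⟨D, h3, h4⟩ := isClopen_tt.1 (h1 _ _ ((hC (code n) (code (C n))).2 ⟨n, rfl, rfl⟩))
      rwa [← cd_inj h4]
    have hm : ∀ y : YY S, y ∈ (sep N fun y => ∀ n, y ∈ C n) ↔ ∀ n, y ∈ C n := fun y =>
      mem_sep (by ((repeat' (first | with_reducible exact IntF.id | with_reducible exact IntF.fst' | with_reducible exact IntF.snd' | with_reducible exact IntF.const _ | with_reducible exact Int.const _ | assumption | with_reducible apply Int.and | with_reducible apply Int.or | with_reducible apply Int.not | with_reducible apply Int.imp | with_reducible apply Int.iff | with_reducible apply Int.ne | with_reducible apply Int.eq | with_reducible apply Int.mem | with_reducible apply Int.subset | with_reducible apply Int.ltN | with_reducible apply Int.leN | with_reducible_and_instances apply Int.le | with_reducible_and_instances apply Int.lt | with_reducible apply Int.all | with_reducible apply Int.ex | with_reducible apply IntF.fst | with_reducible apply IntF.snd | with_reducible apply IntF.app | with_reducible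 apply IntF.inl | with_reducible apply IntF.inr | with_reducible_and_instances apply IntF.mul | with_reducible_and_instances apply IntF.inv | with_reducible_and_instances apply IntF.add | with_reducible_and_instances apply IntF.sub | with_reducible_and_instances apply IntF.neg | with_reducible_and_instances apply IntF.smul | with_reducible apply Int.fin | with_reducible apply IntF.sep | with_reducible apply IntF.lam | with_reducible apply IntF.insert | with_reducible apply IntF.singleton | with_reducible apply IntF.union | with_reducible apply IntF.iimage | with_reducible apply IntF.ite | with_reducible apply IntF.the | with_reducible apply IntF.irec | with_reducible apply IntF.succ | with_reducible apply IntF.val | with_reducible apply IntF.mk | (with_reducible refine Int.comp ?_ ?_; assumption) | (with_reducible refine Int.comp₂ ?_ ?_ ?_; assumption) | (with_reducible refine Int.comp₃ ?_ ?_ ?_ ?_; assumption) | (with_reducible refine Int.comp₄ ?_ ?_ ?_ ?_ ?_; assumption) | (with_reducible refine IntF.comp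 ?_ ?_; assumption) | (with_reducible refine IntF.comp₂ ?_ ?_ ?_; assumption) | (with_reducible refine IntF.comp₃ ?_ ?_ ?_ ?_; assumption) | with_reducible apply IntF.pair))))
    refine ⟨sep N fun y => ∀ n, y ∈ C n, ⟨C, hC', hm⟩, extM fun z => ?_⟩
    refine mem_cd.trans (Iff.trans ?_ (h2 z).symm)
    constructor
    · rintro ⟨y, hy, rfl⟩ n c hnc
      obtain ⟨m, rfl, rfl⟩ := (hC n c).1 hnc
      exact mem_cd'.2 ((hm y).1 hy m)
    · intro h3
      have h4 := h3 _ _ ((hC (code (0 : INat N)) (code (C 0))).2 ⟨0, rfl, rfl⟩)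
      obtain ⟨y, hy, rfl⟩ := mem_cd.1 h4
      exact ⟨y, (hm y).2 fun n => mem_cd'.1 (h3 _ _ ((hC (code n) (code (C n))).2 ⟨n, rfl, rfl⟩)),
        rfl⟩
  · rintro ⟨Z, ⟨C, h1, h2⟩, rfl⟩
    refine ⟨dom N (INat N), dom N (IPow N (YY S)), code C, isOmega_dom,
      isFun_seq C isOmega_dom fun n => code_mem_dom (M := N) (C n), fun n c hnc => ?_, fun z => ?_⟩
    · obtain ⟨m, rfl, rfl⟩ := app_code.1 hnc
      exact isClopen_tt.2 ⟨_, h1 m, rfl⟩
    · constructor
      · intro hz n c hnc
        obtain ⟨m, rfl, rfl⟩ := app_code.1 hnc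
        obtain ⟨y, hy, rfl⟩ := mem_cd.1 hz
        exact mem_cd'.2 ((h2 y).1 hy m)
      · intro h3
        have h4 := h3 _ _ (app_code.2 ⟨(0 : INat N), rfl, rfl⟩)
        obtain ⟨y, hy, rfl⟩ := mem_cd.1 h4
        exact mem_cd'.2 ((h2 y).2 fun n => mem_cd'.1 (h3 _ _ (app_code.2 ⟨n, rfl, rfl⟩)))

theorem isNCompact_tt {P : IPow N (YY S)} (h : NCp P) : IsNCompact (tt P) (xx P) := by
  obtain ⟨J, _, E, ⟨j0⟩, hE, h1, h2, h3⟩ := h
  obtain ⟨dw, wd, hdw, hwd, hdw', hwd'⟩ := exists_dj N (INat N)
  obtain ⟨dj, jd, hdj, hjd, hdj', hjd'⟩ := exists_dj N J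
  have hwdi : IntF N wd := by
    have hr : Int N (fun q : INat N × EL (dom N (INat N)) => dw q.2 = q.1) := by
      refine Int.of_D₂ (S := fun v => v 0 = v 1) (D.eqf (DF.var _) (DF.var _)) fun a b => ?_
      change code a = code b ↔ _
      constructor
      · intro h4
        exact ITy.inj (M := N) ((hdw b).trans h4.symm)
      · intro h4
        have h5 : dw b = a := h4
        rw [← h5]
        exact hdw b
    refine IntF.of_rel (r := fun a b => dw b = a) hr fun a b => ?_
    constructor
    · rintro rfl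
      exact hwd' b
    · rintro rfl
      exact hdw' a
  have hwinj : ∀ a b, wd a = wd b → a = b := fun a b h4 => by rw [← hdw' a, h4, hdw']
  have hE' : IntF N (fun q : YY S × J => wd (E q)) := hwdi.comp hE
  refine ⟨dom N (INat N), dom N J, fun z i => wd (E (pt z, dj i)), isOmega_dom,
    ⟨_, code_mem_dom (M := N) j0⟩, inM₂_of (F := fun q : YY S × J => wd (E q)) hE' dj hdj,
    fun y z hyz => ?_, fun u => ?_, fun φ hφ h4 => ?_⟩
  · have h4 : pt y = pt z := h1 _ _ (pt_mem y) (pt_mem z) fun j => hwinj _ _ (by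
      have h5 := congrFun hyz (jd j)
      simp only [hdj'] at h5
      exact h5)
    exact pt_inj h4
  · have key : ∀ (y : YY S) (U : IPow N (YY S)), y ∈ P → (NbR P y U ↔ ∃ s, IsFinite s ∧
        (∀ i, Mem i s → Mem i (dom N J)) ∧ ∀ z : EL (xx P), (∀ i : EL (dom N J), Mem i.1 s →
          wd (E (pt z, dj i)) = wd (E (y, dj i))) → Mem z.1 (code (M := N) U)) := by
      intro y U hy
      rw [h2 y U hy]
      constructor
      · rintro ⟨s, hs, h5⟩
        refine ⟨code s, isFinite_iff.2 hs, fun i hi => ?_, fun z hz => ?_⟩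
        · obtain ⟨j, -, rfl⟩ := mem_cd.1 hi
          exact code_mem_dom (M := N) j
        · refine (mem_pt z).2 (h5 _ (pt_mem z) fun j hj => ?_)
          have h6 := hz (jd j) (by
            rw [hjd]
            exact mem_cd'.2 hj)
          rw [hdj'] at h6
          exact hwinj _ _ h6
      · rintro ⟨s, hs, hs', h5⟩
        obtain ⟨s, rfl⟩ := exists_cdp (X := J) (u := s) fun z hz => mem_dom.1 (hs' z hz)
        refine ⟨s, isFinite_iff.1 hs, fun z hz h6 => ?_⟩
        have h7 := (mem_pt (mk z hz)).1 (h5 (mk z hz) fun i hi => by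
          rw [pt_mk, h6 (dj i) (by
            rw [← hdj] at hi
            exact mem_cd'.1 hi)])
        rwa [pt_mk] at h7
    constructor
    · intro hu
      obtain ⟨U, hU, rfl⟩ := mem_tt.1 hu
      refine ⟨(isTopology_tt P).sub _ hu, fun y hy => ?_⟩
      exact (key (pt y) U (pt_mem y)).1 (hU.2 _ ((mem_pt y).1 hy))
    · rintro ⟨h4, h5⟩
      obtain ⟨U, rfl, hU⟩ := exists_sub (X := YY S) (P := P) h4
      refine mem_tt'.2 ⟨hU, fun y hy => (key y U (hU y hy)).2 ?_⟩
      have h6 := h5 (mk y (hU y hy)) (mem_cd'.2 hy)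
      simp only [pt_mk] at h6
      exact h6
  · have hφi : IntF N (fun j : J => dw (φ (jd j))) := by
      obtain ⟨g, hg⟩ := hφ
      have hr : Int N (fun q : J × INat N => Mem (code q) g) := ⟨g, fun _ => Iff.rfl⟩
      refine IntF.of_rel (r := fun j n => Mem (code (j, n)) g) hr fun j n => ?_
      have h5 := (hg (jd j) (wd n)).trans graph_iff
      rw [hjd, hwd] at h5
      refine Iff.trans h5.symm ?_
      constructor
      · intro h6
        rw [h6, hdw']
      · intro h6
        rw [← h6, hwd']
    obtain ⟨z, hz, h5⟩ := h3 _ hφi fun s hs => by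
      obtain ⟨z, hz⟩ := h4 (code s) (isFinite_iff.2 hs) fun i hi => by
        obtain ⟨j, -, rfl⟩ := mem_cd.1 hi
        exact code_mem_dom (M := N) j
      refine ⟨pt z, pt_mem z, fun j hj => ?_⟩
      have h6 := hz (jd j) (by
        rw [hjd]
        exact mem_cd'.2 hj)
      rw [← h6, hdw', hdj']
    refine ⟨mk z hz, funext fun i => ?_⟩
    change wd (E (pt (mk z hz), dj i)) = φ i
    rw [pt_mk, h5, hjd', hwd']

theorem nCp_of {P : IPow N (YY S)} (h : IsNCompact (tt P) (xx P)) : NCp P := by
  obtain ⟨w, j, e, hw, ⟨i0, hi0⟩, h0, h1, h2, h3⟩ := h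
  have hwc : ∀ z : EL w, ∃ n : INat N, code n = z.1 := fun z => (mem_omega hw).1 z.2
  choose dw hdw using hwc
  let wd : INat N → EL w := fun n => ⟨code n, (mem_omega hw).2 ⟨n, rfl⟩⟩
  have hdw' : ∀ n, dw (wd n) = n := fun n => ITy.inj (M := N) (hdw (wd n))
  have hwd' : ∀ z, wd (dw z) = z := fun z => Subtype.ext (hdw z)
  have hdwi : IntF N dw := by
    have hr : Int N (fun q : EL w × INat N => wd q.2 = q.1) := by
      refine Int.of_D₂ (S := fun v => v 0 = v 1) (D.eqf (DF.var _) (DF.var _)) fun a b => ?_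
      change code a = code b ↔ _
      constructor
      · intro h4
        exact Subtype.ext h4.symm
      · intro h4
        have h5 : wd b = a := h4
        rw [← h5]
        rfl
    refine IntF.of_rel (r := fun a b => wd b = a) hr fun a b => ?_
    constructor
    · rintro rfl
      exact hdw' b
    · rintro rfl
      exact hwd' a
  obtain ⟨F, hF, hF'⟩ := of_inM₂ (X := YY S) h0 (wd 0)
  have hE : IntF N (fun q : YY S × EL j => dw (F q)) := hdwi.comp hF
  have key : ∀ (z : EL (xx P)) (i : EL j), dw (F (pt z, i)) = dw (e z i) := fun z i => by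
    rw [hF' z i]
  have key' : ∀ (z : YY S) (hz : z ∈ P) (i : EL j), dw (F (z, i)) = dw (e (mk z hz) i) :=
    fun z hz i => by
      rw [← key, pt_mk]
  have dinj : ∀ a b, dw a = dw b → a = b := fun a b h => by rw [← hwd' a, h, hwd']
  refine ⟨EL j, inferInstance, fun q => dw (F q), ⟨⟨i0, hi0⟩⟩, hE, fun y z hy hz h4 => ?_,
    fun y U hy => ?_, fun φ hφ h4 => ?_⟩
  · have h5 : mk (N := N) y hy = mk z hz := h1 _ _ (funext fun i => dinj _ _ (by
      rw [← key' y hy, ← key' z hz]
      exact h4 i))
    rw [← pt_mk (N := N) y hy, h5, pt_mk]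
  · constructor
    · intro h4
      obtain ⟨O, hO, hyO, hO'⟩ := h4.open
      have h5 : Mem (code (M := N) (O ∩ P)) (tt P) := mem_tt'.2 hO.rel
      obtain ⟨-, h6⟩ := (h2 _).1 h5
      obtain ⟨s, hs, hs', h7⟩ := h6 (mk y hy) (mem_cd'.2 (mem_inter.2 ⟨hyO, hy⟩))
      obtain ⟨s, rfl⟩ := exists_codeE hs'
      refine ⟨s, isFinite_iff.1 hs, fun z hz h8 => ?_⟩
      have h9 := h7 (mk z hz) fun i hi => dinj _ _ (by
        rw [← key' z hz, ← key' y hy]
        exact h8 i (mem_cE'.1 hi))
      have h10 := (mem_inter.1 (mem_cd'.1 h9)).1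
      exact nbR_set.1 (hO' z h10) hz
    · rintro ⟨s, hs, h4⟩
      -- the set of the points near `y` is open
      have hr : Int N (fun z : YY S => z ∈ P ∧ ∀ i : EL j, i ∈ s → dw (F (z, i)) = dw (F (y, i))) := by
        ((repeat' (first | with_reducible exact IntF.id | with_reducible exact IntF.fst' | with_reducible exact IntF.snd' | with_reducible exact IntF.const _ | with_reducible exact Int.const _ | assumption | with_reducible apply Int.and | with_reducible apply Int.or | with_reducible apply Int.not | with_reducible apply Int.imp | with_reducible apply Int.iff | with_reducible apply Int.ne | with_reducible apply Int.eq | with_reducible apply Int.mem | with_reducible apply Int.subset | with_reducible apply Int.ltN | with_reducible apply Int.leN | with_reducible_and_instances apply Int.le | with_reducible_and_instances apply Int.lt | with_reducible apply Int.all | with_reducible apply Int.ex | with_reducible apply IntF.fst | with_reducible apply IntF.snd | with_reducible apply IntF.app | with_reducible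 apply IntF.inl | with_reducible apply IntF.inr | with_reducible_and_instances apply IntF.mul | with_reducible_and_instances apply IntF.inv | with_reducible_and_instances apply IntF.add | with_reducible_and_instances apply IntF.sub | with_reducible_and_instances apply IntF.neg | with_reducible_and_instances apply IntF.smul | with_reducible apply Int.fin | with_reducible apply IntF.sep | with_reducible apply IntF.lam | with_reducible apply IntF.insert | with_reducible apply IntF.singleton | with_reducible apply IntF.union | with_reducible apply IntF.iimage | with_reducible apply IntF.ite | with_reducible apply IntF.the | with_reducible apply IntF.irec | with_reducible apply IntF.succ | with_reducible apply IntF.val | with_reducible apply IntF.mk | (with_reducible refine Int.comp ?_ ?_; assumption) | (with_reducible refine Int.comp₂ ?_ ?_ ?_; assumption) | (with_reducible refine Int.comp₃ ?_ ?_ ?_ ?_; assumption) | (with_reducible refine Int.comp₄ ?_ ?_ ?_ ?_ ?_; assumption) | (with_reducible refine IntF.comp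 ?_ ?_; assumption) | (with_reducible refine IntF.comp₂ ?_ ?_ ?_; assumption) | (with_reducible refine IntF.comp₃ ?_ ?_ ?_ ?_; assumption) | with_reducible apply IntF.pair)))
      have hm : ∀ z : YY S, z ∈ (sep N fun z : YY S => z ∈ P ∧ ∀ i : EL j, i ∈ s →
          dw (F (z, i)) = dw (F (y, i))) ↔ (z ∈ P ∧ ∀ i : EL j, i ∈ s →
          dw (F (z, i)) = dw (F (y, i))) := fun z => mem_sep hr
      have h5 : Mem (code (M := N) (sep N fun z : YY S => z ∈ P ∧ ∀ i : EL j, i ∈ s →
          dw (F (z, i)) = dw (F (y, i)))) (tt P) := by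
        refine (h2 _).2 ⟨fun z hz => ?_, fun z hz => ?_⟩
        · obtain ⟨a, ha, rfl⟩ := mem_cd.1 hz
          exact mem_cd'.2 ((hm a).1 ha).1
        · refine ⟨code s, isFinite_iff.2 hs, fun i hi => ?_, fun z' hz' => ?_⟩
          · obtain ⟨a, -, rfl⟩ := mem_cE.1 hi
            exact a.2
          · refine (mem_pt z').2 ((hm _).2 ⟨pt_mem z', fun i hi => ?_⟩)
            have h6 := ((hm _).1 ((mem_pt z).1 hz)).2 i hi
            rw [← h6, key, key, hz' i (mem_cE'.2 hi)]
      have h6 := (mem_tt'.1 h5).2 y ((hm y).2 ⟨hy, fun i _ => rfl⟩)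
      exact h6.mono fun z _ hz => h4 z ((hm z).1 hz).1 ((hm z).1 hz).2
  · have hφi : InM (fun i : EL j => wd (φ i)) := by
      obtain ⟨g, hg⟩ := hφ
      refine ⟨g, fun i z => ?_⟩
      refine Iff.trans ?_ graph_iff.symm
      have h5 := hg (i, dw z)
      have h6 : code (M := N) (i, dw z) = op i.1 z.1 := by
        change op (code i) (code (dw z)) = _
        rw [hdw]
        rfl
      rw [h6] at h5
      refine Iff.trans ?_ h5.symm
      change _ ↔ φ i = dw z
      constructor
      · rintro rfl
        rw [hdw']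
      · intro h7
        change wd (φ i) = z
        rw [h7, hwd']
    obtain ⟨z, hz⟩ := h3 _ hφi fun s hs hs' => by
      obtain ⟨s, rfl⟩ := exists_codeE hs'
      obtain ⟨z, hz, h5⟩ := h4 s (isFinite_iff.1 hs)
      refine ⟨mk z hz, fun i hi => ?_⟩
      have h6 : dw (F (z, i)) = φ i := h5 i (mem_cE'.1 hi)
      rw [key' z hz] at h6
      rw [← h6, hwd']
    refine ⟨pt z, pt_mem z, fun i => ?_⟩
    change dw (F (pt z, i)) = φ i
    rw [key, hz, hdw']

end

end Pool.Agent.R602
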