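import Pool.Agent.R602.BrB
import Pool.Agent.H635R2.RealN

/-!
# Real valued functions, filters and Baire sets in the model
-/

set_option maxHeartbeats 1000000
set_option linter.all false
set_option synthInstance.maxSize 2000

namespace Pool.Agent.R602

open FirstOrder FirstOrder.Language
open Pool.Agent.Helper672.ZFA
open Pool.Agent.Helper672.ZFA.R602
open Pool.Agent.Helper672.ZFA.H310M.R602 (BD)
open Pool.Agent.H310
open Pool.Agent.H310Cards
open Pool.Agent.H310Top (IsTopology IsClosed)
open Pool.Agent.W924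
open Pool.Agent.H635Amen (IsReals)
open Pool.Agent.R602St

universe u u₁ u₂

section

attribute [local instance] Helper672.Plain.toL

variable {N : Type u} [Helper672.Plain.LSet.Structure N] [hZ : Helper672.Plain.Zermelo N]

local instance instModelC : IsModel N := Helper672.Plain.isModel_toL

variable {A : Type u} [ITy N A] {S : BD N A}

section reals

variable {r : N} [Field (EL r)] [LinearOrder (EL r)] [IsStrictOrderedRing (EL r)]

theorem iadd_of (hr : IsReals r) : IAdd N (EL r) :=
  ⟨int_of_opGraph (f := fun x y : EL r => x + y) hr.add⟩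

theorem ile_of (hr : IsReals r) : ILE N (EL r) := by
  obtain ⟨gl, hl⟩ := hr.le
  exact ⟨⟨gl, fun q => ((hl q.1 q.2).trans graph_iff).symm⟩⟩

theorem qs_of (hr : IsReals r) : QS N (EL r) := by
  obtain ⟨q, h1, h2, h3, h4⟩ := exists_q hr
  exact ⟨q, h1, h2, h3, h4⟩

theorem isCts_iff (hr : IsReals r) {P : IPow N (YY S)} {f : EL (xx P) → EL r}
    {F : IFun N (YY S) (EL r)} (h : ∀ z, f z = F (pt z)) : IsCts (tt P) f ↔ CtR P F := by
  haveI := iadd_of hr
  haveI := ile_of hr
  constructor
  · rintro ⟨-, h1⟩ y hy ε hε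
    obtain ⟨u, hu, h2, h3⟩ := h1 (mk y hy) ε hε
    obtain ⟨U, hU, rfl⟩ := mem_tt.1 hu
    refine (hU.2 y (mem_cd'.1 h2)).mono fun z hz hzU => cl_set.2 (cl_iff.2 ?_)
    have h4 := h3 (mk z hz) (mem_cd'.2 hzU)
    rwa [h, h, pt_mk, pt_mk] at h4
  · intro h1
    have h0 : f = fun z => F (pt z) := funext h
    refine ⟨?_, fun y ε hε => ?_⟩
    · rw [h0]
      exact inM_of F.int
    · obtain ⟨O, hO, hyO, hO'⟩ := (h1 (pt y) (pt_mem y) ε hε).open
      refine ⟨code (O ∩ P), mem_tt'.2 hO.rel, (mem_pt y).2 (mem_inter.2 ⟨hyO, pt_mem y⟩),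
        fun z hz => ?_⟩
      rw [h, h]
      have h2 := hO' _ (mem_inter.1 ((mem_pt z).1 hz)).1
      exact cl_iff.1 (cl_set.1 (nbR_set.1 h2 (pt_mem z)))

theorem isZeroSet_iff (hr : IsReals r) {P : IPow N (YY S)} {z : N} :
    IsZeroSet r (tt P) (xx P) z ↔ ∃ Z, ZrP (EL r) P Z ∧ code Z = z := by
  constructor
  · rintro ⟨f, hf, h1⟩
    obtain ⟨F, hF, hF'⟩ := of_inM (X := YY S) hf.1 0
    have h2 : CtR P ⟨F, hF⟩ := (isCts_iff hr hF').1 hf
    have hm : ∀ y : YY S, y ∈ (sep N fun y => y ∈ P ∧ F y = 0) ↔ (y ∈ P ∧ F y = 0) :=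
      fun y => mem_sep (by ((repeat' (first | with_reducible exact IntF.id | with_reducible exact IntF.fst' | with_reducible exact IntF.snd' | with_reducible exact IntF.const _ | with_reducible exact Int.const _ | assumption | with_reducible apply Int.and | with_reducible apply Int.or | with_reducible apply Int.not | with_reducible apply Int.imp | with_reducible apply Int.iff | with_reducible apply Int.ne | with_reducible apply Int.eq | with_reducible apply Int.mem | with_reducible apply Int.subset | with_reducible apply Int.ltN | with_reducible apply Int.leN | with_reducible_and_instances apply Int.le | with_reducible_and_instances apply Int.lt | with_reducible apply Int.all | with_reducible apply Int.ex | with_reducible apply IntF.fst | with_reducible apply IntF.snd | with_reducible apply IntF.app | with_reducible apply IntF.inl | with_reducible apply IntF.inr | with_reducible_and_instances apply IntF.mul | with_reducible_and_instances apply IntF.inv | with_reducible_and_instances apply IntF.add | with_reducible_and_instances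 apply IntF.sub | with_reducible_and_instances apply IntF.neg | with_reducible_and_instances apply IntF.smul | with_reducible apply Int.fin | with_reducible apply IntF.sep | with_reducible apply IntF.lam | with_reducible apply IntF.insert | with_reducible apply IntF.singleton | with_reducible apply IntF.union | with_reducible apply IntF.iimage | with_reducible apply IntF.ite | with_reducible apply IntF.the | with_reducible apply IntF.irec | with_reducible apply IntF.succ | with_reducible apply IntF.val | with_reducible apply IntF.mk | (with_reducible refine Int.comp ?_ ?_; assumption) | (with_reducible refine Int.comp₂ ?_ ?_ ?_; assumption) | (with_reducible refine Int.comp₃ ?_ ?_ ?_ ?_; assumption) | (with_reducible refine Int.comp₄ ?_ ?_ ?_ ?_ ?_; assumption) | (with_reducible refine IntF.comp ?_ ?_; assumption) | (with_reducible refine IntF.comp₂ ?_ ?_ ?_; assumption) | (with_reducible refine IntF.comp₃ ?_ ?_ ?_ ?_; assumption) | with_reducible apply IntF.pair))))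
    refine ⟨_, ⟨_, h2, hm⟩, extM fun y => ?_⟩
    refine mem_cd.trans (Iff.trans ?_ (h1 y).symm)
    constructor
    · rintro ⟨a, ha, rfl⟩
      obtain ⟨h3, h4⟩ := (hm a).1 ha
      refine ⟨mem_cd'.2 h3, ?_⟩
      have h5 := hF' (mk a h3)
      rw [pt_mk, h4] at h5
      exact h5
    · rintro ⟨h3, h4⟩
      obtain ⟨a, ha, rfl⟩ := mem_xx.1 h3
      refine ⟨a, (hm a).2 ⟨ha, ?_⟩, rfl⟩
      have h5 := hF' (mk a ha)
      rw [pt_mk] at h5
      rw [← h5]
      exact h4
  · rintro ⟨Z, ⟨F, h1, h2⟩, rfl⟩
    refine ⟨fun z => F (pt z), (isCts_iff hr fun _ => rfl).2 h1, fun y => ?_⟩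
    constructor
    · intro hy
      obtain ⟨a, ha, rfl⟩ := mem_cd.1 hy
      obtain ⟨h3, h4⟩ := (h2 a).1 ha
      refine ⟨mem_cd'.2 h3, ?_⟩
      change F (pt (mk a h3)) = 0
      rw [pt_mk, h4]
    · rintro ⟨h3, h4⟩
      obtain ⟨a, ha, rfl⟩ := mem_xx.1 h3
      refine mem_cd'.2 ((h2 a).2 ⟨ha, ?_⟩)
      have h5 : F (pt (mk (N := N) a ha)) = 0 := h4
      rwa [pt_mk] at h5

theorem isTychonoff_tt (hr : IsReals r) (P : IPow N (YY S)) : IsTychonoff r (tt P) (xx P) := by
  haveI := iadd_of hr
  haveI := ile_of hr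
  refine ⟨isT1_tt P, fun y c hc hy => ?_⟩
  obtain ⟨h1, u, hu, h2⟩ := hc
  obtain ⟨U, hU, rfl⟩ := mem_tt.1 hu
  have hyU : pt y ∈ U := (mem_pt y).1 ((h2 _).2 ⟨y.2, hy⟩)
  obtain ⟨F, h3, h4, h5, h6⟩ := exists_sep (R := EL r) (hU.2 _ hyU)
  refine ⟨fun z => F (pt z), (isCts_iff hr fun _ => rfl).2 (h3.rel P), fun z => h4 _, h5,
    fun z hz => h6 _ (pt_mem z) fun h7 => ((h2 z.1).1 ((mem_pt z).2 h7)).2 hz⟩

theorem isRealcompact_tt {P : IPow N (YY S)} (h : RCp P (EL r)) :
    IsRealcompact r (tt P) (xx P) := by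
  obtain ⟨J, _, E, hE, h1, h2, h3⟩ := h
  obtain ⟨dj, jd, hdj, hjd, hdj', hjd'⟩ := exists_dj N J
  refine ⟨dom N J, fun z i => E (pt z, dj i), inM₂_of (F := E) hE dj hdj,
    fun y z hyz => ?_, fun u => ?_, fun φ hφ h4 => ?_⟩
  · have h4 : pt y = pt z := h1 _ _ (pt_mem y) (pt_mem z) fun j => by
      have h5 := congrFun hyz (jd j)
      simp only [hdj'] at h5
      exact h5
    exact pt_inj h4
  · have key : ∀ (y : YY S) (U : IPow N (YY S)), y ∈ P → (NbR P y U ↔ ∃ s, IsFinite s ∧
        (∀ i, Mem i s → Mem i (dom N J)) ∧ ∃ ε : EL r, 0 < ε ∧ ∀ z : EL (xx P),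
        (∀ i : EL (dom N J), Mem i.1 s →
          |E (pt z, dj i) - E (y, dj i)| < ε) → Mem z.1 (code (M := N) U)) := by
      intro y U hy
      rw [h2 y U hy]
      constructor
      · rintro ⟨s, hs, ε, hε, h5⟩
        refine ⟨code s, isFinite_iff.2 hs, fun i hi => ?_, ε, hε, fun z hz => ?_⟩
        · obtain ⟨j, -, rfl⟩ := mem_cd.1 hi
          exact code_mem_dom (M := N) j
        · refine (mem_pt z).2 (h5 _ (pt_mem z) fun j hj => ?_)
          have h6 := hz (jd j) (by
            rw [hjd]
            exact mem_cd'.2 hj)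
          rw [hdj'] at h6
          exact cl_iff.2 h6
      · rintro ⟨s, hs, hs', ε, hε, h5⟩
        obtain ⟨s, rfl⟩ := exists_cdp (X := J) (u := s) fun z hz => mem_dom.1 (hs' z hz)
        refine ⟨s, isFinite_iff.1 hs, ε, hε, fun z hz h6 => ?_⟩
        have h7 := (mem_pt (mk z hz)).1 (h5 (mk z hz) fun i hi => by
          rw [pt_mk]
          exact cl_iff.1 (h6 (dj i) (by
            rw [← hdj] at hi
            exact mem_cd'.1 hi)))
        rwa [pt_mk] at h7
    constructor
    · intro hu
      obtain ⟨U, hU, rfl⟩ := mem_tt.1 hu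
      refine ⟨(isTopology_tt P).sub _ hu, fun y hy => ?_⟩
      exact (key (pt y) U (pt_mem y)).1 (hU.2 _ ((mem_pt y).1 hy))
    · rintro ⟨h4, h5⟩
      obtain ⟨U, rfl, hU⟩ := exists_sub (X := YY S) (P := P) h4
      refine mem_tt'.2 ⟨hU, fun y hy => (key y U (hU y hy)).2 ?_⟩
      have h6 := h5 (mk y (hU y hy)) (mem_cd'.2 hy)
      simp only [pt_mk] at h6
      exact h6
  · have hφi : IntF N (fun j : J => φ (jd j)) := by
      obtain ⟨g, hg⟩ := hφ
      have hr : Int N (fun q : J × EL r => Mem (code q) g) := ⟨g, fun _ => Iff.rfl⟩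
      refine IntF.of_rel (r := fun j n => Mem (code (j, n)) g) hr fun j n => ?_
      have h5 := (hg (jd j) n).trans graph_iff
      rw [hjd] at h5
      exact h5.symm
    obtain ⟨z, hz, h5⟩ := h3 _ hφi fun s hs ε hε => by
      obtain ⟨z, hz⟩ := h4 (code s) (isFinite_iff.2 hs) (fun i hi => by
        obtain ⟨j, -, rfl⟩ := mem_cd.1 hi
        exact code_mem_dom (M := N) j) ε hε
      refine ⟨pt z, pt_mem z, fun j hj => cl_iff.2 ?_⟩
      have h6 := hz (jd j) (by
        rw [hjd]
        exact mem_cd'.2 hj)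
      rwa [hdj'] at h6
    refine ⟨mk z hz, funext fun i => ?_⟩
    change E (pt (mk z hz), dj i) = φ i
    rw [pt_mk, h5, hjd']

/-- The space without the last point is not realcompact. -/
theorem not_realcompact (hr : IsReals r) : ¬ IsRealcompact r (tt (XX S)) (xx (XX S)) := by
  haveI := iadd_of hr
  haveI := ile_of hr
  rintro ⟨j, e, h0, h1, h2, h3⟩
  obtain ⟨F, hF, hF'⟩ := of_inM₂ (X := YY S) h0 0
  have key' : ∀ (z : YY S) (hz : z ∈ XX S) (i : EL j), F (z, i) = e (mk z hz) i :=
    fun z hz i => by
      rw [hF', pt_mk]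
  refine not_rc hF (fun U hU => ?_) fun φ hφ h4 => ?_
  · constructor
    · intro h y hy
      obtain ⟨-, h4⟩ := (h2 (code (M := N) U)).1 (mem_tt'.2 h)
      obtain ⟨s, hs, hs', ε, hε, h5⟩ := h4 (mk y (hU y hy)) (mem_cd'.2 hy)
      obtain ⟨s, rfl⟩ := exists_codeE hs'
      refine ⟨s, isFinite_iff.1 hs, ε, hε, fun z hz h6 => ?_⟩
      refine mem_cd'.1 (h5 (mk z hz) fun i hi => ?_)
      rw [← key' z hz, ← key' y (hU y hy)]
      exact cl_iff.1 (h6 i (mem_cE'.1 hi))
    · intro h
      refine mem_tt'.1 ((h2 (code (M := N) U)).2 ⟨fun z hz => ?_, fun y hy => ?_⟩)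
      · obtain ⟨a, ha, rfl⟩ := mem_cd.1 hz
        exact mem_cd'.2 (hU a ha)
      · obtain ⟨s, hs, ε, hε, h5⟩ := h (pt y) ((mem_pt y).1 hy)
        refine ⟨code s, isFinite_iff.2 hs, fun i hi => ?_, ε, hε, fun z hz => ?_⟩
        · obtain ⟨a, -, rfl⟩ := mem_cE.1 hi
          exact a.2
        · refine (mem_pt z).2 (h5 _ (pt_mem z) fun i hi => cl_iff.2 ?_)
          rw [← hF', ← hF']
          exact hz i (mem_cE'.2 hi)
  · have hφi : InM φ := by
      obtain ⟨g, hg⟩ := hφ
      refine ⟨g, fun i z => ?_⟩
      exact Iff.trans (hg (i, z)).symm graph_iff.symm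
    obtain ⟨z, hz⟩ := h3 _ hφi fun s hs hs' ε hε => by
      obtain ⟨s, rfl⟩ := exists_codeE hs'
      obtain ⟨z, hz, h5⟩ := h4 s (isFinite_iff.1 hs) ε hε
      refine ⟨mk z hz, fun i hi => ?_⟩
      rw [← key' z hz]
      exact cl_iff.1 (h5 i (mem_cE'.1 hi))
    refine ⟨pt z, pt_mem z, fun i => ?_⟩
    rw [← hF', hz]

end reals

/-- The space without the last point is not N-compact. -/
theorem not_nCompact : ¬ IsNCompact (tt (XX S)) (xx (XX S)) := by
  intro h
  obtain ⟨r, _, _, _, hr⟩ := H635.exists_reals hZ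
  haveI := iadd_of hr
  haveI := ile_of hr
  exact not_RCp (R := EL r) (nCp_of h).real

/-! ### The subspaces -/

theorem seqUnion {P : N → Prop} (h : ∀ m, P (xx (SS S m))) : IsSeqUnion (xx (XX S)) P := by
  refine ⟨dom N (INat N), dom N (IPow N (YY S)), code (⟨_, int_SS (S := S)⟩ :
    IFun N (INat N) (IPow N (YY S))), isOmega_dom, isFun_seq _ isOmega_dom fun n =>
    code_mem_dom (M := N) _, fun n a hna => ?_, fun z => ?_⟩
  · obtain ⟨m, rfl, rfl⟩ := app_code.1 hna
    exact h m
  · constructor
    · intro hz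
      obtain ⟨y, hy, rfl⟩ := mem_cd.1 hz
      obtain ⟨m, hm⟩ := exists_SS hy
      exact ⟨_, _, app_code.2 ⟨m, rfl, rfl⟩, mem_cd'.2 hm⟩
    · rintro ⟨n, a, h1, h2⟩
      obtain ⟨m, rfl, rfl⟩ := app_code.1 h1
      obtain ⟨y, hy, rfl⟩ := mem_cd.1 h2
      exact mem_cd'.2 (SS_sub hy)

theorem sub_SS (m : INat N) : ∀ y, y ∈ SS S m → y ∈ XX S := fun y => SS_sub

theorem cdEmb (m : INat N) : IsCdEmbedded (tt (XX S)) (xx (XX S)) (xx (SS S m)) := by
  intro t' ht' a ha
  obtain rfl := subTop_unique ht' (isSubTop_tt (sub_SS m))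
  obtain ⟨Z, hZ, rfl⟩ := isCd_tt.1 ha
  obtain ⟨W, hW, h⟩ := cd_emb hZ
  refine ⟨code W, isCd_tt.2 ⟨W, hW, rfl⟩, fun z => ?_⟩
  constructor
  · intro hz
    obtain ⟨y, hy, rfl⟩ := mem_cd.1 hz
    exact ⟨mem_cd'.2 ((h y).1 hy).1, mem_cd'.2 ((h y).1 hy).2⟩
  · rintro ⟨h1, h2⟩
    obtain ⟨y, hy, rfl⟩ := mem_cd.1 h1
    exact mem_cd'.2 ((h y).2 ⟨hy, mem_cd'.1 h2⟩)

theorem twoEmb (m : INat N) : IsTwoEmbedded (tt (XX S)) (xx (XX S)) (xx (SS S m)) := by
  intro t' ht' a ha
  obtain rfl := subTop_unique ht' (isSubTop_tt (sub_SS m))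
  obtain ⟨Z, hZ, rfl⟩ := isClopen_tt.1 ha
  obtain ⟨W, hW, h⟩ := clp_emb hZ
  refine ⟨code W, isClopen_tt.2 ⟨W, hW, rfl⟩, fun z => ?_⟩
  constructor
  · intro hz
    obtain ⟨y, hy, rfl⟩ := mem_cd.1 hz
    exact ⟨mem_cd'.2 ((h y).1 hy).1, mem_cd'.2 ((h y).1 hy).2⟩
  · rintro ⟨h1, h2⟩
    obtain ⟨y, hy, rfl⟩ := mem_cd.1 h1
    exact mem_cd'.2 ((h y).2 ⟨hy, mem_cd'.1 h2⟩)

theorem zEmb {r : N} [Field (EL r)] [LinearOrder (EL r)] [IsStrictOrderedRing (EL r)]
    (hr : IsReals r) (m : INat N) :
    IsZEmbedded r (tt (XX S)) (xx (XX S)) (xx (SS S m)) := by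
  haveI := iadd_of hr
  haveI := ile_of hr
  intro t' ht' a ha
  obtain rfl := subTop_unique ht' (isSubTop_tt (sub_SS m))
  obtain ⟨Z, hZ, rfl⟩ := (isZeroSet_iff hr).1 ha
  obtain ⟨W, hW, h⟩ := z_emb hZ
  refine ⟨code W, (isZeroSet_iff hr).2 ⟨W, hW, rfl⟩, fun z => ?_⟩
  constructor
  · intro hz
    obtain ⟨y, hy, rfl⟩ := mem_cd.1 hz
    exact ⟨mem_cd'.2 ((h y).1 hy).1, mem_cd'.2 ((h y).1 hy).2⟩
  · rintro ⟨h1, h2⟩
    obtain ⟨y, hy, rfl⟩ := mem_cd.1 h1
    exact mem_cd'.2 ((h y).2 ⟨hy, mem_cd'.1 h2⟩)

/-! ### Ultrafilters -/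

theorem ultra_fixed {P : N → Prop} {Lt : IPow N (YY S) → Prop} (hLt : Int N Lt)
    (hI : ∀ Z W, Lt Z → Lt W → Lt (Z ∩ W)) (hsub : ∀ Z, Lt Z → ∀ y, y ∈ Z → y ∈ XX S)
    (hT : ∀ m, Lt (ZX S m)) (hE : ∀ e, Lt (XE e)) (hP : ∀ a, P a ↔ ∃ Z, Lt Z ∧ code Z = a)
    {F : N} (hF : IsUltrafilterIn P F) (hc : HasCip F) : IsFixed F := by
  obtain ⟨hF1, hF2⟩ := hF
  obtain ⟨FF, rfl⟩ := exists_cdp (X := IPow N (YY S)) (u := F) fun z hz => by
    obtain ⟨Z, -, hZ⟩ := (hP z).1 (hF1.sub z hz)
    exact ⟨Z, hZ⟩
  have hP' : ∀ Z : IPow N (YY S), P (code Z) ↔ Lt Z := fun Z => by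
    rw [hP]
    exact ⟨fun ⟨W, h1, h2⟩ => cd_inj h2 ▸ h1, fun h => ⟨Z, h, rfl⟩⟩
  have hinter : ∀ (Z W : IPow N (YY S)) (z : N), Mem z (code (M := N) (Z ∩ W)) ↔
      Mem z (code (M := N) Z) ∧ Mem z (code (M := N) W) := by
    intro Z W z
    constructor
    · intro h
      obtain ⟨y, hy, rfl⟩ := mem_cd.1 h
      exact ⟨mem_cd'.2 (mem_inter.1 hy).1, mem_cd'.2 (mem_inter.1 hy).2⟩
    · rintro ⟨h1, h2⟩
      obtain ⟨y, hy, rfl⟩ := mem_cd.1 h1
      exact mem_cd'.2 (mem_inter.2 ⟨hy, mem_cd'.1 h2⟩)
  have hFF : FltP Lt FF := by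
    refine ⟨fun Z hZ => (hP' Z).1 (hF1.sub _ (mem_cd'.2 hZ)), ?_, fun Z hZ => ?_,
      fun Z W hZ hW => ?_, fun Z W hZ hW h => ?_⟩
    · obtain ⟨a, ha⟩ := hF1.nonempty
      obtain ⟨Z, hZ, rfl⟩ := mem_cd.1 ha
      exact ⟨Z, hZ⟩
    · obtain ⟨z, hz⟩ := hF1.pos _ (mem_cd'.2 hZ)
      obtain ⟨y, hy, rfl⟩ := mem_cd.1 hz
      exact ⟨y, hy⟩
    · exact mem_cd'.1 (hF1.inter _ _ _ (mem_cd'.2 hZ) (mem_cd'.2 hW) (hinter Z W))
    · refine mem_cd'.1 (hF1.up _ _ (mem_cd'.2 hZ) ((hP' W).2 hW) fun z hz => ?_)
      obtain ⟨y, hy, rfl⟩ := mem_cd.1 hz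
      exact mem_cd'.2 (h y hy)
  obtain ⟨y, hy⟩ := fixed_of hLt hI hsub hT hE hFF (fun G hG h1 Z hZ => by
    refine mem_cd'.1 (hF2 (code G) ⟨fun a ha => ?_, ?_, fun a ha => ?_, fun a b c ha hb hc => ?_,
      fun a b ha hb h => ?_⟩ (fun a ha => ?_) _ (mem_cd'.2 hZ))
    · obtain ⟨W, hW, rfl⟩ := mem_cd.1 ha
      exact (hP' W).2 (hG.sub W hW)
    · obtain ⟨W, hW⟩ := hG.ne
      exact ⟨_, mem_cd'.2 hW⟩
    · obtain ⟨W, hW, rfl⟩ := mem_cd.1 ha
      obtain ⟨y, hy⟩ := hG.pos W hW
      exact ⟨_, mem_cd'.2 hy⟩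
    · obtain ⟨W, hW, rfl⟩ := mem_cd.1 ha
      obtain ⟨W', hW', rfl⟩ := mem_cd.1 hb
      have h2 : c = code (W ∩ W') := extM fun z => (hc z).trans (hinter W W' z).symm
      rw [h2]
      exact mem_cd'.2 (hG.inter W W' hW hW')
    · obtain ⟨W, hW, rfl⟩ := mem_cd.1 ha
      obtain ⟨W', hW', rfl⟩ := (hP b).1 hb
      exact mem_cd'.2 (hG.up W W' hW hW' fun y hy => mem_cd'.1 (h _ (mem_cd'.2 hy)))
    · obtain ⟨W, hW, rfl⟩ := mem_cd.1 ha
      exact mem_cd'.2 (h1 W hW)) fun s hs => by
      obtain ⟨z, hz⟩ := hc (dom N (INat N)) (code s) isOmega_dom (isFun_seq s isOmega_dom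
        fun n => mem_cd'.2 (hs n))
      have h2 := hz _ _ (app_code.2 ⟨(0 : INat N), rfl, rfl⟩)
      obtain ⟨y, hy, rfl⟩ := mem_cd.1 h2
      exact ⟨y, fun n => mem_cd'.1 (hz _ _ (app_code.2 ⟨n, rfl, rfl⟩))⟩
  refine ⟨code y, fun a ha => ?_⟩
  obtain ⟨Z, hZ, rfl⟩ := mem_cd.1 ha
  exact mem_cd'.2 (hy Z hZ)

theorem cd_fixed {F : N} (hF : IsUltrafilterIn (IsCd (tt (XX S)) (xx (XX S))) F)
    (hc : HasCip F) : IsFixed F := by
  have h := int_CdP (S := S)
  refine ultra_fixed (S := S) (Lt := fun Z => CdP (XX S) Z) (by ((repeat' (first | with_reducible exact IntF.id | with_reducible exact IntF.fst' | with_reducible exact IntF.snd' | with_reducible exact IntF.const _ | with_reducible exact Int.const _ | assumption | with_reducible apply Int.and | with_reducible apply Int.or | with_reducible apply Int.not | with_reducible apply Int.imp | with_reducible apply Int.iff | with_reducible apply Int.ne | with_reducible apply Int.eq | with_reducible apply Int.mem | with_reducible apply Int.subset | with_reducible apply Int.ltN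 | with_reducible apply Int.leN | with_reducible_and_instances apply Int.le | with_reducible_and_instances apply Int.lt | with_reducible apply Int.all | with_reducible apply Int.ex | with_reducible apply IntF.fst | with_reducible apply IntF.snd | with_reducible apply IntF.app | with_reducible apply IntF.inl | with_reducible apply IntF.inr | with_reducible_and_instances apply IntF.mul | with_reducible_and_instances apply IntF.inv | with_reducible_and_instances apply IntF.add | with_reducible_and_instances apply IntF.sub | with_reducible_and_instances apply IntF.neg | with_reducible_and_instances apply IntF.smul | with_reducible apply Int.fin | with_reducible apply IntF.sep | with_reducible apply IntF.lam | with_reducible apply IntF.insert | with_reducible apply IntF.singleton | with_reducible apply IntF.union | with_reducible apply IntF.iimage | with_reducible apply IntF.ite | with_reducible apply IntF.the | with_reducible apply IntF.irec | with_reducible apply IntF.succ | with_reducible apply IntF.val | with_reducible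 apply IntF.mk | (with_reducible refine Int.comp ?_ ?_; assumption) | (with_reducible refine Int.comp₂ ?_ ?_ ?_; assumption) | (with_reducible refine Int.comp₃ ?_ ?_ ?_ ?_; assumption) | (with_reducible refine Int.comp₄ ?_ ?_ ?_ ?_ ?_; assumption) | (with_reducible refine IntF.comp ?_ ?_; assumption) | (with_reducible refine IntF.comp₂ ?_ ?_ ?_; assumption) | (with_reducible refine IntF.comp₃ ?_ ?_ ?_ ?_; assumption) | with_reducible apply IntF.pair))))
    (fun Z W => CdP.inter) (fun Z hZ y hy => ?_) cd_ZX cd_XE (fun a => isCd_tt) hF hc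
  obtain ⟨C, h1, h2⟩ := hZ
  exact (h1 0).1.1 y ((h2 y).1 hy 0)

theorem z_fixed {r : N} [Field (EL r)] [LinearOrder (EL r)] [IsStrictOrderedRing (EL r)]
    (hr : IsReals r) {F : N} (hF : IsUltrafilterIn (IsZeroSet r (tt (XX S)) (xx (XX S))) F)
    (hc : HasCip F) : IsFixed F := by
  haveI := iadd_of hr
  haveI := ile_of hr
  have h := int_ZrP (S := S) (R := EL r)
  refine ultra_fixed (S := S) (Lt := fun Z => ZrP (EL r) (XX S) Z) (by ((repeat' (first | with_reducible exact IntF.id | with_reducible exact IntF.fst' | with_reducible exact IntF.snd' | with_reducible exact IntF.const _ | with_reducible exact Int.const _ | assumption | with_reducible apply Int.and | with_reducible apply Int.or | with_reducible apply Int.not | with_reducible apply Int.imp | with_reducible apply Int.iff | with_reducible apply Int.ne | with_reducible apply Int.eq | with_reducible apply Int.mem | with_reducible apply Int.subset | with_reducible apply Int.ltN | with_reducible apply Int.leN | with_reducible_and_instances apply Int.le |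 with_reducible_and_instances apply Int.lt | with_reducible apply Int.all | with_reducible apply Int.ex | with_reducible apply IntF.fst | with_reducible apply IntF.snd | with_reducible apply IntF.app | with_reducible apply IntF.inl | with_reducible apply IntF.inr | with_reducible_and_instances apply IntF.mul | with_reducible_and_instances apply IntF.inv | with_reducible_and_instances apply IntF.add | with_reducible_and_instances apply IntF.sub | with_reducible_and_instances apply IntF.neg | with_reducible_and_instances apply IntF.smul | with_reducible apply Int.fin | with_reducible apply IntF.sep | with_reducible apply IntF.lam | with_reducible apply IntF.insert | with_reducible apply IntF.singleton | with_reducible apply IntF.union | with_reducible apply IntF.iimage | with_reducible apply IntF.ite | with_reducible apply IntF.the | with_reducible apply IntF.irec | with_reducible apply IntF.succ | with_reducible apply IntF.val | with_reducible apply IntF.mk | (with_reducible refine Int.comp ?_ ?_; assumption) |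 (with_reducible refine Int.comp₂ ?_ ?_ ?_; assumption) | (with_reducible refine Int.comp₃ ?_ ?_ ?_ ?_; assumption) | (with_reducible refine Int.comp₄ ?_ ?_ ?_ ?_ ?_; assumption) | (with_reducible refine IntF.comp ?_ ?_; assumption) | (with_reducible refine IntF.comp₂ ?_ ?_ ?_; assumption) | (with_reducible refine IntF.comp₃ ?_ ?_ ?_ ?_; assumption) | with_reducible apply IntF.pair))))
    (fun Z W => ZrP.inter) (fun Z hZ y hy => ?_) (zr_ZX (qs_of hr)) zr_XE
    (fun a => isZeroSet_iff hr) hF hc
  obtain ⟨f, h1, h2⟩ := hZ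
  exact ((h2 y).1 hy).1

/-! ### Baire sets -/

theorem isBaire_XX {r : N} [Field (EL r)] [LinearOrder (EL r)] [IsStrictOrderedRing (EL r)]
    (hr : IsReals r) : IsBaireSet r (tt (iuniv N (YY S))) (xx (iuniv N (YY S))) (xx (XX S)) := by
  haveI := iadd_of hr
  haveI := ile_of hr
  refine ⟨fun z hz => ?_, fun Sg hSg hz => ?_⟩
  · obtain ⟨y, hy, rfl⟩ := mem_cd.1 hz
    exact mem_cd'.2 (by simp)
  · obtain ⟨GG, rfl⟩ : ∃ GG : IPow N (IPow N (YY S)), code GG = Sg := exists_cdp fun a ha => by
      obtain ⟨U, hU, -⟩ := exists_sub (X := YY S) (hSg.sub a ha)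
      exact ⟨U, hU⟩
    refine mem_cd'.2 (baire (R := EL r) (qs_of hr) (fun U hU => ?_) (fun s hs => ?_)
      fun Z hZ => mem_cd'.1 (hz _ ((isZeroSet_iff hr).2 ⟨Z, hZ, rfl⟩)))
    · refine mem_cd'.1 (hSg.compl _ _ (mem_cd'.2 hU) fun z => ?_)
      constructor
      · intro h
        obtain ⟨y, hy, rfl⟩ := mem_cd.1 h
        exact ⟨mem_cd'.2 (by simp), fun h' => mem_icompl.1 hy (mem_cd'.1 h')⟩
      · rintro ⟨h1, h2⟩
        obtain ⟨y, hy, rfl⟩ := mem_cd.1 h1
        exact mem_cd'.2 (mem_icompl.2 fun h' => h2 (mem_cd'.2 h'))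
    · have hm : ∀ y : YY S, y ∈ (sep N fun y => ∃ n, y ∈ s n) ↔ ∃ n, y ∈ s n :=
        fun y => mem_sep (by ((repeat' (first | with_reducible exact IntF.id | with_reducible exact IntF.fst' | with_reducible exact IntF.snd' | with_reducible exact IntF.const _ | with_reducible exact Int.const _ | assumption | with_reducible apply Int.and | with_reducible apply Int.or | with_reducible apply Int.not | with_reducible apply Int.imp | with_reducible apply Int.iff | with_reducible apply Int.ne | with_reducible apply Int.eq | with_reducible apply Int.mem | with_reducible apply Int.subset | with_reducible apply Int.ltN | with_reducible apply Int.leN | with_reducible_and_instances apply Int.le | with_reducible_and_instances apply Int.lt | with_reducible apply Int.all | with_reducible apply Int.ex | with_reducible apply IntF.fst | with_reducible apply IntF.snd | with_reducible apply IntF.app | with_reducible apply IntF.inl | with_reducible apply IntF.inr | with_reducible_and_instances apply IntF.mul | with_reducible_and_instances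 apply IntF.inv | with_reducible_and_instances apply IntF.add | with_reducible_and_instances apply IntF.sub | with_reducible_and_instances apply IntF.neg | with_reducible_and_instances apply IntF.smul | with_reducible apply Int.fin | with_reducible apply IntF.sep | with_reducible apply IntF.lam | with_reducible apply IntF.insert | with_reducible apply IntF.singleton | with_reducible apply IntF.union | with_reducible apply IntF.iimage | with_reducible apply IntF.ite | with_reducible apply IntF.the | with_reducible apply IntF.irec | with_reducible apply IntF.succ | with_reducible apply IntF.val | with_reducible apply IntF.mk | (with_reducible refine Int.comp ?_ ?_; assumption) | (with_reducible refine Int.comp₂ ?_ ?_ ?_; assumption) | (with_reducible refine Int.comp₃ ?_ ?_ ?_ ?_; assumption) | (with_reducible refine Int.comp₄ ?_ ?_ ?_ ?_ ?_; assumption) | (with_reducible refine IntF.comp ?_ ?_; assumption) | (with_reducible refine IntF.comp₂ ?_ ?_ ?_; assumption) | (with_reducible refine IntF.comp₃ ?_ ?_ ?_ ?_;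 assumption) | with_reducible apply IntF.pair))))
      refine mem_cd'.1 (hSg.union (dom N (INat N)) (code s) _ isOmega_dom (isFun_seq s isOmega_dom
        fun n => mem_cd'.2 (hs n)) fun z => ?_)
      constructor
      · intro h
        obtain ⟨y, hy, rfl⟩ := mem_cd.1 h
        obtain ⟨n, hn⟩ := (hm y).1 hy
        exact ⟨_, _, app_code.2 ⟨n, rfl, rfl⟩, mem_cd'.2 hn⟩
      · rintro ⟨n, a, h1, h2⟩
        obtain ⟨m, rfl, rfl⟩ := app_code.1 h1
        obtain ⟨y, hy, rfl⟩ := mem_cd.1 h2
        exact mem_cd'.2 ((hm y).2 ⟨m, hy⟩)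

theorem not_cmc (S : BD N A) : ¬ CMC N := by
  intro h
  have hl := S.int_lev
  have hi : IntF N (fun n : INat N => sep N fun a : A => S.lev a = n) := by ((repeat' (first | with_reducible exact IntF.id | with_reducible exact IntF.fst' | with_reducible exact IntF.snd' | with_reducible exact IntF.const _ | with_reducible exact Int.const _ | assumption | with_reducible apply Int.and | with_reducible apply Int.or | with_reducible apply Int.not | with_reducible apply Int.imp | with_reducible apply Int.iff | with_reducible apply Int.ne | with_reducible apply Int.eq | with_reducible apply Int.mem | with_reducible apply Int.subset | with_reducible apply Int.ltN | with_reducible apply Int.leN | with_reducible_and_instances apply Int.le | with_reducible_and_instances apply Int.lt | with_reducible apply Int.all | with_reducible apply Int.ex | with_reducible apply IntF.fst | with_reducible apply IntF.snd | with_reducible apply IntF.app | with_reducible apply IntF.inl | with_reducible apply IntF.inr | with_reducible_and_instances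 apply IntF.mul | with_reducible_and_instances apply IntF.inv | with_reducible_and_instances apply IntF.add | with_reducible_and_instances apply IntF.sub | with_reducible_and_instances apply IntF.neg | with_reducible_and_instances apply IntF.smul | with_reducible apply Int.fin | with_reducible apply IntF.sep | with_reducible apply IntF.lam | with_reducible apply IntF.insert | with_reducible apply IntF.singleton | with_reducible apply IntF.union | with_reducible apply IntF.iimage | with_reducible apply IntF.ite | with_reducible apply IntF.the | with_reducible apply IntF.irec | with_reducible apply IntF.succ | with_reducible apply IntF.val | with_reducible apply IntF.mk | (with_reducible refine Int.comp ?_ ?_; assumption) | (with_reducible refine Int.comp₂ ?_ ?_ ?_; assumption) | (with_reducible refine Int.comp₃ ?_ ?_ ?_ ?_; assumption) | (with_reducible refine Int.comp₄ ?_ ?_ ?_ ?_ ?_; assumption) | (with_reducible refine IntF.comp ?_ ?_; assumption) | (with_reducible refine IntF.comp₂ ?_ ?_ ?_; assumption) | (with_reducible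 refine IntF.comp₃ ?_ ?_ ?_ ?_; assumption) | with_reducible apply IntF.pair)))
  have hm : ∀ (n : INat N) (a : A), a ∈ (sep N fun a : A => S.lev a = n) ↔ S.lev a = n :=
    fun n a => mem_sep (by ((repeat' (first | with_reducible exact IntF.id | with_reducible exact IntF.fst' | with_reducible exact IntF.snd' | with_reducible exact IntF.const _ | with_reducible exact Int.const _ | assumption | with_reducible apply Int.and | with_reducible apply Int.or | with_reducible apply Int.not | with_reducible apply Int.imp | with_reducible apply Int.iff | with_reducible apply Int.ne | with_reducible apply Int.eq | with_reducible apply Int.mem | with_reducible apply Int.subset | with_reducible apply Int.ltN | with_reducible apply Int.leN | with_reducible_and_instances apply Int.le | with_reducible_and_instances apply Int.lt | with_reducible apply Int.all | with_reducible apply Int.ex | with_reducible apply IntF.fst | with_reducible apply IntF.snd | with_reducible apply IntF.app | with_reducible apply IntF.inl | with_reducible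 apply IntF.inr | with_reducible_and_instances apply IntF.mul | with_reducible_and_instances apply IntF.inv | with_reducible_and_instances apply IntF.add | with_reducible_and_instances apply IntF.sub | with_reducible_and_instances apply IntF.neg | with_reducible_and_instances apply IntF.smul | with_reducible apply Int.fin | with_reducible apply IntF.sep | with_reducible apply IntF.lam | with_reducible apply IntF.insert | with_reducible apply IntF.singleton | with_reducible apply IntF.union | with_reducible apply IntF.iimage | with_reducible apply IntF.ite | with_reducible apply IntF.the | with_reducible apply IntF.irec | with_reducible apply IntF.succ | with_reducible apply IntF.val | with_reducible apply IntF.mk | (with_reducible refine Int.comp ?_ ?_; assumption) | (with_reducible refine Int.comp₂ ?_ ?_ ?_; assumption) | (with_reducible refine Int.comp₃ ?_ ?_ ?_ ?_; assumption) | (with_reducible refine Int.comp₄ ?_ ?_ ?_ ?_ ?_; assumption) | (with_reducible refine IntF.comp ?_ ?_; assumption) | (with_reducible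 refine IntF.comp₂ ?_ ?_ ?_; assumption) | (with_reducible refine IntF.comp₃ ?_ ?_ ?_ ?_; assumption) | with_reducible apply IntF.pair))))
  obtain ⟨s', g, hg, h1⟩ := h (dom N (INat N)) (dom N (IPow N A))
    (code (⟨_, hi⟩ : IFun N (INat N) (IPow N A))) isOmega_dom (isFun_seq _ isOmega_dom fun n =>
      code_mem_dom (M := N) _) fun n a hna => by
      obtain ⟨m, rfl, rfl⟩ := app_code.1 hna
      obtain ⟨a, ha, -⟩ := exists_avoid (S := S) m (finP_false (N := N) (α := A))
      exact ⟨code a, mem_cd'.2 ((hm m a).2 ha)⟩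
  have hval : ∀ n b, App g n b → ∃ m : INat N, code m = n ∧ IsFinite b ∧ (∃ z, Mem z b) ∧
      ∀ z, Mem z b → Mem z (code (M := N) (sep N fun a : A => S.lev a = m)) := by
    rintro n b ⟨q, h2, h3⟩
    obtain ⟨x', y', h4, h5, h6⟩ := hg.1 q h3
    obtain ⟨rfl, rfl⟩ := op_inj ((ordPair_iff.1 h2).symm.trans (ordPair_iff.1 h6))
    obtain ⟨m, rfl⟩ := mem_dom.1 (show Mem n (dom N (INat N)) from h4)
    exact ⟨m, rfl, h1 (code m) _ b (app_code.2 ⟨m, rfl, rfl⟩) ⟨q, h2, h3⟩⟩
  obtain ⟨C, hC⟩ := exists_seq (Y := IPow N A) (isOmega_dom (N := N)) hg fun n c hnc => by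
    obtain ⟨m, rfl, h2, h3, h4⟩ := hval n c hnc
    obtain ⟨U, hU, -⟩ := exists_sub h4
    exact ⟨U, hU⟩
  have hC' : ∀ n : INat N, IFin (C n) ∧ (∃ a, a ∈ C n) ∧ ∀ a, a ∈ C n → S.lev a = n := by
    intro n
    obtain ⟨m, hmn, h2, h3, h4⟩ := hval (code n) (code (C n)) ((hC _ _).2 ⟨n, rfl, rfl⟩)
    obtain rfl : m = n := ITy.inj hmn
    refine ⟨isFinite_iff.1 h2, ?_, fun a ha => (hm _ a).1 (mem_cd'.1 (h4 _ (mem_cd'.2 ha)))⟩
    obtain ⟨z, hz⟩ := h3
    obtain ⟨a, ha, rfl⟩ := mem_cd.1 hz
    exact ⟨a, ha⟩
  exact no_cmc (S := S) C.int (fun n => (hC' n).1) (fun n => (hC' n).2.1) fun n => (hC' n).2.2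

/-! ### The topology with the zero-sets as a base -/

theorem exists_ztop {r : N} [Field (EL r)] [LinearOrder (EL r)] [IsStrictOrderedRing (EL r)]
    (hr : IsReals r) : ∃ t', IsZTop r t' (tt (iuniv N (YY S))) (xx (iuniv N (YY S))) ∧
      ¬ IsDiscrete t' (xx (iuniv N (YY S))) := by
  haveI := iadd_of hr
  haveI := ile_of hr
  have h := int_ZrP (S := S) (R := EL r)
  have hm : ∀ U : IPow N (YY S), U ∈ (sep N fun U : IPow N (YY S) => ∀ y, y ∈ U → ∃ Z,
      ZrP (EL r) (iuniv N (YY S)) Z ∧ y ∈ Z ∧ ∀ z, z ∈ Z → z ∈ U) ↔ ∀ y, y ∈ U → ∃ Z,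
      ZrP (EL r) (iuniv N (YY S)) Z ∧ y ∈ Z ∧ ∀ z, z ∈ Z → z ∈ U := fun U => mem_sep (by ((repeat' (first | with_reducible exact IntF.id | with_reducible exact IntF.fst' | with_reducible exact IntF.snd' | with_reducible exact IntF.const _ | with_reducible exact Int.const _ | assumption | with_reducible apply Int.and | with_reducible apply Int.or | with_reducible apply Int.not | with_reducible apply Int.imp | with_reducible apply Int.iff | with_reducible apply Int.ne | with_reducible apply Int.eq | with_reducible apply Int.mem | with_reducible apply Int.subset | with_reducible apply Int.ltN | with_reducible apply Int.leN | with_reducible_and_instances apply Int.le | with_reducible_and_instances apply Int.lt | with_reducible apply Int.all | with_reducible apply Int.ex | with_reducible apply IntF.fst | with_reducible apply IntF.snd | with_reducible apply IntF.app | with_reducible apply IntF.inl | with_reducible apply IntF.inr | with_reducible_and_instances apply IntF.mul | with_reducible_and_instances apply IntF.inv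 | with_reducible_and_instances apply IntF.add | with_reducible_and_instances apply IntF.sub | with_reducible_and_instances apply IntF.neg | with_reducible_and_instances apply IntF.smul | with_reducible apply Int.fin | with_reducible apply IntF.sep | with_reducible apply IntF.lam | with_reducible apply IntF.insert | with_reducible apply IntF.singleton | with_reducible apply IntF.union | with_reducible apply IntF.iimage | with_reducible apply IntF.ite | with_reducible apply IntF.the | with_reducible apply IntF.irec | with_reducible apply IntF.succ | with_reducible apply IntF.val | with_reducible apply IntF.mk | (with_reducible refine Int.comp ?_ ?_; assumption) | (with_reducible refine Int.comp₂ ?_ ?_ ?_; assumption) | (with_reducible refine Int.comp₃ ?_ ?_ ?_ ?_; assumption) | (with_reducible refine Int.comp₄ ?_ ?_ ?_ ?_ ?_; assumption) | (with_reducible refine IntF.comp ?_ ?_; assumption) | (with_reducible refine IntF.comp₂ ?_ ?_ ?_; assumption) | (with_reducible refine IntF.comp₃ ?_ ?_ ?_ ?_; assumption) | with_reducible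 apply IntF.pair))))
  refine ⟨code (sep N fun U : IPow N (YY S) => ∀ y, y ∈ U → ∃ Z,
      ZrP (EL r) (iuniv N (YY S)) Z ∧ y ∈ Z ∧ ∀ z, z ∈ Z → z ∈ U), fun u => ?_, fun hd => ?_⟩
  · constructor
    · intro hu
      obtain ⟨U, hU, rfl⟩ := mem_cd.1 hu
      refine ⟨fun z hz => ?_, fun y hy => ?_⟩
      · obtain ⟨a, ha, rfl⟩ := mem_cd.1 hz
        exact mem_cd'.2 (by simp)
      · obtain ⟨a, ha, rfl⟩ := mem_cd.1 hy
        obtain ⟨Z, h1, h2, h3⟩ := (hm U).1 hU a ha
        refine ⟨code Z, (isZeroSet_iff hr).2 ⟨Z, h1, rfl⟩, mem_cd'.2 h2, fun z hz => ?_⟩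
        obtain ⟨b, hb, rfl⟩ := mem_cd.1 hz
        exact mem_cd'.2 (h3 b hb)
    · rintro ⟨h1, h2⟩
      obtain ⟨U, rfl, -⟩ := exists_sub (X := YY S) h1
      refine mem_cd'.2 ((hm U).2 fun y hy => ?_)
      obtain ⟨a, ha, h3, h4⟩ := h2 _ (mem_cd'.2 hy)
      obtain ⟨Z, hZ, rfl⟩ := (isZeroSet_iff hr).1 ha
      exact ⟨Z, hZ, mem_cd'.1 h3, fun z hz => mem_cd'.1 (h4 _ (mem_cd'.2 hz))⟩
  · have h1 := hd (code ({Sum.inr 0} : IPow N (YY S))) fun z hz => by
      obtain ⟨a, ha, rfl⟩ := mem_cd.1 hz
      exact mem_cd'.2 (by simp)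
    obtain ⟨Z, ⟨f, h2, h2'⟩, h3, h4⟩ := (hm _).1 (mem_cd'.1 h1) (Sum.inr 0) (mem_singleton.2 rfl)
    have h2'' : ∀ y ε, 0 < ε → Nb y (sep N fun z => cl ε (f z) (f y)) := fun y ε hε =>
      Nb.mono (h2 y (by simp) ε hε) fun z hz => nbR_set.1 hz (by simp)
    obtain ⟨y, hy, h5⟩ := last_not_zero (S := S) f.int h2''
    refine hy (mem_singleton.1 (h4 y ((h2' y).2 ⟨by simp, ?_⟩)))
    have h6 := ((h2' (Sum.inr 0)).1 h3).2
    exact h5.trans h6

theorem pseudo_tt : HasCountablePseudocharacter (tt (iuniv N (YY S))) (xx (iuniv N (YY S))) := by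
  intro y hy
  obtain ⟨a, -, rfl⟩ := mem_cd.1 hy
  obtain ⟨s, h1, h2⟩ := pseudo a
  refine ⟨dom N (INat N), dom N (IPow N (YY S)), code s, isOmega_dom, isFun_seq s isOmega_dom
    fun n => code_mem_dom (M := N) _, fun n u hnu => ?_, fun z => ?_⟩
  · obtain ⟨m, rfl, rfl⟩ := app_code.1 hnu
    exact mem_tt'.2 ⟨fun y _ => by simp, fun y hy => (h1 m y hy).rel⟩
  · constructor
    · intro h
      have h3 := h _ _ (app_code.2 ⟨(0 : INat N), rfl, rfl⟩)
      obtain ⟨b, hb, rfl⟩ := mem_cd.1 h3
      rw [(h2 b).1 fun n => mem_cd'.1 (h _ _ (app_code.2 ⟨n, rfl, rfl⟩))]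
    · rintro rfl n u hnu
      obtain ⟨m, rfl, rfl⟩ := app_code.1 hnu
      exact mem_cd'.2 ((h2 a).2 rfl m)

end

end Pool.Agent.R602
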