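import Pool.Agent.R602.BrC
import Pool.Agent.H310R3.NA12

/-!
# The statements and the models
-/

set_option maxHeartbeats 1000000
set_option linter.all false
set_option synthInstance.maxSize 2000

namespace Pool.Agent.R602

open FirstOrder FirstOrder.Language
open Pool.Agent.Helper672.ZFA
open Pool.Agent.Helper672.ZFA.R602
open Pool.Agent.Helper672.ZFA.H310M.R602 (BD WB exists_BD AA SW)
open Pool.Agent.Helper672.ZFA.H635 (IsGen NN CollL nn_zf)
open Pool.Agent.H310
open Pool.Agent.H310Cards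
open Pool.Agent.H310Top (IsTopology IsClosed)
open Pool.Agent.W924
open Pool.Agent.H635Amen (IsReals ZF)
open Pool.Agent.R602St

universe u u₁ u₂

section

attribute [local instance] Helper672.Plain.toL

variable {N : Type u} [Helper672.Plain.LSet.Structure N] [hZ : Helper672.Plain.Zermelo N]

local instance instModelD : IsModel N := Helper672.Plain.isModel_toL

variable {A : Type u} [ITy N A] (S : BD N A)

include S

theorem fin1 : ∃ t x : N, IsTopology t x ∧ IsZeroDim t x ∧ IsT1 t x ∧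
    IsSeqUnion x (fun s => (∃ t', IsSubTop t' s t ∧ IsNCompact t' s) ∧ IsCdEmbedded t x s) ∧
      ¬ IsNCompact t x :=
  ⟨tt (XX S), xx (XX S), isTopology_tt _, isZeroDim_tt _, isT1_tt _, seqUnion fun m =>
    ⟨⟨tt (SS S m), isSubTop_tt (sub_SS m), isNCompact_tt (nCp_of_closed (isT_SS m))⟩, cdEmb m⟩,
    not_nCompact⟩

theorem fin2 : ∃ t x : N, IsTopology t x ∧ IsZeroDim t x ∧ IsT1 t x ∧
    IsSeqUnion x (fun s => (∃ t', IsSubTop t' s t ∧ IsNCompact t' s) ∧ IsTwoEmbedded t x s) ∧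
      ¬ IsNCompact t x :=
  ⟨tt (XX S), xx (XX S), isTopology_tt _, isZeroDim_tt _, isT1_tt _, seqUnion fun m =>
    ⟨⟨tt (SS S m), isSubTop_tt (sub_SS m), isNCompact_tt (nCp_of_closed (isT_SS m))⟩, twoEmb m⟩,
    not_nCompact⟩

theorem real_of {P : IPow N (YY S)} (h : IsT (icompl P)) {r : N} [Field (EL r)]
    [LinearOrder (EL r)] [IsStrictOrderedRing (EL r)] (hr : IsReals r) :
    IsRealcompact r (tt P) (xx P) := by
  haveI := iadd_of hr
  haveI := ile_of hr
  exact isRealcompact_tt (nCp_of_closed h).real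

theorem fin3 : ∃ (r : N) (_ : Field (EL r)) (_ : LinearOrder (EL r))
    (_ : IsStrictOrderedRing (EL r)), IsReals r ∧ ∃ t x : N, IsTopology t x ∧
    IsTychonoff r t x ∧
    IsSeqUnion x (fun s => (∃ t', IsSubTop t' s t ∧ IsRealcompact r t' s) ∧
      IsZEmbedded r t x s) ∧ ¬ IsRealcompact r t x := by
  obtain ⟨r, i1, i2, i3, hr⟩ := H635.exists_reals hZ
  exact ⟨r, i1, i2, i3, hr, tt (XX S), xx (XX S), isTopology_tt _, isTychonoff_tt hr _,
    seqUnion fun m => ⟨⟨tt (SS S m), isSubTop_tt (sub_SS m), real_of S (isT_SS m) hr⟩, zEmb hr m⟩,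
    not_realcompact hr⟩

theorem compl_univ : IsT (icompl (iuniv N (YY S))) := fun y hy =>
  absurd (mem_icompl.1 hy) (by simp)

theorem fin4 : ¬ CMC N ∧ ∃ (r : N) (_ : Field (EL r)) (_ : LinearOrder (EL r))
    (_ : IsStrictOrderedRing (EL r)), IsReals r ∧ ∃ t x b t' : N, IsTopology t x ∧
    IsRealcompact r t x ∧ IsBaireSet r t x b ∧ IsSubTop t' b t ∧ ¬ IsRealcompact r t' b := by
  refine ⟨not_cmc S, ?_⟩
  obtain ⟨r, i1, i2, i3, hr⟩ := H635.exists_reals hZ
  exact ⟨r, i1, i2, i3, hr, tt (iuniv N (YY S)), xx (iuniv N (YY S)), xx (XX S), tt (XX S),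
    isTopology_tt _, real_of S (compl_univ S) hr, isBaire_XX hr, isSubTop_tt fun y _ => by simp,
    not_realcompact hr⟩

theorem fin5 : ∃ t x : N, IsTopology t x ∧ IsZeroDim t x ∧ IsT1 t x ∧
    (∀ F, IsUltrafilterIn (IsCd t x) F → HasCip F → IsFixed F) ∧ ¬ IsNCompact t x :=
  ⟨tt (XX S), xx (XX S), isTopology_tt _, isZeroDim_tt _, isT1_tt _, fun F => cd_fixed,
    not_nCompact⟩

theorem fin6 : ∃ (r : N) (_ : Field (EL r)) (_ : LinearOrder (EL r))
    (_ : IsStrictOrderedRing (EL r)), IsReals r ∧ ∃ t x : N, IsTopology t x ∧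
    IsTychonoff r t x ∧ (∀ F, IsUltrafilterIn (IsZeroSet r t x) F → HasCip F → IsFixed F) ∧
      ¬ IsRealcompact r t x := by
  obtain ⟨r, i1, i2, i3, hr⟩ := H635.exists_reals hZ
  exact ⟨r, i1, i2, i3, hr, tt (XX S), xx (XX S), isTopology_tt _, isTychonoff_tt hr _,
    fun F => z_fixed hr, not_realcompact hr⟩

theorem fin7 : ∃ (r : N) (_ : Field (EL r)) (_ : LinearOrder (EL r))
    (_ : IsStrictOrderedRing (EL r)), IsReals r ∧ ∃ t x : N, IsTopology t x ∧
    IsTychonoff r t x ∧ HasCountablePseudocharacter t x ∧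
      ∃ t', IsZTop r t' t x ∧ ¬ IsDiscrete t' x := by
  obtain ⟨r, i1, i2, i3, hr⟩ := H635.exists_reals hZ
  exact ⟨r, i1, i2, i3, hr, tt (iuniv N (YY S)), xx (iuniv N (YY S)), isTopology_tt _,
    isTychonoff_tt hr _, pseudo_tt, exists_ztop hr⟩

end

section model

attribute [local instance] Helper672.Plain.toL

local instance instModelE {N : Type u} [Helper672.Plain.LSet.Structure N]
    [hZ : Helper672.Plain.Zermelo N] : IsModel N := Helper672.Plain.isModel_toL

/-- The models. -/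
theorem exists_model' (Q : ∀ (N : Type u) [Helper672.Plain.LSet.Structure N], Prop)
    (hQ : ∀ (N : Type u) [Helper672.Plain.LSet.Structure N] [Helper672.Plain.Zermelo N]
      (A : Type u) [ITy N A], BD N A → Q N)
    (M : Type u) [L.Structure M] [IsModel M] [Countable M] (hC : CollL M) :
    ∃ (N : Type u) (_ : Helper672.Plain.LSet.Structure N), ZF N ∧ Q N := by
  have p₀ : H310M.Co M (H310M.R602.XB M) := ⟨∅, fun i k d d' h => absurd h (by simp), IFin.empty⟩
  obtain ⟨G, hG⟩ := H635.exists_gen (M := M) p₀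
  have hzf : ZF (NN (SW (WB M)) hG) := nn_zf hG hC
  obtain ⟨S⟩ := exists_BD hG hC
  haveI := hzf.toZermelo
  exact ⟨NN (SW (WB M)) hG, inferInstance, hzf, hQ _ _ S⟩

theorem exists_model (Q : ∀ (N : Type u) [Helper672.Plain.LSet.Structure N], Prop)
    (hQ : ∀ (N : Type u) [Helper672.Plain.LSet.Structure N] [Helper672.Plain.Zermelo N]
      (A : Type u) [ITy N A], BD N A → Q N)
    (M : Type u) [Helper672.Plain.LSet.Structure M] (h : ZF M) :
    ∃ (N : Type u) (_ : Helper672.Plain.LSet.Structure N), ZF N ∧ Q N := by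
  obtain ⟨M₀, h1, h2⟩ := H635.exists_countable_sub M h
  haveI := h2.toZermelo
  exact exists_model' Q hQ M₀ (H635.coll_of_zf h2)

theorem exists_model_zs (Q : ∀ (N : Type 1) [Helper672.Plain.LSet.Structure N], Prop)
    (hQ : ∀ (N : Type 1) [Helper672.Plain.LSet.Structure N] [Helper672.Plain.Zermelo N]
      (A : Type 1) [ITy N A], BD N A → Q N) :
    ∃ (N : Type 1) (_ : Helper672.Plain.LSet.Structure N), ZF N ∧ Q N :=
  letI := NA.zs.{0}
  exists_model Q hQ ZFSet.{0} NA.zf_zs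

end model

end Pool.Agent.R602
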