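import Pool.Agent.R602.PM

/-!
# A sequence of countable sets without multiple choice
-/

set_option maxHeartbeats 1000000
set_option linter.all false
set_option synthInstance.maxSize 2000

namespace Pool.Agent.Helper672.ZFA.H310M.R602

open FirstOrder FirstOrder.Language
open Pool.Agent.Helper672.ZFA.H635 (IPerm SymSys IG WFI FEq FMem tw Good feq_of_map feq_iff IsGen
  nd nd_eq mem_nd mem_nd_nd exists_mk mk_eq_nd EqFam NN fmem_tw feq_tw tw_tw_inv SymQ extG good_extG
  mem_nd_inr feq_equivQ nn_ext CollL nn_zf mem_NN)
open Pool.Agent.Helper672.Plain (LSet)
open Pool.Agent.H310

universe u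

section data

variable (N : Type u) [L.Structure N] [hN : IsModel N] (A : Type u) [ITy N A]

/-- A sequence of disjoint countable sets, with homogeneity. -/
structure BD where
  lev : A → INat N
  int_lev : IntF N lev
  enum : ∀ n, ∃ en : A → INat N, IntF N en ∧
    (∀ a b, lev a = lev b → lev a ≤ n → en a = en b → a = b) ∧
    ∀ i j, i ≤ n → ∃ a, lev a = i ∧ en a = j
  hom : ∀ R : INat N × (A × A) → Prop, Int N R → ∃ k, ∀ n, k ≤ n → ∀ a b a' b', lev a = n →
    lev b = n → lev a' = n → lev b' = n → a ≠ b → a' ≠ b' → ∀ q, R (q, (a, b)) → R (q, (a', b'))
  hom₂ : ∀ R : (A × A) × (A × A) → Prop, Int N R → ∃ k, ∀ n, k ≤ n → ∀ a b a' b', lev a = n →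
    lev b = n → lev a' = n → lev b' = n → a ≠ b → a' ≠ b' → a ≠ a' → a ≠ b' → b ≠ a' → b ≠ b' →
      R ((a, b), (a', b')) → R ((a', b'), (a, b))

end data

section perm

variable {M : Type u} [L.Structure M] [hM : IsModel M] {X : Type u} [ITy M X]

open Classical in
/-- The transposition. -/
noncomputable def swf (a b : X) : X → X := fun x => if x = a then b else if x = b then a else x

theorem int_swf (a b : X) : IntF M (swf a b) := by
  unfold swf
  ((repeat' (first | with_reducible exact IntF.id | with_reducible exact IntF.fst' | with_reducible exact IntF.snd' | with_reducible exact IntF.const _ | with_reducible exact Int.const _ | assumption | with_reducible apply Int.and | with_reducible apply Int.or | with_reducible apply Int.not | with_reducible apply Int.imp | with_reducible apply Int.iff | with_reducible apply Int.ne | with_reducible apply Int.eq | with_reducible apply Int.mem | with_reducible apply Int.subset | with_reducible apply Int.ltN | with_reducible apply Int.leN | with_reducible_and_instances apply Int.le | with_reducible_and_instances apply Int.lt | with_reducible apply Int.all | with_reducible apply Int.ex | with_reducible apply IntF.fst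 | with_reducible apply IntF.snd | with_reducible apply IntF.app | with_reducible apply IntF.inl | with_reducible apply IntF.inr | with_reducible_and_instances apply IntF.mul | with_reducible_and_instances apply IntF.inv | with_reducible_and_instances apply IntF.add | with_reducible_and_instances apply IntF.sub | with_reducible_and_instances apply IntF.neg | with_reducible_and_instances apply IntF.smul | with_reducible apply Int.fin | with_reducible apply IntF.sep | with_reducible apply IntF.lam | with_reducible apply IntF.insert | with_reducible apply IntF.singleton | with_reducible apply IntF.union | with_reducible apply IntF.iimage | with_reducible apply IntF.ite | with_reducible apply IntF.the | with_reducible apply IntF.irec | with_reducible apply IntF.succ | with_reducible apply IntF.val | with_reducible apply IntF.mk | (with_reducible refine Int.comp ?_ ?_; assumption) | (with_reducible refine Int.comp₂ ?_ ?_ ?_; assumption) | (with_reducible refine Int.comp₃ ?_ ?_ ?_ ?_; assumption) | (with_reducible refine Int.comp₄ ?_ ?_ ?_ ?_ ?_; assumption) | (with_reducible refine IntF.comp ?_ ?_; assumption) | (with_reducible refine IntF.comp₂ ?_ ?_ ?_; assumption)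 | (with_reducible refine IntF.comp₃ ?_ ?_ ?_ ?_; assumption) | with_reducible apply IntF.pair)))

theorem swf_swf (a b x : X) : swf a b (swf a b x) = x := by
  unfold swf
  by_cases h1 : x = a
  · subst h1
    by_cases h2 : b = x
    · simp [h2]
    · simp [h2]
  · by_cases h2 : x = b
    · subst h2
      simp [h1]
    · simp [h1, h2]

/-- The transposition as an internal permutation. -/
noncomputable def swp (a b : X) : IPerm M X := IPerm.ofInv (swf a b) (int_swf a b) (swf_swf a b)

theorem swp_apply (a b x : X) : (swp (M := M) a b).1.1 x = swf a b x := rfl

theorem swf_left (a b : X) : swf a b a = b := by simp [swf]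

theorem swf_right (a b : X) : swf a b b = a := by
  by_cases h : b = a <;> simp [swf, h]

theorem swf_ne {a b x : X} (h1 : x ≠ a) (h2 : x ≠ b) : swf a b x = x := by simp [swf, h1, h2]

end perm

section model

variable {M : Type u} [L.Structure M] [hM : IsModel M]

variable (M) in
/-- The index type. -/
abbrev XB : Type u := INat M × INat M

/-- The group of the permutations of the blocks. -/
def HB : Subgroup (IPerm M (XB M)) where
  carrier := {g | ∀ x, (g.1.1 x).1 = x.1}
  mul_mem' := by
    intro g h hg hh x
    rw [IPerm.mul_apply, hg, hh]
  one_mem' := by
    intro x
    rw [IPerm.one_apply]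
  inv_mem' := by
    intro g hg x
    rw [IPerm.inv_apply]
    have h1 := hg (g.1.2 x)
    rw [g.2.1] at h1
    exact h1.symm

variable (M) in
/-- The internal group. -/
def ZB : PGr M (XB M) where
  H := HB
  int := by
    change Int M (fun g : IPerm M (XB M) => ∀ x, (g.1.1 x).1 = x.1)
    ((repeat' (first | with_reducible exact IntF.id | with_reducible exact IntF.fst' | with_reducible exact IntF.snd' | with_reducible exact IntF.const _ | with_reducible exact Int.const _ | assumption | with_reducible apply Int.and | with_reducible apply Int.or | with_reducible apply Int.not | with_reducible apply Int.imp | with_reducible apply Int.iff | with_reducible apply Int.ne | with_reducible apply Int.eq | with_reducible apply Int.mem | with_reducible apply Int.subset | with_reducible apply Int.ltN | with_reducible apply Int.leN | with_reducible_and_instances apply Int.le | with_reducible_and_instances apply Int.lt | with_reducible apply Int.all | with_reducible apply Int.ex | with_reducible apply IntF.fst | with_reducible apply IntF.snd | with_reducible apply IntF.app | with_reducible apply IntF.inl | with_reducible apply IntF.inr | with_reducible_and_instances apply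 IntF.mul | with_reducible_and_instances apply IntF.inv | with_reducible_and_instances apply IntF.add | with_reducible_and_instances apply IntF.sub | with_reducible_and_instances apply IntF.neg | with_reducible_and_instances apply IntF.smul | with_reducible apply Int.fin | with_reducible apply IntF.sep | with_reducible apply IntF.lam | with_reducible apply IntF.insert | with_reducible apply IntF.singleton | with_reducible apply IntF.union | with_reducible apply IntF.iimage | with_reducible apply IntF.ite | with_reducible apply IntF.the | with_reducible apply IntF.irec | with_reducible apply IntF.succ | with_reducible apply IntF.val | with_reducible apply IntF.mk | (with_reducible refine Int.comp ?_ ?_; assumption) | (with_reducible refine Int.comp₂ ?_ ?_ ?_; assumption) | (with_reducible refine Int.comp₃ ?_ ?_ ?_ ?_; assumption) | (with_reducible refine Int.comp₄ ?_ ?_ ?_ ?_ ?_; assumption) | (with_reducible refine IntF.comp ?_ ?_; assumption) | (with_reducible refine IntF.comp₂ ?_ ?_ ?_; assumption) | (with_reducible refine IntF.comp₃ ?_ ?_ ?_ ?_; assumption) | with_reducible apply IntF.pair)))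

variable (M) in
/-- The supports. -/
noncomputable def WB : Sup (ZB M) (INat M) where
  In l x := x.1 < l
  int_In := by ((repeat' (first | with_reducible exact IntF.id | with_reducible exact IntF.fst' | with_reducible exact IntF.snd' | with_reducible exact IntF.const _ | with_reducible exact Int.const _ | assumption | with_reducible apply Int.and | with_reducible apply Int.or | with_reducible apply Int.not | with_reducible apply Int.imp | with_reducible apply Int.iff | with_reducible apply Int.ne | with_reducible apply Int.eq | with_reducible apply Int.mem | with_reducible apply Int.subset | with_reducible apply Int.ltN | with_reducible apply Int.leN | with_reducible_and_instances apply Int.le | with_reducible_and_instances apply Int.lt | with_reducible apply Int.all | with_reducible apply Int.ex | with_reducible apply IntF.fst | with_reducible apply IntF.snd | with_reducible apply IntF.app | with_reducible apply IntF.inl | with_reducible apply IntF.inr | with_reducible_and_instances apply IntF.mul | with_reducible_and_instances apply IntF.inv | with_reducible_and_instances apply IntF.add | with_reducible_and_instances apply IntF.sub | with_reducible_and_instances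 apply IntF.neg | with_reducible_and_instances apply IntF.smul | with_reducible apply Int.fin | with_reducible apply IntF.sep | with_reducible apply IntF.lam | with_reducible apply IntF.insert | with_reducible apply IntF.singleton | with_reducible apply IntF.union | with_reducible apply IntF.iimage | with_reducible apply IntF.ite | with_reducible apply IntF.the | with_reducible apply IntF.irec | with_reducible apply IntF.succ | with_reducible apply IntF.val | with_reducible apply IntF.mk | (with_reducible refine Int.comp ?_ ?_; assumption) | (with_reducible refine Int.comp₂ ?_ ?_ ?_; assumption) | (with_reducible refine Int.comp₃ ?_ ?_ ?_ ?_; assumption) | (with_reducible refine Int.comp₄ ?_ ?_ ?_ ?_ ?_; assumption) | (with_reducible refine IntF.comp ?_ ?_; assumption) | (with_reducible refine IntF.comp₂ ?_ ?_ ?_; assumption) | (with_reducible refine IntF.comp₃ ?_ ?_ ?_ ?_; assumption) | with_reducible apply IntF.pair)))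
  l0 := 0
  dir l l' := ⟨max l l', fun x h => h.elim (fun h => lt_of_lt_of_le h (le_max_left _ _))
    fun h => lt_of_lt_of_le h (le_max_right _ _)⟩
  conj g hg l := ⟨l, fun x h => by
    rw [(show (g.1.1 x).1 = x.1 from hg x)]
    exact h⟩
  cover x := ⟨x.1.succ, INat.lt_succ_self _⟩

theorem swp_mem {l n : INat M} {u v : XB M} (hu : u.1 = n) (hv : v.1 = n) (hln : l ≤ n) :
    swp (M := M) u v ∈ (ZB M).H ∧ ∀ w : XB M, w.1 < l → (swp (M := M) u v).1.1 w = w := by
  constructor
  · change ∀ w, ((swp (M := M) u v).1.1 w).1 = w.1
    intro w
    rw [swp_apply]
    by_cases h1 : w = u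
    · rw [h1, swf_left, hu, hv]
    · by_cases h2 : w = v
      · rw [h2, swf_right, hu, hv]
      · rw [swf_ne h1 h2]
  · intro w hw
    rw [swp_apply]
    refine swf_ne ?_ ?_ <;>
    · rintro rfl
      simp only [hu, hv] at hw
      exact absurd (lt_of_lt_of_le hw hln) (lt_irrefl _)

/-- The action on pairs of pairs. -/
def a4 (g : IPerm M (XB M)) (q : (XB M × XB M) × (XB M × XB M)) : (XB M × XB M) × (XB M × XB M) :=
  ((g.1.1 q.1.1, g.1.1 q.1.2), (g.1.1 q.2.1, g.1.1 q.2.2))

theorem a4_inv (g : IPerm M (XB M)) (q : (XB M × XB M) × (XB M × XB M)) :
    a4 g⁻¹ (a4 g q) = q :=
  Prod.ext (Prod.ext (g.2.2 _) (g.2.2 _)) (Prod.ext (g.2.2 _) (g.2.2 _))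

theorem ef_p1 {G : Set (Co M (XB M))} (hG : IsGen M G) : EF (WB M) hG (a4 (M := M))
    (fun q : (XB M × XB M) × (XB M × XB M) => cc (WB M) hG q.1.1) :=
  EF.comp hG (ef_cc hG) (φ := fun q : (XB M × XB M) × (XB M × XB M) => q.1.1) (by ((repeat' (first | with_reducible exact IntF.id | with_reducible exact IntF.fst' | with_reducible exact IntF.snd' | with_reducible exact IntF.const _ | with_reducible exact Int.const _ | assumption | with_reducible apply Int.and | with_reducible apply Int.or | with_reducible apply Int.not | with_reducible apply Int.imp | with_reducible apply Int.iff | with_reducible apply Int.ne | with_reducible apply Int.eq | with_reducible apply Int.mem | with_reducible apply Int.subset | with_reducible apply Int.ltN | with_reducible apply Int.leN | with_reducible_and_instances apply Int.le | with_reducible_and_instances apply Int.lt | with_reducible apply Int.all | with_reducible apply Int.ex | with_reducible apply IntF.fst | with_reducible apply IntF.snd | with_reducible apply IntF.app | with_reducible apply IntF.inl | with_reducible apply IntF.inr | with_reducible_and_instances apply IntF.mul | with_reducible_and_instances apply IntF.inv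 | with_reducible_and_instances apply IntF.add | with_reducible_and_instances apply IntF.sub | with_reducible_and_instances apply IntF.neg | with_reducible_and_instances apply IntF.smul | with_reducible apply Int.fin | with_reducible apply IntF.sep | with_reducible apply IntF.lam | with_reducible apply IntF.insert | with_reducible apply IntF.singleton | with_reducible apply IntF.union | with_reducible apply IntF.iimage | with_reducible apply IntF.ite | with_reducible apply IntF.the | with_reducible apply IntF.irec | with_reducible apply IntF.succ | with_reducible apply IntF.val | with_reducible apply IntF.mk | (with_reducible refine Int.comp ?_ ?_; assumption) | (with_reducible refine Int.comp₂ ?_ ?_ ?_; assumption) | (with_reducible refine Int.comp₃ ?_ ?_ ?_ ?_; assumption) | (with_reducible refine Int.comp₄ ?_ ?_ ?_ ?_ ?_; assumption) | (with_reducible refine IntF.comp ?_ ?_; assumption) | (with_reducible refine IntF.comp₂ ?_ ?_ ?_; assumption) | (with_reducible refine IntF.comp₃ ?_ ?_ ?_ ?_; assumption) | with_reducible apply IntF.pair))))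
    fun _ _ => rfl

theorem ef_p2 {G : Set (Co M (XB M))} (hG : IsGen M G) : EF (WB M) hG (a4 (M := M))
    (fun q : (XB M × XB M) × (XB M × XB M) => cc (WB M) hG q.1.2) :=
  EF.comp hG (ef_cc hG) (φ := fun q : (XB M × XB M) × (XB M × XB M) => q.1.2) (by ((repeat' (first | with_reducible exact IntF.id | with_reducible exact IntF.fst' | with_reducible exact IntF.snd' | with_reducible exact IntF.const _ | with_reducible exact Int.const _ | assumption | with_reducible apply Int.and | with_reducible apply Int.or | with_reducible apply Int.not | with_reducible apply Int.imp | with_reducible apply Int.iff | with_reducible apply Int.ne | with_reducible apply Int.eq | with_reducible apply Int.mem | with_reducible apply Int.subset | with_reducible apply Int.ltN | with_reducible apply Int.leN | with_reducible_and_instances apply Int.le | with_reducible_and_instances apply Int.lt | with_reducible apply Int.all | with_reducible apply Int.ex | with_reducible apply IntF.fst | with_reducible apply IntF.snd | with_reducible apply IntF.app | with_reducible apply IntF.inl | with_reducible apply IntF.inr | with_reducible_and_instances apply IntF.mul | with_reducible_and_instances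 apply IntF.inv | with_reducible_and_instances apply IntF.add | with_reducible_and_instances apply IntF.sub | with_reducible_and_instances apply IntF.neg | with_reducible_and_instances apply IntF.smul | with_reducible apply Int.fin | with_reducible apply IntF.sep | with_reducible apply IntF.lam | with_reducible apply IntF.insert | with_reducible apply IntF.singleton | with_reducible apply IntF.union | with_reducible apply IntF.iimage | with_reducible apply IntF.ite | with_reducible apply IntF.the | with_reducible apply IntF.irec | with_reducible apply IntF.succ | with_reducible apply IntF.val | with_reducible apply IntF.mk | (with_reducible refine Int.comp ?_ ?_; assumption) | (with_reducible refine Int.comp₂ ?_ ?_ ?_; assumption) | (with_reducible refine Int.comp₃ ?_ ?_ ?_ ?_; assumption) | (with_reducible refine Int.comp₄ ?_ ?_ ?_ ?_ ?_; assumption) | (with_reducible refine IntF.comp ?_ ?_; assumption) | (with_reducible refine IntF.comp₂ ?_ ?_ ?_; assumption) | (with_reducible refine IntF.comp₃ ?_ ?_ ?_ ?_; assumption) | with_reducible apply IntF.pair))))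
    fun _ _ => rfl

theorem ef_p3 {G : Set (Co M (XB M))} (hG : IsGen M G) : EF (WB M) hG (a4 (M := M))
    (fun q : (XB M × XB M) × (XB M × XB M) => cc (WB M) hG q.2.1) :=
  EF.comp hG (ef_cc hG) (φ := fun q : (XB M × XB M) × (XB M × XB M) => q.2.1) (by ((repeat' (first | with_reducible exact IntF.id | with_reducible exact IntF.fst' | with_reducible exact IntF.snd' | with_reducible exact IntF.const _ | with_reducible exact Int.const _ | assumption | with_reducible apply Int.and | with_reducible apply Int.or | with_reducible apply Int.not | with_reducible apply Int.imp | with_reducible apply Int.iff | with_reducible apply Int.ne | with_reducible apply Int.eq | with_reducible apply Int.mem | with_reducible apply Int.subset | with_reducible apply Int.ltN | with_reducible apply Int.leN | with_reducible_and_instances apply Int.le | with_reducible_and_instances apply Int.lt | with_reducible apply Int.all | with_reducible apply Int.ex | with_reducible apply IntF.fst | with_reducible apply IntF.snd | with_reducible apply IntF.app | with_reducible apply IntF.inl | with_reducible apply IntF.inr | with_reducible_and_instances apply IntF.mul | with_reducible_and_instances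 apply IntF.inv | with_reducible_and_instances apply IntF.add | with_reducible_and_instances apply IntF.sub | with_reducible_and_instances apply IntF.neg | with_reducible_and_instances apply IntF.smul | with_reducible apply Int.fin | with_reducible apply IntF.sep | with_reducible apply IntF.lam | with_reducible apply IntF.insert | with_reducible apply IntF.singleton | with_reducible apply IntF.union | with_reducible apply IntF.iimage | with_reducible apply IntF.ite | with_reducible apply IntF.the | with_reducible apply IntF.irec | with_reducible apply IntF.succ | with_reducible apply IntF.val | with_reducible apply IntF.mk | (with_reducible refine Int.comp ?_ ?_; assumption) | (with_reducible refine Int.comp₂ ?_ ?_ ?_; assumption) | (with_reducible refine Int.comp₃ ?_ ?_ ?_ ?_; assumption) | (with_reducible refine Int.comp₄ ?_ ?_ ?_ ?_ ?_; assumption) | (with_reducible refine IntF.comp ?_ ?_; assumption) | (with_reducible refine IntF.comp₂ ?_ ?_ ?_; assumption) | (with_reducible refine IntF.comp₃ ?_ ?_ ?_ ?_; assumption) | with_reducible apply IntF.pair))))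
    fun _ _ => rfl

theorem ef_p4 {G : Set (Co M (XB M))} (hG : IsGen M G) : EF (WB M) hG (a4 (M := M))
    (fun q : (XB M × XB M) × (XB M × XB M) => cc (WB M) hG q.2.2) :=
  EF.comp hG (ef_cc hG) (φ := fun q : (XB M × XB M) × (XB M × XB M) => q.2.2) (by ((repeat' (first | with_reducible exact IntF.id | with_reducible exact IntF.fst' | with_reducible exact IntF.snd' | with_reducible exact IntF.const _ | with_reducible exact Int.const _ | assumption | with_reducible apply Int.and | with_reducible apply Int.or | with_reducible apply Int.not | with_reducible apply Int.imp | with_reducible apply Int.iff | with_reducible apply Int.ne | with_reducible apply Int.eq | with_reducible apply Int.mem | with_reducible apply Int.subset | with_reducible apply Int.ltN | with_reducible apply Int.leN | with_reducible_and_instances apply Int.le | with_reducible_and_instances apply Int.lt | with_reducible apply Int.all | with_reducible apply Int.ex | with_reducible apply IntF.fst | with_reducible apply IntF.snd | with_reducible apply IntF.app | with_reducible apply IntF.inl | with_reducible apply IntF.inr | with_reducible_and_instances apply IntF.mul | with_reducible_and_instances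 apply IntF.inv | with_reducible_and_instances apply IntF.add | with_reducible_and_instances apply IntF.sub | with_reducible_and_instances apply IntF.neg | with_reducible_and_instances apply IntF.smul | with_reducible apply Int.fin | with_reducible apply IntF.sep | with_reducible apply IntF.lam | with_reducible apply IntF.insert | with_reducible apply IntF.singleton | with_reducible apply IntF.union | with_reducible apply IntF.iimage | with_reducible apply IntF.ite | with_reducible apply IntF.the | with_reducible apply IntF.irec | with_reducible apply IntF.succ | with_reducible apply IntF.val | with_reducible apply IntF.mk | (with_reducible refine Int.comp ?_ ?_; assumption) | (with_reducible refine Int.comp₂ ?_ ?_ ?_; assumption) | (with_reducible refine Int.comp₃ ?_ ?_ ?_ ?_; assumption) | (with_reducible refine Int.comp₄ ?_ ?_ ?_ ?_ ?_; assumption) | (with_reducible refine IntF.comp ?_ ?_; assumption) | (with_reducible refine IntF.comp₂ ?_ ?_ ?_; assumption) | (with_reducible refine IntF.comp₃ ?_ ?_ ?_ ?_; assumption) | with_reducible apply IntF.pair))))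
    fun _ _ => rfl

theorem ef_pp {G : Set (Co M (XB M))} (hG : IsGen M G) : EF (WB M) hG (a4 (M := M))
    (fun q : (XB M × XB M) × (XB M × XB M) =>
      op (op (cc (WB M) hG q.1.1) (cc (WB M) hG q.1.2))
        (op (cc (WB M) hG q.2.1) (cc (WB M) hG q.2.2))) :=
  EF.op hG a4_inv (EF.op hG a4_inv (ef_p1 hG) (ef_p2 hG)) (EF.op hG a4_inv (ef_p3 hG) (ef_p4 hG))

theorem ef_supp {G : Set (Co M (XB M))} (hG : IsGen M G) (z : NN (SW (WB M)) hG) :
    ∃ l : INat M, ∀ g : IPerm M (XB M), g ∈ (ZB M).H → (∀ x, (WB M).In l x → g.1.1 x = x) →
      ∀ q : (XB M × XB M) × (XB M × XB M), Plain.Mem (op (op (cc (WB M) hG q.1.1)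
        (cc (WB M) hG q.1.2)) (op (cc (WB M) hG q.2.1) (cc (WB M) hG q.2.2))) z →
      Plain.Mem (op (op (cc (WB M) hG (a4 g q).1.1) (cc (WB M) hG (a4 g q).1.2))
        (op (cc (WB M) hG (a4 g q).2.1) (cc (WB M) hG (a4 g q).2.2))) z := by
  obtain ⟨l, hl⟩ := support hG z
  exact ⟨l, fun g hg hgE q h => hl _ _ _ _ (ef_pp hG) g hg hgE q h⟩

variable {G : Set (Co M (XB M))} (hG : IsGen M G) (hC : CollL M)

include hC in
/-- The model. -/
theorem exists_BD : Nonempty (BD (NN (SW (WB M)) hG) (El (AA (WB M) hG))) := by
  -- the level map
  have hf : EF (WB M) hG (fun g q => (q.1, g.1.1 q.2))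
      (fun q : INat M × XB M => op (nn (WB M) hG q.1) (cc (WB M) hG q.2)) := by
    refine EF.op hG (fun g b => ?_) ?_ ?_
    · exact Prod.ext rfl (g.2.2 _)
    · exact EF.comp hG (ef_nn hG) (φ := fun q : INat M × XB M => q.1) (by ((repeat' (first | with_reducible exact IntF.id | with_reducible exact IntF.fst' | with_reducible exact IntF.snd' | with_reducible exact IntF.const _ | with_reducible exact Int.const _ | assumption | with_reducible apply Int.and | with_reducible apply Int.or | with_reducible apply Int.not | with_reducible apply Int.imp | with_reducible apply Int.iff | with_reducible apply Int.ne | with_reducible apply Int.eq | with_reducible apply Int.mem | with_reducible apply Int.subset | with_reducible apply Int.ltN | with_reducible apply Int.leN | with_reducible_and_instances apply Int.le | with_reducible_and_instances apply Int.lt | with_reducible apply Int.all | with_reducible apply Int.ex | with_reducible apply IntF.fst | with_reducible apply IntF.snd | with_reducible apply IntF.app | with_reducible apply IntF.inl | with_reducible apply IntF.inr | with_reducible_and_instances apply IntF.mul | with_reducible_and_instances apply IntF.inv |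 with_reducible_and_instances apply IntF.add | with_reducible_and_instances apply IntF.sub | with_reducible_and_instances apply IntF.neg | with_reducible_and_instances apply IntF.smul | with_reducible apply Int.fin | with_reducible apply IntF.sep | with_reducible apply IntF.lam | with_reducible apply IntF.insert | with_reducible apply IntF.singleton | with_reducible apply IntF.union | with_reducible apply IntF.iimage | with_reducible apply IntF.ite | with_reducible apply IntF.the | with_reducible apply IntF.irec | with_reducible apply IntF.succ | with_reducible apply IntF.val | with_reducible apply IntF.mk | (with_reducible refine Int.comp ?_ ?_; assumption) | (with_reducible refine Int.comp₂ ?_ ?_ ?_; assumption) | (with_reducible refine Int.comp₃ ?_ ?_ ?_ ?_; assumption) | (with_reducible refine Int.comp₄ ?_ ?_ ?_ ?_ ?_; assumption) | (with_reducible refine IntF.comp ?_ ?_; assumption) | (with_reducible refine IntF.comp₂ ?_ ?_ ?_; assumption) | (with_reducible refine IntF.comp₃ ?_ ?_ ?_ ?_; assumption) | with_reducible apply IntF.pair)))) fun _ _ => rfl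
    · exact EF.comp hG (ef_cc hG) (φ := fun q : INat M × XB M => q.2) (by ((repeat' (first | with_reducible exact IntF.id | with_reducible exact IntF.fst' | with_reducible exact IntF.snd' | with_reducible exact IntF.const _ | with_reducible exact Int.const _ | assumption | with_reducible apply Int.and | with_reducible apply Int.or | with_reducible apply Int.not | with_reducible apply Int.imp | with_reducible apply Int.iff | with_reducible apply Int.ne | with_reducible apply Int.eq | with_reducible apply Int.mem | with_reducible apply Int.subset | with_reducible apply Int.ltN | with_reducible apply Int.leN | with_reducible_and_instances apply Int.le | with_reducible_and_instances apply Int.lt | with_reducible apply Int.all | with_reducible apply Int.ex | with_reducible apply IntF.fst | with_reducible apply IntF.snd | with_reducible apply IntF.app | with_reducible apply IntF.inl | with_reducible apply IntF.inr | with_reducible_and_instances apply IntF.mul | with_reducible_and_instances apply IntF.inv | with_reducible_and_instances apply IntF.add | with_reducible_and_instances apply IntF.sub | with_reducible_and_instances apply IntF.neg | with_reducible_and_instances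 apply IntF.smul | with_reducible apply Int.fin | with_reducible apply IntF.sep | with_reducible apply IntF.lam | with_reducible apply IntF.insert | with_reducible apply IntF.singleton | with_reducible apply IntF.union | with_reducible apply IntF.iimage | with_reducible apply IntF.ite | with_reducible apply IntF.the | with_reducible apply IntF.irec | with_reducible apply IntF.succ | with_reducible apply IntF.val | with_reducible apply IntF.mk | (with_reducible refine Int.comp ?_ ?_; assumption) | (with_reducible refine Int.comp₂ ?_ ?_ ?_; assumption) | (with_reducible refine Int.comp₃ ?_ ?_ ?_ ?_; assumption) | (with_reducible refine Int.comp₄ ?_ ?_ ?_ ?_ ?_; assumption) | (with_reducible refine IntF.comp ?_ ?_; assumption) | (with_reducible refine IntF.comp₂ ?_ ?_ ?_; assumption) | (with_reducible refine IntF.comp₃ ?_ ?_ ?_ ?_; assumption) | with_reducible apply IntF.pair)))) fun _ _ => rfl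
  -- relations between numbers and atoms
  have key : ∀ R : INat M × XB M → Prop, Int M R → (∀ x, ∃! n, R (n, x)) →
      (∃ l, ∀ g ∈ (ZB M).H, (∀ x, (WB M).In l x → g.1.1 x = x) → ∀ n x, R (n, x) → R (n, g.1.1 x)) →
      ∃ f : El (AA (WB M) hG) → INat (NN (SW (WB M)) hG), IntF (NN (SW (WB M)) hG) f ∧
        ∀ x n, R (n, x) → f (cA (WB M) hG x) = nnN (WB M) hG hC n := by
    rintro R hR hu ⟨l, hl⟩
    obtain ⟨z, hz⟩ := EF.set hG hf hR (E := l) fun g hg hgE c hc => hl g hg hgE _ _ hc
    have hI : Int (NN (SW (WB M)) hG) (fun q : El (AA (WB M) hG) × INat (NN (SW (WB M)) hG) =>
        Mem (op q.2.val q.1.1) z) :=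
      Int.of_D₂ (S := fun v => Mem (op (v 1) (v 0)) z)
        (D.memf (DF.op (DF.var _) (DF.var _)) (DF.const _)) fun _ _ => Iff.rfl
    refine ⟨fun a => the (fun k : INat (NN (SW (WB M)) hG) => Mem (op k.val a.1) z) 0,
      IntF.the hI (IntF.const _), fun x n hn => ?_⟩
    have h1 : ∀ k, Mem (op (nnN (WB M) hG hC k).val (cA (WB M) hG x).1) z ↔ R (k, x) := by
      intro k
      refine (hz _).trans ⟨?_, fun h => ⟨(k, x), h, rfl⟩⟩
      rintro ⟨⟨m', x'⟩, h, h2⟩
      obtain ⟨h3, h4⟩ := op_inj h2
      obtain rfl := (nn_inj hG).1 h3
      obtain rfl := (cc_inj hG).1 h4
      exact h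
    refine the_eq ⟨nnN (WB M) hG hC n, (h1 _).2 hn, fun k hk => ?_⟩ ((h1 _).2 hn)
    obtain ⟨k, rfl⟩ := nnN_surj hG hC k
    rw [(hu x).unique ((h1 _).1 hk) hn]
  obtain ⟨lev, hlev, hlev'⟩ := key (fun q => q.2.1 = q.1) (by ((repeat' (first | with_reducible exact IntF.id | with_reducible exact IntF.fst' | with_reducible exact IntF.snd' | with_reducible exact IntF.const _ | with_reducible exact Int.const _ | assumption | with_reducible apply Int.and | with_reducible apply Int.or | with_reducible apply Int.not | with_reducible apply Int.imp | with_reducible apply Int.iff | with_reducible apply Int.ne | with_reducible apply Int.eq | with_reducible apply Int.mem | with_reducible apply Int.subset | with_reducible apply Int.ltN | with_reducible apply Int.leN | with_reducible_and_instances apply Int.le | with_reducible_and_instances apply Int.lt | with_reducible apply Int.all | with_reducible apply Int.ex | with_reducible apply IntF.fst | with_reducible apply IntF.snd | with_reducible apply IntF.app | with_reducible apply IntF.inl | with_reducible apply IntF.inr | with_reducible_and_instances apply IntF.mul | with_reducible_and_instances apply IntF.inv | with_reducible_and_instances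 apply IntF.add | with_reducible_and_instances apply IntF.sub | with_reducible_and_instances apply IntF.neg | with_reducible_and_instances apply IntF.smul | with_reducible apply Int.fin | with_reducible apply IntF.sep | with_reducible apply IntF.lam | with_reducible apply IntF.insert | with_reducible apply IntF.singleton | with_reducible apply IntF.union | with_reducible apply IntF.iimage | with_reducible apply IntF.ite | with_reducible apply IntF.the | with_reducible apply IntF.irec | with_reducible apply IntF.succ | with_reducible apply IntF.val | with_reducible apply IntF.mk | (with_reducible refine Int.comp ?_ ?_; assumption) | (with_reducible refine Int.comp₂ ?_ ?_ ?_; assumption) | (with_reducible refine Int.comp₃ ?_ ?_ ?_ ?_; assumption) | (with_reducible refine Int.comp₄ ?_ ?_ ?_ ?_ ?_; assumption) | (with_reducible refine IntF.comp ?_ ?_; assumption) | (with_reducible refine IntF.comp₂ ?_ ?_ ?_; assumption) | (with_reducible refine IntF.comp₃ ?_ ?_ ?_ ?_; assumption) | with_reducible apply IntF.pair))))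
    (fun x => ⟨x.1, rfl, fun n h => h.symm⟩) ⟨0, fun g hg _ n x h =>
      (show (g.1.1 x).1 = x.1 from hg x).trans h⟩
  have hlv : ∀ x, lev (cA (WB M) hG x) = nnN (WB M) hG hC x.1 := fun x => hlev' x x.1 rfl
  refine ⟨⟨lev, hlev, fun n => ?_, fun R hR => ?_, fun R hR => ?_⟩⟩
  · obtain ⟨n, rfl⟩ := nnN_surj hG hC n
    obtain ⟨en, hen, hen'⟩ := key (fun q => (q.2.1 ≤ n ∧ q.1 = q.2.2) ∨ (¬ q.2.1 ≤ n ∧ q.1 = 0))
      (by ((repeat' (first | with_reducible exact IntF.id | with_reducible exact IntF.fst' | with_reducible exact IntF.snd' | with_reducible exact IntF.const _ | with_reducible exact Int.const _ | assumption | with_reducible apply Int.and | with_reducible apply Int.or | with_reducible apply Int.not | with_reducible apply Int.imp | with_reducible apply Int.iff | with_reducible apply Int.ne | with_reducible apply Int.eq | with_reducible apply Int.mem | with_reducible apply Int.subset | with_reducible apply Int.ltN | with_reducible apply Int.leN | with_reducible_and_instances apply Int.le | with_reducible_and_instances apply Int.lt | with_reducible apply Int.all | with_reducible apply Int.ex | with_reducible apply IntF.fst | with_reducible apply IntF.snd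 | with_reducible apply IntF.app | with_reducible apply IntF.inl | with_reducible apply IntF.inr | with_reducible_and_instances apply IntF.mul | with_reducible_and_instances apply IntF.inv | with_reducible_and_instances apply IntF.add | with_reducible_and_instances apply IntF.sub | with_reducible_and_instances apply IntF.neg | with_reducible_and_instances apply IntF.smul | with_reducible apply Int.fin | with_reducible apply IntF.sep | with_reducible apply IntF.lam | with_reducible apply IntF.insert | with_reducible apply IntF.singleton | with_reducible apply IntF.union | with_reducible apply IntF.iimage | with_reducible apply IntF.ite | with_reducible apply IntF.the | with_reducible apply IntF.irec | with_reducible apply IntF.succ | with_reducible apply IntF.val | with_reducible apply IntF.mk | (with_reducible refine Int.comp ?_ ?_; assumption) | (with_reducible refine Int.comp₂ ?_ ?_ ?_; assumption) | (with_reducible refine Int.comp₃ ?_ ?_ ?_ ?_; assumption) | (with_reducible refine Int.comp₄ ?_ ?_ ?_ ?_ ?_; assumption) | (with_reducible refine IntF.comp ?_ ?_; assumption) | (with_reducible refine IntF.comp₂ ?_ ?_ ?_; assumption) | (with_reducible refine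 IntF.comp₃ ?_ ?_ ?_ ?_; assumption) | with_reducible apply IntF.pair)))) (fun x => by
        by_cases h : x.1 ≤ n
        · exact ⟨x.2, Or.inl ⟨h, rfl⟩, fun m hm => hm.elim (fun h1 => h1.2) fun h1 => absurd h h1.1⟩
        · exact ⟨0, Or.inr ⟨h, rfl⟩, fun m hm => hm.elim (fun h1 => absurd h1.1 h) fun h1 => h1.2⟩)
      ⟨n.succ, fun g hg hgE m x h => by
        have h0 : (g.1.1 x).1 = x.1 := hg x
        rcases h with ⟨h1, h2⟩ | ⟨h1, h2⟩
        · have h3 : g.1.1 x = x := hgE x (INat.lt_succ_iff.2 h1)
          rw [h3]
          exact Or.inl ⟨h1, h2⟩
        · exact Or.inr ⟨by rw [h0]; exact h1, h2⟩⟩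
    refine ⟨en, hen, fun a b ha hb hab => ?_, fun i j hi => ?_⟩
    · obtain ⟨x, rfl⟩ := cA_surj hG a
      obtain ⟨y, rfl⟩ := cA_surj hG b
      rw [hlv, hlv] at ha
      rw [hlv] at hb
      have hxy := (nnN_inj hG hC).1 ha
      have hx : x.1 ≤ n := by
        by_contra hc
        exact absurd hb (not_le.2 ((nnN_lt hG hC).2 (not_le.1 hc)))
      rw [hen' x x.2 (Or.inl ⟨hx, rfl⟩), hen' y y.2 (Or.inl ⟨hxy ▸ hx, rfl⟩)] at hab
      have := (nnN_inj hG hC).1 hab
      rw [Prod.ext hxy this]
    · obtain ⟨i, rfl⟩ := nnN_surj hG hC i
      obtain ⟨j, rfl⟩ := nnN_surj hG hC j
      refine ⟨cA (WB M) hG (i, j), hlv _, hen' (i, j) j (Or.inl ⟨?_, rfl⟩)⟩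
      by_contra hc
      exact absurd hi (not_le.2 ((nnN_lt hG hC).2 (not_le.1 hc)))
  · obtain ⟨z, hz⟩ := hR
    obtain ⟨l, hl⟩ := support hG z
    have h1 : EF (WB M) hG (fun g q => (q.1, (g.1.1 q.2.1, g.1.1 q.2.2)))
        (fun q : INat M × (XB M × XB M) =>
          op (nn (WB M) hG q.1) (op (cc (WB M) hG q.2.1) (cc (WB M) hG q.2.2))) := by
      refine EF.op hG (fun g b => ?_) ?_ (EF.op hG (fun g b => ?_) ?_ ?_)
      · exact Prod.ext rfl (Prod.ext (g.2.2 _) (g.2.2 _))
      · exact EF.comp hG (ef_nn hG) (φ := fun q : INat M × (XB M × XB M) => q.1) (by ((repeat' (first | with_reducible exact IntF.id | with_reducible exact IntF.fst' | with_reducible exact IntF.snd' | with_reducible exact IntF.const _ | with_reducible exact Int.const _ | assumption | with_reducible apply Int.and | with_reducible apply Int.or | with_reducible apply Int.not | with_reducible apply Int.imp | with_reducible apply Int.iff | with_reducible apply Int.ne | with_reducible apply Int.eq | with_reducible apply Int.mem | with_reducible apply Int.subset | with_reducible apply Int.ltN | with_reducible apply Int.leN | with_reducible_and_instances apply Int.le | with_reducible_and_instances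 apply Int.lt | with_reducible apply Int.all | with_reducible apply Int.ex | with_reducible apply IntF.fst | with_reducible apply IntF.snd | with_reducible apply IntF.app | with_reducible apply IntF.inl | with_reducible apply IntF.inr | with_reducible_and_instances apply IntF.mul | with_reducible_and_instances apply IntF.inv | with_reducible_and_instances apply IntF.add | with_reducible_and_instances apply IntF.sub | with_reducible_and_instances apply IntF.neg | with_reducible_and_instances apply IntF.smul | with_reducible apply Int.fin | with_reducible apply IntF.sep | with_reducible apply IntF.lam | with_reducible apply IntF.insert | with_reducible apply IntF.singleton | with_reducible apply IntF.union | with_reducible apply IntF.iimage | with_reducible apply IntF.ite | with_reducible apply IntF.the | with_reducible apply IntF.irec | with_reducible apply IntF.succ | with_reducible apply IntF.val | with_reducible apply IntF.mk | (with_reducible refine Int.comp ?_ ?_; assumption) | (with_reducible refine Int.comp₂ ?_ ?_ ?_; assumption) | (with_reducible refine Int.comp₃ ?_ ?_ ?_ ?_; assumption) | (with_reducible refine Int.comp₄ ?_ ?_ ?_ ?_ ?_; assumption)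 | (with_reducible refine IntF.comp ?_ ?_; assumption) | (with_reducible refine IntF.comp₂ ?_ ?_ ?_; assumption) | (with_reducible refine IntF.comp₃ ?_ ?_ ?_ ?_; assumption) | with_reducible apply IntF.pair)))) fun _ _ => rfl
      · exact Prod.ext rfl (Prod.ext (g.2.2 _) (g.2.2 _))
      · exact EF.comp hG (ef_cc hG) (φ := fun q : INat M × (XB M × XB M) => q.2.1) (by ((repeat' (first | with_reducible exact IntF.id | with_reducible exact IntF.fst' | with_reducible exact IntF.snd' | with_reducible exact IntF.const _ | with_reducible exact Int.const _ | assumption | with_reducible apply Int.and | with_reducible apply Int.or | with_reducible apply Int.not | with_reducible apply Int.imp | with_reducible apply Int.iff | with_reducible apply Int.ne | with_reducible apply Int.eq | with_reducible apply Int.mem | with_reducible apply Int.subset | with_reducible apply Int.ltN | with_reducible apply Int.leN | with_reducible_and_instances apply Int.le | with_reducible_and_instances apply Int.lt | with_reducible apply Int.all | with_reducible apply Int.ex | with_reducible apply IntF.fst | with_reducible apply IntF.snd | with_reducible apply IntF.app | with_reducible apply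 IntF.inl | with_reducible apply IntF.inr | with_reducible_and_instances apply IntF.mul | with_reducible_and_instances apply IntF.inv | with_reducible_and_instances apply IntF.add | with_reducible_and_instances apply IntF.sub | with_reducible_and_instances apply IntF.neg | with_reducible_and_instances apply IntF.smul | with_reducible apply Int.fin | with_reducible apply IntF.sep | with_reducible apply IntF.lam | with_reducible apply IntF.insert | with_reducible apply IntF.singleton | with_reducible apply IntF.union | with_reducible apply IntF.iimage | with_reducible apply IntF.ite | with_reducible apply IntF.the | with_reducible apply IntF.irec | with_reducible apply IntF.succ | with_reducible apply IntF.val | with_reducible apply IntF.mk | (with_reducible refine Int.comp ?_ ?_; assumption) | (with_reducible refine Int.comp₂ ?_ ?_ ?_; assumption) | (with_reducible refine Int.comp₃ ?_ ?_ ?_ ?_; assumption) | (with_reducible refine Int.comp₄ ?_ ?_ ?_ ?_ ?_; assumption) | (with_reducible refine IntF.comp ?_ ?_; assumption) | (with_reducible refine IntF.comp₂ ?_ ?_ ?_; assumption) | (with_reducible refine IntF.comp₃ ?_ ?_ ?_ ?_; assumption) | with_reducible apply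 IntF.pair)))) fun _ _ => rfl
      · exact EF.comp hG (ef_cc hG) (φ := fun q : INat M × (XB M × XB M) => q.2.2) (by ((repeat' (first | with_reducible exact IntF.id | with_reducible exact IntF.fst' | with_reducible exact IntF.snd' | with_reducible exact IntF.const _ | with_reducible exact Int.const _ | assumption | with_reducible apply Int.and | with_reducible apply Int.or | with_reducible apply Int.not | with_reducible apply Int.imp | with_reducible apply Int.iff | with_reducible apply Int.ne | with_reducible apply Int.eq | with_reducible apply Int.mem | with_reducible apply Int.subset | with_reducible apply Int.ltN | with_reducible apply Int.leN | with_reducible_and_instances apply Int.le | with_reducible_and_instances apply Int.lt | with_reducible apply Int.all | with_reducible apply Int.ex | with_reducible apply IntF.fst | with_reducible apply IntF.snd | with_reducible apply IntF.app | with_reducible apply IntF.inl | with_reducible apply IntF.inr | with_reducible_and_instances apply IntF.mul | with_reducible_and_instances apply IntF.inv | with_reducible_and_instances apply IntF.add | with_reducible_and_instances apply IntF.sub | with_reducible_and_instances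 apply IntF.neg | with_reducible_and_instances apply IntF.smul | with_reducible apply Int.fin | with_reducible apply IntF.sep | with_reducible apply IntF.lam | with_reducible apply IntF.insert | with_reducible apply IntF.singleton | with_reducible apply IntF.union | with_reducible apply IntF.iimage | with_reducible apply IntF.ite | with_reducible apply IntF.the | with_reducible apply IntF.irec | with_reducible apply IntF.succ | with_reducible apply IntF.val | with_reducible apply IntF.mk | (with_reducible refine Int.comp ?_ ?_; assumption) | (with_reducible refine Int.comp₂ ?_ ?_ ?_; assumption) | (with_reducible refine Int.comp₃ ?_ ?_ ?_ ?_; assumption) | (with_reducible refine Int.comp₄ ?_ ?_ ?_ ?_ ?_; assumption) | (with_reducible refine IntF.comp ?_ ?_; assumption) | (with_reducible refine IntF.comp₂ ?_ ?_ ?_; assumption) | (with_reducible refine IntF.comp₃ ?_ ?_ ?_ ?_; assumption) | with_reducible apply IntF.pair)))) fun _ _ => rfl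
    have hl2 : ∀ g : IPerm M (XB M), g ∈ (ZB M).H → (∀ x, (WB M).In l x → g.1.1 x = x) →
        ∀ q x y, Plain.Mem (op (nn (WB M) hG q) (op (cc (WB M) hG x) (cc (WB M) hG y))) z →
        Plain.Mem (op (nn (WB M) hG q) (op (cc (WB M) hG (g.1.1 x)) (cc (WB M) hG (g.1.1 y)))) z :=
      fun g hg hgE q x y h => hl _ _ _ _ h1 g hg hgE (q, (x, y)) h
    refine ⟨nnN (WB M) hG hC l, fun n hn a b a' b' ha hb ha' hb' hab hab' q h => ?_⟩
    obtain ⟨n, rfl⟩ := nnN_surj hG hC n
    obtain ⟨q, rfl⟩ := nnN_surj hG hC q
    obtain ⟨x, rfl⟩ := cA_surj hG a
    obtain ⟨y, rfl⟩ := cA_surj hG b
    obtain ⟨x', rfl⟩ := cA_surj hG a'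
    obtain ⟨y', rfl⟩ := cA_surj hG b'
    rw [hlv] at ha hb ha' hb'
    have hx := (nnN_inj hG hC).1 ha
    have hy := (nnN_inj hG hC).1 hb
    have hx' := (nnN_inj hG hC).1 ha'
    have hy' := (nnN_inj hG hC).1 hb'
    have hxy : x ≠ y := fun h => hab (h ▸ rfl)
    have hxy' : x' ≠ y' := fun h => hab' (h ▸ rfl)
    have hln : l ≤ n := by
      by_contra hc
      exact absurd hn (not_le.2 ((nnN_lt hG hC).2 (not_le.1 hc)))
    have hsw := fun u v hu hv => swp_mem (M := M) (l := l) (n := n) (u := u) (v := v) hu hv hln
    have hu2 : (swf x x' y).1 = n := by
      by_cases h1 : y = x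
      · exact absurd h1.symm hxy
      · by_cases h2 : y = x'
        · rw [h2, swf_right, hx]
        · rw [swf_ne h1 h2, hy]
    obtain ⟨g1, g2⟩ := hsw x x' hx hx'
    obtain ⟨g3, g4⟩ := hsw (swf x x' y) y' hu2 hy'
    have e1 : (swp (M := M) (swf x x' y) y').1.1 ((swp (M := M) x x').1.1 x) = x' := by
      rw [swp_apply, swp_apply, swf_left]
      refine swf_ne ?_ hxy'
      intro h
      have h4 := congrArg (swf x x') h
      rw [swf_swf, swf_right] at h4
      exact hxy h4
    have e2 : (swp (M := M) (swf x x' y) y').1.1 ((swp (M := M) x x').1.1 y) = y' := by
      rw [swp_apply, swp_apply, swf_left]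
    have h5 := hl2 _ g1 g2 q x y ((hz _).2 h)
    have h6 := hl2 _ g3 g4 _ _ _ h5
    rw [e1, e2] at h6
    exact (hz _).1 h6
  · obtain ⟨z, hz⟩ := hR
    obtain ⟨l, hl2⟩ := ef_supp hG z
    refine ⟨nnN (WB M) hG hC l, fun n hn a b a' b' ha hb ha' hb' hab hab' h1 h2 h3 h4 h => ?_⟩
    obtain ⟨n, rfl⟩ := nnN_surj hG hC n
    obtain ⟨x, rfl⟩ := cA_surj hG a
    obtain ⟨y, rfl⟩ := cA_surj hG b
    obtain ⟨x', rfl⟩ := cA_surj hG a'
    obtain ⟨y', rfl⟩ := cA_surj hG b'
    rw [hlv] at ha hb ha' hb'
    have hx := (nnN_inj hG hC).1 ha
    have hy := (nnN_inj hG hC).1 hb
    have hx' := (nnN_inj hG hC).1 ha'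
    have hy' := (nnN_inj hG hC).1 hb'
    have hln : l ≤ n := by
      by_contra hc
      exact absurd hn (not_le.2 ((nnN_lt hG hC).2 (not_le.1 hc)))
    have k1 : x ≠ x' := fun h => h1 (h ▸ rfl)
    have k2 : x ≠ y' := fun h => h2 (h ▸ rfl)
    have k3 : y ≠ x' := fun h => h3 (h ▸ rfl)
    have k4 : y ≠ y' := fun h => h4 (h ▸ rfl)
    have k5 : x ≠ y := fun h => hab (h ▸ rfl)
    have k6 : x' ≠ y' := fun h => hab' (h ▸ rfl)
    obtain ⟨g1, g2⟩ := swp_mem (M := M) hx hx' hln
    obtain ⟨g3, g4⟩ := swp_mem (M := M) hy hy' hln
    have h7 : Plain.Mem (op (op (cc (WB M) hG x) (cc (WB M) hG y))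
        (op (cc (WB M) hG x') (cc (WB M) hG y'))) z :=
      (hz ((cA (WB M) hG x, cA (WB M) hG y), (cA (WB M) hG x', cA (WB M) hG y'))).2 h
    have h5 := hl2 _ g1 g2 ((x, y), (x', y')) h7
    have h6 := hl2 _ g3 g4 _ h5
    have e5 : a4 (swp (M := M) y y') (a4 (swp (M := M) x x') ((x, y), (x', y'))) =
        ((x', y'), (x, y)) := by
      unfold a4
      simp only [swp_apply]
      rw [swf_left, swf_right, swf_ne k5.symm k3, swf_ne k2.symm k6.symm, swf_left, swf_right,
        swf_ne k5 k2, swf_ne k3.symm k6]
    rw [e5] at h6
    exact (hz ((cA (WB M) hG x', cA (WB M) hG y'), (cA (WB M) hG x, cA (WB M) hG y))).1 h6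

end model

end Pool.Agent.Helper672.ZFA.H310M.R602
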