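import Pool.Agent.H310R3.PM6

/-!
# Permutation models with general supports
-/

set_option maxHeartbeats 1000000
set_option linter.all false
set_option synthInstance.maxSize 2000

namespace Pool.Agent.Helper672.ZFA.H310M.R602

open FirstOrder FirstOrder.Language

open Pool.Agent.Helper672.ZFA.H635 (IPerm SymSys IG WFI FEq FMem tw Good feq_of_map feq_iff IsGen
  nd nd_eq mem_nd mem_nd_nd exists_mk mk_eq_nd EqFam NN fmem_tw feq_tw tw_tw_inv SymQ extG good_extG
  mem_nd_inr feq_equivQ nn_ext CollL nn_zf mem_NN)
open Pool.Agent.Helper672.Plain (LSet)
open Pool.Agent.H310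

universe u

variable {M : Type u} [L.Structure M] [hM : IsModel M] {X : Type u} [ITy M X] {Z : PGr M X}
  {Λ : Type u} [ITy M Λ]

variable (Z Λ) in
/-- A system of supports. -/
structure Sup where
  In : Λ → X → Prop
  int_In : Int M (fun q : Λ × X => In q.1 q.2)
  l0 : Λ
  dir : ∀ l l', ∃ m, ∀ x, In l x ∨ In l' x → In m x
  conj : ∀ g : IPerm M X, g ∈ Z.H → ∀ l, ∃ m, ∀ x, In l x → In m (g.1.1 x)
  cover : ∀ x, ∃ l, In l x

variable (W : Sup Z Λ)

/-- The symmetric system. -/
noncomputable def SW : SymSys M (Co M X) (Gm Z) Λ where
  smul_le π p q h c hc := mem_smul'.2 (h _ (mem_smul'.1 hc))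
  U l π := ∀ c : Cel M X, W.In l c.1 → sig π c = c
  int_U := by
    have h : IntF M (fun q : Gm Z × Cel M X => sig q.1 q.2) := int_sig
    have h' := W.int_In
    ((repeat' (first | with_reducible exact IntF.id | with_reducible exact IntF.fst' | with_reducible exact IntF.snd' | with_reducible exact IntF.const _ | with_reducible exact Int.const _ | assumption | with_reducible apply Int.and | with_reducible apply Int.or | with_reducible apply Int.not | with_reducible apply Int.imp | with_reducible apply Int.iff | with_reducible apply Int.ne | with_reducible apply Int.eq | with_reducible apply Int.mem | with_reducible apply Int.subset | with_reducible apply Int.ltN | with_reducible apply Int.leN | with_reducible_and_instances apply Int.le | with_reducible_and_instances apply Int.lt | with_reducible apply Int.all | with_reducible apply Int.ex | with_reducible apply IntF.fst | with_reducible apply IntF.snd | with_reducible apply IntF.app | with_reducible apply IntF.inl | with_reducible apply IntF.inr | with_reducible_and_instances apply IntF.mul | with_reducible_and_instances apply IntF.inv | with_reducible_and_instances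 apply IntF.add | with_reducible_and_instances apply IntF.sub | with_reducible_and_instances apply IntF.neg | with_reducible_and_instances apply IntF.smul | with_reducible apply Int.fin | with_reducible apply IntF.sep | with_reducible apply IntF.lam | with_reducible apply IntF.insert | with_reducible apply IntF.singleton | with_reducible apply IntF.union | with_reducible apply IntF.iimage | with_reducible apply IntF.ite | with_reducible apply IntF.the | with_reducible apply IntF.irec | with_reducible apply IntF.succ | with_reducible apply IntF.val | with_reducible apply IntF.mk | (with_reducible refine Int.comp ?_ ?_; assumption) | (with_reducible refine Int.comp₂ ?_ ?_ ?_; assumption) | (with_reducible refine Int.comp₃ ?_ ?_ ?_ ?_; assumption) | (with_reducible refine Int.comp₄ ?_ ?_ ?_ ?_ ?_; assumption) | (with_reducible refine IntF.comp ?_ ?_; assumption) | (with_reducible refine IntF.comp₂ ?_ ?_ ?_; assumption) | (with_reducible refine IntF.comp₃ ?_ ?_ ?_ ?_; assumption) | with_reducible apply IntF.pair)))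
  nonempty := ⟨W.l0⟩
  one _ c _ := sig_one c
  mul _ a b ha hb c hc := by rw [sig_comp, hb c hc, ha c hc]
  inv _ a ha c hc := by
    rw [sig_inv]
    have h := congrArg (sigi a) (ha c hc)
    rwa [sigi_sig, eq_comm] at h
  dir l l' := by
    obtain ⟨m, hm⟩ := W.dir l l'
    exact ⟨m, fun a ha => ⟨fun c hc => ha c (hm _ (Or.inl hc)), fun c hc => ha c (hm _ (Or.inr hc))⟩⟩
  conj π l := by
    obtain ⟨m, hm⟩ := W.conj π.1.1 (rho_mem π) l
    refine ⟨m, fun a ha c hc => ?_⟩
    rw [sig_comp, sig_comp, sig_inv, ha, sigi_sig]
    rw [sig_fst]
    exact hm _ hc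

variable {W}

theorem SW_U {l : Λ} {π : Gm Z} : (SW W).U l π ↔ ∀ c : Cel M X, W.In l c.1 → sig π c = c := Iff.rfl

theorem rho_of_U {l : Λ} {π : Gm Z} (h : (SW W).U l π) {i : X}
    (hi : W.In l i) : rho π i = i := by
  have h1 := h (i, ((0 : INat M), (0 : INat M))) hi
  have h2 := sig_fst π (i, ((0 : INat M), (0 : INat M)))
  rw [h1] at h2
  exact h2.symm

theorem ts_of_U {l : Λ} {π : Gm Z} (h : (SW W).U l π) {i : X}
    (hi : W.In l i) (t : TS M) : ts π i t = t := by
  refine IPow.ext' ?_
  rintro ⟨k, d⟩
  rw [mem_ts, rho_of_U h hi]
  have h1 := h (i, (k, d)) hi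
  have h2 := sigi_sig π (i, (k, d))
  rw [h1] at h2
  rw [h2]

theorem good_BE : Good (SW W) (BE (M := M) (X := X)) := by
  refine ⟨ig_BE, wf_BE, ?_⟩
  rintro (n | ⟨i, t⟩ | i)
  · exact ⟨W.l0, fun π _ p => feq_th π p (nat n)⟩
  · obtain ⟨l, hl⟩ := W.cover i
    refine ⟨l, fun π hπ p => ?_⟩
    have h := feq_th π p (an i t)
    rw [th_an, rho_of_U hπ hl, ts_of_U hπ hl] at h
    exact h
  · obtain ⟨l, hl⟩ := W.cover i
    refine ⟨l, fun π hπ p => ?_⟩
    have h := feq_th π p (cn i)
    rw [th_cn, rho_of_U hπ hl] at h
    exact h

/-- Automorphisms that move the generic elements. -/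
theorem exists_move (q : Co M X) {E : Λ} {g : IPerm M X} (hg : g ∈ Z.H)
    (hE : ∀ x, W.In E x → g.1.1 x = x) :
    ∃ π : Gm Z, (SW W).U E π ∧ π.1.1 = g ∧ ∃ r, r ≤ q ∧ r ≤ π • q := by
  choose τ hτ using fun (i : X) => swR_exists q i (g.1.1 i)
  have hτi : IntF M (fun q : (X × INat M) × INat M => τ q.1.1 q.1.2 q.2) := by
    refine IntF.of_unique (p := fun (c : (X × INat M) × INat M) d' =>
      swR q c.1.1 (g.1.1 c.1.1) c.1.2 c.2 d') ?_ (fun c => hτ _ _ _)
      fun c a b => swR_unique
    unfold swR
    ((repeat' (first | with_reducible exact IntF.id | with_reducible exact IntF.fst' | with_reducible exact IntF.snd' | with_reducible exact IntF.const _ | with_reducible exact Int.const _ | assumption | with_reducible apply Int.and | with_reducible apply Int.or | with_reducible apply Int.not | with_reducible apply Int.imp | with_reducible apply Int.iff | with_reducible apply Int.ne | with_reducible apply Int.eq | with_reducible apply Int.mem | with_reducible apply Int.subset | with_reducible apply Int.ltN | with_reducible apply Int.leN | with_reducible_and_instances apply Int.le | with_reducible_and_instances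 apply Int.lt | with_reducible apply Int.all | with_reducible apply Int.ex | with_reducible apply IntF.fst | with_reducible apply IntF.snd | with_reducible apply IntF.app | with_reducible apply IntF.inl | with_reducible apply IntF.inr | with_reducible_and_instances apply IntF.mul | with_reducible_and_instances apply IntF.inv | with_reducible_and_instances apply IntF.add | with_reducible_and_instances apply IntF.sub | with_reducible_and_instances apply IntF.neg | with_reducible_and_instances apply IntF.smul | with_reducible apply Int.fin | with_reducible apply IntF.sep | with_reducible apply IntF.lam | with_reducible apply IntF.insert | with_reducible apply IntF.singleton | with_reducible apply IntF.union | with_reducible apply IntF.iimage | with_reducible apply IntF.ite | with_reducible apply IntF.the | with_reducible apply IntF.irec | with_reducible apply IntF.succ | with_reducible apply IntF.val | with_reducible apply IntF.mk | (with_reducible refine Int.comp ?_ ?_; assumption) | (with_reducible refine Int.comp₂ ?_ ?_ ?_; assumption) | (with_reducible refine Int.comp₃ ?_ ?_ ?_ ?_; assumption) | (with_reducible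 refine Int.comp₄ ?_ ?_ ?_ ?_ ?_; assumption) | (with_reducible refine IntF.comp ?_ ?_; assumption) | (with_reducible refine IntF.comp₂ ?_ ?_ ?_; assumption) | (with_reducible refine IntF.comp₃ ?_ ?_ ?_ ?_; assumption) | with_reducible apply IntF.pair)))
  have hττ : ∀ i k d, τ i k (τ i k d) = d := by
    intro i k d
    exact swR_unique (hτ i k (τ i k d)) (swR_symm (hτ i k d))
  obtain ⟨π, e1, e2, e3⟩ := exists_gm hg hτi hττ
  have hq := q.2.1
  have g1 : ∀ i, g.1.1 (g.1.2 i) = i := g.2.1
  refine ⟨π, ?_, e1, ?_⟩
  · rintro ⟨i', k, d⟩ hc
    have h5 := hτ i' k d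
    rw [hE i' hc] at h5
    have h6 : τ i' k d = d := by
      rcases h5 with ⟨e, e', h5, h6, h7⟩ | ⟨-, h5⟩
      · obtain rfl := hq _ _ _ _ h5 h6
        rcases h7 with ⟨h7, h8⟩ | ⟨h7, h8⟩
        · exact h8.trans h7.symm
        · exact h8.trans h7.symm
      · exact h5
    rw [e2, hE i' hc, h6]
  · have key : ∀ i k d d', (i, (k, d)) ∈ q.1 → (i, (k, d')) ∈ (π • q).1 → d = d' := by
      intro i k d d' hd hd'
      rw [mem_smul', e3] at hd'
      have h5 := hτ (g.1.2 i) k d'
      rw [g1] at h5
      rcases h5 with ⟨e, e', h5, h6, h7⟩ | ⟨h5, h6⟩
      · obtain rfl := hq _ _ _ _ hd h6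
        obtain h8 := hq _ _ _ _ hd' h5
        rcases h7 with ⟨h7, h9⟩ | ⟨h7, h9⟩
        · rw [h7, ← h8, h9]
        · exact h7.symm
      · rw [h6] at hd'
        exact absurd ⟨d', d, hd', hd, Or.inl rfl⟩ h5
    refine ⟨⟨q.1 ∪ (π • q).1, ?_, q.2.2.union (π • q).2.2⟩, ?_, ?_⟩
    · intro i' k d d' hd hd'
      rcases mem_union.1 hd with hd | hd
      · rcases mem_union.1 hd' with hd' | hd'
        · exact hq _ _ _ _ hd hd'
        · exact key _ _ _ _ hd hd'
      · rcases mem_union.1 hd' with hd' | hd'
        · exact (key _ _ _ _ hd' hd).symm
        · exact (π • q).2.1 _ _ _ _ hd hd'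
    · exact fun c hc => mem_union.2 (Or.inl hc)
    · exact fun c hc => mem_union.2 (Or.inr hc)

/-! ### In the extension -/

section ext

variable {G : Set (Co M X)} (hG : IsGen M G)

variable (W) in
/-- The generic elements. -/
noncomputable def cc (i : X) : NN (SW W) hG := nd hG good_BE (cn i)

variable (W) in
/-- The natural numbers. -/
noncomputable def nn (n : INat M) : NN (SW W) hG := nd hG good_BE (nat n : BN M X)

theorem cc_inj {i j : X} : cc W hG i = cc W hG j ↔ i = j := by
  refine ⟨fun h => ?_, fun h => h ▸ rfl⟩
  obtain ⟨p, -, h1⟩ := (nd_eq hG _ _).1 h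
  exact feq_cn h1

theorem nn_inj {m n : INat M} : nn W hG m = nn W hG n ↔ m = n := by
  refine ⟨fun h => ?_, fun h => h ▸ rfl⟩
  obtain ⟨p, -, h1⟩ := (nd_eq hG _ _).1 h
  exact feq_nat h1

theorem mem_nn {w : NN (SW W) hG} {n : INat M} :
    Helper672.Plain.Mem w (nn W hG n) ↔ ∃ m, m < n ∧ w = nn W hG m := by
  unfold nn
  rw [mem_nd]
  constructor
  · rintro ⟨a, s, hs, h, rfl⟩
    obtain ⟨m, rfl, h1⟩ := BE_nat.1 h
    exact ⟨m, h1, rfl⟩
  · rintro ⟨m, h, rfl⟩
    obtain ⟨p, hp⟩ := hG.ne
    exact ⟨_, p, hp, BE_nat.2 ⟨m, rfl, h⟩, rfl⟩

variable (W) in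
/-- Families that are equivariant for an action of the permutations of `X`. -/
def EF {ε : Type u} [ITy M ε] (a : IPerm M X → ε → ε) (f : ε → NN (SW W) hG) : Prop :=
  EqFam hG (fun (π : Gm Z) => a π.1.1) f

theorem ef_cc : EF W hG (fun g i => g.1.1 i) (fun i => cc W hG i) := by
  refine ⟨BN M X, _, BE, good_BE, fun i => cn i, by ((repeat' (first | with_reducible exact IntF.id | with_reducible exact IntF.fst' | with_reducible exact IntF.snd' | with_reducible exact IntF.const _ | with_reducible exact Int.const _ | assumption | with_reducible apply Int.and | with_reducible apply Int.or | with_reducible apply Int.not | with_reducible apply Int.imp | with_reducible apply Int.iff | with_reducible apply Int.ne | with_reducible apply Int.eq | with_reducible apply Int.mem | with_reducible apply Int.subset | with_reducible apply Int.ltN | with_reducible apply Int.leN | with_reducible_and_instances apply Int.le | with_reducible_and_instances apply Int.lt | with_reducible apply Int.all | with_reducible apply Int.ex | with_reducible apply IntF.fst | with_reducible apply IntF.snd | with_reducible apply IntF.app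 | with_reducible apply IntF.inl | with_reducible apply IntF.inr | with_reducible_and_instances apply IntF.mul | with_reducible_and_instances apply IntF.inv | with_reducible_and_instances apply IntF.add | with_reducible_and_instances apply IntF.sub | with_reducible_and_instances apply IntF.neg | with_reducible_and_instances apply IntF.smul | with_reducible apply Int.fin | with_reducible apply IntF.sep | with_reducible apply IntF.lam | with_reducible apply IntF.insert | with_reducible apply IntF.singleton | with_reducible apply IntF.union | with_reducible apply IntF.iimage | with_reducible apply IntF.ite | with_reducible apply IntF.the | with_reducible apply IntF.irec | with_reducible apply IntF.succ | with_reducible apply IntF.val | with_reducible apply IntF.mk | (with_reducible refine Int.comp ?_ ?_; assumption) | (with_reducible refine Int.comp₂ ?_ ?_ ?_; assumption) | (with_reducible refine Int.comp₃ ?_ ?_ ?_ ?_; assumption) | (with_reducible refine Int.comp₄ ?_ ?_ ?_ ?_ ?_; assumption) | (with_reducible refine IntF.comp ?_ ?_; assumption) | (with_reducible refine IntF.comp₂ ?_ ?_ ?_; assumption)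 | (with_reducible refine IntF.comp₃ ?_ ?_ ?_ ?_; assumption) | with_reducible apply IntF.pair))), fun c => rfl, fun π p c => ?_⟩
  exact feq_th π p (cn c)

theorem ef_nn : EF W hG (fun _ n => n) (fun n => nn W hG n) := by
  refine ⟨BN M X, _, BE, good_BE, fun n => nat n, by ((repeat' (first | with_reducible exact IntF.id | with_reducible exact IntF.fst' | with_reducible exact IntF.snd' | with_reducible exact IntF.const _ | with_reducible exact Int.const _ | assumption | with_reducible apply Int.and | with_reducible apply Int.or | with_reducible apply Int.not | with_reducible apply Int.imp | with_reducible apply Int.iff | with_reducible apply Int.ne | with_reducible apply Int.eq | with_reducible apply Int.mem | with_reducible apply Int.subset | with_reducible apply Int.ltN | with_reducible apply Int.leN | with_reducible_and_instances apply Int.le | with_reducible_and_instances apply Int.lt | with_reducible apply Int.all | with_reducible apply Int.ex | with_reducible apply IntF.fst | with_reducible apply IntF.snd | with_reducible apply IntF.app | with_reducible apply IntF.inl | with_reducible apply IntF.inr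 | with_reducible_and_instances apply IntF.mul | with_reducible_and_instances apply IntF.inv | with_reducible_and_instances apply IntF.add | with_reducible_and_instances apply IntF.sub | with_reducible_and_instances apply IntF.neg | with_reducible_and_instances apply IntF.smul | with_reducible apply Int.fin | with_reducible apply IntF.sep | with_reducible apply IntF.lam | with_reducible apply IntF.insert | with_reducible apply IntF.singleton | with_reducible apply IntF.union | with_reducible apply IntF.iimage | with_reducible apply IntF.ite | with_reducible apply IntF.the | with_reducible apply IntF.irec | with_reducible apply IntF.succ | with_reducible apply IntF.val | with_reducible apply IntF.mk | (with_reducible refine Int.comp ?_ ?_; assumption) | (with_reducible refine Int.comp₂ ?_ ?_ ?_; assumption) | (with_reducible refine Int.comp₃ ?_ ?_ ?_ ?_; assumption) | (with_reducible refine Int.comp₄ ?_ ?_ ?_ ?_ ?_; assumption) | (with_reducible refine IntF.comp ?_ ?_; assumption) | (with_reducible refine IntF.comp₂ ?_ ?_ ?_; assumption) | (with_reducible refine IntF.comp₃ ?_ ?_ ?_ ?_; assumption) | with_reducible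 apply IntF.pair))), fun c => rfl, fun π p c => ?_⟩
  exact feq_th π p (nat c)

/-- Supports. -/
theorem support (z : NN (SW W) hG) : ∃ E : Λ, ∀ (ε : Type u) (_ : ITy M ε)
    (a : IPerm M X → ε → ε) (f : ε → NN (SW W) hG), EF W hG a f →
      ∀ g ∈ Z.H, (∀ x, W.In E x → g.1.1 x = x) → ∀ c, Helper672.Plain.Mem (f c) z →
        Helper672.Plain.Mem (f (a g c)) z := by
  obtain ⟨x, rfl⟩ := exists_mk hG z
  obtain ⟨n, hn⟩ := x.good.sym x.root
  refine ⟨n, fun ε _ a f hf g hg hgE c h => ?_⟩
  obtain ⟨α, _, F, hF, g₀, hg₀, h1, h2⟩ := hf
  rw [h1, mk_eq_nd, mem_nd_nd] at h ⊢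
  by_contra hc
  obtain ⟨p, hp, h3⟩ := h
  have hI := hF.int.fmem x.int
  obtain ⟨q, hq, h4⟩ := hG.dense (fun q => FMem M F x.E q (g₀ (a g c)) x.root ∨
      ∀ r, r ≤ q → ¬ FMem M F x.E r (g₀ (a g c)) x.root)
    (by ((repeat' (first | with_reducible exact IntF.id | with_reducible exact IntF.fst' | with_reducible exact IntF.snd' | with_reducible exact IntF.const _ | with_reducible exact Int.const _ | assumption | with_reducible apply Int.and | with_reducible apply Int.or | with_reducible apply Int.not | with_reducible apply Int.imp | with_reducible apply Int.iff | with_reducible apply Int.ne | with_reducible apply Int.eq | with_reducible apply Int.mem | with_reducible apply Int.subset | with_reducible apply Int.ltN | with_reducible apply Int.leN | with_reducible_and_instances apply Int.le | with_reducible_and_instances apply Int.lt | with_reducible apply Int.all | with_reducible apply Int.ex | with_reducible apply IntF.fst | with_reducible apply IntF.snd | with_reducible apply IntF.app | with_reducible apply IntF.inl | with_reducible apply IntF.inr | with_reducible_and_instances apply IntF.mul | with_reducible_and_instances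 apply IntF.inv | with_reducible_and_instances apply IntF.add | with_reducible_and_instances apply IntF.sub | with_reducible_and_instances apply IntF.neg | with_reducible_and_instances apply IntF.smul | with_reducible apply Int.fin | with_reducible apply IntF.sep | with_reducible apply IntF.lam | with_reducible apply IntF.insert | with_reducible apply IntF.singleton | with_reducible apply IntF.union | with_reducible apply IntF.iimage | with_reducible apply IntF.ite | with_reducible apply IntF.the | with_reducible apply IntF.irec | with_reducible apply IntF.succ | with_reducible apply IntF.val | with_reducible apply IntF.mk | (with_reducible refine Int.comp ?_ ?_; assumption) | (with_reducible refine Int.comp₂ ?_ ?_ ?_; assumption) | (with_reducible refine Int.comp₃ ?_ ?_ ?_ ?_; assumption) | (with_reducible refine Int.comp₄ ?_ ?_ ?_ ?_ ?_; assumption) | (with_reducible refine IntF.comp ?_ ?_; assumption) | (with_reducible refine IntF.comp₂ ?_ ?_ ?_; assumption) | (with_reducible refine IntF.comp₃ ?_ ?_ ?_ ?_; assumption) | with_reducible apply IntF.pair))))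
    fun q => by
      by_cases h : ∃ r, r ≤ q ∧ FMem M F x.E r (g₀ (a g c)) x.root
      · obtain ⟨r, hr, h3⟩ := h
        exact ⟨r, hr, Or.inl h3⟩
      · exact ⟨q, le_rfl, Or.inr fun r hr h3 => h ⟨r, hr, h3⟩⟩
  rcases h4 with h4 | h4
  · exact hc ⟨q, hq, h4⟩
  obtain ⟨q₀, -, h5, h6⟩ := hG.dir p q hp hq
  obtain ⟨π, hπ, hπg, r, hr, hr'⟩ := exists_move q₀ hg hgE
  refine h4 r (hr.trans h6) ?_
  have h7 := (fmem_tw (SW W) π (h3.mono h5)).mono hr'
  have h8 : FEq M (tw π F) F r (g₀ c) (g₀ (a π.1.1 c)) := h2 π r c
  rw [hπg] at h8
  exact FMem.congr_left hF.int (hF.int.tw π) x.int (h8.symm (hF.int.tw π) hF.int)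
    (FMem.congr_right (hF.int.tw π) (x.int.tw π) x.int h7 (hn π hπ r))

/-- Sets in the extension. -/
theorem EF.set {ε : Type u} [ITy M ε] {a : IPerm M X → ε → ε} {f : ε → NN (SW W) hG}
    (hf : EF W hG a f) {Y : ε → Prop} (hY : Int M Y) {E : Λ}
    (hs : ∀ g ∈ Z.H, (∀ x, W.In E x → g.1.1 x = x) → ∀ c, Y c → Y (a g c)) :
    ∃ z : NN (SW W) hG, ∀ w, Helper672.Plain.Mem w z ↔ ∃ c, Y c ∧ w = f c :=
  EqFam.set hf hY ⟨E, fun π hπ c hc => hs π.1.1 π.2.2 (fun x hx => rho_of_U hπ hx) c hc⟩

theorem EF.comp {ε β : Type u} [ITy M ε] [ITy M β] {a : IPerm M X → ε → ε}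
    {f : ε → NN (SW W) hG} (hf : EF W hG a f) {a' : IPerm M X → β → β} {φ : β → ε}
    (hφ : IntF M φ) (h : ∀ g b, φ (a' g b) = a g (φ b)) : EF W hG a' (fun b => f (φ b)) :=
  EqFam.comp hf hφ fun π b => h _ b

theorem EF.op {ε : Type u} [ITy M ε] {a : IPerm M X → ε → ε}
    (ha : ∀ (g : IPerm M X) b, a g⁻¹ (a g b) = b) {f f' : ε → NN (SW W) hG} (hf : EF W hG a f)
    (hf' : EF W hG a f') : EF W hG a (fun c => ZFA.op (f c) (f' c)) :=
  EqFam.op (fun π b => ha π.1.1 b) hf hf'

/-- Families of sets. -/
theorem EF.sets {ε δ : Type u} [ITy M ε] [ITy M δ] {a : IPerm M X → δ → δ}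
    {f : δ → NN (SW W) hG} (hf : EF W hG a f) {R : ε → δ → Prop}
    (hR : Int M (fun q : ε × δ => R q.1 q.2)) {a' : IPerm M X → ε → ε}
    (h : ∀ g ∈ Z.H, ∀ c d, R c d → R (a' g c) (a g d))
    (ha : ∀ (g : IPerm M X) b, a' g⁻¹ (a' g b) = b)
    (hs : ∀ c, ∃ E : Λ, ∀ g ∈ Z.H, (∀ x, W.In E x → g.1.1 x = x) → a' g c = c) :
    ∃ F : ε → NN (SW W) hG, EF W hG a' F ∧ ∀ c w, Helper672.Plain.Mem w (F c) ↔ ∃ d, R c d ∧ w = f d := by
  obtain ⟨α, _, E, h0, g, hg, h1, h2⟩ := hf
  have hQ : Int M (fun q : (α × Co M X) × ε => ∃ d, R q.2 d ∧ q.1.1 = g d) := by ((repeat' (first | with_reducible exact IntF.id | with_reducible exact IntF.fst' | with_reducible exact IntF.snd' | with_reducible exact IntF.const _ | with_reducible exact Int.const _ | assumption | with_reducible apply Int.and | with_reducible apply Int.or | with_reducible apply Int.not | with_reducible apply Int.imp | with_reducible apply Int.iff | with_reducible apply Int.ne | with_reducible apply Int.eq | with_reducible apply Int.mem | with_reducible apply Int.subset | with_reducible apply Int.ltN | with_reducible apply Int.leN | with_reducible_and_instances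 apply Int.le | with_reducible_and_instances apply Int.lt | with_reducible apply Int.all | with_reducible apply Int.ex | with_reducible apply IntF.fst | with_reducible apply IntF.snd | with_reducible apply IntF.app | with_reducible apply IntF.inl | with_reducible apply IntF.inr | with_reducible_and_instances apply IntF.mul | with_reducible_and_instances apply IntF.inv | with_reducible_and_instances apply IntF.add | with_reducible_and_instances apply IntF.sub | with_reducible_and_instances apply IntF.neg | with_reducible_and_instances apply IntF.smul | with_reducible apply Int.fin | with_reducible apply IntF.sep | with_reducible apply IntF.lam | with_reducible apply IntF.insert | with_reducible apply IntF.singleton | with_reducible apply IntF.union | with_reducible apply IntF.iimage | with_reducible apply IntF.ite | with_reducible apply IntF.the | with_reducible apply IntF.irec | with_reducible apply IntF.succ | with_reducible apply IntF.val | with_reducible apply IntF.mk | (with_reducible refine Int.comp ?_ ?_; assumption) | (with_reducible refine Int.comp₂ ?_ ?_ ?_; assumption) | (with_reducible refine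 Int.comp₃ ?_ ?_ ?_ ?_; assumption) | (with_reducible refine Int.comp₄ ?_ ?_ ?_ ?_ ?_; assumption) | (with_reducible refine IntF.comp ?_ ?_; assumption) | (with_reducible refine IntF.comp₂ ?_ ?_ ?_; assumption) | (with_reducible refine IntF.comp₃ ?_ ?_ ?_ ?_; assumption) | with_reducible apply IntF.pair)))
  have hext : Good (SW W) (extG E (fun x _ c => ∃ d, R c d ∧ x = g d)) := by
    refine good_extG h0 hQ fun c => ?_
    obtain ⟨l, hl⟩ := hs c
    refine ⟨l, ?_⟩
    rintro π hπ x r ⟨d, hd, rfl⟩ q hq
    have h3 := h π.1.1 π.2.2 c d hd
    rw [hl π.1.1 π.2.2 (fun x hx => rho_of_U hπ hx)] at h3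
    exact ⟨q, le_rfl, _, q, ⟨_, h3, rfl⟩, le_rfl, h2 π q d⟩
  refine ⟨fun c => nd hG hext (Sum.inr c), ⟨_, _, _, hext, fun c => Sum.inr c, by ((repeat' (first | with_reducible exact IntF.id | with_reducible exact IntF.fst' | with_reducible exact IntF.snd' | with_reducible exact IntF.const _ | with_reducible exact Int.const _ | assumption | with_reducible apply Int.and | with_reducible apply Int.or | with_reducible apply Int.not | with_reducible apply Int.imp | with_reducible apply Int.iff | with_reducible apply Int.ne | with_reducible apply Int.eq | with_reducible apply Int.mem | with_reducible apply Int.subset | with_reducible apply Int.ltN | with_reducible apply Int.leN | with_reducible_and_instances apply Int.le | with_reducible_and_instances apply Int.lt | with_reducible apply Int.all | with_reducible apply Int.ex | with_reducible apply IntF.fst | with_reducible apply IntF.snd | with_reducible apply IntF.app | with_reducible apply IntF.inl | with_reducible apply IntF.inr | with_reducible_and_instances apply IntF.mul | with_reducible_and_instances apply IntF.inv | with_reducible_and_instances apply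 IntF.add | with_reducible_and_instances apply IntF.sub | with_reducible_and_instances apply IntF.neg | with_reducible_and_instances apply IntF.smul | with_reducible apply Int.fin | with_reducible apply IntF.sep | with_reducible apply IntF.lam | with_reducible apply IntF.insert | with_reducible apply IntF.singleton | with_reducible apply IntF.union | with_reducible apply IntF.iimage | with_reducible apply IntF.ite | with_reducible apply IntF.the | with_reducible apply IntF.irec | with_reducible apply IntF.succ | with_reducible apply IntF.val | with_reducible apply IntF.mk | (with_reducible refine Int.comp ?_ ?_; assumption) | (with_reducible refine Int.comp₂ ?_ ?_ ?_; assumption) | (with_reducible refine Int.comp₃ ?_ ?_ ?_ ?_; assumption) | (with_reducible refine Int.comp₄ ?_ ?_ ?_ ?_ ?_; assumption) | (with_reducible refine IntF.comp ?_ ?_; assumption) | (with_reducible refine IntF.comp₂ ?_ ?_ ?_; assumption) | (with_reducible refine IntF.comp₃ ?_ ?_ ?_ ?_; assumption) | with_reducible apply IntF.pair))),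
    fun c => rfl, fun π p c => ?_⟩, fun c w => ?_⟩
  · refine feq_equivQ (S := SW W) h0.int hQ (act := fun (π : Gm Z) c => a' π.1.1 c)
      (fun π b => ha π.1.1 b) ?_ π p c
    rintro π b x r ⟨d, hd, rfl⟩ q hq
    exact ⟨q, le_rfl, _, q, ⟨_, h π.1.1 π.2.2 b d hd, rfl⟩, le_rfl, h2 π q d⟩
  · rw [mem_nd_inr hG h0 hext]
    constructor
    · rintro ⟨x, s, -, ⟨d, hd, rfl⟩, rfl⟩
      exact ⟨d, hd, (h1 d).symm⟩
    · rintro ⟨d, hd, rfl⟩
      obtain ⟨p, hp⟩ := hG.ne
      exact ⟨g d, p, hp, ⟨d, hd, rfl⟩, h1 d⟩

end ext


section nat

variable {G : Set (Co M X)} (hG : IsGen M G)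

theorem exists_om : ∃ z : NN (SW W) hG, ∀ w, Mem w z ↔ ∃ n, w = nn W hG n := by
  obtain ⟨z, hz⟩ := EF.set hG (ef_nn hG) (Y := fun _ => True) (Int.const _)
    (E := W.l0) fun _ _ _ _ _ => trivial
  exact ⟨z, fun w => (hz w).trans ⟨fun ⟨c, _, h⟩ => ⟨c, h⟩, fun ⟨c, h⟩ => ⟨c, trivial, h⟩⟩⟩

theorem mem_nn' {w : NN (SW W) hG} {n : INat M} :
    Mem w (nn W hG n) ↔ ∃ m, m < n ∧ w = nn W hG m := mem_nn hG

theorem ext' {x y : NN (SW W) hG} (h : ∀ z, Mem z x ↔ Mem z y) : x = y := nn_ext hG h

theorem isNat_nn (hC : CollL M) (n : INat M) (i : NN (SW W) hG) (hi : Ind i) :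
    Mem (nn W hG n) i := by
  by_contra hc
  obtain ⟨o, ho⟩ := exists_om (W := W) hG
  have hS : Small {z : NN (SW W) hG | Mem z o ∧ z ∈ {z | ¬ Mem z i}} :=
    small_sep (D.not (D.memf (DF.var _) (DF.const _))) o
  obtain ⟨y, hy, hmin⟩ := (nn_zf hG hC).foundation hS.elt
    ⟨nn W hG n, hS.mem.2 ⟨(ho _).2 ⟨n, rfl⟩, hc⟩⟩
  obtain ⟨h1, h2⟩ := hS.mem.1 hy
  obtain ⟨m, rfl⟩ := (ho _).1 h1
  rcases INat.eq_zero_or_succ m with rfl | ⟨k, rfl⟩
  · obtain ⟨e, he, -, h0⟩ := hi.1
    refine h2 ?_
    have : nn W hG (0 : INat M) = e := ext' hG fun z => ⟨fun h => ?_, fun h => absurd h (h0 z)⟩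
    · rw [this]
      exact he
    · obtain ⟨m, hm, -⟩ := (mem_nn' hG).1 h
      exact absurd hm INat.not_lt_zero
  · have hk : Mem (nn W hG k) i := by
      by_contra hk
      exact hmin (nn W hG k) (hS.mem.2 ⟨(ho _).2 ⟨k, rfl⟩, hk⟩)
        ((mem_nn' hG).2 ⟨k, INat.lt_succ_self k, rfl⟩)
    obtain ⟨s, hs, -, h3⟩ := hi.2 _ hk
    refine h2 ?_
    have : nn W hG k.succ = s := ext' hG fun z => by
      rw [h3 z, mem_nn', mem_nn']
      constructor
      · rintro ⟨m, hm, rfl⟩
        rcases INat.lt_succ_iff'.1 hm with hm | rfl
        · exact Or.inl ⟨m, hm, rfl⟩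
        · exact Or.inr rfl
      · rintro (⟨m, hm, rfl⟩ | rfl)
        · exact ⟨m, hm.trans (INat.lt_succ_self k), rfl⟩
        · exact ⟨k, INat.lt_succ_self k, rfl⟩
    rw [this]
    exact hs

variable (W) in
/-- The natural numbers of the extension. -/
noncomputable def nnN (hC : CollL M) (n : INat M) : INat (NN (SW W) hG) :=
  ⟨nn W hG n, fun i hi => isNat_nn hG hC n i hi⟩

variable (hC : CollL M)

theorem nnN_val (n : INat M) : (nnN W hG hC n).val = nn W hG n := rfl

theorem nnN_zero : nnN W hG hC 0 = 0 := by
  refine INat.ext (ext' hG fun z => ?_)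
  rw [nnN_val, mem_nn']
  constructor
  · rintro ⟨m, hm, -⟩
    exact absurd hm INat.not_lt_zero
  · exact fun h => absurd h INat.not_mem_zero

theorem nnN_succ (n : INat M) : nnN W hG hC n.succ = (nnN W hG hC n).succ := by
  refine INat.ext (ext' hG fun z => ?_)
  rw [INat.mem_succ, nnN_val, nnN_val, mem_nn', mem_nn']
  constructor
  · rintro ⟨m, hm, rfl⟩
    rcases INat.lt_succ_iff'.1 hm with hm | rfl
    · exact Or.inl ⟨m, hm, rfl⟩
    · exact Or.inr rfl
  · rintro (⟨m, hm, rfl⟩ | rfl)
    · exact ⟨m, hm.trans (INat.lt_succ_self n), rfl⟩
    · exact ⟨n, INat.lt_succ_self n, rfl⟩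

theorem nnN_surj (m : INat (NN (SW W) hG)) : ∃ n, nnN W hG hC n = m := by
  obtain ⟨o, ho⟩ := exists_om (W := W) hG
  have h := m.prop o ⟨⟨(0 : INat (NN (SW W) hG)).val, (ho _).2 ⟨0, ?_⟩, trivial,
    fun z => INat.not_mem_zero⟩, fun z hz => ?_⟩
  · obtain ⟨n, hn⟩ := (ho _).1 h
    exact ⟨n, INat.ext hn.symm⟩
  · rw [← nnN_zero hG hC, nnN_val]
  · obtain ⟨n, rfl⟩ := (ho _).1 hz
    refine ⟨(nnN W hG hC n).succ.val, (ho _).2 ⟨n.succ, ?_⟩, trivial, fun z => INat.mem_succ⟩
    rw [← nnN_succ, nnN_val]

theorem nnN_inj {m n : INat M} : nnN W hG hC m = nnN W hG hC n ↔ m = n := by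
  refine ⟨fun h => ?_, fun h => h ▸ rfl⟩
  have := congrArg INat.val h
  exact (nn_inj hG).1 this

theorem nnN_lt {m n : INat M} : nnN W hG hC m < nnN W hG hC n ↔ m < n := by
  rw [INat.lt_def, nnN_val, nnN_val, mem_nn']
  constructor
  · rintro ⟨k, hk, h⟩
    rwa [(nn_inj hG).1 h]
  · exact fun h => ⟨m, h, rfl⟩


end nat

section atoms

variable {G : Set (Co M X)} (hG : IsGen M G) (hC : CollL M)

theorem exists_A : ∃ z : NN (SW W) hG, ∀ w, Mem w z ↔ ∃ x, w = cc W hG x := by
  obtain ⟨z, hz⟩ := EF.set hG (ef_cc hG) (Y := fun _ => True) (Int.const _)
    (E := W.l0) fun _ _ _ _ _ => trivial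
  exact ⟨z, fun w => (hz w).trans ⟨fun ⟨c, _, h⟩ => ⟨c, h⟩, fun ⟨c, h⟩ => ⟨c, trivial, h⟩⟩⟩

variable (W) in
/-- The set of the generic elements. -/
noncomputable def AA : NN (SW W) hG := (exists_A (W := W) hG).choose

theorem mem_AA {w : NN (SW W) hG} : Mem w (AA W hG) ↔ ∃ x, w = cc W hG x :=
  (exists_A (W := W) hG).choose_spec w

variable (W) in
/-- The generic elements as elements of the type. -/
noncomputable def cA (x : X) : El (AA W hG) := ⟨cc W hG x, (mem_AA hG).2 ⟨x, rfl⟩⟩

theorem cA_inj {x y : X} : cA W hG x = cA W hG y ↔ x = y :=
  ⟨fun h => (cc_inj hG).1 (congrArg Subtype.val h), fun h => h ▸ rfl⟩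

theorem cA_surj (a : El (AA W hG)) : ∃ x, cA W hG x = a := by
  obtain ⟨x, hx⟩ := (mem_AA hG).1 a.2
  exact ⟨x, Subtype.ext hx.symm⟩

/-- Relations that are invariant under the group are in the extension. -/
theorem exists_rel {R : INat M × (X × X) → Prop} (hR : Int M R)
    (hinv : ∀ g ∈ Z.H, ∀ n x y, R (n, (x, y)) → R (n, (g.1.1 x, g.1.1 y))) :
    ∃ R' : INat (NN (SW W) hG) × (El (AA W hG) × El (AA W hG)) → Prop,
      Int (NN (SW W) hG) R' ∧ ∀ n x y, R' (nnN W hG hC n, (cA W hG x, cA W hG y)) ↔ R (n, (x, y)) := by
  have h1 : EF W hG (fun (g : IPerm M X) (q : INat M × (X × X)) => (q.1, (g.1.1 q.2.1, g.1.1 q.2.2)))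
      (fun q => op (nn W hG q.1) (op (cc W hG q.2.1) (cc W hG q.2.2))) := by
    refine EF.op hG (fun g b => ?_) ?_ (EF.op hG (fun g b => ?_) ?_ ?_)
    · exact Prod.ext rfl (Prod.ext (g.2.2 _) (g.2.2 _))
    · exact EF.comp hG (ef_nn hG) (φ := fun q : INat M × (X × X) => q.1) (by ((repeat' (first | with_reducible exact IntF.id | with_reducible exact IntF.fst' | with_reducible exact IntF.snd' | with_reducible exact IntF.const _ | with_reducible exact Int.const _ | assumption | with_reducible apply Int.and | with_reducible apply Int.or | with_reducible apply Int.not | with_reducible apply Int.imp | with_reducible apply Int.iff | with_reducible apply Int.ne | with_reducible apply Int.eq | with_reducible apply Int.mem | with_reducible apply Int.subset | with_reducible apply Int.ltN | with_reducible apply Int.leN | with_reducible_and_instances apply Int.le | with_reducible_and_instances apply Int.lt | with_reducible apply Int.all | with_reducible apply Int.ex | with_reducible apply IntF.fst | with_reducible apply IntF.snd | with_reducible apply IntF.app | with_reducible apply IntF.inl | with_reducible apply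 IntF.inr | with_reducible_and_instances apply IntF.mul | with_reducible_and_instances apply IntF.inv | with_reducible_and_instances apply IntF.add | with_reducible_and_instances apply IntF.sub | with_reducible_and_instances apply IntF.neg | with_reducible_and_instances apply IntF.smul | with_reducible apply Int.fin | with_reducible apply IntF.sep | with_reducible apply IntF.lam | with_reducible apply IntF.insert | with_reducible apply IntF.singleton | with_reducible apply IntF.union | with_reducible apply IntF.iimage | with_reducible apply IntF.ite | with_reducible apply IntF.the | with_reducible apply IntF.irec | with_reducible apply IntF.succ | with_reducible apply IntF.val | with_reducible apply IntF.mk | (with_reducible refine Int.comp ?_ ?_; assumption) | (with_reducible refine Int.comp₂ ?_ ?_ ?_; assumption) | (with_reducible refine Int.comp₃ ?_ ?_ ?_ ?_; assumption) | (with_reducible refine Int.comp₄ ?_ ?_ ?_ ?_ ?_; assumption) | (with_reducible refine IntF.comp ?_ ?_; assumption) | (with_reducible refine IntF.comp₂ ?_ ?_ ?_; assumption) | (with_reducible refine IntF.comp₃ ?_ ?_ ?_ ?_; assumption)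 | with_reducible apply IntF.pair)))) fun _ _ => rfl
    · exact Prod.ext rfl (Prod.ext (g.2.2 _) (g.2.2 _))
    · exact EF.comp hG (ef_cc hG) (φ := fun q : INat M × (X × X) => q.2.1) (by ((repeat' (first | with_reducible exact IntF.id | with_reducible exact IntF.fst' | with_reducible exact IntF.snd' | with_reducible exact IntF.const _ | with_reducible exact Int.const _ | assumption | with_reducible apply Int.and | with_reducible apply Int.or | with_reducible apply Int.not | with_reducible apply Int.imp | with_reducible apply Int.iff | with_reducible apply Int.ne | with_reducible apply Int.eq | with_reducible apply Int.mem | with_reducible apply Int.subset | with_reducible apply Int.ltN | with_reducible apply Int.leN | with_reducible_and_instances apply Int.le | with_reducible_and_instances apply Int.lt | with_reducible apply Int.all | with_reducible apply Int.ex | with_reducible apply IntF.fst | with_reducible apply IntF.snd | with_reducible apply IntF.app | with_reducible apply IntF.inl | with_reducible apply IntF.inr | with_reducible_and_instances apply IntF.mul | with_reducible_and_instances apply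 IntF.inv | with_reducible_and_instances apply IntF.add | with_reducible_and_instances apply IntF.sub | with_reducible_and_instances apply IntF.neg | with_reducible_and_instances apply IntF.smul | with_reducible apply Int.fin | with_reducible apply IntF.sep | with_reducible apply IntF.lam | with_reducible apply IntF.insert | with_reducible apply IntF.singleton | with_reducible apply IntF.union | with_reducible apply IntF.iimage | with_reducible apply IntF.ite | with_reducible apply IntF.the | with_reducible apply IntF.irec | with_reducible apply IntF.succ | with_reducible apply IntF.val | with_reducible apply IntF.mk | (with_reducible refine Int.comp ?_ ?_; assumption) | (with_reducible refine Int.comp₂ ?_ ?_ ?_; assumption) | (with_reducible refine Int.comp₃ ?_ ?_ ?_ ?_; assumption) | (with_reducible refine Int.comp₄ ?_ ?_ ?_ ?_ ?_; assumption) | (with_reducible refine IntF.comp ?_ ?_; assumption) | (with_reducible refine IntF.comp₂ ?_ ?_ ?_; assumption) | (with_reducible refine IntF.comp₃ ?_ ?_ ?_ ?_; assumption) | with_reducible apply IntF.pair)))) fun _ _ => rfl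
    · exact EF.comp hG (ef_cc hG) (φ := fun q : INat M × (X × X) => q.2.2) (by ((repeat' (first | with_reducible exact IntF.id | with_reducible exact IntF.fst' | with_reducible exact IntF.snd' | with_reducible exact IntF.const _ | with_reducible exact Int.const _ | assumption | with_reducible apply Int.and | with_reducible apply Int.or | with_reducible apply Int.not | with_reducible apply Int.imp | with_reducible apply Int.iff | with_reducible apply Int.ne | with_reducible apply Int.eq | with_reducible apply Int.mem | with_reducible apply Int.subset | with_reducible apply Int.ltN | with_reducible apply Int.leN | with_reducible_and_instances apply Int.le | with_reducible_and_instances apply Int.lt | with_reducible apply Int.all | with_reducible apply Int.ex | with_reducible apply IntF.fst | with_reducible apply IntF.snd | with_reducible apply IntF.app | with_reducible apply IntF.inl | with_reducible apply IntF.inr | with_reducible_and_instances apply IntF.mul | with_reducible_and_instances apply IntF.inv | with_reducible_and_instances apply IntF.add | with_reducible_and_instances apply IntF.sub | with_reducible_and_instances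 apply IntF.neg | with_reducible_and_instances apply IntF.smul | with_reducible apply Int.fin | with_reducible apply IntF.sep | with_reducible apply IntF.lam | with_reducible apply IntF.insert | with_reducible apply IntF.singleton | with_reducible apply IntF.union | with_reducible apply IntF.iimage | with_reducible apply IntF.ite | with_reducible apply IntF.the | with_reducible apply IntF.irec | with_reducible apply IntF.succ | with_reducible apply IntF.val | with_reducible apply IntF.mk | (with_reducible refine Int.comp ?_ ?_; assumption) | (with_reducible refine Int.comp₂ ?_ ?_ ?_; assumption) | (with_reducible refine Int.comp₃ ?_ ?_ ?_ ?_; assumption) | (with_reducible refine Int.comp₄ ?_ ?_ ?_ ?_ ?_; assumption) | (with_reducible refine IntF.comp ?_ ?_; assumption) | (with_reducible refine IntF.comp₂ ?_ ?_ ?_; assumption) | (with_reducible refine IntF.comp₃ ?_ ?_ ?_ ?_; assumption) | with_reducible apply IntF.pair)))) fun _ _ => rfl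
  obtain ⟨z, hz⟩ := EF.set hG h1 hR (E := W.l0) fun g hg _ c hc => hinv g hg _ _ _ hc
  refine ⟨fun q => Mem (code q) z, ⟨z, fun q => Iff.rfl⟩, fun n x y => ?_⟩
  refine (hz _).trans ⟨?_, fun h => ⟨_, h, rfl⟩⟩
  rintro ⟨⟨m, x', y'⟩, h, h2⟩
  obtain ⟨h3, h4⟩ := op_inj h2
  obtain ⟨h5, h6⟩ := op_inj h4
  obtain rfl := (nn_inj hG).1 h3
  obtain rfl := (cc_inj hG).1 h5
  obtain rfl := (cc_inj hG).1 h6
  exact h

/-- Homogeneity of the sets in the extension. -/
theorem exists_hom {V : El (AA W hG) × INat (NN (SW W) hG) → Prop} (hV : Int (NN (SW W) hG) V) :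
    ∃ E : Λ, ∀ g ∈ Z.H, (∀ x, W.In E x → g.1.1 x = x) → ∀ x n,
      V (cA W hG x, nnN W hG hC n) → V (cA W hG (g.1.1 x), nnN W hG hC n) := by
  obtain ⟨z, hz⟩ := hV
  obtain ⟨E, hE⟩ := support hG z
  have h1 : EF W hG (fun (g : IPerm M X) (q : X × INat M) => (g.1.1 q.1, q.2))
      (fun q => op (cc W hG q.1) (nn W hG q.2)) := by
    refine EF.op hG (fun g b => ?_) ?_ ?_
    · exact Prod.ext (g.2.2 _) rfl
    · exact EF.comp hG (ef_cc hG) (φ := fun q : X × INat M => q.1) (by ((repeat' (first | with_reducible exact IntF.id | with_reducible exact IntF.fst' | with_reducible exact IntF.snd' | with_reducible exact IntF.const _ | with_reducible exact Int.const _ | assumption | with_reducible apply Int.and | with_reducible apply Int.or | with_reducible apply Int.not | with_reducible apply Int.imp | with_reducible apply Int.iff | with_reducible apply Int.ne | with_reducible apply Int.eq | with_reducible apply Int.mem | with_reducible apply Int.subset | with_reducible apply Int.ltN | with_reducible apply Int.leN | with_reducible_and_instances apply Int.le | with_reducible_and_instances apply Int.lt | with_reducible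 apply Int.all | with_reducible apply Int.ex | with_reducible apply IntF.fst | with_reducible apply IntF.snd | with_reducible apply IntF.app | with_reducible apply IntF.inl | with_reducible apply IntF.inr | with_reducible_and_instances apply IntF.mul | with_reducible_and_instances apply IntF.inv | with_reducible_and_instances apply IntF.add | with_reducible_and_instances apply IntF.sub | with_reducible_and_instances apply IntF.neg | with_reducible_and_instances apply IntF.smul | with_reducible apply Int.fin | with_reducible apply IntF.sep | with_reducible apply IntF.lam | with_reducible apply IntF.insert | with_reducible apply IntF.singleton | with_reducible apply IntF.union | with_reducible apply IntF.iimage | with_reducible apply IntF.ite | with_reducible apply IntF.the | with_reducible apply IntF.irec | with_reducible apply IntF.succ | with_reducible apply IntF.val | with_reducible apply IntF.mk | (with_reducible refine Int.comp ?_ ?_; assumption) | (with_reducible refine Int.comp₂ ?_ ?_ ?_; assumption) | (with_reducible refine Int.comp₃ ?_ ?_ ?_ ?_; assumption) | (with_reducible refine Int.comp₄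 ?_ ?_ ?_ ?_ ?_; assumption) | (with_reducible refine IntF.comp ?_ ?_; assumption) | (with_reducible refine IntF.comp₂ ?_ ?_ ?_; assumption) | (with_reducible refine IntF.comp₃ ?_ ?_ ?_ ?_; assumption) | with_reducible apply IntF.pair)))) fun _ _ => rfl
    · exact EF.comp hG (ef_nn hG) (φ := fun q : X × INat M => q.2) (by ((repeat' (first | with_reducible exact IntF.id | with_reducible exact IntF.fst' | with_reducible exact IntF.snd' | with_reducible exact IntF.const _ | with_reducible exact Int.const _ | assumption | with_reducible apply Int.and | with_reducible apply Int.or | with_reducible apply Int.not | with_reducible apply Int.imp | with_reducible apply Int.iff | with_reducible apply Int.ne | with_reducible apply Int.eq | with_reducible apply Int.mem | with_reducible apply Int.subset | with_reducible apply Int.ltN | with_reducible apply Int.leN | with_reducible_and_instances apply Int.le | with_reducible_and_instances apply Int.lt | with_reducible apply Int.all | with_reducible apply Int.ex | with_reducible apply IntF.fst | with_reducible apply IntF.snd | with_reducible apply IntF.app | with_reducible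 apply IntF.inl | with_reducible apply IntF.inr | with_reducible_and_instances apply IntF.mul | with_reducible_and_instances apply IntF.inv | with_reducible_and_instances apply IntF.add | with_reducible_and_instances apply IntF.sub | with_reducible_and_instances apply IntF.neg | with_reducible_and_instances apply IntF.smul | with_reducible apply Int.fin | with_reducible apply IntF.sep | with_reducible apply IntF.lam | with_reducible apply IntF.insert | with_reducible apply IntF.singleton | with_reducible apply IntF.union | with_reducible apply IntF.iimage | with_reducible apply IntF.ite | with_reducible apply IntF.the | with_reducible apply IntF.irec | with_reducible apply IntF.succ | with_reducible apply IntF.val | with_reducible apply IntF.mk | (with_reducible refine Int.comp ?_ ?_; assumption) | (with_reducible refine Int.comp₂ ?_ ?_ ?_; assumption) | (with_reducible refine Int.comp₃ ?_ ?_ ?_ ?_; assumption) | (with_reducible refine Int.comp₄ ?_ ?_ ?_ ?_ ?_; assumption) | (with_reducible refine IntF.comp ?_ ?_; assumption) | (with_reducible refine IntF.comp₂ ?_ ?_ ?_; assumption) | (with_reducible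 refine IntF.comp₃ ?_ ?_ ?_ ?_; assumption) | with_reducible apply IntF.pair)))) fun _ _ => rfl
  refine ⟨E, fun g hg hgE x n h => ?_⟩
  exact (hz _).1 (hE _ _ _ _ h1 g hg hgE (x, n) ((hz _).2 h))


end atoms

end Pool.Agent.Helper672.ZFA.H310M.R602
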