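import Pool.Agent.R602.ModelB
import Pool.Agent.H310R3.Real

/-!
# The space: points, open sets, cuts
-/

set_option maxHeartbeats 1000000
set_option linter.all false
set_option synthInstance.maxSize 2000

namespace Pool.Agent.Helper672.ZFA.R602

open FirstOrder FirstOrder.Language
open Pool.Agent.Helper672.ZFA.H310M.R602 (BD)
open Pool.Agent.H310 (FinP finP_le finP_lt)

universe u

variable {N : Type u} [L.Structure N] [hN : IsModel N] {A : Type u} [ITy N A] (S : BD N A)

/-- Pairs of different elements of one block. -/
def IsE (q : A × A) : Prop := S.lev q.1 = S.lev q.2 ∧ q.1 ≠ q.2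

theorem int_IsE : Int N (IsE S) := by
  have h := S.int_lev
  unfold IsE
  ((repeat' (first | with_reducible exact IntF.id | with_reducible exact IntF.fst' | with_reducible exact IntF.snd' | with_reducible exact IntF.const _ | with_reducible exact Int.const _ | assumption | with_reducible apply Int.and | with_reducible apply Int.or | with_reducible apply Int.not | with_reducible apply Int.imp | with_reducible apply Int.iff | with_reducible apply Int.ne | with_reducible apply Int.eq | with_reducible apply Int.mem | with_reducible apply Int.subset | with_reducible apply Int.ltN | with_reducible apply Int.leN | with_reducible_and_instances apply Int.le | with_reducible_and_instances apply Int.lt | with_reducible apply Int.all | with_reducible apply Int.ex | with_reducible apply IntF.fst | with_reducible apply IntF.snd | with_reducible apply IntF.app | with_reducible apply IntF.inl | with_reducible apply IntF.inr | with_reducible_and_instances apply IntF.mul | with_reducible_and_instances apply IntF.inv | with_reducible_and_instances apply IntF.add | with_reducible_and_instances apply IntF.sub | with_reducible_and_instances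 apply IntF.neg | with_reducible_and_instances apply IntF.smul | with_reducible apply Int.fin | with_reducible apply IntF.sep | with_reducible apply IntF.lam | with_reducible apply IntF.insert | with_reducible apply IntF.singleton | with_reducible apply IntF.union | with_reducible apply IntF.iimage | with_reducible apply IntF.ite | with_reducible apply IntF.the | with_reducible apply IntF.irec | with_reducible apply IntF.succ | with_reducible apply IntF.val | with_reducible apply IntF.mk | (with_reducible refine Int.comp ?_ ?_; assumption) | (with_reducible refine Int.comp₂ ?_ ?_ ?_; assumption) | (with_reducible refine Int.comp₃ ?_ ?_ ?_ ?_; assumption) | (with_reducible refine Int.comp₄ ?_ ?_ ?_ ?_ ?_; assumption) | (with_reducible refine IntF.comp ?_ ?_; assumption) | (with_reducible refine IntF.comp₂ ?_ ?_ ?_; assumption) | (with_reducible refine IntF.comp₃ ?_ ?_ ?_ ?_; assumption) | with_reducible apply IntF.pair)))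

instance : Fact (Int N (IsE S)) := ⟨int_IsE S⟩

/-- The isolated points. -/
abbrev EE : Type u := {q : A × A // IsE S q}

/-- The points: isolated points, and the points with an index; the index `0` is for the last
point. -/
abbrev YY : Type u := EE S ⊕ INat N

variable {S}

/-- The level of an isolated point. -/
def lv (e : EE S) : INat N := S.lev e.1.1

theorem int_lv : IntF N (fun e : EE S => lv e) := by
  have h := S.int_lev
  unfold lv
  ((repeat' (first | with_reducible exact IntF.id | with_reducible exact IntF.fst' | with_reducible exact IntF.snd' | with_reducible exact IntF.const _ | with_reducible exact Int.const _ | assumption | with_reducible apply Int.and | with_reducible apply Int.or | with_reducible apply Int.not | with_reducible apply Int.imp | with_reducible apply Int.iff | with_reducible apply Int.ne | with_reducible apply Int.eq | with_reducible apply Int.mem | with_reducible apply Int.subset | with_reducible apply Int.ltN | with_reducible apply Int.leN | with_reducible_and_instances apply Int.le | with_reducible_and_instances apply Int.lt | with_reducible apply Int.all | with_reducible apply Int.ex | with_reducible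 apply IntF.fst | with_reducible apply IntF.snd | with_reducible apply IntF.app | with_reducible apply IntF.inl | with_reducible apply IntF.inr | with_reducible_and_instances apply IntF.mul | with_reducible_and_instances apply IntF.inv | with_reducible_and_instances apply IntF.add | with_reducible_and_instances apply IntF.sub | with_reducible_and_instances apply IntF.neg | with_reducible_and_instances apply IntF.smul | with_reducible apply Int.fin | with_reducible apply IntF.sep | with_reducible apply IntF.lam | with_reducible apply IntF.insert | with_reducible apply IntF.singleton | with_reducible apply IntF.union | with_reducible apply IntF.iimage | with_reducible apply IntF.ite | with_reducible apply IntF.the | with_reducible apply IntF.irec | with_reducible apply IntF.succ | with_reducible apply IntF.val | with_reducible apply IntF.mk | (with_reducible refine Int.comp ?_ ?_; assumption) | (with_reducible refine Int.comp₂ ?_ ?_ ?_; assumption) | (with_reducible refine Int.comp₃ ?_ ?_ ?_ ?_; assumption) | (with_reducible refine Int.comp₄ ?_ ?_ ?_ ?_ ?_; assumption) | (with_reducible refine IntF.comp ?_ ?_; assumption) |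 (with_reducible refine IntF.comp₂ ?_ ?_ ?_; assumption) | (with_reducible refine IntF.comp₃ ?_ ?_ ?_ ?_; assumption) | with_reducible apply IntF.pair)))

theorem lv_snd (e : EE S) : S.lev e.1.2 = lv e := e.2.1.symm

theorem e_ne (e : EE S) : e.1.1 ≠ e.1.2 := e.2.2

variable (S) in
/-- For cofinitely many `a` in the block, for cofinitely many `b`, the point `(a, b)` is in `U`. -/
def Fr0 (n : INat N) (U : IPow N (YY S)) : Prop :=
  FinP N (fun a : A => S.lev a = n ∧
    ¬ FinP N (fun b : A => ∃ e : EE S, e.1 = (a, b) ∧ ¬ (Sum.inl e : YY S) ∈ U))

variable (S) in
/-- For cofinitely many `b` in the block, for cofinitely many `a`, the point `(a, b)` is in `U`. -/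
def Fr1 (n : INat N) (U : IPow N (YY S)) : Prop :=
  FinP N (fun b : A => S.lev b = n ∧
    ¬ FinP N (fun a : A => ∃ e : EE S, e.1 = (a, b) ∧ ¬ (Sum.inl e : YY S) ∈ U))

theorem int_Fr0 : Int N (fun q : INat N × IPow N (YY S) => Fr0 S q.1 q.2) := by
  have h := S.int_lev
  unfold Fr0 FinP
  ((repeat' (first | with_reducible exact IntF.id | with_reducible exact IntF.fst' | with_reducible exact IntF.snd' | with_reducible exact IntF.const _ | with_reducible exact Int.const _ | assumption | with_reducible apply Int.and | with_reducible apply Int.or | with_reducible apply Int.not | with_reducible apply Int.imp | with_reducible apply Int.iff | with_reducible apply Int.ne | with_reducible apply Int.eq | with_reducible apply Int.mem | with_reducible apply Int.subset | with_reducible apply Int.ltN | with_reducible apply Int.leN | with_reducible_and_instances apply Int.le | with_reducible_and_instances apply Int.lt | with_reducible apply Int.all | with_reducible apply Int.ex | with_reducible apply IntF.fst | with_reducible apply IntF.snd | with_reducible apply IntF.app | with_reducible apply IntF.inl | with_reducible apply IntF.inr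 | with_reducible_and_instances apply IntF.mul | with_reducible_and_instances apply IntF.inv | with_reducible_and_instances apply IntF.add | with_reducible_and_instances apply IntF.sub | with_reducible_and_instances apply IntF.neg | with_reducible_and_instances apply IntF.smul | with_reducible apply Int.fin | with_reducible apply IntF.sep | with_reducible apply IntF.lam | with_reducible apply IntF.insert | with_reducible apply IntF.singleton | with_reducible apply IntF.union | with_reducible apply IntF.iimage | with_reducible apply IntF.ite | with_reducible apply IntF.the | with_reducible apply IntF.irec | with_reducible apply IntF.succ | with_reducible apply IntF.val | with_reducible apply IntF.mk | (with_reducible refine Int.comp ?_ ?_; assumption) | (with_reducible refine Int.comp₂ ?_ ?_ ?_; assumption) | (with_reducible refine Int.comp₃ ?_ ?_ ?_ ?_; assumption) | (with_reducible refine Int.comp₄ ?_ ?_ ?_ ?_ ?_; assumption) | (with_reducible refine IntF.comp ?_ ?_; assumption) | (with_reducible refine IntF.comp₂ ?_ ?_ ?_; assumption) | (with_reducible refine IntF.comp₃ ?_ ?_ ?_ ?_; assumption) | with_reducible apply IntF.pair)))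

theorem int_Fr1 : Int N (fun q : INat N × IPow N (YY S) => Fr1 S q.1 q.2) := by
  have h := S.int_lev
  unfold Fr1 FinP
  ((repeat' (first | with_reducible exact IntF.id | with_reducible exact IntF.fst' | with_reducible exact IntF.snd' | with_reducible exact IntF.const _ | with_reducible exact Int.const _ | assumption | with_reducible apply Int.and | with_reducible apply Int.or | with_reducible apply Int.not | with_reducible apply Int.imp | with_reducible apply Int.iff | with_reducible apply Int.ne | with_reducible apply Int.eq | with_reducible apply Int.mem | with_reducible apply Int.subset | with_reducible apply Int.ltN | with_reducible apply Int.leN | with_reducible_and_instances apply Int.le | with_reducible_and_instances apply Int.lt | with_reducible apply Int.all | with_reducible apply Int.ex | with_reducible apply IntF.fst | with_reducible apply IntF.snd | with_reducible apply IntF.app | with_reducible apply IntF.inl | with_reducible apply IntF.inr | with_reducible_and_instances apply IntF.mul | with_reducible_and_instances apply IntF.inv | with_reducible_and_instances apply IntF.add | with_reducible_and_instances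 apply IntF.sub | with_reducible_and_instances apply IntF.neg | with_reducible_and_instances apply IntF.smul | with_reducible apply Int.fin | with_reducible apply IntF.sep | with_reducible apply IntF.lam | with_reducible apply IntF.insert | with_reducible apply IntF.singleton | with_reducible apply IntF.union | with_reducible apply IntF.iimage | with_reducible apply IntF.ite | with_reducible apply IntF.the | with_reducible apply IntF.irec | with_reducible apply IntF.succ | with_reducible apply IntF.val | with_reducible apply IntF.mk | (with_reducible refine Int.comp ?_ ?_; assumption) | (with_reducible refine Int.comp₂ ?_ ?_ ?_; assumption) | (with_reducible refine Int.comp₃ ?_ ?_ ?_ ?_; assumption) | (with_reducible refine Int.comp₄ ?_ ?_ ?_ ?_ ?_; assumption) | (with_reducible refine IntF.comp ?_ ?_; assumption) | (with_reducible refine IntF.comp₂ ?_ ?_ ?_; assumption) | (with_reducible refine IntF.comp₃ ?_ ?_ ?_ ?_; assumption) | with_reducible apply IntF.pair)))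

theorem Fr0.mono {n : INat N} {U V : IPow N (YY S)} (h : Fr0 S n U)
    (hUV : ∀ e : EE S, lv e = n → (Sum.inl e : YY S) ∈ U → (Sum.inl e : YY S) ∈ V) :
    Fr0 S n V := by
  refine FinP.mono h fun a ha => ⟨ha.1, fun hf => ha.2 (hf.mono ?_)⟩
  rintro b ⟨e, he, hb⟩
  refine ⟨e, he, fun h1 => hb (hUV e ?_ h1)⟩
  unfold lv
  rw [he]
  exact ha.1

theorem Fr1.mono {n : INat N} {U V : IPow N (YY S)} (h : Fr1 S n U)
    (hUV : ∀ e : EE S, lv e = n → (Sum.inl e : YY S) ∈ U → (Sum.inl e : YY S) ∈ V) :
    Fr1 S n V := by
  refine FinP.mono h fun b ha => ⟨ha.1, fun hf => ha.2 (hf.mono ?_)⟩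
  rintro a ⟨e, he, hb⟩
  refine ⟨e, he, fun h1 => hb (hUV e ?_ h1)⟩
  rw [← lv_snd, he]
  exact ha.1

theorem Fr0.inter {n : INat N} {U V : IPow N (YY S)} (h : Fr0 S n U) (h' : Fr0 S n V) :
    Fr0 S n (U ∩ V) := by
  refine FinP.mono (FinP.or h h') fun a ha => ?_
  by_contra hc
  push Not at hc
  have h1 := hc.1 ha.1
  have h2 := hc.2 ha.1
  refine ha.2 ((h1.or h2).mono ?_)
  rintro b ⟨e, he, hb⟩
  by_cases h3 : (Sum.inl e : YY S) ∈ U
  · exact Or.inr ⟨e, he, fun h4 => hb (mem_inter.2 ⟨h3, h4⟩)⟩
  · exact Or.inl ⟨e, he, h3⟩

theorem Fr1.inter {n : INat N} {U V : IPow N (YY S)} (h : Fr1 S n U) (h' : Fr1 S n V) :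
    Fr1 S n (U ∩ V) := by
  refine FinP.mono (FinP.or h h') fun a ha => ?_
  by_contra hc
  push Not at hc
  have h1 := hc.1 ha.1
  have h2 := hc.2 ha.1
  refine ha.2 ((h1.or h2).mono ?_)
  rintro b ⟨e, he, hb⟩
  by_cases h3 : (Sum.inl e : YY S) ∈ U
  · exact Or.inr ⟨e, he, fun h4 => hb (mem_inter.2 ⟨h3, h4⟩)⟩
  · exact Or.inl ⟨e, he, h3⟩

theorem fr0_of_all {n : INat N} {U : IPow N (YY S)}
    (h : ∀ e : EE S, lv e = n → (Sum.inl e : YY S) ∈ U) : Fr0 S n U := by
  refine (FinP.mono (p := fun _ => False) (q := fun _ => False) ⟨∅, IFin.empty, fun _ h => h.elim⟩ fun _ h => h).mono ?_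
  rintro a ⟨ha, hf⟩
  refine hf (FinP.mono (q := fun _ => False) ⟨∅, IFin.empty, fun _ h => h.elim⟩ ?_)
  rintro b ⟨e, he, hb⟩
  refine hb (h e ?_)
  unfold lv
  rw [he]
  exact ha

theorem fr1_of_all {n : INat N} {U : IPow N (YY S)}
    (h : ∀ e : EE S, lv e = n → (Sum.inl e : YY S) ∈ U) : Fr1 S n U := by
  refine FinP.mono (q := fun _ => False) ⟨∅, IFin.empty, fun _ h => h.elim⟩ ?_
  rintro b ⟨ha, hf⟩
  refine hf (FinP.mono (q := fun _ => False) ⟨∅, IFin.empty, fun _ h => h.elim⟩ ?_)
  rintro a ⟨e, he, hb⟩
  refine hb (h e ?_)
  rw [← lv_snd, he]
  exact ha

/-- Blocks are infinite. -/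
theorem block_inf (n : INat N) : ¬ FinP N (fun a : A => S.lev a = n) := by
  intro h
  obtain ⟨en, h1, h2, h3⟩ := S.enum n
  obtain ⟨k, hk⟩ := (h.image h1).bound
  obtain ⟨a, ha, ha'⟩ := h3 n k.succ le_rfl
  exact absurd (hk k.succ ⟨a, ha, ha'⟩) (not_le.2 (INat.lt_succ_self k))

theorem exists_avoid (n : INat N) {p : A → Prop} (h : FinP N p) : ∃ a, S.lev a = n ∧ ¬ p a := by
  by_contra hc
  push Not at hc
  exact block_inf (S := S) n (h.mono hc)

theorem Fr0.exists_mem {n : INat N} {U : IPow N (YY S)} (h : Fr0 S n U) :
    ∃ e : EE S, lv e = n ∧ (Sum.inl e : YY S) ∈ U := by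
  obtain ⟨a, ha, ha'⟩ := exists_avoid n h
  have h1 : FinP N (fun b : A => ∃ e : EE S, e.1 = (a, b) ∧ ¬ (Sum.inl e : YY S) ∈ U) := by
    by_contra hc
    exact ha' ⟨ha, hc⟩
  obtain ⟨b, hb, hb'⟩ := exists_avoid n (h1.or (FinP.eq a))
  push Not at hb'
  exact ⟨⟨(a, b), ha.trans hb.symm, fun h => hb'.2 h.symm⟩, ha, by
    by_contra hc
    exact hc (hb'.1 _ rfl)⟩

theorem Fr1.exists_mem {n : INat N} {U : IPow N (YY S)} (h : Fr1 S n U) :
    ∃ e : EE S, lv e = n ∧ (Sum.inl e : YY S) ∈ U := by
  obtain ⟨b, hb, hb'⟩ := exists_avoid n h
  have h1 : FinP N (fun a : A => ∃ e : EE S, e.1 = (a, b) ∧ ¬ (Sum.inl e : YY S) ∈ U) := by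
    by_contra hc
    exact hb' ⟨hb, hc⟩
  obtain ⟨a, ha, ha'⟩ := exists_avoid n (h1.or (FinP.eq b))
  push Not at ha'
  exact ⟨⟨(a, b), ha.trans hb.symm, ha'.2⟩, ha, by
    by_contra hc
    exact hc (ha'.1 _ rfl)⟩

/-! ### Tails and neighbourhoods -/

/-- The points beyond `m`, with the last point. -/
def tl (m : INat N) (y : YY S) : Prop :=
  (∃ e, y = Sum.inl e ∧ m < lv e) ∨ ∃ k, y = Sum.inr k ∧ (k = 0 ∨ m.succ < k)

theorem int_tl : Int N (fun q : INat N × YY S => tl q.1 q.2) := by
  have h := int_lv (S := S)
  unfold tl
  ((repeat' (first | with_reducible exact IntF.id | with_reducible exact IntF.fst' | with_reducible exact IntF.snd' | with_reducible exact IntF.const _ | with_reducible exact Int.const _ | assumption | with_reducible apply Int.and | with_reducible apply Int.or | with_reducible apply Int.not | with_reducible apply Int.imp | with_reducible apply Int.iff | with_reducible apply Int.ne | with_reducible apply Int.eq | with_reducible apply Int.mem | with_reducible apply Int.subset | with_reducible apply Int.ltN | with_reducible apply Int.leN | with_reducible_and_instances apply Int.le | with_reducible_and_instances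 apply Int.lt | with_reducible apply Int.all | with_reducible apply Int.ex | with_reducible apply IntF.fst | with_reducible apply IntF.snd | with_reducible apply IntF.app | with_reducible apply IntF.inl | with_reducible apply IntF.inr | with_reducible_and_instances apply IntF.mul | with_reducible_and_instances apply IntF.inv | with_reducible_and_instances apply IntF.add | with_reducible_and_instances apply IntF.sub | with_reducible_and_instances apply IntF.neg | with_reducible_and_instances apply IntF.smul | with_reducible apply Int.fin | with_reducible apply IntF.sep | with_reducible apply IntF.lam | with_reducible apply IntF.insert | with_reducible apply IntF.singleton | with_reducible apply IntF.union | with_reducible apply IntF.iimage | with_reducible apply IntF.ite | with_reducible apply IntF.the | with_reducible apply IntF.irec | with_reducible apply IntF.succ | with_reducible apply IntF.val | with_reducible apply IntF.mk | (with_reducible refine Int.comp ?_ ?_; assumption) | (with_reducible refine Int.comp₂ ?_ ?_ ?_; assumption) | (with_reducible refine Int.comp₃ ?_ ?_ ?_ ?_; assumption) | (with_reducible refine Int.comp₄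 ?_ ?_ ?_ ?_ ?_; assumption) | (with_reducible refine IntF.comp ?_ ?_; assumption) | (with_reducible refine IntF.comp₂ ?_ ?_ ?_; assumption) | (with_reducible refine IntF.comp₃ ?_ ?_ ?_ ?_; assumption) | with_reducible apply IntF.pair)))

theorem tl_inl {m : INat N} {e : EE S} : tl m (Sum.inl e : YY S) ↔ m < lv e := by
  simp [tl]

theorem tl_inr {m k : INat N} : tl m (Sum.inr k : YY S) ↔ k = 0 ∨ m.succ < k := by
  simp [tl]

/-- `U` is a neighbourhood of `y`. -/
def Nb (y : YY S) (U : IPow N (YY S)) : Prop :=
  y ∈ U ∧ (y = Sum.inr 0 → ∃ m, ∀ z, tl m z → z ∈ U) ∧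
    ∀ n : INat N, y = Sum.inr n.succ → Fr1 S n U ∧ Fr0 S n.succ U

theorem int_Nb : Int N (fun q : YY S × IPow N (YY S) => Nb q.1 q.2) := by
  have h := int_tl (S := S)
  have h0 := int_Fr0 (S := S)
  have h1 := int_Fr1 (S := S)
  unfold Nb
  ((repeat' (first | with_reducible exact IntF.id | with_reducible exact IntF.fst' | with_reducible exact IntF.snd' | with_reducible exact IntF.const _ | with_reducible exact Int.const _ | assumption | with_reducible apply Int.and | with_reducible apply Int.or | with_reducible apply Int.not | with_reducible apply Int.imp | with_reducible apply Int.iff | with_reducible apply Int.ne | with_reducible apply Int.eq | with_reducible apply Int.mem | with_reducible apply Int.subset | with_reducible apply Int.ltN | with_reducible apply Int.leN | with_reducible_and_instances apply Int.le | with_reducible_and_instances apply Int.lt | with_reducible apply Int.all | with_reducible apply Int.ex | with_reducible apply IntF.fst | with_reducible apply IntF.snd | with_reducible apply IntF.app | with_reducible apply IntF.inl | with_reducible apply IntF.inr | with_reducible_and_instances apply IntF.mul |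 with_reducible_and_instances apply IntF.inv | with_reducible_and_instances apply IntF.add | with_reducible_and_instances apply IntF.sub | with_reducible_and_instances apply IntF.neg | with_reducible_and_instances apply IntF.smul | with_reducible apply Int.fin | with_reducible apply IntF.sep | with_reducible apply IntF.lam | with_reducible apply IntF.insert | with_reducible apply IntF.singleton | with_reducible apply IntF.union | with_reducible apply IntF.iimage | with_reducible apply IntF.ite | with_reducible apply IntF.the | with_reducible apply IntF.irec | with_reducible apply IntF.succ | with_reducible apply IntF.val | with_reducible apply IntF.mk | (with_reducible refine Int.comp ?_ ?_; assumption) | (with_reducible refine Int.comp₂ ?_ ?_ ?_; assumption) | (with_reducible refine Int.comp₃ ?_ ?_ ?_ ?_; assumption) | (with_reducible refine Int.comp₄ ?_ ?_ ?_ ?_ ?_; assumption) | (with_reducible refine IntF.comp ?_ ?_; assumption) | (with_reducible refine IntF.comp₂ ?_ ?_ ?_; assumption) | (with_reducible refine IntF.comp₃ ?_ ?_ ?_ ?_; assumption) | with_reducible apply IntF.pair)))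

theorem Nb.mono {y : YY S} {U V : IPow N (YY S)} (h : Nb y U) (hUV : ∀ z, z ∈ U → z ∈ V) :
    Nb y V := by
  obtain ⟨h1, h2, h3⟩ := h
  refine ⟨hUV _ h1, fun hy => ?_, fun n hn => ?_⟩
  · obtain ⟨m, hm⟩ := h2 hy
    exact ⟨m, fun z hz => hUV z (hm z hz)⟩
  · exact ⟨(h3 n hn).1.mono fun e _ he => hUV _ he, (h3 n hn).2.mono fun e _ he => hUV _ he⟩

theorem tl_mono {m m' : INat N} (h : m ≤ m') {z : YY S} (hz : tl m' z) : tl m z := by
  rcases z with e | k
  · rw [tl_inl] at hz ⊢
    exact lt_of_le_of_lt h hz
  · rw [tl_inr] at hz ⊢
    exact hz.imp_right fun hz => lt_of_le_of_lt (by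
      rcases h.lt_or_eq with h | rfl
      · exact (INat.succ_le_iff.2 (lt_of_lt_of_le h (INat.le_succ_self _)))
      · exact le_rfl) hz

theorem Nb.inter {y : YY S} {U V : IPow N (YY S)} (h : Nb y U) (h' : Nb y V) :
    Nb y (U ∩ V) := by
  obtain ⟨h1, h2, h3⟩ := h
  obtain ⟨h1', h2', h3'⟩ := h'
  refine ⟨mem_inter.2 ⟨h1, h1'⟩, fun hy => ?_, fun n hn => ?_⟩
  · obtain ⟨m, hm⟩ := h2 hy
    obtain ⟨m', hm'⟩ := h2' hy
    exact ⟨max m m', fun z hz => mem_inter.2 ⟨hm z (tl_mono (le_max_left _ _) hz),
      hm' z (tl_mono (le_max_right _ _) hz)⟩⟩
  · exact ⟨(h3 n hn).1.inter (h3' n hn).1, (h3 n hn).2.inter (h3' n hn).2⟩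

theorem nb_inl {e : EE S} {U : IPow N (YY S)} : Nb (Sum.inl e) U ↔ (Sum.inl e : YY S) ∈ U :=
  ⟨fun h => h.1, fun h => ⟨h, fun h => by simp at h, fun n h => by simp at h⟩⟩

theorem nb_zero {U : IPow N (YY S)} : Nb (Sum.inr 0) U ↔ ∃ m, ∀ z : YY S, tl m z → z ∈ U := by
  constructor
  · exact fun h => h.2.1 rfl
  · rintro ⟨m, hm⟩
    refine ⟨hm _ (tl_inr.2 (Or.inl rfl)), fun _ => ⟨m, hm⟩, fun n h => ?_⟩
    exact absurd (Sum.inr.inj h).symm (INat.succ_ne_zero n)

theorem nb_succ {n : INat N} {U : IPow N (YY S)} : Nb (Sum.inr n.succ) U ↔
    (Sum.inr n.succ : YY S) ∈ U ∧ Fr1 S n U ∧ Fr0 S n.succ U := by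
  constructor
  · exact fun h => ⟨h.1, h.2.2 n rfl⟩
  · rintro ⟨h1, h2⟩
    refine ⟨h1, fun h => absurd (Sum.inr.inj h) (INat.succ_ne_zero n), fun m h => ?_⟩
    rw [← INat.succ_inj (Sum.inr.inj h)]
    exact h2

/-- Open sets. -/
def IsT (U : IPow N (YY S)) : Prop := ∀ y, y ∈ U → Nb y U

theorem int_IsT : Int N (fun U : IPow N (YY S) => IsT U) := by
  have h := int_Nb (S := S)
  unfold IsT
  ((repeat' (first | with_reducible exact IntF.id | with_reducible exact IntF.fst' | with_reducible exact IntF.snd' | with_reducible exact IntF.const _ | with_reducible exact Int.const _ | assumption | with_reducible apply Int.and | with_reducible apply Int.or | with_reducible apply Int.not | with_reducible apply Int.imp | with_reducible apply Int.iff | with_reducible apply Int.ne | with_reducible apply Int.eq | with_reducible apply Int.mem | with_reducible apply Int.subset | with_reducible apply Int.ltN | with_reducible apply Int.leN | with_reducible_and_instances apply Int.le | with_reducible_and_instances apply Int.lt | with_reducible apply Int.all | with_reducible apply Int.ex | with_reducible apply IntF.fst | with_reducible apply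 IntF.snd | with_reducible apply IntF.app | with_reducible apply IntF.inl | with_reducible apply IntF.inr | with_reducible_and_instances apply IntF.mul | with_reducible_and_instances apply IntF.inv | with_reducible_and_instances apply IntF.add | with_reducible_and_instances apply IntF.sub | with_reducible_and_instances apply IntF.neg | with_reducible_and_instances apply IntF.smul | with_reducible apply Int.fin | with_reducible apply IntF.sep | with_reducible apply IntF.lam | with_reducible apply IntF.insert | with_reducible apply IntF.singleton | with_reducible apply IntF.union | with_reducible apply IntF.iimage | with_reducible apply IntF.ite | with_reducible apply IntF.the | with_reducible apply IntF.irec | with_reducible apply IntF.succ | with_reducible apply IntF.val | with_reducible apply IntF.mk | (with_reducible refine Int.comp ?_ ?_; assumption) | (with_reducible refine Int.comp₂ ?_ ?_ ?_; assumption) | (with_reducible refine Int.comp₃ ?_ ?_ ?_ ?_; assumption) | (with_reducible refine Int.comp₄ ?_ ?_ ?_ ?_ ?_; assumption) | (with_reducible refine IntF.comp ?_ ?_; assumption) | (with_reducible refine IntF.comp₂ ?_ ?_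 ?_; assumption) | (with_reducible refine IntF.comp₃ ?_ ?_ ?_ ?_; assumption) | with_reducible apply IntF.pair)))

theorem IsT.inter {U V : IPow N (YY S)} (h : IsT U) (h' : IsT V) : IsT (U ∩ V) := fun y hy =>
  (h y (mem_inter.1 hy).1).inter (h' y (mem_inter.1 hy).2)

theorem IsT.isUnion {C : IPow N (IPow N (YY S))} (h : ∀ U, U ∈ C → IsT U) : IsT (isUnion C) := by
  intro y hy
  obtain ⟨U, hU, h1⟩ := mem_isUnion.1 hy
  exact (h U hU y h1).mono fun z hz => mem_isUnion.2 ⟨U, hU, hz⟩

/-- Case distinction for points. -/
theorem cases_pt (y : YY S) : (∃ e, y = Sum.inl e) ∨ y = Sum.inr 0 ∨ ∃ n : INat N, y = Sum.inr n.succ := by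
  rcases y with e | k
  · exact Or.inl ⟨e, rfl⟩
  · rcases INat.eq_zero_or_succ k with rfl | ⟨n, rfl⟩
    · exact Or.inr (Or.inl rfl)
    · exact Or.inr (Or.inr ⟨n, rfl⟩)

theorem isT_tl (m : INat N) : IsT (sep N fun y : YY S => tl m y) := by
  have h := int_tl (S := S)
  have hm : ∀ z : YY S, z ∈ sep N (fun y : YY S => tl m y) ↔ tl m z := fun z => mem_sep (by ((repeat' (first | with_reducible exact IntF.id | with_reducible exact IntF.fst' | with_reducible exact IntF.snd' | with_reducible exact IntF.const _ | with_reducible exact Int.const _ | assumption | with_reducible apply Int.and | with_reducible apply Int.or | with_reducible apply Int.not | with_reducible apply Int.imp | with_reducible apply Int.iff | with_reducible apply Int.ne | with_reducible apply Int.eq | with_reducible apply Int.mem | with_reducible apply Int.subset | with_reducible apply Int.ltN | with_reducible apply Int.leN | with_reducible_and_instances apply Int.le | with_reducible_and_instances apply Int.lt | with_reducible apply Int.all | with_reducible apply Int.ex | with_reducible apply IntF.fst | with_reducible apply IntF.snd | with_reducible apply IntF.app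 | with_reducible apply IntF.inl | with_reducible apply IntF.inr | with_reducible_and_instances apply IntF.mul | with_reducible_and_instances apply IntF.inv | with_reducible_and_instances apply IntF.add | with_reducible_and_instances apply IntF.sub | with_reducible_and_instances apply IntF.neg | with_reducible_and_instances apply IntF.smul | with_reducible apply Int.fin | with_reducible apply IntF.sep | with_reducible apply IntF.lam | with_reducible apply IntF.insert | with_reducible apply IntF.singleton | with_reducible apply IntF.union | with_reducible apply IntF.iimage | with_reducible apply IntF.ite | with_reducible apply IntF.the | with_reducible apply IntF.irec | with_reducible apply IntF.succ | with_reducible apply IntF.val | with_reducible apply IntF.mk | (with_reducible refine Int.comp ?_ ?_; assumption) | (with_reducible refine Int.comp₂ ?_ ?_ ?_; assumption) | (with_reducible refine Int.comp₃ ?_ ?_ ?_ ?_; assumption) | (with_reducible refine Int.comp₄ ?_ ?_ ?_ ?_ ?_; assumption) | (with_reducible refine IntF.comp ?_ ?_; assumption) | (with_reducible refine IntF.comp₂ ?_ ?_ ?_; assumption) | (with_reducible refine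 IntF.comp₃ ?_ ?_ ?_ ?_; assumption) | with_reducible apply IntF.pair))))
  intro y hy
  rw [hm] at hy
  rcases cases_pt y with ⟨e, rfl⟩ | rfl | ⟨n, rfl⟩
  · exact nb_inl.2 ((hm _).2 hy)
  · exact nb_zero.2 ⟨m, fun z hz => (hm z).2 hz⟩
  · have hy' := hy
    rw [tl_inr] at hy'
    have h1 : m < n := by
      rcases hy' with h1 | h1
      · exact absurd h1 (INat.succ_ne_zero n)
      · exact lt_of_not_ge fun hc => absurd h1 (not_lt.2 (by
          rcases hc.lt_or_eq with h | rfl
          · exact (INat.succ_le_iff.2 (lt_of_lt_of_le h (INat.le_succ_self _)))
          · exact le_rfl))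
    refine nb_succ.2 ⟨(hm _).2 hy, fr1_of_all fun e he => ?_, fr0_of_all fun e he => ?_⟩
    · rw [hm, tl_inl, he]
      exact h1
    · rw [hm, tl_inl, he]
      exact h1.trans (INat.lt_succ_self n)

/-- The open part of a neighbourhood. -/
theorem Nb.open {y : YY S} {U : IPow N (YY S)} (h : Nb y U) : ∃ O, IsT O ∧ y ∈ O ∧
    ∀ z, z ∈ O → z ∈ U := by
  rcases cases_pt y with ⟨e, rfl⟩ | rfl | ⟨n, rfl⟩
  · refine ⟨{Sum.inl e}, fun z hz => ?_, mem_singleton.2 rfl, fun z hz => ?_⟩
    · rw [mem_singleton] at hz
      subst hz
      exact nb_inl.2 (mem_singleton.2 rfl)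
    · rw [mem_singleton] at hz
      subst hz
      exact h.1
  · obtain ⟨m, hm⟩ := nb_zero.1 h
    have h' := int_tl (S := S)
    have hm' : ∀ z : YY S, z ∈ sep N (fun y : YY S => tl m y) ↔ tl m z := fun z => mem_sep (by ((repeat' (first | with_reducible exact IntF.id | with_reducible exact IntF.fst' | with_reducible exact IntF.snd' | with_reducible exact IntF.const _ | with_reducible exact Int.const _ | assumption | with_reducible apply Int.and | with_reducible apply Int.or | with_reducible apply Int.not | with_reducible apply Int.imp | with_reducible apply Int.iff | with_reducible apply Int.ne | with_reducible apply Int.eq | with_reducible apply Int.mem | with_reducible apply Int.subset | with_reducible apply Int.ltN | with_reducible apply Int.leN | with_reducible_and_instances apply Int.le | with_reducible_and_instances apply Int.lt | with_reducible apply Int.all | with_reducible apply Int.ex | with_reducible apply IntF.fst | with_reducible apply IntF.snd | with_reducible apply IntF.app | with_reducible apply IntF.inl | with_reducible apply IntF.inr | with_reducible_and_instances apply IntF.mul | with_reducible_and_instances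 apply IntF.inv | with_reducible_and_instances apply IntF.add | with_reducible_and_instances apply IntF.sub | with_reducible_and_instances apply IntF.neg | with_reducible_and_instances apply IntF.smul | with_reducible apply Int.fin | with_reducible apply IntF.sep | with_reducible apply IntF.lam | with_reducible apply IntF.insert | with_reducible apply IntF.singleton | with_reducible apply IntF.union | with_reducible apply IntF.iimage | with_reducible apply IntF.ite | with_reducible apply IntF.the | with_reducible apply IntF.irec | with_reducible apply IntF.succ | with_reducible apply IntF.val | with_reducible apply IntF.mk | (with_reducible refine Int.comp ?_ ?_; assumption) | (with_reducible refine Int.comp₂ ?_ ?_ ?_; assumption) | (with_reducible refine Int.comp₃ ?_ ?_ ?_ ?_; assumption) | (with_reducible refine Int.comp₄ ?_ ?_ ?_ ?_ ?_; assumption) | (with_reducible refine IntF.comp ?_ ?_; assumption) | (with_reducible refine IntF.comp₂ ?_ ?_ ?_; assumption) | (with_reducible refine IntF.comp₃ ?_ ?_ ?_ ?_; assumption) | with_reducible apply IntF.pair))))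
    exact ⟨_, isT_tl m, (hm' _).2 (tl_inr.2 (Or.inl rfl)), fun z hz => hm z ((hm' z).1 hz)⟩
  · have hm : ∀ z : YY S, z ∈ sep N (fun z : YY S => z = Sum.inr n.succ ∨
        ∃ e, z = Sum.inl e ∧ z ∈ U) ↔ (z = Sum.inr n.succ ∨ ∃ e, z = Sum.inl e ∧ z ∈ U) :=
      fun z => mem_sep (by ((repeat' (first | with_reducible exact IntF.id | with_reducible exact IntF.fst' | with_reducible exact IntF.snd' | with_reducible exact IntF.const _ | with_reducible exact Int.const _ | assumption | with_reducible apply Int.and | with_reducible apply Int.or | with_reducible apply Int.not | with_reducible apply Int.imp | with_reducible apply Int.iff | with_reducible apply Int.ne | with_reducible apply Int.eq | with_reducible apply Int.mem | with_reducible apply Int.subset | with_reducible apply Int.ltN | with_reducible apply Int.leN | with_reducible_and_instances apply Int.le | with_reducible_and_instances apply Int.lt | with_reducible apply Int.all | with_reducible apply Int.ex | with_reducible apply IntF.fst | with_reducible apply IntF.snd | with_reducible apply IntF.app | with_reducible apply IntF.inl | with_reducible apply IntF.inr | with_reducible_and_instances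 apply IntF.mul | with_reducible_and_instances apply IntF.inv | with_reducible_and_instances apply IntF.add | with_reducible_and_instances apply IntF.sub | with_reducible_and_instances apply IntF.neg | with_reducible_and_instances apply IntF.smul | with_reducible apply Int.fin | with_reducible apply IntF.sep | with_reducible apply IntF.lam | with_reducible apply IntF.insert | with_reducible apply IntF.singleton | with_reducible apply IntF.union | with_reducible apply IntF.iimage | with_reducible apply IntF.ite | with_reducible apply IntF.the | with_reducible apply IntF.irec | with_reducible apply IntF.succ | with_reducible apply IntF.val | with_reducible apply IntF.mk | (with_reducible refine Int.comp ?_ ?_; assumption) | (with_reducible refine Int.comp₂ ?_ ?_ ?_; assumption) | (with_reducible refine Int.comp₃ ?_ ?_ ?_ ?_; assumption) | (with_reducible refine Int.comp₄ ?_ ?_ ?_ ?_ ?_; assumption) | (with_reducible refine IntF.comp ?_ ?_; assumption) | (with_reducible refine IntF.comp₂ ?_ ?_ ?_; assumption) | (with_reducible refine IntF.comp₃ ?_ ?_ ?_ ?_; assumption) | with_reducible apply IntF.pair))))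
    refine ⟨_, fun z hz => ?_, (hm _).2 (Or.inl rfl), fun z hz => ?_⟩
    · rw [hm] at hz
      rcases hz with rfl | ⟨e, rfl, hz⟩
      · obtain ⟨h1, h2, h3⟩ := nb_succ.1 h
        refine nb_succ.2 ⟨(hm _).2 (Or.inl rfl), h2.mono fun e _ he => (hm _).2 (Or.inr ⟨e, rfl, he⟩),
          h3.mono fun e _ he => (hm _).2 (Or.inr ⟨e, rfl, he⟩)⟩
      · exact nb_inl.2 ((hm _).2 (Or.inr ⟨e, rfl, hz⟩))
    · rw [hm] at hz
      rcases hz with rfl | ⟨e, rfl, hz⟩
      · exact h.1
      · exact hz

/-- Cofinite sets of isolated points. -/
theorem fr_compl_one (n : INat N) (e : EE S) {U : IPow N (YY S)}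
    (h : ∀ e' : EE S, lv e' = n → e' ≠ e → (Sum.inl e' : YY S) ∈ U) : Fr0 S n U ∧ Fr1 S n U := by
  constructor
  · refine FinP.mono (q := fun _ => False) ⟨∅, IFin.empty, fun _ h => h.elim⟩ ?_
    rintro a ⟨ha, hf⟩
    refine hf ((FinP.eq e.1.2).mono ?_)
    rintro b ⟨e', he', hb⟩
    by_contra hc
    refine hb (h e' ?_ ?_)
    · unfold lv
      rw [he']
      exact ha
    · rintro rfl
      exact hc (by rw [he'])
  · refine FinP.mono (q := fun _ => False) ⟨∅, IFin.empty, fun _ h => h.elim⟩ ?_
    rintro b ⟨hb, hf⟩
    refine hf ((FinP.eq e.1.1).mono ?_)
    rintro a ⟨e', he', ha⟩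
    by_contra hc
    refine ha (h e' ?_ ?_)
    · rw [← lv_snd, he']
      exact hb
    · rintro rfl
      exact hc (by rw [he'])

end Pool.Agent.Helper672.ZFA.R602
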