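import Pool.Agent.R602.Sp1

/-!
# The space: clopen sets
-/

set_option maxHeartbeats 1000000
set_option linter.all false
set_option synthInstance.maxSize 2000

namespace Pool.Agent.Helper672.ZFA.R602

open FirstOrder FirstOrder.Language
open Pool.Agent.Helper672.ZFA.H310M.R602 (BD)
open Pool.Agent.H310 (FinP finP_le finP_lt icompl mem_icompl)

universe u

variable {N : Type u} [L.Structure N] [hN : IsModel N] {A : Type u} [ITy N A] {S : BD N A}

theorem finP_false {α : Type u} [ITy N α] : FinP N (fun _ : α => False) :=
  ⟨∅, IFin.empty, fun _ h => h.elim⟩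

/-- An enumeration of the block `m`. -/
def En (S : BD N A) (m : INat N) (en : A → INat N) : Prop :=
  IntF N en ∧ ∀ a b, S.lev a = m → S.lev b = m → en a = en b → a = b

theorem exists_En (S : BD N A) (m : INat N) : ∃ en, En S m en := by
  obtain ⟨en, h1, h2, -⟩ := S.enum m
  exact ⟨en, h1, fun a b ha hb h => h2 a b (ha.trans hb.symm) (ha ▸ le_rfl) h⟩

theorem En.fin {m : INat N} {en : A → INat N} (h : En S m en) (c : INat N) :
    FinP N (fun a : A => S.lev a = m ∧ en a ≤ c) := by
  have h1 := h.1
  have h2 := S.int_lev
  refine FinP.of_inj (by ((repeat' (first | with_reducible exact IntF.id | with_reducible exact IntF.fst' | with_reducible exact IntF.snd' | with_reducible exact IntF.const _ | with_reducible exact Int.const _ | assumption | with_reducible apply Int.and | with_reducible apply Int.or | with_reducible apply Int.not | with_reducible apply Int.imp | with_reducible apply Int.iff | with_reducible apply Int.ne | with_reducible apply Int.eq | with_reducible apply Int.mem | with_reducible apply Int.subset | with_reducible apply Int.ltN | with_reducible apply Int.leN | with_reducible_and_instances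 apply Int.le | with_reducible_and_instances apply Int.lt | with_reducible apply Int.all | with_reducible apply Int.ex | with_reducible apply IntF.fst | with_reducible apply IntF.snd | with_reducible apply IntF.app | with_reducible apply IntF.inl | with_reducible apply IntF.inr | with_reducible_and_instances apply IntF.mul | with_reducible_and_instances apply IntF.inv | with_reducible_and_instances apply IntF.add | with_reducible_and_instances apply IntF.sub | with_reducible_and_instances apply IntF.neg | with_reducible_and_instances apply IntF.smul | with_reducible apply Int.fin | with_reducible apply IntF.sep | with_reducible apply IntF.lam | with_reducible apply IntF.insert | with_reducible apply IntF.singleton | with_reducible apply IntF.union | with_reducible apply IntF.iimage | with_reducible apply IntF.ite | with_reducible apply IntF.the | with_reducible apply IntF.irec | with_reducible apply IntF.succ | with_reducible apply IntF.val | with_reducible apply IntF.mk | (with_reducible refine Int.comp ?_ ?_; assumption) | (with_reducible refine Int.comp₂ ?_ ?_ ?_; assumption) | (with_reducible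 refine Int.comp₃ ?_ ?_ ?_ ?_; assumption) | (with_reducible refine Int.comp₄ ?_ ?_ ?_ ?_ ?_; assumption) | (with_reducible refine IntF.comp ?_ ?_; assumption) | (with_reducible refine IntF.comp₂ ?_ ?_ ?_; assumption) | (with_reducible refine IntF.comp₃ ?_ ?_ ?_ ?_; assumption) | with_reducible apply IntF.pair)))) h1 (fun a b ha hb hab => h.2 a b ha.1 hb.1 hab) (finP_le c)
    fun a ha => ha.2

/-- The cut of the block `m` at `j`. -/
def ct (S : BD N A) (en : A → INat N) (m j : INat N) (y : YY S) : Prop :=
  (∃ e : EE S, y = Sum.inl e ∧ (m < lv e ∨ (lv e = m ∧ en e.1.2 < en e.1.1 ∧ j ≤ en e.1.2))) ∨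
    ∃ k, y = Sum.inr k ∧ (k = 0 ∨ m < k)

theorem int_ct {en : A → INat N} (h : IntF N en) :
    Int N (fun q : (INat N × INat N) × YY S => ct S en q.1.1 q.1.2 q.2) := by
  have h1 := int_lv (S := S)
  unfold ct
  ((repeat' (first | with_reducible exact IntF.id | with_reducible exact IntF.fst' | with_reducible exact IntF.snd' | with_reducible exact IntF.const _ | with_reducible exact Int.const _ | assumption | with_reducible apply Int.and | with_reducible apply Int.or | with_reducible apply Int.not | with_reducible apply Int.imp | with_reducible apply Int.iff | with_reducible apply Int.ne | with_reducible apply Int.eq | with_reducible apply Int.mem | with_reducible apply Int.subset | with_reducible apply Int.ltN | with_reducible apply Int.leN | with_reducible_and_instances apply Int.le | with_reducible_and_instances apply Int.lt | with_reducible apply Int.all | with_reducible apply Int.ex | with_reducible apply IntF.fst | with_reducible apply IntF.snd | with_reducible apply IntF.app | with_reducible apply IntF.inl | with_reducible apply IntF.inr | with_reducible_and_instances apply IntF.mul |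 with_reducible_and_instances apply IntF.inv | with_reducible_and_instances apply IntF.add | with_reducible_and_instances apply IntF.sub | with_reducible_and_instances apply IntF.neg | with_reducible_and_instances apply IntF.smul | with_reducible apply Int.fin | with_reducible apply IntF.sep | with_reducible apply IntF.lam | with_reducible apply IntF.insert | with_reducible apply IntF.singleton | with_reducible apply IntF.union | with_reducible apply IntF.iimage | with_reducible apply IntF.ite | with_reducible apply IntF.the | with_reducible apply IntF.irec | with_reducible apply IntF.succ | with_reducible apply IntF.val | with_reducible apply IntF.mk | (with_reducible refine Int.comp ?_ ?_; assumption) | (with_reducible refine Int.comp₂ ?_ ?_ ?_; assumption) | (with_reducible refine Int.comp₃ ?_ ?_ ?_ ?_; assumption) | (with_reducible refine Int.comp₄ ?_ ?_ ?_ ?_ ?_; assumption) | (with_reducible refine IntF.comp ?_ ?_; assumption) | (with_reducible refine IntF.comp₂ ?_ ?_ ?_; assumption) | (with_reducible refine IntF.comp₃ ?_ ?_ ?_ ?_; assumption) | with_reducible apply IntF.pair)))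

variable {en : A → INat N} {m j : INat N}

theorem ct_inl {e : EE S} : ct S en m j (Sum.inl e) ↔
    (m < lv e ∨ (lv e = m ∧ en e.1.2 < en e.1.1 ∧ j ≤ en e.1.2)) := by
  simp [ct]

theorem ct_inr {k : INat N} : ct S en m j (Sum.inr k) ↔ k = 0 ∨ m < k := by
  simp [ct]

/-- The cut as a set. -/
noncomputable def cts (S : BD N A) (en : A → INat N) (m j : INat N) : IPow N (YY S) :=
  sep N fun y => ct S en m j y

theorem mem_cts (h : IntF N en) {y : YY S} : y ∈ cts S en m j ↔ ct S en m j y := by
  have h1 := int_ct (S := S) h
  unfold cts
  rw [mem_sep (by ((repeat' (first | with_reducible exact IntF.id | with_reducible exact IntF.fst' | with_reducible exact IntF.snd' | with_reducible exact IntF.const _ | with_reducible exact Int.const _ | assumption | with_reducible apply Int.and | with_reducible apply Int.or | with_reducible apply Int.not | with_reducible apply Int.imp | with_reducible apply Int.iff | with_reducible apply Int.ne | with_reducible apply Int.eq | with_reducible apply Int.mem | with_reducible apply Int.subset | with_reducible apply Int.ltN | with_reducible apply Int.leN | with_reducible_and_instances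 apply Int.le | with_reducible_and_instances apply Int.lt | with_reducible apply Int.all | with_reducible apply Int.ex | with_reducible apply IntF.fst | with_reducible apply IntF.snd | with_reducible apply IntF.app | with_reducible apply IntF.inl | with_reducible apply IntF.inr | with_reducible_and_instances apply IntF.mul | with_reducible_and_instances apply IntF.inv | with_reducible_and_instances apply IntF.add | with_reducible_and_instances apply IntF.sub | with_reducible_and_instances apply IntF.neg | with_reducible_and_instances apply IntF.smul | with_reducible apply Int.fin | with_reducible apply IntF.sep | with_reducible apply IntF.lam | with_reducible apply IntF.insert | with_reducible apply IntF.singleton | with_reducible apply IntF.union | with_reducible apply IntF.iimage | with_reducible apply IntF.ite | with_reducible apply IntF.the | with_reducible apply IntF.irec | with_reducible apply IntF.succ | with_reducible apply IntF.val | with_reducible apply IntF.mk | (with_reducible refine Int.comp ?_ ?_; assumption) | (with_reducible refine Int.comp₂ ?_ ?_ ?_; assumption) | (with_reducible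 refine Int.comp₃ ?_ ?_ ?_ ?_; assumption) | (with_reducible refine Int.comp₄ ?_ ?_ ?_ ?_ ?_; assumption) | (with_reducible refine IntF.comp ?_ ?_; assumption) | (with_reducible refine IntF.comp₂ ?_ ?_ ?_; assumption) | (with_reducible refine IntF.comp₃ ?_ ?_ ?_ ?_; assumption) | with_reducible apply IntF.pair))))]

theorem isT_cts (h : En S m en) : IsT (cts S en m j) := by
  intro y hy
  rw [mem_cts h.1] at hy
  rcases cases_pt y with ⟨e, rfl⟩ | rfl | ⟨n, rfl⟩
  · exact nb_inl.2 ((mem_cts h.1).2 hy)
  · refine nb_zero.2 ⟨m, fun z hz => (mem_cts h.1).2 ?_⟩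
    rcases z with e | k
    · exact ct_inl.2 (Or.inl (tl_inl.1 hz))
    · exact ct_inr.2 ((tl_inr.1 hz).imp_right fun h => (INat.lt_succ_self m).trans h)
  · have hy' := hy
    rw [ct_inr] at hy'
    have h1 : m ≤ n := by
      rcases hy' with h1 | h1
      · exact absurd h1 (INat.succ_ne_zero n)
      · exact INat.lt_succ_iff.1 h1
    refine nb_succ.2 ⟨(mem_cts h.1).2 hy, ?_, fr0_of_all fun e he => ?_⟩
    · rcases h1.lt_or_eq with h2 | rfl
      · refine fr1_of_all fun e he => ?_
        rw [mem_cts h.1, ct_inl, he]
        exact Or.inl h2
      · refine (h.fin j).mono ?_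
        rintro b ⟨hb, hf⟩
        refine ⟨hb, ?_⟩
        by_contra hc
        refine hf ((h.fin (en b)).mono ?_)
        rintro a ⟨e, he, he'⟩
        rw [mem_cts h.1, ct_inl, he] at he'
        have hlv : lv e = m := by rw [← lv_snd, he]; exact hb
        refine ⟨by rw [← hlv]; unfold lv; rw [he], ?_⟩
        by_contra hc'
        exact he' (Or.inr ⟨hlv, not_le.1 hc', (not_le.1 hc).le⟩)
    · rw [mem_cts h.1, ct_inl, he]
      exact Or.inl (INat.lt_succ_iff.2 h1)

theorem isT_cts_compl (h : En S m en) : IsT (icompl (cts S en m j)) := by
  intro y hy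
  rw [mem_icompl, mem_cts h.1] at hy
  rcases cases_pt y with ⟨e, rfl⟩ | rfl | ⟨n, rfl⟩
  · exact nb_inl.2 (mem_icompl.2 fun h' => hy ((mem_cts h.1).1 h'))
  · exact absurd (ct_inr.2 (Or.inl rfl)) hy
  · have hy' := hy
    rw [ct_inr, not_or, not_lt] at hy'
    have h1 : n.succ ≤ m := hy'.2
    have h2 : n < m := lt_of_lt_of_le (INat.lt_succ_self n) h1
    refine nb_succ.2 ⟨mem_icompl.2 fun h' => hy ((mem_cts h.1).1 h'), fr1_of_all fun e he => ?_, ?_⟩
    · rw [mem_icompl, mem_cts h.1, ct_inl, he]
      rintro (h3 | ⟨h3, -⟩)
      · exact absurd (h3.trans h2) (lt_irrefl _)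
      · exact absurd (h3 ▸ h2) (lt_irrefl _)
    · refine finP_false.mono ?_
      rintro a ⟨ha, hf⟩
      rcases h1.lt_or_eq with h3 | h3
      · refine hf (finP_false.mono ?_)
        rintro b ⟨e, he, he'⟩
        have hlv : lv e = n.succ := by unfold lv; rw [he]; exact ha
        rw [mem_icompl, mem_cts h.1, ct_inl, hlv] at he'
        refine he' ?_
        rintro (h4 | ⟨h4, -⟩)
        · exact absurd (h4.trans h3) (lt_irrefl _)
        · exact absurd (h4 ▸ h3) (lt_irrefl _)
      · refine hf ((h.fin (en a)).mono ?_)
        rintro b ⟨e, he, he'⟩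
        have hlv : lv e = m := by unfold lv; rw [he, ← h3]; exact ha
        rw [mem_icompl, not_not, mem_cts h.1, ct_inl, hlv] at he'
        rcases he' with h4 | ⟨-, h4, -⟩
        · exact absurd h4 (lt_irrefl _)
        · rw [he] at h4
          refine ⟨?_, h4.le⟩
          have h5 := lv_snd e
          rw [he] at h5
          exact h5.trans hlv

theorem isT_one (e : EE S) : IsT ({Sum.inl e} : IPow N (YY S)) := by
  intro z hz
  rw [mem_singleton] at hz
  subst hz
  exact nb_inl.2 (mem_singleton.2 rfl)

theorem isT_compl_one (e : EE S) : IsT (icompl ({Sum.inl e} : IPow N (YY S))) := by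
  have hm : ∀ z : YY S, z ∈ icompl ({Sum.inl e} : IPow N (YY S)) ↔ z ≠ Sum.inl e := fun z => by
    rw [mem_icompl, mem_singleton]
  intro y hy
  rcases cases_pt y with ⟨e', rfl⟩ | rfl | ⟨n, rfl⟩
  · exact nb_inl.2 hy
  · refine nb_zero.2 ⟨lv e, fun z hz => (hm z).2 ?_⟩
    rintro rfl
    exact absurd (tl_inl.1 hz) (lt_irrefl _)
  · refine nb_succ.2 ⟨hy, (fr_compl_one n e fun e' _ h => (hm _).2 fun h' => h (Sum.inl.inj h')).2,
      (fr_compl_one n.succ e fun e' _ h => (hm _).2 fun h' => h (Sum.inl.inj h')).1⟩

theorem isT_univ : IsT (iuniv N (YY S)) := by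
  intro y _
  rcases cases_pt y with ⟨e', rfl⟩ | rfl | ⟨n, rfl⟩
  · exact nb_inl.2 (by simp)
  · exact nb_zero.2 ⟨0, fun z hz => by simp⟩
  · exact nb_succ.2 ⟨by simp, fr1_of_all fun e _ => by simp, fr0_of_all fun e _ => by simp⟩

/-- Clopen sets. -/
def Clp (C : IPow N (YY S)) : Prop := IsT C ∧ IsT (icompl C)

theorem int_Clp : Int N (fun C : IPow N (YY S) => Clp C) := by
  have h := int_IsT (S := S)
  have h' : IntF N (fun s : IPow N (YY S) => icompl s) := H310.IntF.icompl IntF.id
  unfold Clp
  ((repeat' (first | with_reducible exact IntF.id | with_reducible exact IntF.fst' | with_reducible exact IntF.snd' | with_reducible exact IntF.const _ | with_reducible exact Int.const _ | assumption | with_reducible apply Int.and | with_reducible apply Int.or | with_reducible apply Int.not | with_reducible apply Int.imp | with_reducible apply Int.iff | with_reducible apply Int.ne | with_reducible apply Int.eq | with_reducible apply Int.mem | with_reducible apply Int.subset | with_reducible apply Int.ltN | with_reducible apply Int.leN | with_reducible_and_instances apply Int.le | with_reducible_and_instances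 apply Int.lt | with_reducible apply Int.all | with_reducible apply Int.ex | with_reducible apply IntF.fst | with_reducible apply IntF.snd | with_reducible apply IntF.app | with_reducible apply IntF.inl | with_reducible apply IntF.inr | with_reducible_and_instances apply IntF.mul | with_reducible_and_instances apply IntF.inv | with_reducible_and_instances apply IntF.add | with_reducible_and_instances apply IntF.sub | with_reducible_and_instances apply IntF.neg | with_reducible_and_instances apply IntF.smul | with_reducible apply Int.fin | with_reducible apply IntF.sep | with_reducible apply IntF.lam | with_reducible apply IntF.insert | with_reducible apply IntF.singleton | with_reducible apply IntF.union | with_reducible apply IntF.iimage | with_reducible apply IntF.ite | with_reducible apply IntF.the | with_reducible apply IntF.irec | with_reducible apply IntF.succ | with_reducible apply IntF.val | with_reducible apply IntF.mk | (with_reducible refine Int.comp ?_ ?_; assumption) | (with_reducible refine Int.comp₂ ?_ ?_ ?_; assumption) | (with_reducible refine Int.comp₃ ?_ ?_ ?_ ?_; assumption)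 | (with_reducible refine Int.comp₄ ?_ ?_ ?_ ?_ ?_; assumption) | (with_reducible refine IntF.comp ?_ ?_; assumption) | (with_reducible refine IntF.comp₂ ?_ ?_ ?_; assumption) | (with_reducible refine IntF.comp₃ ?_ ?_ ?_ ?_; assumption) | with_reducible apply IntF.pair)))

/-- The space is zero-dimensional. -/
theorem exists_clopen {y : YY S} {U : IPow N (YY S)} (h : Nb y U) :
    ∃ C, Clp C ∧ y ∈ C ∧ ∀ z, z ∈ C → z ∈ U := by
  rcases cases_pt y with ⟨e, rfl⟩ | rfl | ⟨n, rfl⟩
  · exact ⟨_, ⟨isT_one e, isT_compl_one e⟩, mem_singleton.2 rfl, fun z hz => by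
      rw [mem_singleton] at hz
      subst hz
      exact h.1⟩
  · obtain ⟨m, hm⟩ := nb_zero.1 h
    obtain ⟨en, hen⟩ := exists_En S m.succ
    refine ⟨_, ⟨isT_cts hen (j := 0), isT_cts_compl hen⟩, (mem_cts hen.1).2 (ct_inr.2 (Or.inl rfl)),
      fun z hz => hm z ?_⟩
    rw [mem_cts hen.1] at hz
    rcases z with e | k
    · rw [ct_inl] at hz
      rw [tl_inl]
      rcases hz with h1 | ⟨h1, -⟩
      · exact (INat.lt_succ_self m).trans h1
      · rw [h1]
        exact INat.lt_succ_self m
    · exact tl_inr.2 (ct_inr.1 hz)
  · obtain ⟨en, hen⟩ := exists_En S n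
    obtain ⟨en', hen'⟩ := exists_En S n.succ
    have hm : ∀ z : YY S, z ∈ (cts S en n 0 ∩ icompl (cts S en' n.succ 0)) ∩ U ↔
        (ct S en n 0 z ∧ ¬ ct S en' n.succ 0 z) ∧ z ∈ U := fun z => by
      rw [mem_inter, mem_inter, mem_icompl, mem_cts hen.1, mem_cts hen'.1]
    have hk : ∀ k : INat N, (ct S en n 0 (Sum.inr k) ∧ ¬ ct S en' n.succ 0 (Sum.inr k)) →
        k = n.succ := by
      intro k hk
      rw [ct_inr, ct_inr, not_or, not_lt] at hk
      obtain ⟨h1, h2, h3⟩ := hk
      rcases h1 with h1 | h1
      · exact absurd h1 h2
      · exact le_antisymm h3 (INat.succ_le_iff.2 h1)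
    have hp : ct S en n 0 (Sum.inr n.succ) ∧ ¬ ct S en' n.succ 0 (Sum.inr n.succ) := by
      rw [ct_inr, ct_inr, not_or]
      exact ⟨Or.inr (INat.lt_succ_self n), INat.succ_ne_zero n, lt_irrefl _⟩
    have hK : IsT (cts S en n 0 ∩ icompl (cts S en' n.succ 0)) :=
      (isT_cts hen).inter (isT_cts_compl hen')
    have hKm : ∀ z : YY S, z ∈ (cts S en n 0 ∩ icompl (cts S en' n.succ 0)) ↔
        (ct S en n 0 z ∧ ¬ ct S en' n.succ 0 z) := fun z => by
      rw [mem_inter, mem_icompl, mem_cts hen.1, mem_cts hen'.1]
    refine ⟨(cts S en n 0 ∩ icompl (cts S en' n.succ 0)) ∩ U, ⟨fun z hz => ?_, fun z hz => ?_⟩,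
      (hm _).2 ⟨hp, h.1⟩, fun z hz => ((hm z).1 hz).2⟩
    · obtain ⟨h1, h2⟩ := (hm z).1 hz
      rcases z with e | k
      · exact nb_inl.2 hz
      · obtain rfl := hk k h1
        exact (hK _ ((hKm _).2 h1)).inter h
    · rw [mem_icompl, hm, not_and] at hz
      by_cases h1 : ct S en n 0 z ∧ ¬ ct S en' n.succ 0 z
      · rcases z with e | k
        · exact nb_inl.2 (mem_icompl.2 fun h' => hz h1 ((hm _).1 h').2)
        · obtain rfl := hk k h1
          exact absurd h.1 (hz h1)
      · by_cases h2 : ct S en n 0 z
        · have h3 : ct S en' n.succ 0 z := by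
            by_contra hc
            exact h1 ⟨h2, hc⟩
          exact (isT_cts hen' z ((mem_cts hen'.1).2 h3)).mono fun w hw => mem_icompl.2 fun h' =>
            ((hm w).1 h').1.2 ((mem_cts hen'.1).1 hw)
        · have h3 : z ∈ icompl (cts S en n 0) := mem_icompl.2 fun h' => h2 ((mem_cts hen.1).1 h')
          exact (isT_cts_compl hen z h3).mono fun w hw => mem_icompl.2 fun h' =>
            (mem_icompl.1 hw) ((mem_cts hen.1).2 ((hm w).1 h').1.1)

theorem isT_ne (y : YY S) : ∀ z : YY S, z ≠ y → Nb z (icompl ({y} : IPow N (YY S))) := by
  have hm : ∀ z : YY S, z ∈ icompl ({y} : IPow N (YY S)) ↔ z ≠ y := fun z => by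
    rw [mem_icompl, mem_singleton]
  intro z hz
  rcases cases_pt z with ⟨e, rfl⟩ | rfl | ⟨n, rfl⟩
  · exact nb_inl.2 ((hm _).2 hz)
  · rcases y with e | k
    · exact isT_compl_one e _ ((hm _).2 hz)
    · refine nb_zero.2 ⟨k, fun w hw => (hm w).2 ?_⟩
      rintro rfl
      rcases tl_inr.1 hw with h | h
      · exact hz (by rw [h])
      · exact absurd ((INat.lt_succ_self k).trans h) (lt_irrefl _)
  · rcases y with e | k
    · exact isT_compl_one e _ ((hm _).2 hz)
    · exact nb_succ.2 ⟨(hm _).2 hz, fr1_of_all fun e _ => (hm _).2 (by simp),
        fr0_of_all fun e _ => (hm _).2 (by simp)⟩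

end Pool.Agent.Helper672.ZFA.R602
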