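import Pool.Agent.R602.Sp2

/-!
# Continuous functions are constant on most blocks
-/

set_option maxHeartbeats 1000000
set_option linter.all false
set_option synthInstance.maxSize 2000

namespace Pool.Agent.Helper672.ZFA.R602

open FirstOrder FirstOrder.Language
open Pool.Agent.Helper672.ZFA.H310M.R602 (BD)
open Pool.Agent.H310 (FinP finP_le finP_lt icompl mem_icompl)

universe u

variable {N : Type u} [L.Structure N] [hN : IsModel N] {A : Type u} [ITy N A] {S : BD N A}

/-! ### Subspaces -/

/-- `U` is a neighbourhood of `y` relative to `P`. -/
def NbR (P : IPow N (YY S)) (y : YY S) (U : IPow N (YY S)) : Prop :=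
  Nb y (sep N fun z => z ∈ P → z ∈ U)

theorem int_NbR : Int N (fun q : (IPow N (YY S) × YY S) × IPow N (YY S) => NbR q.1.1 q.1.2 q.2) := by
  have h := int_Nb (S := S)
  unfold NbR
  ((repeat' (first | with_reducible exact IntF.id | with_reducible exact IntF.fst' | with_reducible exact IntF.snd' | with_reducible exact IntF.const _ | with_reducible exact Int.const _ | assumption | with_reducible apply Int.and | with_reducible apply Int.or | with_reducible apply Int.not | with_reducible apply Int.imp | with_reducible apply Int.iff | with_reducible apply Int.ne | with_reducible apply Int.eq | with_reducible apply Int.mem | with_reducible apply Int.subset | with_reducible apply Int.ltN | with_reducible apply Int.leN | with_reducible_and_instances apply Int.le | with_reducible_and_instances apply Int.lt | with_reducible apply Int.all | with_reducible apply Int.ex | with_reducible apply IntF.fst | with_reducible apply IntF.snd | with_reducible apply IntF.app | with_reducible apply IntF.inl | with_reducible apply IntF.inr | with_reducible_and_instances apply IntF.mul | with_reducible_and_instances apply IntF.inv | with_reducible_and_instances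 apply IntF.add | with_reducible_and_instances apply IntF.sub | with_reducible_and_instances apply IntF.neg | with_reducible_and_instances apply IntF.smul | with_reducible apply Int.fin | with_reducible apply IntF.sep | with_reducible apply IntF.lam | with_reducible apply IntF.insert | with_reducible apply IntF.singleton | with_reducible apply IntF.union | with_reducible apply IntF.iimage | with_reducible apply IntF.ite | with_reducible apply IntF.the | with_reducible apply IntF.irec | with_reducible apply IntF.succ | with_reducible apply IntF.val | with_reducible apply IntF.mk | (with_reducible refine Int.comp ?_ ?_; assumption) | (with_reducible refine Int.comp₂ ?_ ?_ ?_; assumption) | (with_reducible refine Int.comp₃ ?_ ?_ ?_ ?_; assumption) | (with_reducible refine Int.comp₄ ?_ ?_ ?_ ?_ ?_; assumption) | (with_reducible refine IntF.comp ?_ ?_; assumption) | (with_reducible refine IntF.comp₂ ?_ ?_ ?_; assumption) | (with_reducible refine IntF.comp₃ ?_ ?_ ?_ ?_; assumption) | with_reducible apply IntF.pair)))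

theorem nbR_set {P U : IPow N (YY S)} {z : YY S} :
    z ∈ (sep N fun z => z ∈ P → z ∈ U) ↔ (z ∈ P → z ∈ U) := mem_sep (by ((repeat' (first | with_reducible exact IntF.id | with_reducible exact IntF.fst' | with_reducible exact IntF.snd' | with_reducible exact IntF.const _ | with_reducible exact Int.const _ | assumption | with_reducible apply Int.and | with_reducible apply Int.or | with_reducible apply Int.not | with_reducible apply Int.imp | with_reducible apply Int.iff | with_reducible apply Int.ne | with_reducible apply Int.eq | with_reducible apply Int.mem | with_reducible apply Int.subset | with_reducible apply Int.ltN | with_reducible apply Int.leN | with_reducible_and_instances apply Int.le | with_reducible_and_instances apply Int.lt | with_reducible apply Int.all | with_reducible apply Int.ex | with_reducible apply IntF.fst | with_reducible apply IntF.snd | with_reducible apply IntF.app | with_reducible apply IntF.inl | with_reducible apply IntF.inr | with_reducible_and_instances apply IntF.mul | with_reducible_and_instances apply IntF.inv | with_reducible_and_instances apply IntF.add | with_reducible_and_instances apply IntF.sub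 | with_reducible_and_instances apply IntF.neg | with_reducible_and_instances apply IntF.smul | with_reducible apply Int.fin | with_reducible apply IntF.sep | with_reducible apply IntF.lam | with_reducible apply IntF.insert | with_reducible apply IntF.singleton | with_reducible apply IntF.union | with_reducible apply IntF.iimage | with_reducible apply IntF.ite | with_reducible apply IntF.the | with_reducible apply IntF.irec | with_reducible apply IntF.succ | with_reducible apply IntF.val | with_reducible apply IntF.mk | (with_reducible refine Int.comp ?_ ?_; assumption) | (with_reducible refine Int.comp₂ ?_ ?_ ?_; assumption) | (with_reducible refine Int.comp₃ ?_ ?_ ?_ ?_; assumption) | (with_reducible refine Int.comp₄ ?_ ?_ ?_ ?_ ?_; assumption) | (with_reducible refine IntF.comp ?_ ?_; assumption) | (with_reducible refine IntF.comp₂ ?_ ?_ ?_; assumption) | (with_reducible refine IntF.comp₃ ?_ ?_ ?_ ?_; assumption) | with_reducible apply IntF.pair))))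

theorem NbR.mono {P : IPow N (YY S)} {y : YY S} {U V : IPow N (YY S)} (h : NbR P y U)
    (hUV : ∀ z, z ∈ P → z ∈ U → z ∈ V) : NbR P y V :=
  Nb.mono h fun z hz => nbR_set.2 fun h1 => hUV z h1 (nbR_set.1 hz h1)

theorem NbR.inter {P : IPow N (YY S)} {y : YY S} {U V : IPow N (YY S)} (h : NbR P y U)
    (h' : NbR P y V) : NbR P y (U ∩ V) :=
  (Nb.inter h h').mono fun z hz => nbR_set.2 fun h1 => mem_inter.2
    ⟨nbR_set.1 (mem_inter.1 hz).1 h1, nbR_set.1 (mem_inter.1 hz).2 h1⟩

theorem Nb.rel {P : IPow N (YY S)} {y : YY S} {U : IPow N (YY S)} (h : Nb y U) : NbR P y U :=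
  h.mono fun z hz => nbR_set.2 fun _ => hz

/-- The relatively open sets. -/
def IsTR (P U : IPow N (YY S)) : Prop := (∀ y, y ∈ U → y ∈ P) ∧ ∀ y, y ∈ U → NbR P y U

theorem int_IsTR : Int N (fun q : IPow N (YY S) × IPow N (YY S) => IsTR q.1 q.2) := by
  have h := int_NbR (S := S)
  unfold IsTR
  ((repeat' (first | with_reducible exact IntF.id | with_reducible exact IntF.fst' | with_reducible exact IntF.snd' | with_reducible exact IntF.const _ | with_reducible exact Int.const _ | assumption | with_reducible apply Int.and | with_reducible apply Int.or | with_reducible apply Int.not | with_reducible apply Int.imp | with_reducible apply Int.iff | with_reducible apply Int.ne | with_reducible apply Int.eq | with_reducible apply Int.mem | with_reducible apply Int.subset | with_reducible apply Int.ltN | with_reducible apply Int.leN | with_reducible_and_instances apply Int.le | with_reducible_and_instances apply Int.lt | with_reducible apply Int.all | with_reducible apply Int.ex | with_reducible apply IntF.fst | with_reducible apply IntF.snd | with_reducible apply IntF.app | with_reducible apply IntF.inl | with_reducible apply IntF.inr | with_reducible_and_instances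 apply IntF.mul | with_reducible_and_instances apply IntF.inv | with_reducible_and_instances apply IntF.add | with_reducible_and_instances apply IntF.sub | with_reducible_and_instances apply IntF.neg | with_reducible_and_instances apply IntF.smul | with_reducible apply Int.fin | with_reducible apply IntF.sep | with_reducible apply IntF.lam | with_reducible apply IntF.insert | with_reducible apply IntF.singleton | with_reducible apply IntF.union | with_reducible apply IntF.iimage | with_reducible apply IntF.ite | with_reducible apply IntF.the | with_reducible apply IntF.irec | with_reducible apply IntF.succ | with_reducible apply IntF.val | with_reducible apply IntF.mk | (with_reducible refine Int.comp ?_ ?_; assumption) | (with_reducible refine Int.comp₂ ?_ ?_ ?_; assumption) | (with_reducible refine Int.comp₃ ?_ ?_ ?_ ?_; assumption) | (with_reducible refine Int.comp₄ ?_ ?_ ?_ ?_ ?_; assumption) | (with_reducible refine IntF.comp ?_ ?_; assumption) | (with_reducible refine IntF.comp₂ ?_ ?_ ?_; assumption) | (with_reducible refine IntF.comp₃ ?_ ?_ ?_ ?_; assumption) | with_reducible apply IntF.pair)))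

theorem IsT.rel {P O : IPow N (YY S)} (h : IsT O) : IsTR P (O ∩ P) :=
  ⟨fun y hy => (mem_inter.1 hy).2, fun y hy => (h y (mem_inter.1 hy).1).mono fun z hz =>
    nbR_set.2 fun h1 => mem_inter.2 ⟨hz, h1⟩⟩

theorem isTR_iff {P U : IPow N (YY S)} : IsTR P U ↔ ∃ O, IsT O ∧ ∀ y, y ∈ U ↔ y ∈ O ∧ y ∈ P := by
  constructor
  · rintro ⟨h1, h2⟩
    have h := int_IsT (S := S)
    have hm : ∀ O : IPow N (YY S), O ∈ (sep N fun O : IPow N (YY S) => IsT O ∧
        ∀ z, z ∈ O → z ∈ P → z ∈ U) ↔ (IsT O ∧ ∀ z, z ∈ O → z ∈ P → z ∈ U) :=
      fun O => mem_sep (by ((repeat' (first | with_reducible exact IntF.id | with_reducible exact IntF.fst' | with_reducible exact IntF.snd' | with_reducible exact IntF.const _ | with_reducible exact Int.const _ | assumption | with_reducible apply Int.and | with_reducible apply Int.or | with_reducible apply Int.not | with_reducible apply Int.imp | with_reducible apply Int.iff | with_reducible apply Int.ne | with_reducible apply Int.eq | with_reducible apply Int.mem | with_reducible apply Int.subset | with_reducible apply Int.ltN | with_reducible apply Int.leN | with_reducible_and_instances apply Int.le | with_reducible_and_instances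 apply Int.lt | with_reducible apply Int.all | with_reducible apply Int.ex | with_reducible apply IntF.fst | with_reducible apply IntF.snd | with_reducible apply IntF.app | with_reducible apply IntF.inl | with_reducible apply IntF.inr | with_reducible_and_instances apply IntF.mul | with_reducible_and_instances apply IntF.inv | with_reducible_and_instances apply IntF.add | with_reducible_and_instances apply IntF.sub | with_reducible_and_instances apply IntF.neg | with_reducible_and_instances apply IntF.smul | with_reducible apply Int.fin | with_reducible apply IntF.sep | with_reducible apply IntF.lam | with_reducible apply IntF.insert | with_reducible apply IntF.singleton | with_reducible apply IntF.union | with_reducible apply IntF.iimage | with_reducible apply IntF.ite | with_reducible apply IntF.the | with_reducible apply IntF.irec | with_reducible apply IntF.succ | with_reducible apply IntF.val | with_reducible apply IntF.mk | (with_reducible refine Int.comp ?_ ?_; assumption) | (with_reducible refine Int.comp₂ ?_ ?_ ?_; assumption) | (with_reducible refine Int.comp₃ ?_ ?_ ?_ ?_; assumption) | (with_reducible refine Int.comp₄ ?_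 ?_ ?_ ?_ ?_; assumption) | (with_reducible refine IntF.comp ?_ ?_; assumption) | (with_reducible refine IntF.comp₂ ?_ ?_ ?_; assumption) | (with_reducible refine IntF.comp₃ ?_ ?_ ?_ ?_; assumption) | with_reducible apply IntF.pair))))
    refine ⟨isUnion (sep N fun O : IPow N (YY S) => IsT O ∧ ∀ z, z ∈ O → z ∈ P → z ∈ U),
      IsT.isUnion fun O hO => ((hm O).1 hO).1, fun y => ⟨fun hy => ⟨?_, h1 y hy⟩, ?_⟩⟩
    · obtain ⟨O, hO, hyO, hs⟩ := (h2 y hy).open
      exact mem_isUnion.2 ⟨O, (hm O).2 ⟨hO, fun z hz => nbR_set.1 (hs z hz)⟩, hyO⟩
    · rintro ⟨hy, hyP⟩
      obtain ⟨O, hO, hyO⟩ := mem_isUnion.1 hy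
      exact ((hm O).1 hO).2 y hyO hyP
  · rintro ⟨O, hO, h⟩
    refine ⟨fun y hy => ((h y).1 hy).2, fun y hy => (hO y ((h y).1 hy).1).mono fun z hz =>
      nbR_set.2 fun h1 => (h z).2 ⟨hz, h1⟩⟩

/-- The points without the last point. -/
noncomputable def XX (S : BD N A) : IPow N (YY S) := icompl {Sum.inr 0}

theorem mem_XX {y : YY S} : y ∈ XX S ↔ y ≠ Sum.inr 0 := by
  unfold XX
  rw [mem_icompl, mem_singleton]

theorem inl_mem_XX (e : EE S) : (Sum.inl e : YY S) ∈ XX S := mem_XX.2 (by simp)

theorem succ_mem_XX (n : INat N) : (Sum.inr n.succ : YY S) ∈ XX S :=
  mem_XX.2 fun h => INat.succ_ne_zero n (Sum.inr.inj h)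

theorem nbR_XX {n : INat N} {U : IPow N (YY S)} (h : NbR (XX S) (Sum.inr n.succ) U) :
    Fr1 S n U ∧ Fr0 S n.succ U := by
  obtain ⟨-, h1, h2⟩ := nb_succ.1 h
  exact ⟨h1.mono fun e _ he => nbR_set.1 he (inl_mem_XX e),
    h2.mono fun e _ he => nbR_set.1 he (inl_mem_XX e)⟩

/-! ### Real numbers -/

variable {R : Type u} [ITy N R] [Field R] [LinearOrder R] [IsStrictOrderedRing R] [IAdd N R]
  [ILE N R]

/-- The distance is less than `ε`. -/
def cl (ε u v : R) : Prop := u < v + ε ∧ v < u + ε

omit [ITy N R] [IAdd N R] [ILE N R] in
theorem cl_iff {ε u v : R} : cl ε u v ↔ |u - v| < ε := by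
  unfold cl
  rw [abs_sub_lt_iff, sub_lt_iff_lt_add', sub_lt_iff_lt_add']

theorem int_cl : Int N (fun q : (R × R) × R => cl q.1.1 q.1.2 q.2) := by
  unfold cl
  ((repeat' (first | with_reducible exact IntF.id | with_reducible exact IntF.fst' | with_reducible exact IntF.snd' | with_reducible exact IntF.const _ | with_reducible exact Int.const _ | assumption | with_reducible apply Int.and | with_reducible apply Int.or | with_reducible apply Int.not | with_reducible apply Int.imp | with_reducible apply Int.iff | with_reducible apply Int.ne | with_reducible apply Int.eq | with_reducible apply Int.mem | with_reducible apply Int.subset | with_reducible apply Int.ltN | with_reducible apply Int.leN | with_reducible_and_instances apply Int.le | with_reducible_and_instances apply Int.lt | with_reducible apply Int.all | with_reducible apply Int.ex | with_reducible apply IntF.fst | with_reducible apply IntF.snd | with_reducible apply IntF.app | with_reducible apply IntF.inl | with_reducible apply IntF.inr | with_reducible_and_instances apply IntF.mul | with_reducible_and_instances apply IntF.inv | with_reducible_and_instances apply IntF.add |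 with_reducible_and_instances apply IntF.sub | with_reducible_and_instances apply IntF.neg | with_reducible_and_instances apply IntF.smul | with_reducible apply Int.fin | with_reducible apply IntF.sep | with_reducible apply IntF.lam | with_reducible apply IntF.insert | with_reducible apply IntF.singleton | with_reducible apply IntF.union | with_reducible apply IntF.iimage | with_reducible apply IntF.ite | with_reducible apply IntF.the | with_reducible apply IntF.irec | with_reducible apply IntF.succ | with_reducible apply IntF.val | with_reducible apply IntF.mk | (with_reducible refine Int.comp ?_ ?_; assumption) | (with_reducible refine Int.comp₂ ?_ ?_ ?_; assumption) | (with_reducible refine Int.comp₃ ?_ ?_ ?_ ?_; assumption) | (with_reducible refine Int.comp₄ ?_ ?_ ?_ ?_ ?_; assumption) | (with_reducible refine IntF.comp ?_ ?_; assumption) | (with_reducible refine IntF.comp₂ ?_ ?_ ?_; assumption) | (with_reducible refine IntF.comp₃ ?_ ?_ ?_ ?_; assumption) | with_reducible apply IntF.pair)))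

omit [ITy N R] [IAdd N R] [ILE N R] in
theorem eq_of_cl {u v : R} (h : ∀ ε, 0 < ε → cl ε u v) : u = v := by
  by_contra hc
  have h1 := cl_iff.1 (h |u - v| (abs_pos.2 (sub_ne_zero.2 hc)))
  exact lt_irrefl _ h1

omit [ITy N R] [IAdd N R] [ILE N R] in
theorem cl_self {ε u : R} (h : 0 < ε) : cl ε u u := cl_iff.2 (by simpa using h)

omit [ITy N R] [IAdd N R] [ILE N R] in
theorem cl_of_cl {ε u v : R} (h : cl ε u v) : ∃ δ, 0 < δ ∧ ∀ w, cl δ w u → cl ε w v := by
  refine ⟨ε - |u - v|, sub_pos.2 (cl_iff.1 h), fun w hw => cl_iff.2 ?_⟩
  have h1 := cl_iff.1 hw
  have h2 := abs_sub_le w u v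
  linarith

/-- The set of the points with value near `c`. -/
noncomputable def bl (f : YY S → R) (ε c : R) : IPow N (YY S) := sep N fun z => cl ε (f z) c

theorem mem_bl {f : YY S → R} (hf : IntF N f) {ε c : R} {z : YY S} :
    z ∈ bl f ε c ↔ cl ε (f z) c := by
  have h := int_cl (N := N) (R := R)
  unfold bl
  rw [mem_sep (by ((repeat' (first | with_reducible exact IntF.id | with_reducible exact IntF.fst' | with_reducible exact IntF.snd' | with_reducible exact IntF.const _ | with_reducible exact Int.const _ | assumption | with_reducible apply Int.and | with_reducible apply Int.or | with_reducible apply Int.not | with_reducible apply Int.imp | with_reducible apply Int.iff | with_reducible apply Int.ne | with_reducible apply Int.eq | with_reducible apply Int.mem | with_reducible apply Int.subset | with_reducible apply Int.ltN | with_reducible apply Int.leN | with_reducible_and_instances apply Int.le | with_reducible_and_instances apply Int.lt | with_reducible apply Int.all | with_reducible apply Int.ex | with_reducible apply IntF.fst | with_reducible apply IntF.snd | with_reducible apply IntF.app | with_reducible apply IntF.inl | with_reducible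 apply IntF.inr | with_reducible_and_instances apply IntF.mul | with_reducible_and_instances apply IntF.inv | with_reducible_and_instances apply IntF.add | with_reducible_and_instances apply IntF.sub | with_reducible_and_instances apply IntF.neg | with_reducible_and_instances apply IntF.smul | with_reducible apply Int.fin | with_reducible apply IntF.sep | with_reducible apply IntF.lam | with_reducible apply IntF.insert | with_reducible apply IntF.singleton | with_reducible apply IntF.union | with_reducible apply IntF.iimage | with_reducible apply IntF.ite | with_reducible apply IntF.the | with_reducible apply IntF.irec | with_reducible apply IntF.succ | with_reducible apply IntF.val | with_reducible apply IntF.mk | (with_reducible refine Int.comp ?_ ?_; assumption) | (with_reducible refine Int.comp₂ ?_ ?_ ?_; assumption) | (with_reducible refine Int.comp₃ ?_ ?_ ?_ ?_; assumption) | (with_reducible refine Int.comp₄ ?_ ?_ ?_ ?_ ?_; assumption) | (with_reducible refine IntF.comp ?_ ?_; assumption) | (with_reducible refine IntF.comp₂ ?_ ?_ ?_; assumption) | (with_reducible refine IntF.comp₃ ?_ ?_ ?_ ?_; assumption) | with_reducible apply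 IntF.pair))))]

/-- Most blocks are constant. -/
theorem ev_const {f : YY S → R} (hf : IntF N f)
    (h1 : ∀ (n : INat N) ε, 0 < ε → Fr1 S n (bl f ε (f (Sum.inr n.succ))))
    (h0 : ∀ (n : INat N) ε, 0 < ε → Fr0 S n.succ (bl f ε (f (Sum.inr n.succ)))) :
    ∃ k : INat N, ∀ n, k ≤ n → f (Sum.inr n.succ) = f (Sum.inr k.succ) := by
  have hR : Int N (fun q : (A × A) × (A × A) => ∃ e e' : EE S, e.1 = q.1 ∧ e'.1 = q.2 ∧
      f (Sum.inl e) < f (Sum.inl e')) := by ((repeat' (first | with_reducible exact IntF.id | with_reducible exact IntF.fst' | with_reducible exact IntF.snd' | with_reducible exact IntF.const _ | with_reducible exact Int.const _ | assumption | with_reducible apply Int.and | with_reducible apply Int.or | with_reducible apply Int.not | with_reducible apply Int.imp | with_reducible apply Int.iff | with_reducible apply Int.ne | with_reducible apply Int.eq | with_reducible apply Int.mem | with_reducible apply Int.subset | with_reducible apply Int.ltN | with_reducible apply Int.leN | with_reducible_and_instances apply Int.le | with_reducible_and_instances apply Int.lt | with_reducible apply Int.all | with_reducible apply Int.ex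 | with_reducible apply IntF.fst | with_reducible apply IntF.snd | with_reducible apply IntF.app | with_reducible apply IntF.inl | with_reducible apply IntF.inr | with_reducible_and_instances apply IntF.mul | with_reducible_and_instances apply IntF.inv | with_reducible_and_instances apply IntF.add | with_reducible_and_instances apply IntF.sub | with_reducible_and_instances apply IntF.neg | with_reducible_and_instances apply IntF.smul | with_reducible apply Int.fin | with_reducible apply IntF.sep | with_reducible apply IntF.lam | with_reducible apply IntF.insert | with_reducible apply IntF.singleton | with_reducible apply IntF.union | with_reducible apply IntF.iimage | with_reducible apply IntF.ite | with_reducible apply IntF.the | with_reducible apply IntF.irec | with_reducible apply IntF.succ | with_reducible apply IntF.val | with_reducible apply IntF.mk | (with_reducible refine Int.comp ?_ ?_; assumption) | (with_reducible refine Int.comp₂ ?_ ?_ ?_; assumption) | (with_reducible refine Int.comp₃ ?_ ?_ ?_ ?_; assumption) | (with_reducible refine Int.comp₄ ?_ ?_ ?_ ?_ ?_; assumption) | (with_reducible refine IntF.comp ?_ ?_; assumption)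 | (with_reducible refine IntF.comp₂ ?_ ?_ ?_; assumption) | (with_reducible refine IntF.comp₃ ?_ ?_ ?_ ?_; assumption) | with_reducible apply IntF.pair)))
  obtain ⟨k, hk⟩ := S.hom₂ _ hR
  have key : ∀ n, k ≤ n → ∀ e e' : EE S, lv e = n → lv e' = n → e.1.1 ≠ e'.1.1 → e.1.1 ≠ e'.1.2 →
      e.1.2 ≠ e'.1.1 → e.1.2 ≠ e'.1.2 → f (Sum.inl e) = f (Sum.inl e') := by
    have key' : ∀ n, k ≤ n → ∀ e e' : EE S, lv e = n → lv e' = n → e.1.1 ≠ e'.1.1 →
        e.1.1 ≠ e'.1.2 → e.1.2 ≠ e'.1.1 → e.1.2 ≠ e'.1.2 →
        ¬ f (Sum.inl e) < f (Sum.inl e') := by
      intro n hn e e' he he' n1 n2 n3 n4 hlt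
      obtain ⟨e1, e2, h2, h3, h4⟩ := hk n hn e.1.1 e.1.2 e'.1.1 e'.1.2 he ((lv_snd e).trans he) he'
        ((lv_snd e').trans he') (e_ne e) (e_ne e') n1 n2 n3 n4 ⟨e, e', rfl, rfl, hlt⟩
      obtain rfl : e1 = e' := Subtype.ext h2
      obtain rfl : e2 = e := Subtype.ext h3
      exact absurd h4 (not_lt.2 hlt.le)
    intro n hn e e' he he' n1 n2 n3 n4
    exact le_antisymm (not_lt.1 (key' n hn e' e he' he n1.symm n3.symm n2.symm n4.symm))
      (not_lt.1 (key' n hn e e' he he' n1 n2 n3 n4))
  have cst : ∀ n, k ≤ n → ∀ e e' : EE S, lv e = n → lv e' = n →
      f (Sum.inl e) = f (Sum.inl e') := by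
    intro n hn e e' he he'
    obtain ⟨a, ha, ha'⟩ := exists_avoid (S := S) n
      (((FinP.eq e.1.1).or (FinP.eq e.1.2)).or ((FinP.eq e'.1.1).or (FinP.eq e'.1.2)))
    obtain ⟨b, hb, hb'⟩ := exists_avoid (S := S) n
      ((((FinP.eq e.1.1).or (FinP.eq e.1.2)).or ((FinP.eq e'.1.1).or (FinP.eq e'.1.2))).or
        (FinP.eq a))
    push Not at ha' hb'
    obtain ⟨⟨a1, a2⟩, a3, a4⟩ := ha'
    obtain ⟨⟨⟨b1, b2⟩, b3, b4⟩, b5⟩ := hb'
    let e3 : EE S := ⟨(a, b), ha.trans hb.symm, b5.symm⟩
    have he3 : lv e3 = n := ha
    exact (key n hn e e3 he he3 a1.symm b1.symm a2.symm b2.symm).trans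
      (key n hn e3 e' he3 he' a3 a4 b3 b4)
  refine ⟨k, ?_⟩
  have v1 : ∀ n, k ≤ n → ∀ e : EE S, lv e = n → f (Sum.inl e) = f (Sum.inr n.succ) := by
    intro n hn e he
    refine eq_of_cl fun ε hε => ?_
    obtain ⟨e', he', hm⟩ := (h1 n ε hε).exists_mem
    rw [mem_bl hf] at hm
    rw [cst n hn e e' he he']
    exact hm
  have v0 : ∀ n : INat N, k ≤ n.succ → ∀ e : EE S, lv e = n.succ → f (Sum.inl e) = f (Sum.inr n.succ) := by
    intro n hn e he
    refine eq_of_cl fun ε hε => ?_
    obtain ⟨e', he', hm⟩ := (h0 n ε hε).exists_mem
    rw [mem_bl hf] at hm
    rw [cst n.succ hn e e' he he']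
    exact hm
  refine INat.ind (p := fun n : INat N => k ≤ n → f (Sum.inr n.succ) = f (Sum.inr k.succ))
    (by ((repeat' (first | with_reducible exact IntF.id | with_reducible exact IntF.fst' | with_reducible exact IntF.snd' | with_reducible exact IntF.const _ | with_reducible exact Int.const _ | assumption | with_reducible apply Int.and | with_reducible apply Int.or | with_reducible apply Int.not | with_reducible apply Int.imp | with_reducible apply Int.iff | with_reducible apply Int.ne | with_reducible apply Int.eq | with_reducible apply Int.mem | with_reducible apply Int.subset | with_reducible apply Int.ltN | with_reducible apply Int.leN | with_reducible_and_instances apply Int.le | with_reducible_and_instances apply Int.lt | with_reducible apply Int.all | with_reducible apply Int.ex | with_reducible apply IntF.fst | with_reducible apply IntF.snd | with_reducible apply IntF.app | with_reducible apply IntF.inl | with_reducible apply IntF.inr | with_reducible_and_instances apply IntF.mul | with_reducible_and_instances apply IntF.inv | with_reducible_and_instances apply IntF.add | with_reducible_and_instances apply IntF.sub | with_reducible_and_instances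 apply IntF.neg | with_reducible_and_instances apply IntF.smul | with_reducible apply Int.fin | with_reducible apply IntF.sep | with_reducible apply IntF.lam | with_reducible apply IntF.insert | with_reducible apply IntF.singleton | with_reducible apply IntF.union | with_reducible apply IntF.iimage | with_reducible apply IntF.ite | with_reducible apply IntF.the | with_reducible apply IntF.irec | with_reducible apply IntF.succ | with_reducible apply IntF.val | with_reducible apply IntF.mk | (with_reducible refine Int.comp ?_ ?_; assumption) | (with_reducible refine Int.comp₂ ?_ ?_ ?_; assumption) | (with_reducible refine Int.comp₃ ?_ ?_ ?_ ?_; assumption) | (with_reducible refine Int.comp₄ ?_ ?_ ?_ ?_ ?_; assumption) | (with_reducible refine IntF.comp ?_ ?_; assumption) | (with_reducible refine IntF.comp₂ ?_ ?_ ?_; assumption) | (with_reducible refine IntF.comp₃ ?_ ?_ ?_ ?_; assumption) | with_reducible apply IntF.pair)))) (fun h => ?_) fun n ih h => ?_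
  · rw [le_antisymm h (INat.zero_le k)]
  · rcases h.lt_or_eq with h2 | rfl
    · have h3 := INat.lt_succ_iff.1 h2
      rw [← ih h3]
      obtain ⟨e, he, -⟩ := (h1 n.succ 1 one_pos).exists_mem
      rw [← v1 n.succ h e he, ← v0 n h e he]
    · rfl

/-! ### The space without the last point is not realcompact -/

theorem exists_nb_one (x : YY S) (hx : x ∈ XX S) : ∃ (U : IPow N (YY S)) (k : INat N),
    IsTR (XX S) U ∧ x ∈ U ∧ ∀ n, k ≤ n → ¬ (Sum.inr n.succ : YY S) ∈ U := by
  rcases cases_pt x with ⟨e, rfl⟩ | rfl | ⟨m, rfl⟩
  · refine ⟨{Sum.inl e}, 0, ⟨fun y hy => ?_, fun y hy => (isT_one e y hy).rel⟩,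
      mem_singleton.2 rfl, fun n _ h => ?_⟩
    · rw [mem_singleton] at hy
      subst hy
      exact hx
    · rw [mem_singleton] at h
      simp at h
  · exact absurd rfl (mem_XX.1 hx)
  · have hm : ∀ z : YY S, z ∈ (sep N fun z : YY S => z = Sum.inr m.succ ∨ ∃ e, z = Sum.inl e) ↔
        (z = Sum.inr m.succ ∨ ∃ e, z = Sum.inl e) := fun z => mem_sep (by ((repeat' (first | with_reducible exact IntF.id | with_reducible exact IntF.fst' | with_reducible exact IntF.snd' | with_reducible exact IntF.const _ | with_reducible exact Int.const _ | assumption | with_reducible apply Int.and | with_reducible apply Int.or | with_reducible apply Int.not | with_reducible apply Int.imp | with_reducible apply Int.iff | with_reducible apply Int.ne | with_reducible apply Int.eq | with_reducible apply Int.mem | with_reducible apply Int.subset | with_reducible apply Int.ltN | with_reducible apply Int.leN | with_reducible_and_instances apply Int.le | with_reducible_and_instances apply Int.lt | with_reducible apply Int.all | with_reducible apply Int.ex | with_reducible apply IntF.fst | with_reducible apply IntF.snd | with_reducible apply IntF.app | with_reducible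 apply IntF.inl | with_reducible apply IntF.inr | with_reducible_and_instances apply IntF.mul | with_reducible_and_instances apply IntF.inv | with_reducible_and_instances apply IntF.add | with_reducible_and_instances apply IntF.sub | with_reducible_and_instances apply IntF.neg | with_reducible_and_instances apply IntF.smul | with_reducible apply Int.fin | with_reducible apply IntF.sep | with_reducible apply IntF.lam | with_reducible apply IntF.insert | with_reducible apply IntF.singleton | with_reducible apply IntF.union | with_reducible apply IntF.iimage | with_reducible apply IntF.ite | with_reducible apply IntF.the | with_reducible apply IntF.irec | with_reducible apply IntF.succ | with_reducible apply IntF.val | with_reducible apply IntF.mk | (with_reducible refine Int.comp ?_ ?_; assumption) | (with_reducible refine Int.comp₂ ?_ ?_ ?_; assumption) | (with_reducible refine Int.comp₃ ?_ ?_ ?_ ?_; assumption) | (with_reducible refine Int.comp₄ ?_ ?_ ?_ ?_ ?_; assumption) | (with_reducible refine IntF.comp ?_ ?_; assumption) | (with_reducible refine IntF.comp₂ ?_ ?_ ?_; assumption) | (with_reducible refine IntF.comp₃ ?_ ?_ ?_ ?_; assumption)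 | with_reducible apply IntF.pair))))
    refine ⟨_, m.succ, ⟨fun y hy => ?_, fun y hy => Nb.rel ?_⟩, (hm _).2 (Or.inl rfl),
      fun n hn h => ?_⟩
    · rcases (hm y).1 hy with rfl | ⟨e, rfl⟩
      · exact succ_mem_XX m
      · exact inl_mem_XX e
    · rcases (hm y).1 hy with rfl | ⟨e, rfl⟩
      · exact nb_succ.2 ⟨hy, fr1_of_all fun e _ => (hm _).2 (Or.inr ⟨e, rfl⟩),
          fr0_of_all fun e _ => (hm _).2 (Or.inr ⟨e, rfl⟩)⟩
      · exact nb_inl.2 hy
    · rcases (hm _).1 h with h | ⟨e, h⟩
      · have h2 : n = m := INat.succ_inj (Sum.inr.inj h)
        exact absurd hn (not_le.2 (h2 ▸ INat.lt_succ_self n))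
      · simp at h

theorem not_rc {J : Type u} [ITy N J] {E : YY S × J → R} (hE : IntF N E)
    (htop : ∀ U, (∀ y, y ∈ U → y ∈ XX S) → (IsTR (XX S) U ↔ ∀ y, y ∈ U → ∃ s : IPow N J, IFin s ∧
      ∃ ε : R, 0 < ε ∧ ∀ z, z ∈ XX S → (∀ j, j ∈ s → cl ε (E (z, j)) (E (y, j))) → z ∈ U))
    (hcl : ∀ φ : J → R, IntF N φ → (∀ s : IPow N J, IFin s → ∀ ε : R, 0 < ε →
      ∃ z, z ∈ XX S ∧ ∀ j, j ∈ s → cl ε (E (z, j)) (φ j)) →
        ∃ z, z ∈ XX S ∧ ∀ j, E (z, j) = φ j) : False := by
  have hcl' := int_cl (N := N) (R := R)
  -- the coordinates are continuous
  have hc : ∀ (j : J) (y : YY S), y ∈ XX S → ∀ ε : R, 0 < ε →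
      NbR (XX S) y (bl (fun z => E (z, j)) ε (E (y, j))) := by
    intro j y hy ε hε
    have hb : IntF N (fun z : YY S => E (z, j)) := by ((repeat' (first | with_reducible exact IntF.id | with_reducible exact IntF.fst' | with_reducible exact IntF.snd' | with_reducible exact IntF.const _ | with_reducible exact Int.const _ | assumption | with_reducible apply Int.and | with_reducible apply Int.or | with_reducible apply Int.not | with_reducible apply Int.imp | with_reducible apply Int.iff | with_reducible apply Int.ne | with_reducible apply Int.eq | with_reducible apply Int.mem | with_reducible apply Int.subset | with_reducible apply Int.ltN | with_reducible apply Int.leN | with_reducible_and_instances apply Int.le | with_reducible_and_instances apply Int.lt | with_reducible apply Int.all | with_reducible apply Int.ex | with_reducible apply IntF.fst | with_reducible apply IntF.snd | with_reducible apply IntF.app | with_reducible apply IntF.inl | with_reducible apply IntF.inr | with_reducible_and_instances apply IntF.mul | with_reducible_and_instances apply IntF.inv | with_reducible_and_instances apply IntF.add | with_reducible_and_instances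 apply IntF.sub | with_reducible_and_instances apply IntF.neg | with_reducible_and_instances apply IntF.smul | with_reducible apply Int.fin | with_reducible apply IntF.sep | with_reducible apply IntF.lam | with_reducible apply IntF.insert | with_reducible apply IntF.singleton | with_reducible apply IntF.union | with_reducible apply IntF.iimage | with_reducible apply IntF.ite | with_reducible apply IntF.the | with_reducible apply IntF.irec | with_reducible apply IntF.succ | with_reducible apply IntF.val | with_reducible apply IntF.mk | (with_reducible refine Int.comp ?_ ?_; assumption) | (with_reducible refine Int.comp₂ ?_ ?_ ?_; assumption) | (with_reducible refine Int.comp₃ ?_ ?_ ?_ ?_; assumption) | (with_reducible refine Int.comp₄ ?_ ?_ ?_ ?_ ?_; assumption) | (with_reducible refine IntF.comp ?_ ?_; assumption) | (with_reducible refine IntF.comp₂ ?_ ?_ ?_; assumption) | (with_reducible refine IntF.comp₃ ?_ ?_ ?_ ?_; assumption) | with_reducible apply IntF.pair)))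
    have hm := fun z : YY S => mem_bl hb (ε := ε) (c := E (y, j)) (z := z)
    have h1 := (htop (bl (fun z => E (z, j)) ε (E (y, j)) ∩ XX S) fun z hz =>
      (mem_inter.1 hz).2).2 (fun z hz => ?_)
    · exact (h1.2 y (mem_inter.2 ⟨(hm y).2 (cl_self hε), hy⟩)).mono fun z _ hz => (mem_inter.1 hz).1
    · obtain ⟨δ, hδ, h2⟩ := cl_of_cl ((hm z).1 (mem_inter.1 hz).1)
      exact ⟨{j}, IFin.singleton j, δ, hδ, fun w hw h3 => mem_inter.2
        ⟨(hm w).2 (h2 _ (h3 j (mem_singleton.2 rfl))), hw⟩⟩
  -- the eventual value
  have hev : ∀ j, ∃ k : INat N, ∀ n, k ≤ n → E (Sum.inr n.succ, j) = E (Sum.inr k.succ, j) := by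
    intro j
    have hb : IntF N (fun z : YY S => E (z, j)) := by ((repeat' (first | with_reducible exact IntF.id | with_reducible exact IntF.fst' | with_reducible exact IntF.snd' | with_reducible exact IntF.const _ | with_reducible exact Int.const _ | assumption | with_reducible apply Int.and | with_reducible apply Int.or | with_reducible apply Int.not | with_reducible apply Int.imp | with_reducible apply Int.iff | with_reducible apply Int.ne | with_reducible apply Int.eq | with_reducible apply Int.mem | with_reducible apply Int.subset | with_reducible apply Int.ltN | with_reducible apply Int.leN | with_reducible_and_instances apply Int.le | with_reducible_and_instances apply Int.lt | with_reducible apply Int.all | with_reducible apply Int.ex | with_reducible apply IntF.fst | with_reducible apply IntF.snd | with_reducible apply IntF.app | with_reducible apply IntF.inl | with_reducible apply IntF.inr | with_reducible_and_instances apply IntF.mul | with_reducible_and_instances apply IntF.inv | with_reducible_and_instances apply IntF.add | with_reducible_and_instances apply IntF.sub | with_reducible_and_instances apply IntF.neg | with_reducible_and_instances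 apply IntF.smul | with_reducible apply Int.fin | with_reducible apply IntF.sep | with_reducible apply IntF.lam | with_reducible apply IntF.insert | with_reducible apply IntF.singleton | with_reducible apply IntF.union | with_reducible apply IntF.iimage | with_reducible apply IntF.ite | with_reducible apply IntF.the | with_reducible apply IntF.irec | with_reducible apply IntF.succ | with_reducible apply IntF.val | with_reducible apply IntF.mk | (with_reducible refine Int.comp ?_ ?_; assumption) | (with_reducible refine Int.comp₂ ?_ ?_ ?_; assumption) | (with_reducible refine Int.comp₃ ?_ ?_ ?_ ?_; assumption) | (with_reducible refine Int.comp₄ ?_ ?_ ?_ ?_ ?_; assumption) | (with_reducible refine IntF.comp ?_ ?_; assumption) | (with_reducible refine IntF.comp₂ ?_ ?_ ?_; assumption) | (with_reducible refine IntF.comp₃ ?_ ?_ ?_ ?_; assumption) | with_reducible apply IntF.pair)))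
    exact ev_const hb (fun n ε hε => (nbR_XX (hc j _ (succ_mem_XX n) ε hε)).1)
      fun n ε hε => (nbR_XX (hc j _ (succ_mem_XX n) ε hε)).2
  have hval : Int N (fun q : J × R => ∃ k : INat N, ∀ n, k ≤ n → E (Sum.inr n.succ, q.1) = q.2) := by ((repeat' (first | with_reducible exact IntF.id | with_reducible exact IntF.fst' | with_reducible exact IntF.snd' | with_reducible exact IntF.const _ | with_reducible exact Int.const _ | assumption | with_reducible apply Int.and | with_reducible apply Int.or | with_reducible apply Int.not | with_reducible apply Int.imp | with_reducible apply Int.iff | with_reducible apply Int.ne | with_reducible apply Int.eq | with_reducible apply Int.mem | with_reducible apply Int.subset | with_reducible apply Int.ltN | with_reducible apply Int.leN | with_reducible_and_instances apply Int.le | with_reducible_and_instances apply Int.lt | with_reducible apply Int.all | with_reducible apply Int.ex | with_reducible apply IntF.fst | with_reducible apply IntF.snd | with_reducible apply IntF.app | with_reducible apply IntF.inl | with_reducible apply IntF.inr | with_reducible_and_instances apply IntF.mul | with_reducible_and_instances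 apply IntF.inv | with_reducible_and_instances apply IntF.add | with_reducible_and_instances apply IntF.sub | with_reducible_and_instances apply IntF.neg | with_reducible_and_instances apply IntF.smul | with_reducible apply Int.fin | with_reducible apply IntF.sep | with_reducible apply IntF.lam | with_reducible apply IntF.insert | with_reducible apply IntF.singleton | with_reducible apply IntF.union | with_reducible apply IntF.iimage | with_reducible apply IntF.ite | with_reducible apply IntF.the | with_reducible apply IntF.irec | with_reducible apply IntF.succ | with_reducible apply IntF.val | with_reducible apply IntF.mk | (with_reducible refine Int.comp ?_ ?_; assumption) | (with_reducible refine Int.comp₂ ?_ ?_ ?_; assumption) | (with_reducible refine Int.comp₃ ?_ ?_ ?_ ?_; assumption) | (with_reducible refine Int.comp₄ ?_ ?_ ?_ ?_ ?_; assumption) | (with_reducible refine IntF.comp ?_ ?_; assumption) | (with_reducible refine IntF.comp₂ ?_ ?_ ?_; assumption) | (with_reducible refine IntF.comp₃ ?_ ?_ ?_ ?_; assumption) | with_reducible apply IntF.pair)))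
  have hφ : IntF N (fun j : J => the (fun c : R => ∃ k : INat N, ∀ n, k ≤ n →
      E (Sum.inr n.succ, j) = c) 0) := IntF.the hval (IntF.const _)
  have hφ' : ∀ j, ∃ k : INat N, ∀ n, k ≤ n → E (Sum.inr n.succ, j) =
      the (fun c : R => ∃ k : INat N, ∀ n, k ≤ n → E (Sum.inr n.succ, j) = c) 0 := by
    intro j
    obtain ⟨k, hk⟩ := hev j
    have h1 : the (fun c : R => ∃ k : INat N, ∀ n, k ≤ n → E (Sum.inr n.succ, j) = c) 0 =
        E (Sum.inr k.succ, j) := by
      refine the_eq ⟨_, ⟨k, hk⟩, ?_⟩ ⟨k, hk⟩
      rintro c ⟨k', hk'⟩
      rw [← hk' (max k k') (le_max_right _ _), hk (max k k') (le_max_left _ _)]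
    exact ⟨k, fun n hn => by rw [h1, hk n hn]⟩
  generalize hgen : (fun j : J => the (fun c : R => ∃ k : INat N, ∀ n, k ≤ n →
      E (Sum.inr n.succ, j) = c) 0) = φ at hφ
  have hφ2 : ∀ j, ∃ k : INat N, ∀ n, k ≤ n → E (Sum.inr n.succ, j) = φ j := fun j => by
    rw [← hgen]
    exact hφ' j
  have hfin : ∀ s : IPow N J, IFin s → ∃ k : INat N, ∀ j, j ∈ s → ∀ n, k ≤ n →
      E (Sum.inr n.succ, j) = φ j := by
    refine IFin.ind (p := fun s : IPow N J => ∃ k : INat N, ∀ j, j ∈ s → ∀ n, k ≤ n →
      E (Sum.inr n.succ, j) = φ j) (by ((repeat' (first | with_reducible exact IntF.id | with_reducible exact IntF.fst' | with_reducible exact IntF.snd' | with_reducible exact IntF.const _ | with_reducible exact Int.const _ | assumption | with_reducible apply Int.and | with_reducible apply Int.or | with_reducible apply Int.not | with_reducible apply Int.imp | with_reducible apply Int.iff | with_reducible apply Int.ne | with_reducible apply Int.eq | with_reducible apply Int.mem | with_reducible apply Int.subset | with_reducible apply Int.ltN | with_reducible apply Int.leN | with_reducible_and_instances apply Int.le | with_reducible_and_instances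 apply Int.lt | with_reducible apply Int.all | with_reducible apply Int.ex | with_reducible apply IntF.fst | with_reducible apply IntF.snd | with_reducible apply IntF.app | with_reducible apply IntF.inl | with_reducible apply IntF.inr | with_reducible_and_instances apply IntF.mul | with_reducible_and_instances apply IntF.inv | with_reducible_and_instances apply IntF.add | with_reducible_and_instances apply IntF.sub | with_reducible_and_instances apply IntF.neg | with_reducible_and_instances apply IntF.smul | with_reducible apply Int.fin | with_reducible apply IntF.sep | with_reducible apply IntF.lam | with_reducible apply IntF.insert | with_reducible apply IntF.singleton | with_reducible apply IntF.union | with_reducible apply IntF.iimage | with_reducible apply IntF.ite | with_reducible apply IntF.the | with_reducible apply IntF.irec | with_reducible apply IntF.succ | with_reducible apply IntF.val | with_reducible apply IntF.mk | (with_reducible refine Int.comp ?_ ?_; assumption) | (with_reducible refine Int.comp₂ ?_ ?_ ?_; assumption) | (with_reducible refine Int.comp₃ ?_ ?_ ?_ ?_; assumption) | (with_reducible refine Int.comp₄ ?_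 ?_ ?_ ?_ ?_; assumption) | (with_reducible refine IntF.comp ?_ ?_; assumption) | (with_reducible refine IntF.comp₂ ?_ ?_ ?_; assumption) | (with_reducible refine IntF.comp₃ ?_ ?_ ?_ ?_; assumption) | with_reducible apply IntF.pair)))) ⟨0, fun j hj => by simp at hj⟩ ?_
    rintro s j - - ⟨k, hk⟩
    obtain ⟨k', hk'⟩ := hφ2 j
    refine ⟨max k k', fun i hi n hn => ?_⟩
    rcases mem_insert.1 hi with rfl | hi
    · exact hk' n ((le_max_right _ _).trans hn)
    · exact hk i hi n ((le_max_left _ _).trans hn)
  obtain ⟨x, hx, hxφ⟩ := hcl φ hφ fun s hs ε hε => by
    obtain ⟨k, hk⟩ := hfin s hs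
    exact ⟨Sum.inr k.succ, succ_mem_XX k, fun j hj => by
      rw [hk j hj k le_rfl]
      exact cl_self hε⟩
  obtain ⟨U, k, hU, hxU, hk⟩ := exists_nb_one x hx
  obtain ⟨s, hs, ε, hε, h1⟩ := (htop U hU.1).1 hU x hxU
  obtain ⟨k', hk'⟩ := hfin s hs
  refine hk (max k k') (le_max_left _ _) (h1 _ (succ_mem_XX _) fun j hj => ?_)
  rw [hk' j hj _ (le_max_right _ _), hxφ]
  exact cl_self hε

/-- The last point is not a zero set. -/
theorem last_not_zero {f : YY S → R} (hf : IntF N f)
    (hc : ∀ y ε, 0 < ε → Nb y (bl f ε (f y))) : ∃ y, y ≠ Sum.inr 0 ∧ f y = f (Sum.inr 0) := by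
  obtain ⟨k, hk⟩ := ev_const hf (fun n ε hε => (nb_succ.1 (hc _ ε hε)).2.1)
    fun n ε hε => (nb_succ.1 (hc _ ε hε)).2.2
  refine ⟨Sum.inr k.succ, fun h => INat.succ_ne_zero k (Sum.inr.inj h), eq_of_cl fun ε hε => ?_⟩
  obtain ⟨m, hm⟩ := nb_zero.1 (hc (Sum.inr 0) ε hε)
  have h1 := hm (Sum.inr (max k m.succ).succ) (tl_inr.2 (Or.inr (lt_of_le_of_lt (le_max_right k _)
    (INat.lt_succ_self _))))
  rw [mem_bl hf, hk _ (le_max_left _ _)] at h1
  exact h1

end Pool.Agent.Helper672.ZFA.R602
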