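import Pool.Agent.R602.Sp3

/-!
# Closed subspaces are N-compact and realcompact
-/

set_option maxHeartbeats 1000000
set_option linter.all false
set_option synthInstance.maxSize 2000

namespace Pool.Agent.Helper672.ZFA.R602

open FirstOrder FirstOrder.Language
open Pool.Agent.Helper672.ZFA.H310M.R602 (BD)
open Pool.Agent.H310 (FinP finP_le finP_lt icompl mem_icompl pr int_pr pr_inj)

universe u

variable {N : Type u} [L.Structure N] [hN : IsModel N] {A : Type u} [ITy N A] {S : BD N A}

/-- Locally constant functions. -/
def CtN (f : IFun N (YY S) (INat N)) : Prop := ∀ y, Nb y (sep N fun z => f z = f y)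

theorem int_CtN : Int N (fun f : IFun N (YY S) (INat N) => CtN f) := by
  have h := int_Nb (S := S)
  unfold CtN
  ((repeat' (first | with_reducible exact IntF.id | with_reducible exact IntF.fst' | with_reducible exact IntF.snd' | with_reducible exact IntF.const _ | with_reducible exact Int.const _ | assumption | with_reducible apply Int.and | with_reducible apply Int.or | with_reducible apply Int.not | with_reducible apply Int.imp | with_reducible apply Int.iff | with_reducible apply Int.ne | with_reducible apply Int.eq | with_reducible apply Int.mem | with_reducible apply Int.subset | with_reducible apply Int.ltN | with_reducible apply Int.leN | with_reducible_and_instances apply Int.le | with_reducible_and_instances apply Int.lt | with_reducible apply Int.all | with_reducible apply Int.ex | with_reducible apply IntF.fst | with_reducible apply IntF.snd | with_reducible apply IntF.app | with_reducible apply IntF.inl | with_reducible apply IntF.inr | with_reducible_and_instances apply IntF.mul | with_reducible_and_instances apply IntF.inv | with_reducible_and_instances apply IntF.add | with_reducible_and_instances apply IntF.sub | with_reducible_and_instances apply IntF.neg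 | with_reducible_and_instances apply IntF.smul | with_reducible apply Int.fin | with_reducible apply IntF.sep | with_reducible apply IntF.lam | with_reducible apply IntF.insert | with_reducible apply IntF.singleton | with_reducible apply IntF.union | with_reducible apply IntF.iimage | with_reducible apply IntF.ite | with_reducible apply IntF.the | with_reducible apply IntF.irec | with_reducible apply IntF.succ | with_reducible apply IntF.val | with_reducible apply IntF.mk | (with_reducible refine Int.comp ?_ ?_; assumption) | (with_reducible refine Int.comp₂ ?_ ?_ ?_; assumption) | (with_reducible refine Int.comp₃ ?_ ?_ ?_ ?_; assumption) | (with_reducible refine Int.comp₄ ?_ ?_ ?_ ?_ ?_; assumption) | (with_reducible refine IntF.comp ?_ ?_; assumption) | (with_reducible refine IntF.comp₂ ?_ ?_ ?_; assumption) | (with_reducible refine IntF.comp₃ ?_ ?_ ?_ ?_; assumption) | with_reducible apply IntF.pair)))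

instance : Fact (Int N (fun f : IFun N (YY S) (INat N) => CtN f)) := ⟨int_CtN⟩

/-- The type of the locally constant functions. -/
abbrev JJ (S : BD N A) : Type u := {f : IFun N (YY S) (INat N) // CtN f}

theorem ct_mem {j : JJ S} {c : INat N} {z : YY S} :
    z ∈ (sep N fun z => j.1 z = c) ↔ j.1 z = c := mem_sep (by ((repeat' (first | with_reducible exact IntF.id | with_reducible exact IntF.fst' | with_reducible exact IntF.snd' | with_reducible exact IntF.const _ | with_reducible exact Int.const _ | assumption | with_reducible apply Int.and | with_reducible apply Int.or | with_reducible apply Int.not | with_reducible apply Int.imp | with_reducible apply Int.iff | with_reducible apply Int.ne | with_reducible apply Int.eq | with_reducible apply Int.mem | with_reducible apply Int.subset | with_reducible apply Int.ltN | with_reducible apply Int.leN | with_reducible_and_instances apply Int.le | with_reducible_and_instances apply Int.lt | with_reducible apply Int.all | with_reducible apply Int.ex | with_reducible apply IntF.fst | with_reducible apply IntF.snd | with_reducible apply IntF.app | with_reducible apply IntF.inl | with_reducible apply IntF.inr | with_reducible_and_instances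 apply IntF.mul | with_reducible_and_instances apply IntF.inv | with_reducible_and_instances apply IntF.add | with_reducible_and_instances apply IntF.sub | with_reducible_and_instances apply IntF.neg | with_reducible_and_instances apply IntF.smul | with_reducible apply Int.fin | with_reducible apply IntF.sep | with_reducible apply IntF.lam | with_reducible apply IntF.insert | with_reducible apply IntF.singleton | with_reducible apply IntF.union | with_reducible apply IntF.iimage | with_reducible apply IntF.ite | with_reducible apply IntF.the | with_reducible apply IntF.irec | with_reducible apply IntF.succ | with_reducible apply IntF.val | with_reducible apply IntF.mk | (with_reducible refine Int.comp ?_ ?_; assumption) | (with_reducible refine Int.comp₂ ?_ ?_ ?_; assumption) | (with_reducible refine Int.comp₃ ?_ ?_ ?_ ?_; assumption) | (with_reducible refine Int.comp₄ ?_ ?_ ?_ ?_ ?_; assumption) | (with_reducible refine IntF.comp ?_ ?_; assumption) | (with_reducible refine IntF.comp₂ ?_ ?_ ?_; assumption) | (with_reducible refine IntF.comp₃ ?_ ?_ ?_ ?_; assumption) | with_reducible apply IntF.pair))))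

theorem ct_set {s : IPow N (JJ S)} {y z : YY S} :
    z ∈ (sep N fun z => ∀ j, j ∈ s → j.1 z = j.1 y) ↔ ∀ j, j ∈ s → j.1 z = j.1 y :=
  mem_sep (by ((repeat' (first | with_reducible exact IntF.id | with_reducible exact IntF.fst' | with_reducible exact IntF.snd' | with_reducible exact IntF.const _ | with_reducible exact Int.const _ | assumption | with_reducible apply Int.and | with_reducible apply Int.or | with_reducible apply Int.not | with_reducible apply Int.imp | with_reducible apply Int.iff | with_reducible apply Int.ne | with_reducible apply Int.eq | with_reducible apply Int.mem | with_reducible apply Int.subset | with_reducible apply Int.ltN | with_reducible apply Int.leN | with_reducible_and_instances apply Int.le | with_reducible_and_instances apply Int.lt | with_reducible apply Int.all | with_reducible apply Int.ex | with_reducible apply IntF.fst | with_reducible apply IntF.snd | with_reducible apply IntF.app | with_reducible apply IntF.inl | with_reducible apply IntF.inr | with_reducible_and_instances apply IntF.mul | with_reducible_and_instances apply IntF.inv | with_reducible_and_instances apply IntF.add | with_reducible_and_instances apply IntF.sub | with_reducible_and_instances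 apply IntF.neg | with_reducible_and_instances apply IntF.smul | with_reducible apply Int.fin | with_reducible apply IntF.sep | with_reducible apply IntF.lam | with_reducible apply IntF.insert | with_reducible apply IntF.singleton | with_reducible apply IntF.union | with_reducible apply IntF.iimage | with_reducible apply IntF.ite | with_reducible apply IntF.the | with_reducible apply IntF.irec | with_reducible apply IntF.succ | with_reducible apply IntF.val | with_reducible apply IntF.mk | (with_reducible refine Int.comp ?_ ?_; assumption) | (with_reducible refine Int.comp₂ ?_ ?_ ?_; assumption) | (with_reducible refine Int.comp₃ ?_ ?_ ?_ ?_; assumption) | (with_reducible refine Int.comp₄ ?_ ?_ ?_ ?_ ?_; assumption) | (with_reducible refine IntF.comp ?_ ?_; assumption) | (with_reducible refine IntF.comp₂ ?_ ?_ ?_; assumption) | (with_reducible refine IntF.comp₃ ?_ ?_ ?_ ?_; assumption) | with_reducible apply IntF.pair))))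

theorem ct_fin {s : IPow N (JJ S)} (hs : IFin s) (y : YY S) :
    Nb y (sep N fun z => ∀ j, j ∈ s → j.1 z = j.1 y) := by
  have h := int_Nb (S := S)
  revert s
  suffices H : ∀ s : IPow N (JJ S), IFin s → Nb y (sep N fun z => ∀ j, j ∈ s → j.1 z = j.1 y) from
    fun {s} hs => H s hs
  refine IFin.ind (p := fun s : IPow N (JJ S) => Nb y (sep N fun z => ∀ j, j ∈ s → j.1 z = j.1 y))
    (by ((repeat' (first | with_reducible exact IntF.id | with_reducible exact IntF.fst' | with_reducible exact IntF.snd' | with_reducible exact IntF.const _ | with_reducible exact Int.const _ | assumption | with_reducible apply Int.and | with_reducible apply Int.or | with_reducible apply Int.not | with_reducible apply Int.imp | with_reducible apply Int.iff | with_reducible apply Int.ne | with_reducible apply Int.eq | with_reducible apply Int.mem | with_reducible apply Int.subset | with_reducible apply Int.ltN | with_reducible apply Int.leN | with_reducible_and_instances apply Int.le | with_reducible_and_instances apply Int.lt | with_reducible apply Int.all | with_reducible apply Int.ex | with_reducible apply IntF.fst | with_reducible apply IntF.snd | with_reducible apply IntF.app | with_reducible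 apply IntF.inl | with_reducible apply IntF.inr | with_reducible_and_instances apply IntF.mul | with_reducible_and_instances apply IntF.inv | with_reducible_and_instances apply IntF.add | with_reducible_and_instances apply IntF.sub | with_reducible_and_instances apply IntF.neg | with_reducible_and_instances apply IntF.smul | with_reducible apply Int.fin | with_reducible apply IntF.sep | with_reducible apply IntF.lam | with_reducible apply IntF.insert | with_reducible apply IntF.singleton | with_reducible apply IntF.union | with_reducible apply IntF.iimage | with_reducible apply IntF.ite | with_reducible apply IntF.the | with_reducible apply IntF.irec | with_reducible apply IntF.succ | with_reducible apply IntF.val | with_reducible apply IntF.mk | (with_reducible refine Int.comp ?_ ?_; assumption) | (with_reducible refine Int.comp₂ ?_ ?_ ?_; assumption) | (with_reducible refine Int.comp₃ ?_ ?_ ?_ ?_; assumption) | (with_reducible refine Int.comp₄ ?_ ?_ ?_ ?_ ?_; assumption) | (with_reducible refine IntF.comp ?_ ?_; assumption) | (with_reducible refine IntF.comp₂ ?_ ?_ ?_; assumption) | (with_reducible refine IntF.comp₃ ?_ ?_ ?_ ?_; assumption) | with_reducible apply IntF.pair))))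 ?_ ?_
  · exact (isT_univ y (by simp)).mono fun z _ => ct_set.2 fun j hj => by simp at hj
  · rintro s j - - h1
    refine (h1.inter (j.2 y)).mono fun z hz => ct_set.2 fun i hi => ?_
    rw [mem_inter] at hz
    rcases mem_insert.1 hi with rfl | hi
    · exact ct_mem.1 hz.2
    · exact ct_set.1 hz.1 i hi

open Classical in
/-- The function with value `0` outside `C` and `g + 1` on the set `C`. -/
noncomputable def ex (C : IPow N (YY S)) (g : YY S → INat N) (z : YY S) : INat N :=
  if z ∈ C then (g z).succ else 0

theorem int_ex (C : IPow N (YY S)) {g : YY S → INat N} (hg : IntF N g) : IntF N (ex C g) := by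
  unfold ex
  ((repeat' (first | with_reducible exact IntF.id | with_reducible exact IntF.fst' | with_reducible exact IntF.snd' | with_reducible exact IntF.const _ | with_reducible exact Int.const _ | assumption | with_reducible apply Int.and | with_reducible apply Int.or | with_reducible apply Int.not | with_reducible apply Int.imp | with_reducible apply Int.iff | with_reducible apply Int.ne | with_reducible apply Int.eq | with_reducible apply Int.mem | with_reducible apply Int.subset | with_reducible apply Int.ltN | with_reducible apply Int.leN | with_reducible_and_instances apply Int.le | with_reducible_and_instances apply Int.lt | with_reducible apply Int.all | with_reducible apply Int.ex | with_reducible apply IntF.fst | with_reducible apply IntF.snd | with_reducible apply IntF.app | with_reducible apply IntF.inl | with_reducible apply IntF.inr | with_reducible_and_instances apply IntF.mul | with_reducible_and_instances apply IntF.inv | with_reducible_and_instances apply IntF.add | with_reducible_and_instances apply IntF.sub | with_reducible_and_instances apply IntF.neg | with_reducible_and_instances apply IntF.smul | with_reducible apply Int.fin | with_reducible apply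 IntF.sep | with_reducible apply IntF.lam | with_reducible apply IntF.insert | with_reducible apply IntF.singleton | with_reducible apply IntF.union | with_reducible apply IntF.iimage | with_reducible apply IntF.ite | with_reducible apply IntF.the | with_reducible apply IntF.irec | with_reducible apply IntF.succ | with_reducible apply IntF.val | with_reducible apply IntF.mk | (with_reducible refine Int.comp ?_ ?_; assumption) | (with_reducible refine Int.comp₂ ?_ ?_ ?_; assumption) | (with_reducible refine Int.comp₃ ?_ ?_ ?_ ?_; assumption) | (with_reducible refine Int.comp₄ ?_ ?_ ?_ ?_ ?_; assumption) | (with_reducible refine IntF.comp ?_ ?_; assumption) | (with_reducible refine IntF.comp₂ ?_ ?_ ?_; assumption) | (with_reducible refine IntF.comp₃ ?_ ?_ ?_ ?_; assumption) | with_reducible apply IntF.pair)))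

theorem ex_pos {C : IPow N (YY S)} {g : YY S → INat N} {z : YY S} (h : z ∈ C) :
    ex C g z = (g z).succ := if_pos h

theorem ex_neg {C : IPow N (YY S)} {g : YY S → INat N} {z : YY S} (h : ¬ z ∈ C) :
    ex C g z = 0 := if_neg h

/-- The function `ex` is continuous. -/
noncomputable def exJ (C : IPow N (YY S)) {g : YY S → INat N} (hg : IntF N g)
    (h1 : ∀ y, y ∈ C → Nb y (sep N fun z => z ∈ C ∧ g z = g y)) (h2 : IsT (icompl C)) : JJ S :=
  ⟨⟨ex C g, int_ex C hg⟩, fun y => by
    have hi := int_ex C hg
    have hm : ∀ z : YY S, z ∈ (sep N fun z => ex C g z = ex C g y) ↔ ex C g z = ex C g y :=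
      fun z => mem_sep (by ((repeat' (first | with_reducible exact IntF.id | with_reducible exact IntF.fst' | with_reducible exact IntF.snd' | with_reducible exact IntF.const _ | with_reducible exact Int.const _ | assumption | with_reducible apply Int.and | with_reducible apply Int.or | with_reducible apply Int.not | with_reducible apply Int.imp | with_reducible apply Int.iff | with_reducible apply Int.ne | with_reducible apply Int.eq | with_reducible apply Int.mem | with_reducible apply Int.subset | with_reducible apply Int.ltN | with_reducible apply Int.leN | with_reducible_and_instances apply Int.le | with_reducible_and_instances apply Int.lt | with_reducible apply Int.all | with_reducible apply Int.ex | with_reducible apply IntF.fst | with_reducible apply IntF.snd | with_reducible apply IntF.app | with_reducible apply IntF.inl | with_reducible apply IntF.inr | with_reducible_and_instances apply IntF.mul | with_reducible_and_instances apply IntF.inv | with_reducible_and_instances apply IntF.add | with_reducible_and_instances apply IntF.sub | with_reducible_and_instances apply IntF.neg | with_reducible_and_instances apply IntF.smul | with_reducible apply Int.fin | with_reducible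 apply IntF.sep | with_reducible apply IntF.lam | with_reducible apply IntF.insert | with_reducible apply IntF.singleton | with_reducible apply IntF.union | with_reducible apply IntF.iimage | with_reducible apply IntF.ite | with_reducible apply IntF.the | with_reducible apply IntF.irec | with_reducible apply IntF.succ | with_reducible apply IntF.val | with_reducible apply IntF.mk | (with_reducible refine Int.comp ?_ ?_; assumption) | (with_reducible refine Int.comp₂ ?_ ?_ ?_; assumption) | (with_reducible refine Int.comp₃ ?_ ?_ ?_ ?_; assumption) | (with_reducible refine Int.comp₄ ?_ ?_ ?_ ?_ ?_; assumption) | (with_reducible refine IntF.comp ?_ ?_; assumption) | (with_reducible refine IntF.comp₂ ?_ ?_ ?_; assumption) | (with_reducible refine IntF.comp₃ ?_ ?_ ?_ ?_; assumption) | with_reducible apply IntF.pair))))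
    have hm' : ∀ z : YY S, z ∈ (sep N fun z => z ∈ C ∧ g z = g y) ↔ (z ∈ C ∧ g z = g y) :=
      fun z => mem_sep (by ((repeat' (first | with_reducible exact IntF.id | with_reducible exact IntF.fst' | with_reducible exact IntF.snd' | with_reducible exact IntF.const _ | with_reducible exact Int.const _ | assumption | with_reducible apply Int.and | with_reducible apply Int.or | with_reducible apply Int.not | with_reducible apply Int.imp | with_reducible apply Int.iff | with_reducible apply Int.ne | with_reducible apply Int.eq | with_reducible apply Int.mem | with_reducible apply Int.subset | with_reducible apply Int.ltN | with_reducible apply Int.leN | with_reducible_and_instances apply Int.le | with_reducible_and_instances apply Int.lt | with_reducible apply Int.all | with_reducible apply Int.ex | with_reducible apply IntF.fst | with_reducible apply IntF.snd | with_reducible apply IntF.app | with_reducible apply IntF.inl | with_reducible apply IntF.inr | with_reducible_and_instances apply IntF.mul | with_reducible_and_instances apply IntF.inv | with_reducible_and_instances apply IntF.add | with_reducible_and_instances apply IntF.sub | with_reducible_and_instances apply IntF.neg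 | with_reducible_and_instances apply IntF.smul | with_reducible apply Int.fin | with_reducible apply IntF.sep | with_reducible apply IntF.lam | with_reducible apply IntF.insert | with_reducible apply IntF.singleton | with_reducible apply IntF.union | with_reducible apply IntF.iimage | with_reducible apply IntF.ite | with_reducible apply IntF.the | with_reducible apply IntF.irec | with_reducible apply IntF.succ | with_reducible apply IntF.val | with_reducible apply IntF.mk | (with_reducible refine Int.comp ?_ ?_; assumption) | (with_reducible refine Int.comp₂ ?_ ?_ ?_; assumption) | (with_reducible refine Int.comp₃ ?_ ?_ ?_ ?_; assumption) | (with_reducible refine Int.comp₄ ?_ ?_ ?_ ?_ ?_; assumption) | (with_reducible refine IntF.comp ?_ ?_; assumption) | (with_reducible refine IntF.comp₂ ?_ ?_ ?_; assumption) | (with_reducible refine IntF.comp₃ ?_ ?_ ?_ ?_; assumption) | with_reducible apply IntF.pair))))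
    change Nb y (sep N fun z => ex C g z = ex C g y)
    by_cases hy : y ∈ C
    · refine (h1 y hy).mono fun z hz => (hm z).2 ?_
      obtain ⟨h3, h4⟩ := (hm' z).1 hz
      rw [ex_pos h3, ex_pos hy, h4]
    · refine (h2 y (mem_icompl.2 hy)).mono fun z hz => (hm z).2 ?_
      rw [ex_neg (mem_icompl.1 hz), ex_neg hy]⟩

theorem exists_ind {C : IPow N (YY S)} (hC : Clp C) : ∃ j : JJ S, ∀ z, z ∈ C ↔ j.1 z = (0 : INat N).succ := by
  refine ⟨exJ C (g := fun _ => 0) (IntF.const _) (fun y hy => (hC.1 y hy).mono fun z hz =>
    (mem_sep (by ((repeat' (first | with_reducible exact IntF.id | with_reducible exact IntF.fst' | with_reducible exact IntF.snd' | with_reducible exact IntF.const _ | with_reducible exact Int.const _ | assumption | with_reducible apply Int.and | with_reducible apply Int.or | with_reducible apply Int.not | with_reducible apply Int.imp | with_reducible apply Int.iff | with_reducible apply Int.ne | with_reducible apply Int.eq | with_reducible apply Int.mem | with_reducible apply Int.subset | with_reducible apply Int.ltN | with_reducible apply Int.leN | with_reducible_and_instances apply Int.le | with_reducible_and_instances apply Int.lt | with_reducible apply Int.all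 | with_reducible apply Int.ex | with_reducible apply IntF.fst | with_reducible apply IntF.snd | with_reducible apply IntF.app | with_reducible apply IntF.inl | with_reducible apply IntF.inr | with_reducible_and_instances apply IntF.mul | with_reducible_and_instances apply IntF.inv | with_reducible_and_instances apply IntF.add | with_reducible_and_instances apply IntF.sub | with_reducible_and_instances apply IntF.neg | with_reducible_and_instances apply IntF.smul | with_reducible apply Int.fin | with_reducible apply IntF.sep | with_reducible apply IntF.lam | with_reducible apply IntF.insert | with_reducible apply IntF.singleton | with_reducible apply IntF.union | with_reducible apply IntF.iimage | with_reducible apply IntF.ite | with_reducible apply IntF.the | with_reducible apply IntF.irec | with_reducible apply IntF.succ | with_reducible apply IntF.val | with_reducible apply IntF.mk | (with_reducible refine Int.comp ?_ ?_; assumption) | (with_reducible refine Int.comp₂ ?_ ?_ ?_; assumption) | (with_reducible refine Int.comp₃ ?_ ?_ ?_ ?_; assumption) | (with_reducible refine Int.comp₄ ?_ ?_ ?_ ?_ ?_; assumption) | (with_reducible refine IntF.comp ?_ ?_; assumption) | (with_reducible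 refine IntF.comp₂ ?_ ?_ ?_; assumption) | (with_reducible refine IntF.comp₃ ?_ ?_ ?_ ?_; assumption) | with_reducible apply IntF.pair))))).2 ⟨hz, rfl⟩) hC.2, fun z => ?_⟩
  change z ∈ C ↔ ex C (fun _ => 0) z = (0 : INat N).succ
  by_cases h : z ∈ C
  · rw [ex_pos h]
    exact ⟨fun _ => rfl, fun _ => h⟩
  · rw [ex_neg h]
    exact ⟨fun h' => absurd h' h, fun h' => absurd h'.symm (INat.succ_ne_zero 0)⟩

/-- The locally constant functions give the topology. -/
theorem nb_iff {y : YY S} {U : IPow N (YY S)} : Nb y U ↔ ∃ s : IPow N (JJ S), IFin s ∧
    ∀ z, (∀ j, j ∈ s → j.1 z = j.1 y) → z ∈ U := by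
  constructor
  · intro h
    obtain ⟨C, hC, hy, hs⟩ := exists_clopen h
    obtain ⟨j, hj⟩ := exists_ind hC
    refine ⟨{j}, IFin.singleton j, fun z hz => hs z ((hj z).2 ?_)⟩
    rw [hz j (mem_singleton.2 rfl)]
    exact (hj y).1 hy
  · rintro ⟨s, hs, h⟩
    exact (ct_fin hs y).mono fun z hz => h z (ct_set.1 hz)

theorem jj_inj {y z : YY S} (h : ∀ j : JJ S, j.1 y = j.1 z) : y = z := by
  by_contra hc
  have h1 := isT_ne z y hc
  obtain ⟨s, -, h2⟩ := nb_iff.1 h1
  have h3 := h2 z fun j _ => (h j).symm
  rw [mem_icompl, mem_singleton] at h3
  exact h3 rfl

/-- The code of an isolated point of level at most `m`. -/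
noncomputable def cd (en : A → INat N) (e : EE S) : INat N := pr (pr (lv e) (en e.1.1)) (en e.1.2)

theorem int_cd {en : A → INat N} (h : IntF N en) : IntF N (fun e : EE S => cd en e) := by
  have h1 := int_lv (S := S)
  have h2 := int_pr (M := N)
  unfold cd
  ((repeat' (first | with_reducible exact IntF.id | with_reducible exact IntF.fst' | with_reducible exact IntF.snd' | with_reducible exact IntF.const _ | with_reducible exact Int.const _ | assumption | with_reducible apply Int.and | with_reducible apply Int.or | with_reducible apply Int.not | with_reducible apply Int.imp | with_reducible apply Int.iff | with_reducible apply Int.ne | with_reducible apply Int.eq | with_reducible apply Int.mem | with_reducible apply Int.subset | with_reducible apply Int.ltN | with_reducible apply Int.leN | with_reducible_and_instances apply Int.le | with_reducible_and_instances apply Int.lt | with_reducible apply Int.all | with_reducible apply Int.ex | with_reducible apply IntF.fst | with_reducible apply IntF.snd | with_reducible apply IntF.app | with_reducible apply IntF.inl | with_reducible apply IntF.inr | with_reducible_and_instances apply IntF.mul | with_reducible_and_instances apply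 IntF.inv | with_reducible_and_instances apply IntF.add | with_reducible_and_instances apply IntF.sub | with_reducible_and_instances apply IntF.neg | with_reducible_and_instances apply IntF.smul | with_reducible apply Int.fin | with_reducible apply IntF.sep | with_reducible apply IntF.lam | with_reducible apply IntF.insert | with_reducible apply IntF.singleton | with_reducible apply IntF.union | with_reducible apply IntF.iimage | with_reducible apply IntF.ite | with_reducible apply IntF.the | with_reducible apply IntF.irec | with_reducible apply IntF.succ | with_reducible apply IntF.val | with_reducible apply IntF.mk | (with_reducible refine Int.comp ?_ ?_; assumption) | (with_reducible refine Int.comp₂ ?_ ?_ ?_; assumption) | (with_reducible refine Int.comp₃ ?_ ?_ ?_ ?_; assumption) | (with_reducible refine Int.comp₄ ?_ ?_ ?_ ?_ ?_; assumption) | (with_reducible refine IntF.comp ?_ ?_; assumption) | (with_reducible refine IntF.comp₂ ?_ ?_ ?_; assumption) | (with_reducible refine IntF.comp₃ ?_ ?_ ?_ ?_; assumption) | with_reducible apply IntF.pair)))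

theorem exists_cd (S : BD N A) (m : INat N) : ∃ c : EE S → INat N, IntF N c ∧
    ∀ e e' : EE S, lv e ≤ m → lv e' ≤ m → c e = c e' → e = e' := by
  obtain ⟨en, h1, h2, -⟩ := S.enum m
  refine ⟨fun e => cd en e, int_cd h1, fun e e' he he' h => ?_⟩
  obtain ⟨h3, h4⟩ := pr_inj h
  obtain ⟨h5, h6⟩ := pr_inj h3
  exact Subtype.ext (Prod.ext (h2 _ _ h5 he h6)
    (h2 _ _ ((lv_snd e).trans (h5.trans (lv_snd e').symm)) ((lv_snd e).trans_le he) h4))

/-- The space is N-compact. -/
theorem jj_closed {φ : JJ S → INat N} (hφ : IntF N φ)
    (h : ∀ s : IPow N (JJ S), IFin s → ∃ z : YY S, ∀ j, j ∈ s → j.1 z = φ j) :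
    ∃ z : YY S, ∀ j : JJ S, j.1 z = φ j := by
  by_contra hc
  push Not at hc
  obtain ⟨j0, hj0⟩ := hc (Sum.inr 0)
  obtain ⟨m, hm⟩ := nb_zero.1 (j0.2 (Sum.inr 0))
  have hm' : ∀ z : YY S, tl m z → j0.1 z ≠ φ j0 := fun z hz h' => hj0 (by
    rw [← ct_mem.1 (hm z hz)]
    exact h')
  have hind : ∀ K : INat N, ∃ s : IPow N (JJ S), IFin s ∧ ∀ k, k ≤ K → ∃ j, j ∈ s ∧
      j.1 (Sum.inr k) ≠ φ j := by
    refine INat.ind (p := fun K : INat N => ∃ s : IPow N (JJ S), IFin s ∧ ∀ k, k ≤ K → ∃ j, j ∈ s ∧
      j.1 (Sum.inr k) ≠ φ j) (by ((repeat' (first | with_reducible exact IntF.id | with_reducible exact IntF.fst' | with_reducible exact IntF.snd' | with_reducible exact IntF.const _ | with_reducible exact Int.const _ | assumption | with_reducible apply Int.and | with_reducible apply Int.or | with_reducible apply Int.not | with_reducible apply Int.imp | with_reducible apply Int.iff | with_reducible apply Int.ne | with_reducible apply Int.eq | with_reducible apply Int.mem | with_reducible apply Int.subset | with_reducible apply Int.ltN | with_reducible apply Int.leN | with_reducible_and_instances apply Int.le | with_reducible_and_instances apply Int.lt | with_reducible apply Int.all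 | with_reducible apply Int.ex | with_reducible apply IntF.fst | with_reducible apply IntF.snd | with_reducible apply IntF.app | with_reducible apply IntF.inl | with_reducible apply IntF.inr | with_reducible_and_instances apply IntF.mul | with_reducible_and_instances apply IntF.inv | with_reducible_and_instances apply IntF.add | with_reducible_and_instances apply IntF.sub | with_reducible_and_instances apply IntF.neg | with_reducible_and_instances apply IntF.smul | with_reducible apply Int.fin | with_reducible apply IntF.sep | with_reducible apply IntF.lam | with_reducible apply IntF.insert | with_reducible apply IntF.singleton | with_reducible apply IntF.union | with_reducible apply IntF.iimage | with_reducible apply IntF.ite | with_reducible apply IntF.the | with_reducible apply IntF.irec | with_reducible apply IntF.succ | with_reducible apply IntF.val | with_reducible apply IntF.mk | (with_reducible refine Int.comp ?_ ?_; assumption) | (with_reducible refine Int.comp₂ ?_ ?_ ?_; assumption) | (with_reducible refine Int.comp₃ ?_ ?_ ?_ ?_; assumption) | (with_reducible refine Int.comp₄ ?_ ?_ ?_ ?_ ?_; assumption) | (with_reducible refine IntF.comp ?_ ?_; assumption) | (with_reducible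 refine IntF.comp₂ ?_ ?_ ?_; assumption) | (with_reducible refine IntF.comp₃ ?_ ?_ ?_ ?_; assumption) | with_reducible apply IntF.pair)))) ?_ ?_
    · refine ⟨{j0}, IFin.singleton j0, fun k hk => ⟨j0, mem_singleton.2 rfl, ?_⟩⟩
      rw [le_antisymm hk (INat.zero_le k)]
      exact hj0
    · rintro K ⟨s, hs, h1⟩
      obtain ⟨j, hj⟩ := hc (Sum.inr K.succ)
      refine ⟨insert j s, hs.insert j, fun k hk => ?_⟩
      rcases hk.lt_or_eq with hk | rfl
      · obtain ⟨i, hi, h2⟩ := h1 k (INat.lt_succ_iff.1 hk)
        exact ⟨i, mem_insert.2 (Or.inr hi), h2⟩
      · exact ⟨j, mem_insert.2 (Or.inl rfl), hj⟩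
  obtain ⟨s1, hs1, h1⟩ := hind m.succ
  have hs0 : IFin (insert j0 s1) := hs1.insert j0
  generalize hgen : (insert j0 s1 : IPow N (JJ S)) = s0 at hs0
  have hV : ∀ z : YY S, z ∈ (sep N fun z : YY S => ∀ j, j ∈ s0 → j.1 z = φ j) ↔
      ∀ j, j ∈ s0 → j.1 z = φ j := fun z => mem_sep (by ((repeat' (first | with_reducible exact IntF.id | with_reducible exact IntF.fst' | with_reducible exact IntF.snd' | with_reducible exact IntF.const _ | with_reducible exact Int.const _ | assumption | with_reducible apply Int.and | with_reducible apply Int.or | with_reducible apply Int.not | with_reducible apply Int.imp | with_reducible apply Int.iff | with_reducible apply Int.ne | with_reducible apply Int.eq | with_reducible apply Int.mem | with_reducible apply Int.subset | with_reducible apply Int.ltN | with_reducible apply Int.leN | with_reducible_and_instances apply Int.le | with_reducible_and_instances apply Int.lt | with_reducible apply Int.all | with_reducible apply Int.ex | with_reducible apply IntF.fst | with_reducible apply IntF.snd | with_reducible apply IntF.app | with_reducible apply IntF.inl | with_reducible apply IntF.inr | with_reducible_and_instances apply IntF.mul | with_reducible_and_instances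 apply IntF.inv | with_reducible_and_instances apply IntF.add | with_reducible_and_instances apply IntF.sub | with_reducible_and_instances apply IntF.neg | with_reducible_and_instances apply IntF.smul | with_reducible apply Int.fin | with_reducible apply IntF.sep | with_reducible apply IntF.lam | with_reducible apply IntF.insert | with_reducible apply IntF.singleton | with_reducible apply IntF.union | with_reducible apply IntF.iimage | with_reducible apply IntF.ite | with_reducible apply IntF.the | with_reducible apply IntF.irec | with_reducible apply IntF.succ | with_reducible apply IntF.val | with_reducible apply IntF.mk | (with_reducible refine Int.comp ?_ ?_; assumption) | (with_reducible refine Int.comp₂ ?_ ?_ ?_; assumption) | (with_reducible refine Int.comp₃ ?_ ?_ ?_ ?_; assumption) | (with_reducible refine Int.comp₄ ?_ ?_ ?_ ?_ ?_; assumption) | (with_reducible refine IntF.comp ?_ ?_; assumption) | (with_reducible refine IntF.comp₂ ?_ ?_ ?_; assumption) | (with_reducible refine IntF.comp₃ ?_ ?_ ?_ ?_; assumption) | with_reducible apply IntF.pair))))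
  generalize hgenV : (sep N fun z : YY S => ∀ j, j ∈ s0 → j.1 z = φ j) = V at hV
  have hVe : ∀ z, z ∈ V → ∃ e, z = Sum.inl e ∧ lv e ≤ m := by
    intro z hz
    have hz' := (hV z).1 hz
    have ht : ¬ tl m z := fun ht => hm' z ht (hz' j0 (by
      rw [← hgen]
      exact mem_insert.2 (Or.inl rfl)))
    rcases z with e | k
    · rw [tl_inl, not_lt] at ht
      exact ⟨e, rfl, ht⟩
    · rw [tl_inr, not_or, not_lt] at ht
      obtain ⟨j, hj, h2⟩ := h1 k ht.2
      exact absurd (hz' j (by
        rw [← hgen]
        exact mem_insert.2 (Or.inr hj))) h2
  have hVc : IsT (icompl V) := by
    intro z hz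
    rw [mem_icompl, hV] at hz
    push Not at hz
    obtain ⟨j, hj, h2⟩ := hz
    refine (j.2 z).mono fun w hw => mem_icompl.2 fun h3 => h2 ?_
    rw [← ct_mem.1 hw]
    exact (hV w).1 h3 j hj
  obtain ⟨c, hc1, hc2⟩ := exists_cd S m
  have hg : IntF N (fun z : YY S => the (fun n : INat N => ∃ e, z = Sum.inl e ∧ n = c e) 0) := by
    ((repeat' (first | with_reducible exact IntF.id | with_reducible exact IntF.fst' | with_reducible exact IntF.snd' | with_reducible exact IntF.const _ | with_reducible exact Int.const _ | assumption | with_reducible apply Int.and | with_reducible apply Int.or | with_reducible apply Int.not | with_reducible apply Int.imp | with_reducible apply Int.iff | with_reducible apply Int.ne | with_reducible apply Int.eq | with_reducible apply Int.mem | with_reducible apply Int.subset | with_reducible apply Int.ltN | with_reducible apply Int.leN | with_reducible_and_instances apply Int.le | with_reducible_and_instances apply Int.lt | with_reducible apply Int.all | with_reducible apply Int.ex | with_reducible apply IntF.fst | with_reducible apply IntF.snd | with_reducible apply IntF.app | with_reducible apply IntF.inl | with_reducible apply IntF.inr | with_reducible_and_instances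 apply IntF.mul | with_reducible_and_instances apply IntF.inv | with_reducible_and_instances apply IntF.add | with_reducible_and_instances apply IntF.sub | with_reducible_and_instances apply IntF.neg | with_reducible_and_instances apply IntF.smul | with_reducible apply Int.fin | with_reducible apply IntF.sep | with_reducible apply IntF.lam | with_reducible apply IntF.insert | with_reducible apply IntF.singleton | with_reducible apply IntF.union | with_reducible apply IntF.iimage | with_reducible apply IntF.ite | with_reducible apply IntF.the | with_reducible apply IntF.irec | with_reducible apply IntF.succ | with_reducible apply IntF.val | with_reducible apply IntF.mk | (with_reducible refine Int.comp ?_ ?_; assumption) | (with_reducible refine Int.comp₂ ?_ ?_ ?_; assumption) | (with_reducible refine Int.comp₃ ?_ ?_ ?_ ?_; assumption) | (with_reducible refine Int.comp₄ ?_ ?_ ?_ ?_ ?_; assumption) | (with_reducible refine IntF.comp ?_ ?_; assumption) | (with_reducible refine IntF.comp₂ ?_ ?_ ?_; assumption) | (with_reducible refine IntF.comp₃ ?_ ?_ ?_ ?_; assumption) | with_reducible apply IntF.pair)))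
  have hg' : ∀ e : EE S, the (fun n : INat N => ∃ e', (Sum.inl e : YY S) = Sum.inl e' ∧ n = c e') 0
      = c e := fun e => the_eq ⟨c e, ⟨e, rfl, rfl⟩, by
        rintro n ⟨e', h2, rfl⟩
        rw [Sum.inl.inj h2]⟩ ⟨e, rfl, rfl⟩
  generalize hgg : (fun z : YY S => the (fun n : INat N => ∃ e, z = Sum.inl e ∧ n = c e) 0) = g
    at hg
  have hg2 : ∀ e : EE S, g (Sum.inl e) = c e := fun e => by
    rw [← hgg]
    exact hg' e
  have hm2 : ∀ y z : YY S, z ∈ (sep N fun z => z ∈ V ∧ g z = g y) ↔ (z ∈ V ∧ g z = g y) :=
    fun y z => mem_sep (by ((repeat' (first | with_reducible exact IntF.id | with_reducible exact IntF.fst' | with_reducible exact IntF.snd' | with_reducible exact IntF.const _ | with_reducible exact Int.const _ | assumption | with_reducible apply Int.and | with_reducible apply Int.or | with_reducible apply Int.not | with_reducible apply Int.imp | with_reducible apply Int.iff | with_reducible apply Int.ne | with_reducible apply Int.eq | with_reducible apply Int.mem | with_reducible apply Int.subset | with_reducible apply Int.ltN | with_reducible apply Int.leN | with_reducible_and_instances apply Int.le | with_reducible_and_instances apply Int.lt | with_reducible apply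 Int.all | with_reducible apply Int.ex | with_reducible apply IntF.fst | with_reducible apply IntF.snd | with_reducible apply IntF.app | with_reducible apply IntF.inl | with_reducible apply IntF.inr | with_reducible_and_instances apply IntF.mul | with_reducible_and_instances apply IntF.inv | with_reducible_and_instances apply IntF.add | with_reducible_and_instances apply IntF.sub | with_reducible_and_instances apply IntF.neg | with_reducible_and_instances apply IntF.smul | with_reducible apply Int.fin | with_reducible apply IntF.sep | with_reducible apply IntF.lam | with_reducible apply IntF.insert | with_reducible apply IntF.singleton | with_reducible apply IntF.union | with_reducible apply IntF.iimage | with_reducible apply IntF.ite | with_reducible apply IntF.the | with_reducible apply IntF.irec | with_reducible apply IntF.succ | with_reducible apply IntF.val | with_reducible apply IntF.mk | (with_reducible refine Int.comp ?_ ?_; assumption) | (with_reducible refine Int.comp₂ ?_ ?_ ?_; assumption) | (with_reducible refine Int.comp₃ ?_ ?_ ?_ ?_; assumption) | (with_reducible refine Int.comp₄ ?_ ?_ ?_ ?_ ?_; assumption) | (with_reducible refine IntF.comp ?_ ?_; assumption)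 | (with_reducible refine IntF.comp₂ ?_ ?_ ?_; assumption) | (with_reducible refine IntF.comp₃ ?_ ?_ ?_ ?_; assumption) | with_reducible apply IntF.pair))))
  let js : JJ S := exJ V hg (fun y hy => by
    obtain ⟨e, rfl, -⟩ := hVe y hy
    exact nb_inl.2 ((hm2 _ _).2 ⟨hy, rfl⟩)) hVc
  have hjs : ∀ z, js.1 z = ex V g z := fun z => rfl
  obtain ⟨z, hz⟩ := h (insert js s0) (hs0.insert js)
  have hzV : z ∈ V := (hV z).2 fun j hj => hz j (mem_insert.2 (Or.inr hj))
  obtain ⟨j', hj'⟩ := hc z
  obtain ⟨w, hw⟩ := h (insert j' (insert js s0)) ((hs0.insert js).insert j')
  have hwV : w ∈ V := (hV w).2 fun j hj => hw j (mem_insert.2 (Or.inr (mem_insert.2 (Or.inr hj))))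
  have h5 : js.1 w = js.1 z := (hw js (mem_insert.2 (Or.inr (mem_insert.2 (Or.inl rfl))))).trans
    (hz js (mem_insert.2 (Or.inl rfl))).symm
  rw [hjs, hjs, ex_pos hwV, ex_pos hzV] at h5
  have h6 := INat.succ_inj h5
  obtain ⟨e, rfl, he⟩ := hVe z hzV
  obtain ⟨e', rfl, he'⟩ := hVe w hwV
  rw [hg2, hg2] at h6
  obtain rfl := hc2 _ _ he' he h6
  exact hj' (hw j' (mem_insert.2 (Or.inl rfl)))

/-! ### N-compact and realcompact subspaces -/

/-- The subspace `P` is homeomorphic to a closed subspace of a power of the natural numbers. -/
def NCp (P : IPow N (YY S)) : Prop := ∃ (J : Type u) (_ : ITy N J) (E : YY S × J → INat N),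
  Nonempty J ∧ IntF N E ∧ (∀ y z, y ∈ P → z ∈ P → (∀ j, E (y, j) = E (z, j)) → y = z) ∧
    (∀ y U, y ∈ P → (NbR P y U ↔ ∃ s : IPow N J, IFin s ∧ ∀ z, z ∈ P →
      (∀ j, j ∈ s → E (z, j) = E (y, j)) → z ∈ U)) ∧
    ∀ φ : J → INat N, IntF N φ → (∀ s : IPow N J, IFin s → ∃ z, z ∈ P ∧ ∀ j, j ∈ s →
      E (z, j) = φ j) → ∃ z, z ∈ P ∧ ∀ j, E (z, j) = φ j

/-- The subspace `P` is homeomorphic to a closed subspace of a power of `R`. -/
def RCp (P : IPow N (YY S)) (R : Type u) [ITy N R] [Field R] [LinearOrder R] : Prop :=
  ∃ (J : Type u) (_ : ITy N J) (E : YY S × J → R),
    IntF N E ∧ (∀ y z, y ∈ P → z ∈ P → (∀ j, E (y, j) = E (z, j)) → y = z) ∧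
      (∀ y U, y ∈ P → (NbR P y U ↔ ∃ s : IPow N J, IFin s ∧ ∃ ε : R, 0 < ε ∧ ∀ z, z ∈ P →
        (∀ j, j ∈ s → cl ε (E (z, j)) (E (y, j))) → z ∈ U)) ∧
      ∀ φ : J → R, IntF N φ → (∀ s : IPow N J, IFin s → ∀ ε : R, 0 < ε → ∃ z, z ∈ P ∧ ∀ j, j ∈ s →
        cl ε (E (z, j)) (φ j)) → ∃ z, z ∈ P ∧ ∀ j, E (z, j) = φ j

theorem nCp_of_closed {P : IPow N (YY S)} (hP : IsT (icompl P)) : NCp P := by
  refine ⟨JJ S, inferInstance, fun q => q.2.1 q.1, ⟨(exists_ind (S := S)
    ⟨isT_univ, fun y hy => absurd (mem_icompl.1 hy) (by simp)⟩).choose⟩, by ((repeat' (first | with_reducible exact IntF.id | with_reducible exact IntF.fst' | with_reducible exact IntF.snd' | with_reducible exact IntF.const _ | with_reducible exact Int.const _ | assumption | with_reducible apply Int.and | with_reducible apply Int.or | with_reducible apply Int.not | with_reducible apply Int.imp | with_reducible apply Int.iff | with_reducible apply Int.ne | with_reducible apply Int.eq | with_reducible apply Int.mem | with_reducible apply Int.subset | with_reducible apply Int.ltN | with_reducible apply Int.leN | with_reducible_and_instances apply Int.le | with_reducible_and_instances apply Int.lt | with_reducible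 apply Int.all | with_reducible apply Int.ex | with_reducible apply IntF.fst | with_reducible apply IntF.snd | with_reducible apply IntF.app | with_reducible apply IntF.inl | with_reducible apply IntF.inr | with_reducible_and_instances apply IntF.mul | with_reducible_and_instances apply IntF.inv | with_reducible_and_instances apply IntF.add | with_reducible_and_instances apply IntF.sub | with_reducible_and_instances apply IntF.neg | with_reducible_and_instances apply IntF.smul | with_reducible apply Int.fin | with_reducible apply IntF.sep | with_reducible apply IntF.lam | with_reducible apply IntF.insert | with_reducible apply IntF.singleton | with_reducible apply IntF.union | with_reducible apply IntF.iimage | with_reducible apply IntF.ite | with_reducible apply IntF.the | with_reducible apply IntF.irec | with_reducible apply IntF.succ | with_reducible apply IntF.val | with_reducible apply IntF.mk | (with_reducible refine Int.comp ?_ ?_; assumption) | (with_reducible refine Int.comp₂ ?_ ?_ ?_; assumption) | (with_reducible refine Int.comp₃ ?_ ?_ ?_ ?_; assumption) | (with_reducible refine Int.comp₄ ?_ ?_ ?_ ?_ ?_; assumption) | (with_reducible refine IntF.comp ?_ ?_; assumption)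 | (with_reducible refine IntF.comp₂ ?_ ?_ ?_; assumption) | (with_reducible refine IntF.comp₃ ?_ ?_ ?_ ?_; assumption) | with_reducible apply IntF.pair))), fun y z _ _ h => jj_inj h,
    fun y U hy => ?_, fun φ hφ h => ?_⟩
  · refine (nb_iff (y := y)).trans (exists_congr fun s => and_congr_right fun _ =>
      forall_congr' fun z => ?_)
    rw [nbR_set]
    exact ⟨fun h h1 h2 => h h2 h1, fun h h2 h1 => h h1 h2⟩
  · obtain ⟨y, hy⟩ := jj_closed hφ fun s hs => by
      obtain ⟨z, -, hz⟩ := h s hs
      exact ⟨z, hz⟩
    refine ⟨y, ?_, hy⟩
    by_contra hc
    obtain ⟨s, hs, h1⟩ := nb_iff.1 (hP y (mem_icompl.2 hc))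
    obtain ⟨z, hz, h2⟩ := h s hs
    exact mem_icompl.1 (h1 z fun j hj => (h2 j hj).trans (hy j).symm) hz

section reals

variable {R : Type u} [ITy N R] [Field R] [LinearOrder R] [IsStrictOrderedRing R] [IAdd N R]
  [ILE N R]

theorem exists_rec' {δ : Type u} [ITy N δ] {st : INat N → δ → δ}
    (hst : IntF N (fun q : INat N × δ => st q.1 q.2)) (a0 : δ) :
    ∃ g : INat N → δ, IntF N g ∧ g 0 = a0 ∧ ∀ n, g n.succ = st n (g n) := by
  refine ⟨fun n => irec a0 (fun n a => st n a) n, ?_, irec_zero hst, irec_succ hst⟩
  refine IntF.irec (γ := INat N) (a := fun _ => a0) (f := fun _ n a => st n a) (n := fun n => n)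
    (IntF.const _) ?_ IntF.id
  exact IntF.comp₂ (p := fun n a => st n a) hst (IntF.snd IntF.fst') IntF.snd'

theorem exists_emb (N : Type u) [L.Structure N] [IsModel N] (R : Type u) [ITy N R] [Field R]
    [LinearOrder R] [IsStrictOrderedRing R] [IAdd N R] [ILE N R] :
    ∃ ι : INat N → R, IntF N ι ∧ ∀ m n, cl 1 (ι m) (ι n) → m = n := by
  obtain ⟨ι, h1, h2, h3⟩ := exists_rec' (N := N) (st := fun (_ : INat N) (y : R) => y + 1)
    (by ((repeat' (first | with_reducible exact IntF.id | with_reducible exact IntF.fst' | with_reducible exact IntF.snd' | with_reducible exact IntF.const _ | with_reducible exact Int.const _ | assumption | with_reducible apply Int.and | with_reducible apply Int.or | with_reducible apply Int.not | with_reducible apply Int.imp | with_reducible apply Int.iff | with_reducible apply Int.ne | with_reducible apply Int.eq | with_reducible apply Int.mem | with_reducible apply Int.subset | with_reducible apply Int.ltN | with_reducible apply Int.leN | with_reducible_and_instances apply Int.le | with_reducible_and_instances apply Int.lt | with_reducible apply Int.all | with_reducible apply Int.ex | with_reducible apply IntF.fst | with_reducible apply IntF.snd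 | with_reducible apply IntF.app | with_reducible apply IntF.inl | with_reducible apply IntF.inr | with_reducible_and_instances apply IntF.mul | with_reducible_and_instances apply IntF.inv | with_reducible_and_instances apply IntF.add | with_reducible_and_instances apply IntF.sub | with_reducible_and_instances apply IntF.neg | with_reducible_and_instances apply IntF.smul | with_reducible apply Int.fin | with_reducible apply IntF.sep | with_reducible apply IntF.lam | with_reducible apply IntF.insert | with_reducible apply IntF.singleton | with_reducible apply IntF.union | with_reducible apply IntF.iimage | with_reducible apply IntF.ite | with_reducible apply IntF.the | with_reducible apply IntF.irec | with_reducible apply IntF.succ | with_reducible apply IntF.val | with_reducible apply IntF.mk | (with_reducible refine Int.comp ?_ ?_; assumption) | (with_reducible refine Int.comp₂ ?_ ?_ ?_; assumption) | (with_reducible refine Int.comp₃ ?_ ?_ ?_ ?_; assumption) | (with_reducible refine Int.comp₄ ?_ ?_ ?_ ?_ ?_; assumption) | (with_reducible refine IntF.comp ?_ ?_; assumption) | (with_reducible refine IntF.comp₂ ?_ ?_ ?_; assumption) | (with_reducible refine IntF.comp₃ ?_ ?_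 ?_ ?_; assumption) | with_reducible apply IntF.pair)))) (0 : R)
  have hlt : ∀ m n : INat N, m < n → ι m + 1 ≤ ι n := by
    intro m
    refine INat.ind (p := fun n : INat N => m < n → ι m + 1 ≤ ι n) (by ((repeat' (first | with_reducible exact IntF.id | with_reducible exact IntF.fst' | with_reducible exact IntF.snd' | with_reducible exact IntF.const _ | with_reducible exact Int.const _ | assumption | with_reducible apply Int.and | with_reducible apply Int.or | with_reducible apply Int.not | with_reducible apply Int.imp | with_reducible apply Int.iff | with_reducible apply Int.ne | with_reducible apply Int.eq | with_reducible apply Int.mem | with_reducible apply Int.subset | with_reducible apply Int.ltN | with_reducible apply Int.leN | with_reducible_and_instances apply Int.le | with_reducible_and_instances apply Int.lt | with_reducible apply Int.all | with_reducible apply Int.ex | with_reducible apply IntF.fst | with_reducible apply IntF.snd | with_reducible apply IntF.app | with_reducible apply IntF.inl | with_reducible apply IntF.inr | with_reducible_and_instances apply IntF.mul | with_reducible_and_instances apply IntF.inv | with_reducible_and_instances apply IntF.add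 | with_reducible_and_instances apply IntF.sub | with_reducible_and_instances apply IntF.neg | with_reducible_and_instances apply IntF.smul | with_reducible apply Int.fin | with_reducible apply IntF.sep | with_reducible apply IntF.lam | with_reducible apply IntF.insert | with_reducible apply IntF.singleton | with_reducible apply IntF.union | with_reducible apply IntF.iimage | with_reducible apply IntF.ite | with_reducible apply IntF.the | with_reducible apply IntF.irec | with_reducible apply IntF.succ | with_reducible apply IntF.val | with_reducible apply IntF.mk | (with_reducible refine Int.comp ?_ ?_; assumption) | (with_reducible refine Int.comp₂ ?_ ?_ ?_; assumption) | (with_reducible refine Int.comp₃ ?_ ?_ ?_ ?_; assumption) | (with_reducible refine Int.comp₄ ?_ ?_ ?_ ?_ ?_; assumption) | (with_reducible refine IntF.comp ?_ ?_; assumption) | (with_reducible refine IntF.comp₂ ?_ ?_ ?_; assumption) | (with_reducible refine IntF.comp₃ ?_ ?_ ?_ ?_; assumption) | with_reducible apply IntF.pair))))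
      (fun h => absurd h INat.not_lt_zero) ?_
    intro n ih h
    rw [h3]
    rcases (INat.lt_succ_iff.1 h).lt_or_eq with h4 | rfl
    · linarith [ih h4]
    · exact le_rfl
  refine ⟨ι, h1, fun m n h => ?_⟩
  rcases lt_trichotomy m n with h4 | h4 | h4
  · exact absurd h.2 (not_lt.2 (hlt m n h4))
  · exact h4
  · exact absurd h.1 (not_lt.2 (hlt n m h4))

theorem NCp.real {P : IPow N (YY S)} (h : NCp P) : RCp P R := by
  obtain ⟨J, _, E, -, hE, h1, h2, h3⟩ := h
  obtain ⟨ι, hι, hι'⟩ := exists_emb N R
  have hcl' := int_cl (N := N) (R := R)
  refine ⟨J, inferInstance, fun q => ι (E q), by ((repeat' (first | with_reducible exact IntF.id | with_reducible exact IntF.fst' | with_reducible exact IntF.snd' | with_reducible exact IntF.const _ | with_reducible exact Int.const _ | assumption | with_reducible apply Int.and | with_reducible apply Int.or | with_reducible apply Int.not | with_reducible apply Int.imp | with_reducible apply Int.iff | with_reducible apply Int.ne | with_reducible apply Int.eq | with_reducible apply Int.mem | with_reducible apply Int.subset | with_reducible apply Int.ltN | with_reducible apply Int.leN | with_reducible_and_instances apply Int.le | with_reducible_and_instances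 apply Int.lt | with_reducible apply Int.all | with_reducible apply Int.ex | with_reducible apply IntF.fst | with_reducible apply IntF.snd | with_reducible apply IntF.app | with_reducible apply IntF.inl | with_reducible apply IntF.inr | with_reducible_and_instances apply IntF.mul | with_reducible_and_instances apply IntF.inv | with_reducible_and_instances apply IntF.add | with_reducible_and_instances apply IntF.sub | with_reducible_and_instances apply IntF.neg | with_reducible_and_instances apply IntF.smul | with_reducible apply Int.fin | with_reducible apply IntF.sep | with_reducible apply IntF.lam | with_reducible apply IntF.insert | with_reducible apply IntF.singleton | with_reducible apply IntF.union | with_reducible apply IntF.iimage | with_reducible apply IntF.ite | with_reducible apply IntF.the | with_reducible apply IntF.irec | with_reducible apply IntF.succ | with_reducible apply IntF.val | with_reducible apply IntF.mk | (with_reducible refine Int.comp ?_ ?_; assumption) | (with_reducible refine Int.comp₂ ?_ ?_ ?_; assumption) | (with_reducible refine Int.comp₃ ?_ ?_ ?_ ?_; assumption) | (with_reducible refine Int.comp₄ ?_ ?_ ?_ ?_ ?_; assumption) | (with_reducible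 refine IntF.comp ?_ ?_; assumption) | (with_reducible refine IntF.comp₂ ?_ ?_ ?_; assumption) | (with_reducible refine IntF.comp₃ ?_ ?_ ?_ ?_; assumption) | with_reducible apply IntF.pair))), fun y z hy hz h => h1 y z hy hz fun j =>
    hι' _ _ (by
      have h' : ι (E (y, j)) = ι (E (z, j)) := h j
      rw [h']
      exact cl_self one_pos), fun y U hy => (h2 y U hy).trans ?_,
    fun φ hφ h => ?_⟩
  · constructor
    · rintro ⟨s, hs, h4⟩
      exact ⟨s, hs, 1, one_pos, fun z hz h5 => h4 z hz fun j hj => hι' _ _ (h5 j hj)⟩
    · rintro ⟨s, hs, ε, hε, h4⟩
      exact ⟨s, hs, fun z hz h5 => h4 z hz fun j hj => by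
        change cl ε (ι (E (z, j))) (ι (E (y, j)))
        rw [h5 j hj]
        exact cl_self hε⟩
  · have hhalf : (0 : R) < 1 / 2 := half_pos one_pos
    have hj : ∀ j, ∃ n : INat N, ι n = φ j := by
      intro j
      obtain ⟨z, hz, h4⟩ := h {j} (IFin.singleton j) (1 / 2) hhalf
      refine ⟨E (z, j), eq_of_cl fun ε hε => ?_⟩
      obtain ⟨w, hw, h5⟩ := h {j} (IFin.singleton j) (min ε (1 / 2)) (lt_min hε hhalf)
      have h6 := cl_iff.1 (h4 j (mem_singleton.2 rfl))
      have h7 := cl_iff.1 (h5 j (mem_singleton.2 rfl))
      have h8 : E (w, j) = E (z, j) := hι' _ _ (cl_iff.2 (by
        have h9 := abs_sub_le (ι (E (w, j))) (φ j) (ι (E (z, j)))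
        rw [abs_sub_comm (φ j)] at h9
        have h10 := lt_of_lt_of_le h7 (min_le_right _ _)
        linarith))
      rw [← h8]
      exact cl_iff.2 (lt_of_lt_of_le h7 (min_le_left _ _))
    have hψ : IntF N (fun j : J => the (fun n : INat N => ι n = φ j) 0) := by ((repeat' (first | with_reducible exact IntF.id | with_reducible exact IntF.fst' | with_reducible exact IntF.snd' | with_reducible exact IntF.const _ | with_reducible exact Int.const _ | assumption | with_reducible apply Int.and | with_reducible apply Int.or | with_reducible apply Int.not | with_reducible apply Int.imp | with_reducible apply Int.iff | with_reducible apply Int.ne | with_reducible apply Int.eq | with_reducible apply Int.mem | with_reducible apply Int.subset | with_reducible apply Int.ltN | with_reducible apply Int.leN | with_reducible_and_instances apply Int.le | with_reducible_and_instances apply Int.lt | with_reducible apply Int.all | with_reducible apply Int.ex | with_reducible apply IntF.fst | with_reducible apply IntF.snd | with_reducible apply IntF.app | with_reducible apply IntF.inl | with_reducible apply IntF.inr | with_reducible_and_instances apply IntF.mul | with_reducible_and_instances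 apply IntF.inv | with_reducible_and_instances apply IntF.add | with_reducible_and_instances apply IntF.sub | with_reducible_and_instances apply IntF.neg | with_reducible_and_instances apply IntF.smul | with_reducible apply Int.fin | with_reducible apply IntF.sep | with_reducible apply IntF.lam | with_reducible apply IntF.insert | with_reducible apply IntF.singleton | with_reducible apply IntF.union | with_reducible apply IntF.iimage | with_reducible apply IntF.ite | with_reducible apply IntF.the | with_reducible apply IntF.irec | with_reducible apply IntF.succ | with_reducible apply IntF.val | with_reducible apply IntF.mk | (with_reducible refine Int.comp ?_ ?_; assumption) | (with_reducible refine Int.comp₂ ?_ ?_ ?_; assumption) | (with_reducible refine Int.comp₃ ?_ ?_ ?_ ?_; assumption) | (with_reducible refine Int.comp₄ ?_ ?_ ?_ ?_ ?_; assumption) | (with_reducible refine IntF.comp ?_ ?_; assumption) | (with_reducible refine IntF.comp₂ ?_ ?_ ?_; assumption) | (with_reducible refine IntF.comp₃ ?_ ?_ ?_ ?_; assumption) | with_reducible apply IntF.pair)))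
    have hψ' : ∀ j, ι (the (fun n : INat N => ι n = φ j) 0) = φ j := by
      intro j
      obtain ⟨n, hn⟩ := hj j
      refine the_spec (p := fun n : INat N => ι n = φ j) ⟨n, hn, fun n' hn' => hι' _ _ ?_⟩
      rw [hn, hn']
      exact cl_self one_pos
    generalize hgen : (fun j : J => the (fun n : INat N => ι n = φ j) 0) = ψ at hψ
    have hψ2 : ∀ j, ι (ψ j) = φ j := fun j => by
      rw [← hgen]
      exact hψ' j
    obtain ⟨z, hz, h4⟩ := h3 ψ hψ fun s hs => by
      obtain ⟨z, hz, h4⟩ := h s hs 1 one_pos
      exact ⟨z, hz, fun j hj => hι' _ _ (by rw [hψ2]; exact h4 j hj)⟩
    exact ⟨z, hz, fun j => by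
      change ι (E (z, j)) = φ j
      rw [h4 j, hψ2]⟩

/-- The space without the last point is not realcompact. -/
theorem not_RCp : ¬ RCp (XX S) R := by
  rintro ⟨J, _, E, hE, h1, h2, h3⟩
  refine not_rc hE (fun U hU => ?_) h3
  constructor
  · rintro h y hy
    exact (h2 y U (hU y hy)).1 (h.2 y hy)
  · intro h
    exact ⟨hU, fun y hy => (h2 y U (hU y hy)).2 (h y hy)⟩

end reals

end Pool.Agent.Helper672.ZFA.R602
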