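import Pool.Agent.R602.Sp4

/-!
# The retractions, zero sets and ultrafilters
-/

set_option maxHeartbeats 1000000
set_option linter.all false
set_option synthInstance.maxSize 2000

namespace Pool.Agent.Helper672.ZFA.R602

open FirstOrder FirstOrder.Language
open Pool.Agent.Helper672.ZFA.H310M.R602 (BD)
open Pool.Agent.H310 (FinP finP_le finP_lt icompl mem_icompl icompl_icompl pr int_pr pr_inj)

universe u

variable {N : Type u} [L.Structure N] [hN : IsModel N] {A : Type u} [ITy N A] {S : BD N A}

/-! ### The retractions -/

/-- The points up to the level `m`. -/
noncomputable def SS (S : BD N A) (m : INat N) : IPow N (YY S) := sep N fun y => ¬ tl m y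

theorem mem_SS {m : INat N} {y : YY S} : y ∈ SS S m ↔ ¬ tl m y := by
  have h := int_tl (S := S)
  unfold SS
  rw [mem_sep (by ((repeat' (first | with_reducible exact IntF.id | with_reducible exact IntF.fst' | with_reducible exact IntF.snd' | with_reducible exact IntF.const _ | with_reducible exact Int.const _ | assumption | with_reducible apply Int.and | with_reducible apply Int.or | with_reducible apply Int.not | with_reducible apply Int.imp | with_reducible apply Int.iff | with_reducible apply Int.ne | with_reducible apply Int.eq | with_reducible apply Int.mem | with_reducible apply Int.subset | with_reducible apply Int.ltN | with_reducible apply Int.leN | with_reducible_and_instances apply Int.le | with_reducible_and_instances apply Int.lt | with_reducible apply Int.all | with_reducible apply Int.ex | with_reducible apply IntF.fst | with_reducible apply IntF.snd | with_reducible apply IntF.app | with_reducible apply IntF.inl | with_reducible apply IntF.inr | with_reducible_and_instances apply IntF.mul | with_reducible_and_instances apply IntF.inv | with_reducible_and_instances apply IntF.add | with_reducible_and_instances apply IntF.sub | with_reducible_and_instances apply IntF.neg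 | with_reducible_and_instances apply IntF.smul | with_reducible apply Int.fin | with_reducible apply IntF.sep | with_reducible apply IntF.lam | with_reducible apply IntF.insert | with_reducible apply IntF.singleton | with_reducible apply IntF.union | with_reducible apply IntF.iimage | with_reducible apply IntF.ite | with_reducible apply IntF.the | with_reducible apply IntF.irec | with_reducible apply IntF.succ | with_reducible apply IntF.val | with_reducible apply IntF.mk | (with_reducible refine Int.comp ?_ ?_; assumption) | (with_reducible refine Int.comp₂ ?_ ?_ ?_; assumption) | (with_reducible refine Int.comp₃ ?_ ?_ ?_ ?_; assumption) | (with_reducible refine Int.comp₄ ?_ ?_ ?_ ?_ ?_; assumption) | (with_reducible refine IntF.comp ?_ ?_; assumption) | (with_reducible refine IntF.comp₂ ?_ ?_ ?_; assumption) | (with_reducible refine IntF.comp₃ ?_ ?_ ?_ ?_; assumption) | with_reducible apply IntF.pair))))]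

theorem int_SS : IntF N (fun m => SS S m) := by
  have h := int_tl (S := S)
  unfold SS
  ((repeat' (first | with_reducible exact IntF.id | with_reducible exact IntF.fst' | with_reducible exact IntF.snd' | with_reducible exact IntF.const _ | with_reducible exact Int.const _ | assumption | with_reducible apply Int.and | with_reducible apply Int.or | with_reducible apply Int.not | with_reducible apply Int.imp | with_reducible apply Int.iff | with_reducible apply Int.ne | with_reducible apply Int.eq | with_reducible apply Int.mem | with_reducible apply Int.subset | with_reducible apply Int.ltN | with_reducible apply Int.leN | with_reducible_and_instances apply Int.le | with_reducible_and_instances apply Int.lt | with_reducible apply Int.all | with_reducible apply Int.ex | with_reducible apply IntF.fst | with_reducible apply IntF.snd | with_reducible apply IntF.app | with_reducible apply IntF.inl | with_reducible apply IntF.inr | with_reducible_and_instances apply IntF.mul | with_reducible_and_instances apply IntF.inv | with_reducible_and_instances apply IntF.add | with_reducible_and_instances apply IntF.sub | with_reducible_and_instances apply IntF.neg | with_reducible_and_instances apply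 IntF.smul | with_reducible apply Int.fin | with_reducible apply IntF.sep | with_reducible apply IntF.lam | with_reducible apply IntF.insert | with_reducible apply IntF.singleton | with_reducible apply IntF.union | with_reducible apply IntF.iimage | with_reducible apply IntF.ite | with_reducible apply IntF.the | with_reducible apply IntF.irec | with_reducible apply IntF.succ | with_reducible apply IntF.val | with_reducible apply IntF.mk | (with_reducible refine Int.comp ?_ ?_; assumption) | (with_reducible refine Int.comp₂ ?_ ?_ ?_; assumption) | (with_reducible refine Int.comp₃ ?_ ?_ ?_ ?_; assumption) | (with_reducible refine Int.comp₄ ?_ ?_ ?_ ?_ ?_; assumption) | (with_reducible refine IntF.comp ?_ ?_; assumption) | (with_reducible refine IntF.comp₂ ?_ ?_ ?_; assumption) | (with_reducible refine IntF.comp₃ ?_ ?_ ?_ ?_; assumption) | with_reducible apply IntF.pair)))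

theorem isT_SS (m : INat N) : IsT (icompl (SS S m)) := by
  have h := int_tl (S := S)
  have h1 : icompl (SS S m) = sep N fun y : YY S => tl m y := IPow.ext' fun y => by
    rw [mem_icompl, mem_SS, not_not, mem_sep (by ((repeat' (first | with_reducible exact IntF.id | with_reducible exact IntF.fst' | with_reducible exact IntF.snd' | with_reducible exact IntF.const _ | with_reducible exact Int.const _ | assumption | with_reducible apply Int.and | with_reducible apply Int.or | with_reducible apply Int.not | with_reducible apply Int.imp | with_reducible apply Int.iff | with_reducible apply Int.ne | with_reducible apply Int.eq | with_reducible apply Int.mem | with_reducible apply Int.subset | with_reducible apply Int.ltN | with_reducible apply Int.leN | with_reducible_and_instances apply Int.le | with_reducible_and_instances apply Int.lt | with_reducible apply Int.all | with_reducible apply Int.ex | with_reducible apply IntF.fst | with_reducible apply IntF.snd | with_reducible apply IntF.app | with_reducible apply IntF.inl | with_reducible apply IntF.inr | with_reducible_and_instances apply IntF.mul | with_reducible_and_instances apply IntF.inv | with_reducible_and_instances apply IntF.add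 | with_reducible_and_instances apply IntF.sub | with_reducible_and_instances apply IntF.neg | with_reducible_and_instances apply IntF.smul | with_reducible apply Int.fin | with_reducible apply IntF.sep | with_reducible apply IntF.lam | with_reducible apply IntF.insert | with_reducible apply IntF.singleton | with_reducible apply IntF.union | with_reducible apply IntF.iimage | with_reducible apply IntF.ite | with_reducible apply IntF.the | with_reducible apply IntF.irec | with_reducible apply IntF.succ | with_reducible apply IntF.val | with_reducible apply IntF.mk | (with_reducible refine Int.comp ?_ ?_; assumption) | (with_reducible refine Int.comp₂ ?_ ?_ ?_; assumption) | (with_reducible refine Int.comp₃ ?_ ?_ ?_ ?_; assumption) | (with_reducible refine Int.comp₄ ?_ ?_ ?_ ?_ ?_; assumption) | (with_reducible refine IntF.comp ?_ ?_; assumption) | (with_reducible refine IntF.comp₂ ?_ ?_ ?_; assumption) | (with_reducible refine IntF.comp₃ ?_ ?_ ?_ ?_; assumption) | with_reducible apply IntF.pair))))]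
  rw [h1]
  exact isT_tl m

theorem SS_sub {m : INat N} {y : YY S} (h : y ∈ SS S m) : y ∈ XX S := by
  rw [mem_SS] at h
  refine mem_XX.2 ?_
  rintro rfl
  exact h (tl_inr.2 (Or.inl rfl))

theorem exists_SS {y : YY S} (h : y ∈ XX S) : ∃ m, y ∈ SS S m := by
  rcases y with e | k
  · exact ⟨lv e, mem_SS.2 fun h1 => lt_irrefl _ (tl_inl.1 h1)⟩
  · refine ⟨k, mem_SS.2 fun h1 => ?_⟩
    rcases tl_inr.1 h1 with h2 | h2
    · exact mem_XX.1 h (by rw [h2])
    · exact absurd ((INat.lt_succ_self k).trans h2) (lt_irrefl _)

open Classical in
/-- The retraction. -/
noncomputable def rt (m : INat N) (y : YY S) : YY S := if tl m y then Sum.inr m.succ else y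

theorem int_rt (m : INat N) : IntF N (fun y : YY S => rt m y) := by
  have h := int_tl (S := S)
  unfold rt
  ((repeat' (first | with_reducible exact IntF.id | with_reducible exact IntF.fst' | with_reducible exact IntF.snd' | with_reducible exact IntF.const _ | with_reducible exact Int.const _ | assumption | with_reducible apply Int.and | with_reducible apply Int.or | with_reducible apply Int.not | with_reducible apply Int.imp | with_reducible apply Int.iff | with_reducible apply Int.ne | with_reducible apply Int.eq | with_reducible apply Int.mem | with_reducible apply Int.subset | with_reducible apply Int.ltN | with_reducible apply Int.leN | with_reducible_and_instances apply Int.le | with_reducible_and_instances apply Int.lt | with_reducible apply Int.all | with_reducible apply Int.ex | with_reducible apply IntF.fst | with_reducible apply IntF.snd | with_reducible apply IntF.app | with_reducible apply IntF.inl | with_reducible apply IntF.inr | with_reducible_and_instances apply IntF.mul | with_reducible_and_instances apply IntF.inv | with_reducible_and_instances apply IntF.add | with_reducible_and_instances apply IntF.sub | with_reducible_and_instances apply IntF.neg | with_reducible_and_instances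 apply IntF.smul | with_reducible apply Int.fin | with_reducible apply IntF.sep | with_reducible apply IntF.lam | with_reducible apply IntF.insert | with_reducible apply IntF.singleton | with_reducible apply IntF.union | with_reducible apply IntF.iimage | with_reducible apply IntF.ite | with_reducible apply IntF.the | with_reducible apply IntF.irec | with_reducible apply IntF.succ | with_reducible apply IntF.val | with_reducible apply IntF.mk | (with_reducible refine Int.comp ?_ ?_; assumption) | (with_reducible refine Int.comp₂ ?_ ?_ ?_; assumption) | (with_reducible refine Int.comp₃ ?_ ?_ ?_ ?_; assumption) | (with_reducible refine Int.comp₄ ?_ ?_ ?_ ?_ ?_; assumption) | (with_reducible refine IntF.comp ?_ ?_; assumption) | (with_reducible refine IntF.comp₂ ?_ ?_ ?_; assumption) | (with_reducible refine IntF.comp₃ ?_ ?_ ?_ ?_; assumption) | with_reducible apply IntF.pair)))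

theorem rt_pos {m : INat N} {y : YY S} (h : tl m y) : rt m y = Sum.inr m.succ := if_pos h

theorem rt_neg {m : INat N} {y : YY S} (h : ¬ tl m y) : rt m y = y := if_neg h

theorem end_mem_SS (m : INat N) : (Sum.inr m.succ : YY S) ∈ SS S m := mem_SS.2 fun h => by
  rcases tl_inr.1 h with h | h
  · exact INat.succ_ne_zero m h
  · exact lt_irrefl _ h

theorem rt_mem (m : INat N) (y : YY S) : rt m y ∈ SS S m := by
  by_cases h : tl m y
  · rw [rt_pos h]
    exact end_mem_SS m
  · rw [rt_neg h]
    exact mem_SS.2 h

theorem rt_nb {m : INat N} {y : YY S} {V : IPow N (YY S)} (h : NbR (SS S m) (rt m y) V) :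
    Nb y (sep N fun z => rt m z ∈ V) := by
  have hr := int_rt (S := S) m
  have hm : ∀ z : YY S, z ∈ (sep N fun z => rt m z ∈ V) ↔ rt m z ∈ V := fun z => mem_sep (by ((repeat' (first | with_reducible exact IntF.id | with_reducible exact IntF.fst' | with_reducible exact IntF.snd' | with_reducible exact IntF.const _ | with_reducible exact Int.const _ | assumption | with_reducible apply Int.and | with_reducible apply Int.or | with_reducible apply Int.not | with_reducible apply Int.imp | with_reducible apply Int.iff | with_reducible apply Int.ne | with_reducible apply Int.eq | with_reducible apply Int.mem | with_reducible apply Int.subset | with_reducible apply Int.ltN | with_reducible apply Int.leN | with_reducible_and_instances apply Int.le | with_reducible_and_instances apply Int.lt | with_reducible apply Int.all | with_reducible apply Int.ex | with_reducible apply IntF.fst | with_reducible apply IntF.snd | with_reducible apply IntF.app | with_reducible apply IntF.inl | with_reducible apply IntF.inr | with_reducible_and_instances apply IntF.mul | with_reducible_and_instances apply IntF.inv | with_reducible_and_instances apply IntF.add | with_reducible_and_instances apply IntF.sub | with_reducible_and_instances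 apply IntF.neg | with_reducible_and_instances apply IntF.smul | with_reducible apply Int.fin | with_reducible apply IntF.sep | with_reducible apply IntF.lam | with_reducible apply IntF.insert | with_reducible apply IntF.singleton | with_reducible apply IntF.union | with_reducible apply IntF.iimage | with_reducible apply IntF.ite | with_reducible apply IntF.the | with_reducible apply IntF.irec | with_reducible apply IntF.succ | with_reducible apply IntF.val | with_reducible apply IntF.mk | (with_reducible refine Int.comp ?_ ?_; assumption) | (with_reducible refine Int.comp₂ ?_ ?_ ?_; assumption) | (with_reducible refine Int.comp₃ ?_ ?_ ?_ ?_; assumption) | (with_reducible refine Int.comp₄ ?_ ?_ ?_ ?_ ?_; assumption) | (with_reducible refine IntF.comp ?_ ?_; assumption) | (with_reducible refine IntF.comp₂ ?_ ?_ ?_; assumption) | (with_reducible refine IntF.comp₃ ?_ ?_ ?_ ?_; assumption) | with_reducible apply IntF.pair))))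
  have hV : rt m y ∈ V := nbR_set.1 h.1 (rt_mem m y)
  by_cases ht : tl m y
  · have hi := int_tl (S := S)
    refine (isT_tl m y ((mem_sep (by ((repeat' (first | with_reducible exact IntF.id | with_reducible exact IntF.fst' | with_reducible exact IntF.snd' | with_reducible exact IntF.const _ | with_reducible exact Int.const _ | assumption | with_reducible apply Int.and | with_reducible apply Int.or | with_reducible apply Int.not | with_reducible apply Int.imp | with_reducible apply Int.iff | with_reducible apply Int.ne | with_reducible apply Int.eq | with_reducible apply Int.mem | with_reducible apply Int.subset | with_reducible apply Int.ltN | with_reducible apply Int.leN | with_reducible_and_instances apply Int.le | with_reducible_and_instances apply Int.lt | with_reducible apply Int.all | with_reducible apply Int.ex | with_reducible apply IntF.fst | with_reducible apply IntF.snd | with_reducible apply IntF.app | with_reducible apply IntF.inl | with_reducible apply IntF.inr | with_reducible_and_instances apply IntF.mul | with_reducible_and_instances apply IntF.inv | with_reducible_and_instances apply IntF.add | with_reducible_and_instances apply IntF.sub | with_reducible_and_instances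 apply IntF.neg | with_reducible_and_instances apply IntF.smul | with_reducible apply Int.fin | with_reducible apply IntF.sep | with_reducible apply IntF.lam | with_reducible apply IntF.insert | with_reducible apply IntF.singleton | with_reducible apply IntF.union | with_reducible apply IntF.iimage | with_reducible apply IntF.ite | with_reducible apply IntF.the | with_reducible apply IntF.irec | with_reducible apply IntF.succ | with_reducible apply IntF.val | with_reducible apply IntF.mk | (with_reducible refine Int.comp ?_ ?_; assumption) | (with_reducible refine Int.comp₂ ?_ ?_ ?_; assumption) | (with_reducible refine Int.comp₃ ?_ ?_ ?_ ?_; assumption) | (with_reducible refine Int.comp₄ ?_ ?_ ?_ ?_ ?_; assumption) | (with_reducible refine IntF.comp ?_ ?_; assumption) | (with_reducible refine IntF.comp₂ ?_ ?_ ?_; assumption) | (with_reducible refine IntF.comp₃ ?_ ?_ ?_ ?_; assumption) | with_reducible apply IntF.pair))))).2 ht)).mono fun z hz => (hm z).2 ?_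
    have hz' : tl m z := (mem_sep (by ((repeat' (first | with_reducible exact IntF.id | with_reducible exact IntF.fst' | with_reducible exact IntF.snd' | with_reducible exact IntF.const _ | with_reducible exact Int.const _ | assumption | with_reducible apply Int.and | with_reducible apply Int.or | with_reducible apply Int.not | with_reducible apply Int.imp | with_reducible apply Int.iff | with_reducible apply Int.ne | with_reducible apply Int.eq | with_reducible apply Int.mem | with_reducible apply Int.subset | with_reducible apply Int.ltN | with_reducible apply Int.leN | with_reducible_and_instances apply Int.le | with_reducible_and_instances apply Int.lt | with_reducible apply Int.all | with_reducible apply Int.ex | with_reducible apply IntF.fst | with_reducible apply IntF.snd | with_reducible apply IntF.app | with_reducible apply IntF.inl | with_reducible apply IntF.inr | with_reducible_and_instances apply IntF.mul | with_reducible_and_instances apply IntF.inv | with_reducible_and_instances apply IntF.add | with_reducible_and_instances apply IntF.sub | with_reducible_and_instances apply IntF.neg | with_reducible_and_instances apply IntF.smul | with_reducible apply Int.fin | with_reducible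 apply IntF.sep | with_reducible apply IntF.lam | with_reducible apply IntF.insert | with_reducible apply IntF.singleton | with_reducible apply IntF.union | with_reducible apply IntF.iimage | with_reducible apply IntF.ite | with_reducible apply IntF.the | with_reducible apply IntF.irec | with_reducible apply IntF.succ | with_reducible apply IntF.val | with_reducible apply IntF.mk | (with_reducible refine Int.comp ?_ ?_; assumption) | (with_reducible refine Int.comp₂ ?_ ?_ ?_; assumption) | (with_reducible refine Int.comp₃ ?_ ?_ ?_ ?_; assumption) | (with_reducible refine Int.comp₄ ?_ ?_ ?_ ?_ ?_; assumption) | (with_reducible refine IntF.comp ?_ ?_; assumption) | (with_reducible refine IntF.comp₂ ?_ ?_ ?_; assumption) | (with_reducible refine IntF.comp₃ ?_ ?_ ?_ ?_; assumption) | with_reducible apply IntF.pair))))).1 hz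
    rw [rt_pos hz', ← rt_pos ht]
    exact hV
  · rcases cases_pt y with ⟨e, rfl⟩ | rfl | ⟨n, rfl⟩
    · exact nb_inl.2 ((hm _).2 hV)
    · exact absurd (tl_inr.2 (Or.inl rfl)) ht
    · rw [rt_neg ht] at h hV
      have hnm : n ≤ m := by
        by_contra hc
        refine ht (tl_inr.2 (Or.inr ?_))
        exact lt_of_le_of_lt (INat.succ_le_iff.2 (not_le.1 hc)) (INat.lt_succ_self n)
      obtain ⟨-, h1, h2⟩ := nb_succ.1 h
      have key : ∀ e : EE S, lv e ≤ m → (Sum.inl e : YY S) ∈ (sep N fun z => z ∈ SS S m → z ∈ V) →
          (Sum.inl e : YY S) ∈ (sep N fun z => rt m z ∈ V) := by
        intro e he h3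
        have h4 : ¬ tl m (Sum.inl e : YY S) := fun h5 => absurd (tl_inl.1 h5) (not_lt.2 he)
        rw [hm, rt_neg h4]
        exact nbR_set.1 h3 (mem_SS.2 h4)
      refine nb_succ.2 ⟨(hm _).2 (by rw [rt_neg ht]; exact hV), h1.mono fun e he h3 =>
        key e (he.le.trans hnm) h3, ?_⟩
      rcases hnm.lt_or_eq with h5 | rfl
      · exact h2.mono fun e he h3 => key e (he.le.trans (INat.succ_le_iff.2 h5)) h3
      · refine fr0_of_all fun e he => (hm _).2 ?_
        rw [rt_pos (tl_inl.2 (he ▸ INat.lt_succ_self n))]
        exact hV

/-! ### Clopen sets and countable intersections of clopen sets -/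

/-- Clopen subsets of the subspace `P`. -/
def ClpR (P C : IPow N (YY S)) : Prop := IsTR P C ∧ IsTR P (sep N fun y => y ∈ P ∧ ¬ y ∈ C)

theorem int_ClpR : Int N (fun q : IPow N (YY S) × IPow N (YY S) => ClpR q.1 q.2) := by
  have h := int_IsTR (S := S)
  unfold ClpR
  ((repeat' (first | with_reducible exact IntF.id | with_reducible exact IntF.fst' | with_reducible exact IntF.snd' | with_reducible exact IntF.const _ | with_reducible exact Int.const _ | assumption | with_reducible apply Int.and | with_reducible apply Int.or | with_reducible apply Int.not | with_reducible apply Int.imp | with_reducible apply Int.iff | with_reducible apply Int.ne | with_reducible apply Int.eq | with_reducible apply Int.mem | with_reducible apply Int.subset | with_reducible apply Int.ltN | with_reducible apply Int.leN | with_reducible_and_instances apply Int.le | with_reducible_and_instances apply Int.lt | with_reducible apply Int.all | with_reducible apply Int.ex | with_reducible apply IntF.fst | with_reducible apply IntF.snd | with_reducible apply IntF.app | with_reducible apply IntF.inl | with_reducible apply IntF.inr | with_reducible_and_instances apply IntF.mul | with_reducible_and_instances apply IntF.inv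 | with_reducible_and_instances apply IntF.add | with_reducible_and_instances apply IntF.sub | with_reducible_and_instances apply IntF.neg | with_reducible_and_instances apply IntF.smul | with_reducible apply Int.fin | with_reducible apply IntF.sep | with_reducible apply IntF.lam | with_reducible apply IntF.insert | with_reducible apply IntF.singleton | with_reducible apply IntF.union | with_reducible apply IntF.iimage | with_reducible apply IntF.ite | with_reducible apply IntF.the | with_reducible apply IntF.irec | with_reducible apply IntF.succ | with_reducible apply IntF.val | with_reducible apply IntF.mk | (with_reducible refine Int.comp ?_ ?_; assumption) | (with_reducible refine Int.comp₂ ?_ ?_ ?_; assumption) | (with_reducible refine Int.comp₃ ?_ ?_ ?_ ?_; assumption) | (with_reducible refine Int.comp₄ ?_ ?_ ?_ ?_ ?_; assumption) | (with_reducible refine IntF.comp ?_ ?_; assumption) | (with_reducible refine IntF.comp₂ ?_ ?_ ?_; assumption) | (with_reducible refine IntF.comp₃ ?_ ?_ ?_ ?_; assumption) | with_reducible apply IntF.pair)))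

theorem diff_mem {P C : IPow N (YY S)} {y : YY S} : y ∈ (sep N fun y => y ∈ P ∧ ¬ y ∈ C) ↔
    (y ∈ P ∧ ¬ y ∈ C) := mem_sep (by ((repeat' (first | with_reducible exact IntF.id | with_reducible exact IntF.fst' | with_reducible exact IntF.snd' | with_reducible exact IntF.const _ | with_reducible exact Int.const _ | assumption | with_reducible apply Int.and | with_reducible apply Int.or | with_reducible apply Int.not | with_reducible apply Int.imp | with_reducible apply Int.iff | with_reducible apply Int.ne | with_reducible apply Int.eq | with_reducible apply Int.mem | with_reducible apply Int.subset | with_reducible apply Int.ltN | with_reducible apply Int.leN | with_reducible_and_instances apply Int.le | with_reducible_and_instances apply Int.lt | with_reducible apply Int.all | with_reducible apply Int.ex | with_reducible apply IntF.fst | with_reducible apply IntF.snd | with_reducible apply IntF.app | with_reducible apply IntF.inl | with_reducible apply IntF.inr | with_reducible_and_instances apply IntF.mul | with_reducible_and_instances apply IntF.inv | with_reducible_and_instances apply IntF.add | with_reducible_and_instances apply IntF.sub | with_reducible_and_instances apply IntF.neg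 | with_reducible_and_instances apply IntF.smul | with_reducible apply Int.fin | with_reducible apply IntF.sep | with_reducible apply IntF.lam | with_reducible apply IntF.insert | with_reducible apply IntF.singleton | with_reducible apply IntF.union | with_reducible apply IntF.iimage | with_reducible apply IntF.ite | with_reducible apply IntF.the | with_reducible apply IntF.irec | with_reducible apply IntF.succ | with_reducible apply IntF.val | with_reducible apply IntF.mk | (with_reducible refine Int.comp ?_ ?_; assumption) | (with_reducible refine Int.comp₂ ?_ ?_ ?_; assumption) | (with_reducible refine Int.comp₃ ?_ ?_ ?_ ?_; assumption) | (with_reducible refine Int.comp₄ ?_ ?_ ?_ ?_ ?_; assumption) | (with_reducible refine IntF.comp ?_ ?_; assumption) | (with_reducible refine IntF.comp₂ ?_ ?_ ?_; assumption) | (with_reducible refine IntF.comp₃ ?_ ?_ ?_ ?_; assumption) | with_reducible apply IntF.pair))))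

theorem isTR_of {P U : IPow N (YY S)} (h : ∀ y, y ∈ U → y ∈ P) (h' : ∀ y, y ∈ U → Nb y
    (sep N fun z => z ∈ P → z ∈ U)) : IsTR P U := ⟨h, h'⟩

theorem IsTR.inter {P U V : IPow N (YY S)} (h : IsTR P U) (h' : IsTR P V) : IsTR P (U ∩ V) :=
  ⟨fun y hy => h.1 y (mem_inter.1 hy).1, fun y hy => (h.2 y (mem_inter.1 hy).1).inter
    (h'.2 y (mem_inter.1 hy).2)⟩

theorem ClpR.inter {P C D : IPow N (YY S)} (h : ClpR P C) (h' : ClpR P D) : ClpR P (C ∩ D) := by
  refine ⟨h.1.inter h'.1, fun y hy => (diff_mem.1 hy).1, fun y hy => ?_⟩
  obtain ⟨h1, h2⟩ := diff_mem.1 hy
  by_cases h3 : y ∈ C
  · have h4 : ¬ y ∈ D := fun h4 => h2 (mem_inter.2 ⟨h3, h4⟩)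
    exact (h'.2.2 y (diff_mem.2 ⟨h1, h4⟩)).mono fun z hz hz' => diff_mem.2 ⟨hz, fun h5 =>
      (diff_mem.1 hz').2 (mem_inter.1 h5).2⟩
  · exact (h.2.2 y (diff_mem.2 ⟨h1, h3⟩)).mono fun z hz hz' => diff_mem.2 ⟨hz, fun h5 =>
      (diff_mem.1 hz').2 (mem_inter.1 h5).1⟩

theorem Clp.rel {P C : IPow N (YY S)} (h : Clp C) : ClpR P (C ∩ P) := by
  refine ⟨h.1.rel, fun y hy => (diff_mem.1 hy).1, fun y hy => ?_⟩
  obtain ⟨h1, h2⟩ := diff_mem.1 hy
  refine (h.2 y (mem_icompl.2 fun h3 => h2 (mem_inter.2 ⟨h3, h1⟩))).mono fun z hz =>
    nbR_set.2 fun h4 => diff_mem.2 ⟨h4, fun h5 => mem_icompl.1 hz (mem_inter.1 h5).1⟩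

/-- Countable intersections of clopen sets. -/
def CdP (P Z : IPow N (YY S)) : Prop := ∃ C : IFun N (INat N) (IPow N (YY S)),
  (∀ n, ClpR P (C n)) ∧ ∀ y, y ∈ Z ↔ ∀ n, y ∈ C n

theorem int_CdP : Int N (fun q : IPow N (YY S) × IPow N (YY S) => CdP q.1 q.2) := by
  have h := int_ClpR (S := S)
  unfold CdP
  ((repeat' (first | with_reducible exact IntF.id | with_reducible exact IntF.fst' | with_reducible exact IntF.snd' | with_reducible exact IntF.const _ | with_reducible exact Int.const _ | assumption | with_reducible apply Int.and | with_reducible apply Int.or | with_reducible apply Int.not | with_reducible apply Int.imp | with_reducible apply Int.iff | with_reducible apply Int.ne | with_reducible apply Int.eq | with_reducible apply Int.mem | with_reducible apply Int.subset | with_reducible apply Int.ltN | with_reducible apply Int.leN | with_reducible_and_instances apply Int.le | with_reducible_and_instances apply Int.lt | with_reducible apply Int.all | with_reducible apply Int.ex | with_reducible apply IntF.fst | with_reducible apply IntF.snd | with_reducible apply IntF.app | with_reducible apply IntF.inl | with_reducible apply IntF.inr | with_reducible_and_instances apply IntF.mul |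 with_reducible_and_instances apply IntF.inv | with_reducible_and_instances apply IntF.add | with_reducible_and_instances apply IntF.sub | with_reducible_and_instances apply IntF.neg | with_reducible_and_instances apply IntF.smul | with_reducible apply Int.fin | with_reducible apply IntF.sep | with_reducible apply IntF.lam | with_reducible apply IntF.insert | with_reducible apply IntF.singleton | with_reducible apply IntF.union | with_reducible apply IntF.iimage | with_reducible apply IntF.ite | with_reducible apply IntF.the | with_reducible apply IntF.irec | with_reducible apply IntF.succ | with_reducible apply IntF.val | with_reducible apply IntF.mk | (with_reducible refine Int.comp ?_ ?_; assumption) | (with_reducible refine Int.comp₂ ?_ ?_ ?_; assumption) | (with_reducible refine Int.comp₃ ?_ ?_ ?_ ?_; assumption) | (with_reducible refine Int.comp₄ ?_ ?_ ?_ ?_ ?_; assumption) | (with_reducible refine IntF.comp ?_ ?_; assumption) | (with_reducible refine IntF.comp₂ ?_ ?_ ?_; assumption) | (with_reducible refine IntF.comp₃ ?_ ?_ ?_ ?_; assumption) | with_reducible apply IntF.pair)))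

theorem CdP.inter {P Z W : IPow N (YY S)} (h : CdP P Z) (h' : CdP P W) : CdP P (Z ∩ W) := by
  obtain ⟨C, h1, h2⟩ := h
  obtain ⟨D, h3, h4⟩ := h'
  have hi : IntF N (fun n : INat N => C n ∩ D n) :=
    IntF.comp₂ (p := fun a b : IPow N (YY S) => a ∩ b) (by
      have h5 : ∀ q : IPow N (YY S) × IPow N (YY S), q.1 ∩ q.2 = sep N fun z => z ∈ q.1 ∧ z ∈ q.2 :=
        fun q => IPow.ext' fun z => by rw [mem_inter, mem_sep (by ((repeat' (first | with_reducible exact IntF.id | with_reducible exact IntF.fst' | with_reducible exact IntF.snd' | with_reducible exact IntF.const _ | with_reducible exact Int.const _ | assumption | with_reducible apply Int.and | with_reducible apply Int.or | with_reducible apply Int.not | with_reducible apply Int.imp | with_reducible apply Int.iff | with_reducible apply Int.ne | with_reducible apply Int.eq | with_reducible apply Int.mem | with_reducible apply Int.subset | with_reducible apply Int.ltN | with_reducible apply Int.leN | with_reducible_and_instances apply Int.le | with_reducible_and_instances apply Int.lt | with_reducible apply Int.all | with_reducible apply Int.ex | with_reducible apply IntF.fst | with_reducible apply IntF.snd | with_reducible apply IntF.app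 | with_reducible apply IntF.inl | with_reducible apply IntF.inr | with_reducible_and_instances apply IntF.mul | with_reducible_and_instances apply IntF.inv | with_reducible_and_instances apply IntF.add | with_reducible_and_instances apply IntF.sub | with_reducible_and_instances apply IntF.neg | with_reducible_and_instances apply IntF.smul | with_reducible apply Int.fin | with_reducible apply IntF.sep | with_reducible apply IntF.lam | with_reducible apply IntF.insert | with_reducible apply IntF.singleton | with_reducible apply IntF.union | with_reducible apply IntF.iimage | with_reducible apply IntF.ite | with_reducible apply IntF.the | with_reducible apply IntF.irec | with_reducible apply IntF.succ | with_reducible apply IntF.val | with_reducible apply IntF.mk | (with_reducible refine Int.comp ?_ ?_; assumption) | (with_reducible refine Int.comp₂ ?_ ?_ ?_; assumption) | (with_reducible refine Int.comp₃ ?_ ?_ ?_ ?_; assumption) | (with_reducible refine Int.comp₄ ?_ ?_ ?_ ?_ ?_; assumption) | (with_reducible refine IntF.comp ?_ ?_; assumption) | (with_reducible refine IntF.comp₂ ?_ ?_ ?_; assumption) | (with_reducible refine IntF.comp₃ ?_ ?_ ?_ ?_; assumption) | with_reducible apply IntF.pair))))]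
      have h6 : IntF N (fun q : IPow N (YY S) × IPow N (YY S) => sep N fun z => z ∈ q.1 ∧ z ∈ q.2) := by
        ((repeat' (first | with_reducible exact IntF.id | with_reducible exact IntF.fst' | with_reducible exact IntF.snd' | with_reducible exact IntF.const _ | with_reducible exact Int.const _ | assumption | with_reducible apply Int.and | with_reducible apply Int.or | with_reducible apply Int.not | with_reducible apply Int.imp | with_reducible apply Int.iff | with_reducible apply Int.ne | with_reducible apply Int.eq | with_reducible apply Int.mem | with_reducible apply Int.subset | with_reducible apply Int.ltN | with_reducible apply Int.leN | with_reducible_and_instances apply Int.le | with_reducible_and_instances apply Int.lt | with_reducible apply Int.all | with_reducible apply Int.ex | with_reducible apply IntF.fst | with_reducible apply IntF.snd | with_reducible apply IntF.app | with_reducible apply IntF.inl | with_reducible apply IntF.inr | with_reducible_and_instances apply IntF.mul | with_reducible_and_instances apply IntF.inv | with_reducible_and_instances apply IntF.add | with_reducible_and_instances apply IntF.sub | with_reducible_and_instances apply IntF.neg | with_reducible_and_instances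 apply IntF.smul | with_reducible apply Int.fin | with_reducible apply IntF.sep | with_reducible apply IntF.lam | with_reducible apply IntF.insert | with_reducible apply IntF.singleton | with_reducible apply IntF.union | with_reducible apply IntF.iimage | with_reducible apply IntF.ite | with_reducible apply IntF.the | with_reducible apply IntF.irec | with_reducible apply IntF.succ | with_reducible apply IntF.val | with_reducible apply IntF.mk | (with_reducible refine Int.comp ?_ ?_; assumption) | (with_reducible refine Int.comp₂ ?_ ?_ ?_; assumption) | (with_reducible refine Int.comp₃ ?_ ?_ ?_ ?_; assumption) | (with_reducible refine Int.comp₄ ?_ ?_ ?_ ?_ ?_; assumption) | (with_reducible refine IntF.comp ?_ ?_; assumption) | (with_reducible refine IntF.comp₂ ?_ ?_ ?_; assumption) | (with_reducible refine IntF.comp₃ ?_ ?_ ?_ ?_; assumption) | with_reducible apply IntF.pair)))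
      have h7 : (fun q : IPow N (YY S) × IPow N (YY S) => q.1 ∩ q.2) = fun q => sep N fun z =>
        z ∈ q.1 ∧ z ∈ q.2 := funext h5
      rw [h7]
      exact h6) (IntF.app (IntF.const C) IntF.id)
      (IntF.app (IntF.const D) IntF.id)
  refine ⟨⟨_, hi⟩, fun n => (h1 n).inter (h3 n), fun y => ?_⟩
  rw [mem_inter, h2, h4]
  constructor
  · rintro ⟨h5, h6⟩ n
    exact mem_inter.2 ⟨h5 n, h6 n⟩
  · intro h5
    exact ⟨fun n => (mem_inter.1 (h5 n)).1, fun n => (mem_inter.1 (h5 n)).2⟩

theorem ClpR.cd {P C : IPow N (YY S)} (h : ClpR P C) : CdP P C :=
  ⟨⟨fun _ => C, IntF.const _⟩, fun _ => h, fun y => ⟨fun h _ => h, fun h => h 0⟩⟩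

/-- The preimage. -/
noncomputable def pre (m : INat N) (C : IPow N (YY S)) : IPow N (YY S) :=
  sep N fun y => y ∈ XX S ∧ rt m y ∈ C

theorem mem_pre {m : INat N} {C : IPow N (YY S)} {y : YY S} :
    y ∈ pre m C ↔ y ∈ XX S ∧ rt m y ∈ C := by
  have hr := int_rt (S := S) m
  unfold pre
  rw [mem_sep (by ((repeat' (first | with_reducible exact IntF.id | with_reducible exact IntF.fst' | with_reducible exact IntF.snd' | with_reducible exact IntF.const _ | with_reducible exact Int.const _ | assumption | with_reducible apply Int.and | with_reducible apply Int.or | with_reducible apply Int.not | with_reducible apply Int.imp | with_reducible apply Int.iff | with_reducible apply Int.ne | with_reducible apply Int.eq | with_reducible apply Int.mem | with_reducible apply Int.subset | with_reducible apply Int.ltN | with_reducible apply Int.leN | with_reducible_and_instances apply Int.le | with_reducible_and_instances apply Int.lt | with_reducible apply Int.all | with_reducible apply Int.ex | with_reducible apply IntF.fst | with_reducible apply IntF.snd | with_reducible apply IntF.app | with_reducible apply IntF.inl | with_reducible apply IntF.inr | with_reducible_and_instances apply IntF.mul | with_reducible_and_instances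 apply IntF.inv | with_reducible_and_instances apply IntF.add | with_reducible_and_instances apply IntF.sub | with_reducible_and_instances apply IntF.neg | with_reducible_and_instances apply IntF.smul | with_reducible apply Int.fin | with_reducible apply IntF.sep | with_reducible apply IntF.lam | with_reducible apply IntF.insert | with_reducible apply IntF.singleton | with_reducible apply IntF.union | with_reducible apply IntF.iimage | with_reducible apply IntF.ite | with_reducible apply IntF.the | with_reducible apply IntF.irec | with_reducible apply IntF.succ | with_reducible apply IntF.val | with_reducible apply IntF.mk | (with_reducible refine Int.comp ?_ ?_; assumption) | (with_reducible refine Int.comp₂ ?_ ?_ ?_; assumption) | (with_reducible refine Int.comp₃ ?_ ?_ ?_ ?_; assumption) | (with_reducible refine Int.comp₄ ?_ ?_ ?_ ?_ ?_; assumption) | (with_reducible refine IntF.comp ?_ ?_; assumption) | (with_reducible refine IntF.comp₂ ?_ ?_ ?_; assumption) | (with_reducible refine IntF.comp₃ ?_ ?_ ?_ ?_; assumption) | with_reducible apply IntF.pair))))]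

theorem int_pre (m : INat N) : IntF N (fun C : IPow N (YY S) => pre m C) := by
  have hr := int_rt (S := S) m
  unfold pre
  ((repeat' (first | with_reducible exact IntF.id | with_reducible exact IntF.fst' | with_reducible exact IntF.snd' | with_reducible exact IntF.const _ | with_reducible exact Int.const _ | assumption | with_reducible apply Int.and | with_reducible apply Int.or | with_reducible apply Int.not | with_reducible apply Int.imp | with_reducible apply Int.iff | with_reducible apply Int.ne | with_reducible apply Int.eq | with_reducible apply Int.mem | with_reducible apply Int.subset | with_reducible apply Int.ltN | with_reducible apply Int.leN | with_reducible_and_instances apply Int.le | with_reducible_and_instances apply Int.lt | with_reducible apply Int.all | with_reducible apply Int.ex | with_reducible apply IntF.fst | with_reducible apply IntF.snd | with_reducible apply IntF.app | with_reducible apply IntF.inl | with_reducible apply IntF.inr | with_reducible_and_instances apply IntF.mul | with_reducible_and_instances apply IntF.inv | with_reducible_and_instances apply IntF.add | with_reducible_and_instances apply IntF.sub | with_reducible_and_instances apply IntF.neg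 | with_reducible_and_instances apply IntF.smul | with_reducible apply Int.fin | with_reducible apply IntF.sep | with_reducible apply IntF.lam | with_reducible apply IntF.insert | with_reducible apply IntF.singleton | with_reducible apply IntF.union | with_reducible apply IntF.iimage | with_reducible apply IntF.ite | with_reducible apply IntF.the | with_reducible apply IntF.irec | with_reducible apply IntF.succ | with_reducible apply IntF.val | with_reducible apply IntF.mk | (with_reducible refine Int.comp ?_ ?_; assumption) | (with_reducible refine Int.comp₂ ?_ ?_ ?_; assumption) | (with_reducible refine Int.comp₃ ?_ ?_ ?_ ?_; assumption) | (with_reducible refine Int.comp₄ ?_ ?_ ?_ ?_ ?_; assumption) | (with_reducible refine IntF.comp ?_ ?_; assumption) | (with_reducible refine IntF.comp₂ ?_ ?_ ?_; assumption) | (with_reducible refine IntF.comp₃ ?_ ?_ ?_ ?_; assumption) | with_reducible apply IntF.pair)))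

theorem IsTR.pre {m : INat N} {C : IPow N (YY S)} (h : IsTR (SS S m) C) :
    IsTR (XX S) (pre m C) := by
  have hr := int_rt (S := S) m
  have hm : ∀ z : YY S, z ∈ (sep N fun z => rt m z ∈ C) ↔ rt m z ∈ C := fun z => mem_sep (by ((repeat' (first | with_reducible exact IntF.id | with_reducible exact IntF.fst' | with_reducible exact IntF.snd' | with_reducible exact IntF.const _ | with_reducible exact Int.const _ | assumption | with_reducible apply Int.and | with_reducible apply Int.or | with_reducible apply Int.not | with_reducible apply Int.imp | with_reducible apply Int.iff | with_reducible apply Int.ne | with_reducible apply Int.eq | with_reducible apply Int.mem | with_reducible apply Int.subset | with_reducible apply Int.ltN | with_reducible apply Int.leN | with_reducible_and_instances apply Int.le | with_reducible_and_instances apply Int.lt | with_reducible apply Int.all | with_reducible apply Int.ex | with_reducible apply IntF.fst | with_reducible apply IntF.snd | with_reducible apply IntF.app | with_reducible apply IntF.inl | with_reducible apply IntF.inr | with_reducible_and_instances apply IntF.mul | with_reducible_and_instances apply IntF.inv | with_reducible_and_instances apply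 IntF.add | with_reducible_and_instances apply IntF.sub | with_reducible_and_instances apply IntF.neg | with_reducible_and_instances apply IntF.smul | with_reducible apply Int.fin | with_reducible apply IntF.sep | with_reducible apply IntF.lam | with_reducible apply IntF.insert | with_reducible apply IntF.singleton | with_reducible apply IntF.union | with_reducible apply IntF.iimage | with_reducible apply IntF.ite | with_reducible apply IntF.the | with_reducible apply IntF.irec | with_reducible apply IntF.succ | with_reducible apply IntF.val | with_reducible apply IntF.mk | (with_reducible refine Int.comp ?_ ?_; assumption) | (with_reducible refine Int.comp₂ ?_ ?_ ?_; assumption) | (with_reducible refine Int.comp₃ ?_ ?_ ?_ ?_; assumption) | (with_reducible refine Int.comp₄ ?_ ?_ ?_ ?_ ?_; assumption) | (with_reducible refine IntF.comp ?_ ?_; assumption) | (with_reducible refine IntF.comp₂ ?_ ?_ ?_; assumption) | (with_reducible refine IntF.comp₃ ?_ ?_ ?_ ?_; assumption) | with_reducible apply IntF.pair))))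
  refine ⟨fun y hy => (mem_pre.1 hy).1, fun y hy => ?_⟩
  exact (rt_nb (h.2 _ (mem_pre.1 hy).2)).mono fun z hz => nbR_set.2 fun h1 => mem_pre.2
    ⟨h1, (hm z).1 hz⟩

theorem ClpR.pre {m : INat N} {C : IPow N (YY S)} (h : ClpR (SS S m) C) :
    ClpR (XX S) (pre m C) := by
  refine ⟨h.1.pre, fun y hy => (diff_mem.1 hy).1, fun y hy => ?_⟩
  obtain ⟨h1, h2⟩ := diff_mem.1 hy
  refine (h.2.pre.2 y (mem_pre.2 ⟨h1, diff_mem.2 ⟨rt_mem m y, fun h3 => h2 (mem_pre.2
    ⟨h1, h3⟩)⟩⟩)).mono fun z hz hz' => diff_mem.2 ⟨hz, fun h4 => ?_⟩
  exact (diff_mem.1 (mem_pre.1 hz').2).2 (mem_pre.1 h4).2

theorem pre_iff {m : INat N} {C : IPow N (YY S)} (h : ∀ y, y ∈ C → y ∈ SS S m) (y : YY S) :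
    y ∈ C ↔ y ∈ pre m C ∧ y ∈ SS S m := by
  rw [mem_pre]
  constructor
  · intro hy
    have h1 := h y hy
    exact ⟨⟨SS_sub h1, by rwa [rt_neg (mem_SS.1 h1)]⟩, h1⟩
  · rintro ⟨⟨-, h1⟩, h2⟩
    rwa [rt_neg (mem_SS.1 h2)] at h1

theorem clp_emb {m : INat N} {C : IPow N (YY S)} (h : ClpR (SS S m) C) :
    ∃ D, ClpR (XX S) D ∧ ∀ y, y ∈ C ↔ y ∈ D ∧ y ∈ SS S m :=
  ⟨_, h.pre, pre_iff h.1.1⟩

theorem cd_emb {m : INat N} {Z : IPow N (YY S)} (h : CdP (SS S m) Z) :
    ∃ W, CdP (XX S) W ∧ ∀ y, y ∈ Z ↔ y ∈ W ∧ y ∈ SS S m := by
  obtain ⟨C, h1, h2⟩ := h
  have hp := int_pre (S := S) m
  have hr := int_rt (S := S) m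
  have hi : IntF N (fun n : INat N => pre m (C n)) := by ((repeat' (first | with_reducible exact IntF.id | with_reducible exact IntF.fst' | with_reducible exact IntF.snd' | with_reducible exact IntF.const _ | with_reducible exact Int.const _ | assumption | with_reducible apply Int.and | with_reducible apply Int.or | with_reducible apply Int.not | with_reducible apply Int.imp | with_reducible apply Int.iff | with_reducible apply Int.ne | with_reducible apply Int.eq | with_reducible apply Int.mem | with_reducible apply Int.subset | with_reducible apply Int.ltN | with_reducible apply Int.leN | with_reducible_and_instances apply Int.le | with_reducible_and_instances apply Int.lt | with_reducible apply Int.all | with_reducible apply Int.ex | with_reducible apply IntF.fst | with_reducible apply IntF.snd | with_reducible apply IntF.app | with_reducible apply IntF.inl | with_reducible apply IntF.inr | with_reducible_and_instances apply IntF.mul | with_reducible_and_instances apply IntF.inv | with_reducible_and_instances apply IntF.add | with_reducible_and_instances apply IntF.sub | with_reducible_and_instances apply IntF.neg | with_reducible_and_instances apply IntF.smul | with_reducible apply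 Int.fin | with_reducible apply IntF.sep | with_reducible apply IntF.lam | with_reducible apply IntF.insert | with_reducible apply IntF.singleton | with_reducible apply IntF.union | with_reducible apply IntF.iimage | with_reducible apply IntF.ite | with_reducible apply IntF.the | with_reducible apply IntF.irec | with_reducible apply IntF.succ | with_reducible apply IntF.val | with_reducible apply IntF.mk | (with_reducible refine Int.comp ?_ ?_; assumption) | (with_reducible refine Int.comp₂ ?_ ?_ ?_; assumption) | (with_reducible refine Int.comp₃ ?_ ?_ ?_ ?_; assumption) | (with_reducible refine Int.comp₄ ?_ ?_ ?_ ?_ ?_; assumption) | (with_reducible refine IntF.comp ?_ ?_; assumption) | (with_reducible refine IntF.comp₂ ?_ ?_ ?_; assumption) | (with_reducible refine IntF.comp₃ ?_ ?_ ?_ ?_; assumption) | with_reducible apply IntF.pair)))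
  have hm : ∀ y : YY S, y ∈ (sep N fun y : YY S => ∀ n, y ∈ pre m (C n)) ↔ ∀ n, y ∈ pre m (C n) :=
    fun y => mem_sep (by ((repeat' (first | with_reducible exact IntF.id | with_reducible exact IntF.fst' | with_reducible exact IntF.snd' | with_reducible exact IntF.const _ | with_reducible exact Int.const _ | assumption | with_reducible apply Int.and | with_reducible apply Int.or | with_reducible apply Int.not | with_reducible apply Int.imp | with_reducible apply Int.iff | with_reducible apply Int.ne | with_reducible apply Int.eq | with_reducible apply Int.mem | with_reducible apply Int.subset | with_reducible apply Int.ltN | with_reducible apply Int.leN | with_reducible_and_instances apply Int.le | with_reducible_and_instances apply Int.lt | with_reducible apply Int.all | with_reducible apply Int.ex | with_reducible apply IntF.fst | with_reducible apply IntF.snd | with_reducible apply IntF.app | with_reducible apply IntF.inl | with_reducible apply IntF.inr | with_reducible_and_instances apply IntF.mul | with_reducible_and_instances apply IntF.inv | with_reducible_and_instances apply IntF.add | with_reducible_and_instances apply IntF.sub | with_reducible_and_instances apply IntF.neg |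 with_reducible_and_instances apply IntF.smul | with_reducible apply Int.fin | with_reducible apply IntF.sep | with_reducible apply IntF.lam | with_reducible apply IntF.insert | with_reducible apply IntF.singleton | with_reducible apply IntF.union | with_reducible apply IntF.iimage | with_reducible apply IntF.ite | with_reducible apply IntF.the | with_reducible apply IntF.irec | with_reducible apply IntF.succ | with_reducible apply IntF.val | with_reducible apply IntF.mk | (with_reducible refine Int.comp ?_ ?_; assumption) | (with_reducible refine Int.comp₂ ?_ ?_ ?_; assumption) | (with_reducible refine Int.comp₃ ?_ ?_ ?_ ?_; assumption) | (with_reducible refine Int.comp₄ ?_ ?_ ?_ ?_ ?_; assumption) | (with_reducible refine IntF.comp ?_ ?_; assumption) | (with_reducible refine IntF.comp₂ ?_ ?_ ?_; assumption) | (with_reducible refine IntF.comp₃ ?_ ?_ ?_ ?_; assumption) | with_reducible apply IntF.pair))))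
  refine ⟨sep N fun y : YY S => ∀ n, y ∈ pre m (C n), ⟨⟨_, hi⟩, fun n => (h1 n).pre, hm⟩,
    fun y => ?_⟩
  rw [hm, h2]
  constructor
  · intro h3
    exact ⟨fun n => ((pre_iff (h1 n).1.1 y).1 (h3 n)).1, (h1 0).1.1 y (h3 0)⟩
  · rintro ⟨h3, h4⟩ n
    exact (pre_iff (h1 n).1.1 y).2 ⟨h3 n, h4⟩

/-! ### Real functions -/

section reals

variable {R : Type u} [ITy N R] [Field R] [LinearOrder R] [IsStrictOrderedRing R] [IAdd N R]
  [ILE N R]

/-- Continuous functions on the subspace `P`. -/
def CtR (P : IPow N (YY S)) (f : IFun N (YY S) R) : Prop :=
  ∀ y, y ∈ P → ∀ ε : R, 0 < ε → NbR P y (sep N fun z => cl ε (f z) (f y))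

theorem int_CtR : Int N (fun q : IPow N (YY S) × IFun N (YY S) R => CtR q.1 q.2) := by
  have h := int_NbR (S := S)
  have h' := int_cl (N := N) (R := R)
  unfold CtR
  ((repeat' (first | with_reducible exact IntF.id | with_reducible exact IntF.fst' | with_reducible exact IntF.snd' | with_reducible exact IntF.const _ | with_reducible exact Int.const _ | assumption | with_reducible apply Int.and | with_reducible apply Int.or | with_reducible apply Int.not | with_reducible apply Int.imp | with_reducible apply Int.iff | with_reducible apply Int.ne | with_reducible apply Int.eq | with_reducible apply Int.mem | with_reducible apply Int.subset | with_reducible apply Int.ltN | with_reducible apply Int.leN | with_reducible_and_instances apply Int.le | with_reducible_and_instances apply Int.lt | with_reducible apply Int.all | with_reducible apply Int.ex | with_reducible apply IntF.fst | with_reducible apply IntF.snd | with_reducible apply IntF.app | with_reducible apply IntF.inl | with_reducible apply IntF.inr | with_reducible_and_instances apply IntF.mul | with_reducible_and_instances apply IntF.inv | with_reducible_and_instances apply IntF.add | with_reducible_and_instances apply IntF.sub |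 with_reducible_and_instances apply IntF.neg | with_reducible_and_instances apply IntF.smul | with_reducible apply Int.fin | with_reducible apply IntF.sep | with_reducible apply IntF.lam | with_reducible apply IntF.insert | with_reducible apply IntF.singleton | with_reducible apply IntF.union | with_reducible apply IntF.iimage | with_reducible apply IntF.ite | with_reducible apply IntF.the | with_reducible apply IntF.irec | with_reducible apply IntF.succ | with_reducible apply IntF.val | with_reducible apply IntF.mk | (with_reducible refine Int.comp ?_ ?_; assumption) | (with_reducible refine Int.comp₂ ?_ ?_ ?_; assumption) | (with_reducible refine Int.comp₃ ?_ ?_ ?_ ?_; assumption) | (with_reducible refine Int.comp₄ ?_ ?_ ?_ ?_ ?_; assumption) | (with_reducible refine IntF.comp ?_ ?_; assumption) | (with_reducible refine IntF.comp₂ ?_ ?_ ?_; assumption) | (with_reducible refine IntF.comp₃ ?_ ?_ ?_ ?_; assumption) | with_reducible apply IntF.pair)))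

theorem cl_set {f : IFun N (YY S) R} {ε c : R} {z : YY S} :
    z ∈ (sep N fun z => cl ε (f z) c) ↔ cl ε (f z) c := by
  have h' := int_cl (N := N) (R := R)
  exact mem_sep (by ((repeat' (first | with_reducible exact IntF.id | with_reducible exact IntF.fst' | with_reducible exact IntF.snd' | with_reducible exact IntF.const _ | with_reducible exact Int.const _ | assumption | with_reducible apply Int.and | with_reducible apply Int.or | with_reducible apply Int.not | with_reducible apply Int.imp | with_reducible apply Int.iff | with_reducible apply Int.ne | with_reducible apply Int.eq | with_reducible apply Int.mem | with_reducible apply Int.subset | with_reducible apply Int.ltN | with_reducible apply Int.leN | with_reducible_and_instances apply Int.le | with_reducible_and_instances apply Int.lt | with_reducible apply Int.all | with_reducible apply Int.ex | with_reducible apply IntF.fst | with_reducible apply IntF.snd | with_reducible apply IntF.app | with_reducible apply IntF.inl | with_reducible apply IntF.inr | with_reducible_and_instances apply IntF.mul | with_reducible_and_instances apply IntF.inv | with_reducible_and_instances apply IntF.add | with_reducible_and_instances apply IntF.sub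 | with_reducible_and_instances apply IntF.neg | with_reducible_and_instances apply IntF.smul | with_reducible apply Int.fin | with_reducible apply IntF.sep | with_reducible apply IntF.lam | with_reducible apply IntF.insert | with_reducible apply IntF.singleton | with_reducible apply IntF.union | with_reducible apply IntF.iimage | with_reducible apply IntF.ite | with_reducible apply IntF.the | with_reducible apply IntF.irec | with_reducible apply IntF.succ | with_reducible apply IntF.val | with_reducible apply IntF.mk | (with_reducible refine Int.comp ?_ ?_; assumption) | (with_reducible refine Int.comp₂ ?_ ?_ ?_; assumption) | (with_reducible refine Int.comp₃ ?_ ?_ ?_ ?_; assumption) | (with_reducible refine Int.comp₄ ?_ ?_ ?_ ?_ ?_; assumption) | (with_reducible refine IntF.comp ?_ ?_; assumption) | (with_reducible refine IntF.comp₂ ?_ ?_ ?_; assumption) | (with_reducible refine IntF.comp₃ ?_ ?_ ?_ ?_; assumption) | with_reducible apply IntF.pair))))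

/-- Continuous functions on the whole space. -/
def CtY (f : IFun N (YY S) R) : Prop :=
  ∀ y, ∀ ε : R, 0 < ε → Nb y (sep N fun z => cl ε (f z) (f y))

theorem CtY.rel {f : IFun N (YY S) R} (h : CtY f) (P : IPow N (YY S)) : CtR P f :=
  fun y _ ε hε => (h y ε hε).rel

/-- Zero sets of the subspace `P`. -/
def ZrP (R : Type u) [ITy N R] [Field R] [LinearOrder R] (P Z : IPow N (YY S)) : Prop :=
  ∃ f : IFun N (YY S) R, CtR P f ∧ ∀ y, y ∈ Z ↔ y ∈ P ∧ f y = 0

theorem int_ZrP : Int N (fun q : IPow N (YY S) × IPow N (YY S) => ZrP R q.1 q.2) := by
  have h := int_CtR (S := S) (R := R)
  unfold ZrP
  ((repeat' (first | with_reducible exact IntF.id | with_reducible exact IntF.fst' | with_reducible exact IntF.snd' | with_reducible exact IntF.const _ | with_reducible exact Int.const _ | assumption | with_reducible apply Int.and | with_reducible apply Int.or | with_reducible apply Int.not | with_reducible apply Int.imp | with_reducible apply Int.iff | with_reducible apply Int.ne | with_reducible apply Int.eq | with_reducible apply Int.mem | with_reducible apply Int.subset | with_reducible apply Int.ltN | with_reducible apply Int.leN | with_reducible_and_instances apply Int.le | with_reducible_and_instances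 apply Int.lt | with_reducible apply Int.all | with_reducible apply Int.ex | with_reducible apply IntF.fst | with_reducible apply IntF.snd | with_reducible apply IntF.app | with_reducible apply IntF.inl | with_reducible apply IntF.inr | with_reducible_and_instances apply IntF.mul | with_reducible_and_instances apply IntF.inv | with_reducible_and_instances apply IntF.add | with_reducible_and_instances apply IntF.sub | with_reducible_and_instances apply IntF.neg | with_reducible_and_instances apply IntF.smul | with_reducible apply Int.fin | with_reducible apply IntF.sep | with_reducible apply IntF.lam | with_reducible apply IntF.insert | with_reducible apply IntF.singleton | with_reducible apply IntF.union | with_reducible apply IntF.iimage | with_reducible apply IntF.ite | with_reducible apply IntF.the | with_reducible apply IntF.irec | with_reducible apply IntF.succ | with_reducible apply IntF.val | with_reducible apply IntF.mk | (with_reducible refine Int.comp ?_ ?_; assumption) | (with_reducible refine Int.comp₂ ?_ ?_ ?_; assumption) | (with_reducible refine Int.comp₃ ?_ ?_ ?_ ?_; assumption) | (with_reducible refine Int.comp₄ ?_ ?_ ?_ ?_ ?_; assumption) | (with_reducible refine IntF.comp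 ?_ ?_; assumption) | (with_reducible refine IntF.comp₂ ?_ ?_ ?_; assumption) | (with_reducible refine IntF.comp₃ ?_ ?_ ?_ ?_; assumption) | with_reducible apply IntF.pair)))

theorem z_emb {m : INat N} {Z : IPow N (YY S)} (h : ZrP R (SS S m) Z) :
    ∃ W, ZrP R (XX S) W ∧ ∀ y, y ∈ Z ↔ y ∈ W ∧ y ∈ SS S m := by
  obtain ⟨f, h1, h2⟩ := h
  have hr := int_rt (S := S) m
  have h' := int_cl (N := N) (R := R)
  have hi : IntF N (fun z : YY S => f (rt m z)) := by ((repeat' (first | with_reducible exact IntF.id | with_reducible exact IntF.fst' | with_reducible exact IntF.snd' | with_reducible exact IntF.const _ | with_reducible exact Int.const _ | assumption | with_reducible apply Int.and | with_reducible apply Int.or | with_reducible apply Int.not | with_reducible apply Int.imp | with_reducible apply Int.iff | with_reducible apply Int.ne | with_reducible apply Int.eq | with_reducible apply Int.mem | with_reducible apply Int.subset | with_reducible apply Int.ltN | with_reducible apply Int.leN | with_reducible_and_instances apply Int.le | with_reducible_and_instances apply Int.lt | with_reducible apply Int.all | with_reducible apply Int.ex | with_reducible apply IntF.fst | with_reducible apply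 IntF.snd | with_reducible apply IntF.app | with_reducible apply IntF.inl | with_reducible apply IntF.inr | with_reducible_and_instances apply IntF.mul | with_reducible_and_instances apply IntF.inv | with_reducible_and_instances apply IntF.add | with_reducible_and_instances apply IntF.sub | with_reducible_and_instances apply IntF.neg | with_reducible_and_instances apply IntF.smul | with_reducible apply Int.fin | with_reducible apply IntF.sep | with_reducible apply IntF.lam | with_reducible apply IntF.insert | with_reducible apply IntF.singleton | with_reducible apply IntF.union | with_reducible apply IntF.iimage | with_reducible apply IntF.ite | with_reducible apply IntF.the | with_reducible apply IntF.irec | with_reducible apply IntF.succ | with_reducible apply IntF.val | with_reducible apply IntF.mk | (with_reducible refine Int.comp ?_ ?_; assumption) | (with_reducible refine Int.comp₂ ?_ ?_ ?_; assumption) | (with_reducible refine Int.comp₃ ?_ ?_ ?_ ?_; assumption) | (with_reducible refine Int.comp₄ ?_ ?_ ?_ ?_ ?_; assumption) | (with_reducible refine IntF.comp ?_ ?_; assumption) | (with_reducible refine IntF.comp₂ ?_ ?_ ?_; assumption) | (with_reducible refine IntF.comp₃ ?_ ?_ ?_ ?_;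 assumption) | with_reducible apply IntF.pair)))
  have hm : ∀ y : YY S, y ∈ (sep N fun y : YY S => y ∈ XX S ∧ f (rt m y) = 0) ↔
      (y ∈ XX S ∧ f (rt m y) = 0) := fun y => mem_sep (by ((repeat' (first | with_reducible exact IntF.id | with_reducible exact IntF.fst' | with_reducible exact IntF.snd' | with_reducible exact IntF.const _ | with_reducible exact Int.const _ | assumption | with_reducible apply Int.and | with_reducible apply Int.or | with_reducible apply Int.not | with_reducible apply Int.imp | with_reducible apply Int.iff | with_reducible apply Int.ne | with_reducible apply Int.eq | with_reducible apply Int.mem | with_reducible apply Int.subset | with_reducible apply Int.ltN | with_reducible apply Int.leN | with_reducible_and_instances apply Int.le | with_reducible_and_instances apply Int.lt | with_reducible apply Int.all | with_reducible apply Int.ex | with_reducible apply IntF.fst | with_reducible apply IntF.snd | with_reducible apply IntF.app | with_reducible apply IntF.inl | with_reducible apply IntF.inr | with_reducible_and_instances apply IntF.mul | with_reducible_and_instances apply IntF.inv | with_reducible_and_instances apply IntF.add | with_reducible_and_instances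 apply IntF.sub | with_reducible_and_instances apply IntF.neg | with_reducible_and_instances apply IntF.smul | with_reducible apply Int.fin | with_reducible apply IntF.sep | with_reducible apply IntF.lam | with_reducible apply IntF.insert | with_reducible apply IntF.singleton | with_reducible apply IntF.union | with_reducible apply IntF.iimage | with_reducible apply IntF.ite | with_reducible apply IntF.the | with_reducible apply IntF.irec | with_reducible apply IntF.succ | with_reducible apply IntF.val | with_reducible apply IntF.mk | (with_reducible refine Int.comp ?_ ?_; assumption) | (with_reducible refine Int.comp₂ ?_ ?_ ?_; assumption) | (with_reducible refine Int.comp₃ ?_ ?_ ?_ ?_; assumption) | (with_reducible refine Int.comp₄ ?_ ?_ ?_ ?_ ?_; assumption) | (with_reducible refine IntF.comp ?_ ?_; assumption) | (with_reducible refine IntF.comp₂ ?_ ?_ ?_; assumption) | (with_reducible refine IntF.comp₃ ?_ ?_ ?_ ?_; assumption) | with_reducible apply IntF.pair))))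
  refine ⟨_, ⟨⟨_, hi⟩, fun y hy ε hε => ?_, hm⟩, fun y => ?_⟩
  · have hm2 : ∀ z : YY S, z ∈ (sep N fun z => rt m z ∈ sep N fun w => cl ε (f w) (f (rt m y))) ↔
        rt m z ∈ sep N fun w => cl ε (f w) (f (rt m y)) := fun z => mem_sep (by ((repeat' (first | with_reducible exact IntF.id | with_reducible exact IntF.fst' | with_reducible exact IntF.snd' | with_reducible exact IntF.const _ | with_reducible exact Int.const _ | assumption | with_reducible apply Int.and | with_reducible apply Int.or | with_reducible apply Int.not | with_reducible apply Int.imp | with_reducible apply Int.iff | with_reducible apply Int.ne | with_reducible apply Int.eq | with_reducible apply Int.mem | with_reducible apply Int.subset | with_reducible apply Int.ltN | with_reducible apply Int.leN | with_reducible_and_instances apply Int.le | with_reducible_and_instances apply Int.lt | with_reducible apply Int.all | with_reducible apply Int.ex | with_reducible apply IntF.fst | with_reducible apply IntF.snd | with_reducible apply IntF.app | with_reducible apply IntF.inl | with_reducible apply IntF.inr | with_reducible_and_instances apply IntF.mul | with_reducible_and_instances apply IntF.inv | with_reducible_and_instances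 apply IntF.add | with_reducible_and_instances apply IntF.sub | with_reducible_and_instances apply IntF.neg | with_reducible_and_instances apply IntF.smul | with_reducible apply Int.fin | with_reducible apply IntF.sep | with_reducible apply IntF.lam | with_reducible apply IntF.insert | with_reducible apply IntF.singleton | with_reducible apply IntF.union | with_reducible apply IntF.iimage | with_reducible apply IntF.ite | with_reducible apply IntF.the | with_reducible apply IntF.irec | with_reducible apply IntF.succ | with_reducible apply IntF.val | with_reducible apply IntF.mk | (with_reducible refine Int.comp ?_ ?_; assumption) | (with_reducible refine Int.comp₂ ?_ ?_ ?_; assumption) | (with_reducible refine Int.comp₃ ?_ ?_ ?_ ?_; assumption) | (with_reducible refine Int.comp₄ ?_ ?_ ?_ ?_ ?_; assumption) | (with_reducible refine IntF.comp ?_ ?_; assumption) | (with_reducible refine IntF.comp₂ ?_ ?_ ?_; assumption) | (with_reducible refine IntF.comp₃ ?_ ?_ ?_ ?_; assumption) | with_reducible apply IntF.pair))))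
    refine (rt_nb (h1 (rt m y) (rt_mem m y) ε hε)).rel.mono fun z _ hz => ?_
    have h5 : cl ε (f (rt m z)) (f (rt m y)) := cl_set.1 ((hm2 z).1 hz)
    exact cl_set.2 h5
  · rw [hm, h2]
    constructor
    · rintro ⟨h3, h4⟩
      exact ⟨⟨SS_sub h3, by rwa [rt_neg (mem_SS.1 h3)]⟩, h3⟩
    · rintro ⟨⟨-, h3⟩, h4⟩
      rw [rt_neg (mem_SS.1 h4)] at h3
      exact ⟨h4, h3⟩

theorem int_abs : IntF N (fun a : R => |a|) := by
  refine IntF.of_rel (r := fun a b => (0 ≤ a ∧ b = a) ∨ (a ≤ 0 ∧ b = -a)) (by ((repeat' (first | with_reducible exact IntF.id | with_reducible exact IntF.fst' | with_reducible exact IntF.snd' | with_reducible exact IntF.const _ | with_reducible exact Int.const _ | assumption | with_reducible apply Int.and | with_reducible apply Int.or | with_reducible apply Int.not | with_reducible apply Int.imp | with_reducible apply Int.iff | with_reducible apply Int.ne | with_reducible apply Int.eq | with_reducible apply Int.mem | with_reducible apply Int.subset | with_reducible apply Int.ltN | with_reducible apply Int.leN | with_reducible_and_instances apply Int.le | with_reducible_and_instances apply Int.lt | with_reducible apply Int.all | with_reducible apply Int.ex | with_reducible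 apply IntF.fst | with_reducible apply IntF.snd | with_reducible apply IntF.app | with_reducible apply IntF.inl | with_reducible apply IntF.inr | with_reducible_and_instances apply IntF.mul | with_reducible_and_instances apply IntF.inv | with_reducible_and_instances apply IntF.add | with_reducible_and_instances apply IntF.sub | with_reducible_and_instances apply IntF.neg | with_reducible_and_instances apply IntF.smul | with_reducible apply Int.fin | with_reducible apply IntF.sep | with_reducible apply IntF.lam | with_reducible apply IntF.insert | with_reducible apply IntF.singleton | with_reducible apply IntF.union | with_reducible apply IntF.iimage | with_reducible apply IntF.ite | with_reducible apply IntF.the | with_reducible apply IntF.irec | with_reducible apply IntF.succ | with_reducible apply IntF.val | with_reducible apply IntF.mk | (with_reducible refine Int.comp ?_ ?_; assumption) | (with_reducible refine Int.comp₂ ?_ ?_ ?_; assumption) | (with_reducible refine Int.comp₃ ?_ ?_ ?_ ?_; assumption) | (with_reducible refine Int.comp₄ ?_ ?_ ?_ ?_ ?_; assumption) | (with_reducible refine IntF.comp ?_ ?_; assumption) | (with_reducible refine IntF.comp₂ ?_ ?_ ?_; assumption) | (with_reducible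 refine IntF.comp₃ ?_ ?_ ?_ ?_; assumption) | with_reducible apply IntF.pair)))) fun a b => ?_
  constructor
  · rintro (⟨h, h'⟩ | ⟨h, h'⟩)
    · rw [h']
      exact abs_of_nonneg h
    · rw [h']
      exact abs_of_nonpos h
  · rintro rfl
    rcases le_total 0 a with h | h
    · exact Or.inl ⟨h, abs_of_nonneg h⟩
    · exact Or.inr ⟨h, abs_of_nonpos h⟩

theorem ZrP.inter {P Z W : IPow N (YY S)} (h : ZrP R P Z) (h' : ZrP R P W) :
    ZrP R P (Z ∩ W) := by
  obtain ⟨f, h1, h2⟩ := h
  obtain ⟨g, h3, h4⟩ := h'
  have ha := int_abs (N := N) (R := R)
  have hi : IntF N (fun z : YY S => |f z| + |g z|) := by ((repeat' (first | with_reducible exact IntF.id | with_reducible exact IntF.fst' | with_reducible exact IntF.snd' | with_reducible exact IntF.const _ | with_reducible exact Int.const _ | assumption | with_reducible apply Int.and | with_reducible apply Int.or | with_reducible apply Int.not | with_reducible apply Int.imp | with_reducible apply Int.iff | with_reducible apply Int.ne | with_reducible apply Int.eq | with_reducible apply Int.mem | with_reducible apply Int.subset | with_reducible apply Int.ltN | with_reducible apply Int.leN | with_reducible_and_instances apply Int.le | with_reducible_and_instances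 apply Int.lt | with_reducible apply Int.all | with_reducible apply Int.ex | with_reducible apply IntF.fst | with_reducible apply IntF.snd | with_reducible apply IntF.app | with_reducible apply IntF.inl | with_reducible apply IntF.inr | with_reducible_and_instances apply IntF.mul | with_reducible_and_instances apply IntF.inv | with_reducible_and_instances apply IntF.add | with_reducible_and_instances apply IntF.sub | with_reducible_and_instances apply IntF.neg | with_reducible_and_instances apply IntF.smul | with_reducible apply Int.fin | with_reducible apply IntF.sep | with_reducible apply IntF.lam | with_reducible apply IntF.insert | with_reducible apply IntF.singleton | with_reducible apply IntF.union | with_reducible apply IntF.iimage | with_reducible apply IntF.ite | with_reducible apply IntF.the | with_reducible apply IntF.irec | with_reducible apply IntF.succ | with_reducible apply IntF.val | with_reducible apply IntF.mk | (with_reducible refine Int.comp ?_ ?_; assumption) | (with_reducible refine Int.comp₂ ?_ ?_ ?_; assumption) | (with_reducible refine Int.comp₃ ?_ ?_ ?_ ?_; assumption) | (with_reducible refine Int.comp₄ ?_ ?_ ?_ ?_ ?_; assumption) | (with_reducible refine IntF.comp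 ?_ ?_; assumption) | (with_reducible refine IntF.comp₂ ?_ ?_ ?_; assumption) | (with_reducible refine IntF.comp₃ ?_ ?_ ?_ ?_; assumption) | with_reducible apply IntF.pair)))
  refine ⟨⟨_, hi⟩, fun y hy ε hε => ?_, fun y => ?_⟩
  · refine ((h1 y hy (ε / 2) (half_pos hε)).inter (h3 y hy (ε / 2) (half_pos hε))).mono
      fun z _ hz => cl_set.2 (cl_iff.2 ?_)
    obtain ⟨h5, h6⟩ := mem_inter.1 hz
    have h7 := cl_iff.1 (cl_set.1 h5)
    have h8 := cl_iff.1 (cl_set.1 h6)
    have h9 := abs_abs_sub_abs_le_abs_sub (f z) (f y)
    have h10 := abs_abs_sub_abs_le_abs_sub (g z) (g y)
    have h11 := abs_add_le (|f z| - |f y|) (|g z| - |g y|)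
    change |(|f z| + |g z|) - (|f y| + |g y|)| < ε
    have h12 : (|f z| + |g z|) - (|f y| + |g y|) = (|f z| - |f y|) + (|g z| - |g y|) := by ring
    rw [h12]
    linarith
  · rw [mem_inter, h2, h4]
    change _ ↔ y ∈ P ∧ |f y| + |g y| = 0
    constructor
    · rintro ⟨⟨h5, h6⟩, -, h7⟩
      exact ⟨h5, by simp [h6, h7]⟩
    · rintro ⟨h5, h6⟩
      have h7 := abs_nonneg (f y)
      have h8 := abs_nonneg (g y)
      exact ⟨⟨h5, abs_eq_zero.1 (by linarith)⟩, h5, abs_eq_zero.1 (by linarith)⟩

open Classical in
/-- Two-valued functions. -/
noncomputable def tw (C : IPow N (YY S)) (y : YY S) : R := if y ∈ C then 0 else 1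

theorem int_tw (C : IPow N (YY S)) : IntF N (fun y => (tw C y : R)) := by
  unfold tw
  ((repeat' (first | with_reducible exact IntF.id | with_reducible exact IntF.fst' | with_reducible exact IntF.snd' | with_reducible exact IntF.const _ | with_reducible exact Int.const _ | assumption | with_reducible apply Int.and | with_reducible apply Int.or | with_reducible apply Int.not | with_reducible apply Int.imp | with_reducible apply Int.iff | with_reducible apply Int.ne | with_reducible apply Int.eq | with_reducible apply Int.mem | with_reducible apply Int.subset | with_reducible apply Int.ltN | with_reducible apply Int.leN | with_reducible_and_instances apply Int.le | with_reducible_and_instances apply Int.lt | with_reducible apply Int.all | with_reducible apply Int.ex | with_reducible apply IntF.fst | with_reducible apply IntF.snd | with_reducible apply IntF.app | with_reducible apply IntF.inl | with_reducible apply IntF.inr | with_reducible_and_instances apply IntF.mul | with_reducible_and_instances apply IntF.inv | with_reducible_and_instances apply IntF.add | with_reducible_and_instances apply IntF.sub | with_reducible_and_instances apply IntF.neg | with_reducible_and_instances apply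 IntF.smul | with_reducible apply Int.fin | with_reducible apply IntF.sep | with_reducible apply IntF.lam | with_reducible apply IntF.insert | with_reducible apply IntF.singleton | with_reducible apply IntF.union | with_reducible apply IntF.iimage | with_reducible apply IntF.ite | with_reducible apply IntF.the | with_reducible apply IntF.irec | with_reducible apply IntF.succ | with_reducible apply IntF.val | with_reducible apply IntF.mk | (with_reducible refine Int.comp ?_ ?_; assumption) | (with_reducible refine Int.comp₂ ?_ ?_ ?_; assumption) | (with_reducible refine Int.comp₃ ?_ ?_ ?_ ?_; assumption) | (with_reducible refine Int.comp₄ ?_ ?_ ?_ ?_ ?_; assumption) | (with_reducible refine IntF.comp ?_ ?_; assumption) | (with_reducible refine IntF.comp₂ ?_ ?_ ?_; assumption) | (with_reducible refine IntF.comp₃ ?_ ?_ ?_ ?_; assumption) | with_reducible apply IntF.pair)))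

theorem tw_ct {C : IPow N (YY S)} (h : Clp C) : CtY (⟨_, int_tw C⟩ : IFun N (YY S) R) := by
  intro y ε hε
  by_cases hy : y ∈ C
  · refine (h.1 y hy).mono fun z hz => cl_set.2 ?_
    change cl ε (tw C z) (tw C y)
    unfold tw
    rw [if_pos hy, if_pos hz]
    exact cl_self hε
  · refine (h.2 y (mem_icompl.2 hy)).mono fun z hz => cl_set.2 ?_
    change cl ε (tw C z) (tw C y)
    unfold tw
    rw [if_neg hy, if_neg (mem_icompl.1 hz)]
    exact cl_self hε

/-- Complete regularity. -/
theorem exists_sep {P : IPow N (YY S)} {y : YY S} {U : IPow N (YY S)} (h : NbR P y U) :
    ∃ f : IFun N (YY S) R, CtY f ∧ (∀ z, 0 ≤ f z ∧ f z ≤ 1) ∧ f y = 0 ∧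
      ∀ z, z ∈ P → ¬ z ∈ U → f z = 1 := by
  obtain ⟨C, hC, hy, hs⟩ := exists_clopen h
  refine ⟨_, tw_ct hC, fun z => ?_, ?_, fun z hz hzU => ?_⟩
  · change 0 ≤ tw C z ∧ tw C z ≤ 1
    unfold tw
    split_ifs
    · exact ⟨le_rfl, zero_le_one⟩
    · exact ⟨zero_le_one, le_rfl⟩
  · change tw C y = 0
    unfold tw
    exact if_pos hy
  · change tw C z = 1
    unfold tw
    exact if_neg fun h1 => hzU (nbR_set.1 (hs z h1) hz)

variable (N R) in
/-- A sequence of positive numbers with limit zero. -/
def QS : Prop := ∃ q : INat N → R, IntF N q ∧ (∀ n, 0 < q n) ∧
  (∀ m n, m ≤ n → q n ≤ q m) ∧ ∀ ε, 0 < ε → ∃ n, q n < ε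

/-- The intersection of a decreasing sequence of clopen sets is a zero set. -/
theorem exists_zero (hq : QS N R) {D : INat N → IPow N (YY S)} (hDi : IntF N D)
    (hD : ∀ n, Clp (D n)) (hdec : ∀ n y, y ∈ D n.succ → y ∈ D n) :
    ∃ f : IFun N (YY S) R, CtY f ∧ ∀ y, f y = 0 ↔ ∀ n, y ∈ D n := by
  obtain ⟨q, hqi, qpos, qanti, qlim⟩ := hq
  have hmon : ∀ (y : YY S) (m : INat N), ∀ n, m ≤ n → y ∈ D n → y ∈ D m := by
    intro y m
    refine INat.ind (p := fun n : INat N => m ≤ n → y ∈ D n → y ∈ D m) (by ((repeat' (first | with_reducible exact IntF.id | with_reducible exact IntF.fst' | with_reducible exact IntF.snd' | with_reducible exact IntF.const _ | with_reducible exact Int.const _ | assumption | with_reducible apply Int.and | with_reducible apply Int.or | with_reducible apply Int.not | with_reducible apply Int.imp | with_reducible apply Int.iff | with_reducible apply Int.ne | with_reducible apply Int.eq | with_reducible apply Int.mem | with_reducible apply Int.subset | with_reducible apply Int.ltN | with_reducible apply Int.leN | with_reducible_and_instances apply Int.le | with_reducible_and_instances apply Int.lt | with_reducible apply Int.all | with_reducible apply Int.ex | with_reducible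 apply IntF.fst | with_reducible apply IntF.snd | with_reducible apply IntF.app | with_reducible apply IntF.inl | with_reducible apply IntF.inr | with_reducible_and_instances apply IntF.mul | with_reducible_and_instances apply IntF.inv | with_reducible_and_instances apply IntF.add | with_reducible_and_instances apply IntF.sub | with_reducible_and_instances apply IntF.neg | with_reducible_and_instances apply IntF.smul | with_reducible apply Int.fin | with_reducible apply IntF.sep | with_reducible apply IntF.lam | with_reducible apply IntF.insert | with_reducible apply IntF.singleton | with_reducible apply IntF.union | with_reducible apply IntF.iimage | with_reducible apply IntF.ite | with_reducible apply IntF.the | with_reducible apply IntF.irec | with_reducible apply IntF.succ | with_reducible apply IntF.val | with_reducible apply IntF.mk | (with_reducible refine Int.comp ?_ ?_; assumption) | (with_reducible refine Int.comp₂ ?_ ?_ ?_; assumption) | (with_reducible refine Int.comp₃ ?_ ?_ ?_ ?_; assumption) | (with_reducible refine Int.comp₄ ?_ ?_ ?_ ?_ ?_; assumption) | (with_reducible refine IntF.comp ?_ ?_; assumption) | (with_reducible refine IntF.comp₂ ?_ ?_ ?_; assumption) | (with_reducible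 refine IntF.comp₃ ?_ ?_ ?_ ?_; assumption) | with_reducible apply IntF.pair)))) (fun h h1 => ?_)
      fun n ih h h1 => ?_
    · rwa [le_antisymm h (INat.zero_le m)]
    · rcases h.lt_or_eq with h | rfl
      · exact ih (INat.lt_succ_iff.1 h) (hdec n y h1)
      · exact h1
  have hi : IntF N (fun y : YY S => the (fun r : R => ∃ n, ¬ y ∈ D n ∧ (∀ k, k < n → y ∈ D k) ∧
      r = q n) 0) := by ((repeat' (first | with_reducible exact IntF.id | with_reducible exact IntF.fst' | with_reducible exact IntF.snd' | with_reducible exact IntF.const _ | with_reducible exact Int.const _ | assumption | with_reducible apply Int.and | with_reducible apply Int.or | with_reducible apply Int.not | with_reducible apply Int.imp | with_reducible apply Int.iff | with_reducible apply Int.ne | with_reducible apply Int.eq | with_reducible apply Int.mem | with_reducible apply Int.subset | with_reducible apply Int.ltN | with_reducible apply Int.leN | with_reducible_and_instances apply Int.le | with_reducible_and_instances apply Int.lt | with_reducible apply Int.all | with_reducible apply Int.ex | with_reducible apply IntF.fst | with_reducible apply IntF.snd | with_reducible apply IntF.app | with_reducible apply IntF.inl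 | with_reducible apply IntF.inr | with_reducible_and_instances apply IntF.mul | with_reducible_and_instances apply IntF.inv | with_reducible_and_instances apply IntF.add | with_reducible_and_instances apply IntF.sub | with_reducible_and_instances apply IntF.neg | with_reducible_and_instances apply IntF.smul | with_reducible apply Int.fin | with_reducible apply IntF.sep | with_reducible apply IntF.lam | with_reducible apply IntF.insert | with_reducible apply IntF.singleton | with_reducible apply IntF.union | with_reducible apply IntF.iimage | with_reducible apply IntF.ite | with_reducible apply IntF.the | with_reducible apply IntF.irec | with_reducible apply IntF.succ | with_reducible apply IntF.val | with_reducible apply IntF.mk | (with_reducible refine Int.comp ?_ ?_; assumption) | (with_reducible refine Int.comp₂ ?_ ?_ ?_; assumption) | (with_reducible refine Int.comp₃ ?_ ?_ ?_ ?_; assumption) | (with_reducible refine Int.comp₄ ?_ ?_ ?_ ?_ ?_; assumption) | (with_reducible refine IntF.comp ?_ ?_; assumption) | (with_reducible refine IntF.comp₂ ?_ ?_ ?_; assumption) | (with_reducible refine IntF.comp₃ ?_ ?_ ?_ ?_; assumption) | with_reducible apply IntF.pair)))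
  have h0 : ∀ y : YY S, (∀ n, y ∈ D n) → the (fun r : R => ∃ n, ¬ y ∈ D n ∧
      (∀ k, k < n → y ∈ D k) ∧ r = q n) 0 = 0 := by
    intro y hy
    unfold the
    rw [dif_neg]
    rintro ⟨r, ⟨n, h1, -⟩, -⟩
    exact h1 (hy n)
  have h1 : ∀ (y : YY S) n, ¬ y ∈ D n → (∀ k, k < n → y ∈ D k) → the (fun r : R => ∃ n, ¬ y ∈ D n ∧
      (∀ k, k < n → y ∈ D k) ∧ r = q n) 0 = q n := by
    intro y n h1 h2
    refine the_eq ⟨q n, ⟨n, h1, h2, rfl⟩, ?_⟩ ⟨n, h1, h2, rfl⟩
    rintro r ⟨n', h3, h4, rfl⟩
    have h5 : n' = n := le_antisymm (not_lt.1 fun h => h1 (h4 n h)) (not_lt.1 fun h => h3 (h2 n' h))
    rw [h5]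
  have hcase : ∀ y : YY S, (∀ n, y ∈ D n) ∨ ∃ n, ¬ y ∈ D n ∧ ∀ k, k < n → y ∈ D k := by
    intro y
    by_cases h : ∀ n, y ∈ D n
    · exact Or.inl h
    · push Not at h
      obtain ⟨n, h2, h3⟩ := INat.exists_least (p := fun n => ¬ y ∈ D n) (by ((repeat' (first | with_reducible exact IntF.id | with_reducible exact IntF.fst' | with_reducible exact IntF.snd' | with_reducible exact IntF.const _ | with_reducible exact Int.const _ | assumption | with_reducible apply Int.and | with_reducible apply Int.or | with_reducible apply Int.not | with_reducible apply Int.imp | with_reducible apply Int.iff | with_reducible apply Int.ne | with_reducible apply Int.eq | with_reducible apply Int.mem | with_reducible apply Int.subset | with_reducible apply Int.ltN | with_reducible apply Int.leN | with_reducible_and_instances apply Int.le | with_reducible_and_instances apply Int.lt | with_reducible apply Int.all | with_reducible apply Int.ex | with_reducible apply IntF.fst | with_reducible apply IntF.snd | with_reducible apply IntF.app | with_reducible apply IntF.inl | with_reducible apply IntF.inr | with_reducible_and_instances apply IntF.mul | with_reducible_and_instances apply IntF.inv | with_reducible_and_instances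 apply IntF.add | with_reducible_and_instances apply IntF.sub | with_reducible_and_instances apply IntF.neg | with_reducible_and_instances apply IntF.smul | with_reducible apply Int.fin | with_reducible apply IntF.sep | with_reducible apply IntF.lam | with_reducible apply IntF.insert | with_reducible apply IntF.singleton | with_reducible apply IntF.union | with_reducible apply IntF.iimage | with_reducible apply IntF.ite | with_reducible apply IntF.the | with_reducible apply IntF.irec | with_reducible apply IntF.succ | with_reducible apply IntF.val | with_reducible apply IntF.mk | (with_reducible refine Int.comp ?_ ?_; assumption) | (with_reducible refine Int.comp₂ ?_ ?_ ?_; assumption) | (with_reducible refine Int.comp₃ ?_ ?_ ?_ ?_; assumption) | (with_reducible refine Int.comp₄ ?_ ?_ ?_ ?_ ?_; assumption) | (with_reducible refine IntF.comp ?_ ?_; assumption) | (with_reducible refine IntF.comp₂ ?_ ?_ ?_; assumption) | (with_reducible refine IntF.comp₃ ?_ ?_ ?_ ?_; assumption) | with_reducible apply IntF.pair)))) h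
      refine Or.inr ⟨n, h2, fun k hk => ?_⟩
      by_contra h4
      exact absurd (h3 k h4) (not_le.2 hk)
  generalize hgen : (fun y : YY S => the (fun r : R => ∃ n, ¬ y ∈ D n ∧ (∀ k, k < n → y ∈ D k) ∧
      r = q n) 0) = f at hi
  have h0' : ∀ y : YY S, (∀ n, y ∈ D n) → f y = 0 := fun y hy => by
    rw [← hgen]
    exact h0 y hy
  have h1' : ∀ (y : YY S) n, ¬ y ∈ D n → (∀ k, k < n → y ∈ D k) → f y = q n := fun y n h2 h3 => by
    rw [← hgen]
    exact h1 y n h2 h3
  refine ⟨⟨f, hi⟩, fun y ε hε => ?_, fun y => ?_⟩
  · rcases hcase y with hy | ⟨n, h2, h3⟩
    · obtain ⟨n, hn⟩ := qlim ε hε
      refine ((hD n).1 y (hy n)).mono fun z hz => cl_set.2 ?_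
      change cl ε (f z) (f y)
      rw [h0' y hy, cl_iff, sub_zero]
      rcases hcase z with hz' | ⟨k, h4, h5⟩
      · rw [h0' z hz']
        simpa using hε
      · rw [h1' z k h4 h5, abs_of_pos (qpos k)]
        have h6 : n ≤ k := by
          by_contra hc
          exact h4 (hmon z k n (not_le.1 hc).le hz)
        exact lt_of_le_of_lt (qanti n k h6) hn
    · have hK : ∃ O : IPow N (YY S), Nb y O ∧ ∀ z, z ∈ O → ∀ k, k < n → z ∈ D k := by
        rcases INat.eq_zero_or_succ n with rfl | ⟨m, rfl⟩
        · exact ⟨iuniv N (YY S), isT_univ y (by simp), fun z _ k hk => absurd hk INat.not_lt_zero⟩
        · exact ⟨D m, (hD m).1 y (h3 m (INat.lt_succ_self m)), fun z hz k hk =>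
            hmon z k m (INat.lt_succ_iff.1 hk) hz⟩
      obtain ⟨O, hO, hO'⟩ := hK
      refine (hO.inter ((hD n).2 y (mem_icompl.2 h2))).mono fun z hz => cl_set.2 ?_
      obtain ⟨h4, h5⟩ := mem_inter.1 hz
      change cl ε (f z) (f y)
      rw [h1' y n h2 h3, h1' z n (mem_icompl.1 h5) (hO' z h4)]
      exact cl_self hε
  · change f y = 0 ↔ _
    rcases hcase y with hy | ⟨n, h2, h3⟩
    · exact ⟨fun _ => hy, fun _ => h0' y hy⟩
    · rw [h1' y n h2 h3]
      exact ⟨fun h => absurd h (qpos n).ne', fun h => absurd (h n) h2⟩

end reals

end Pool.Agent.Helper672.ZFA.R602
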